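import Pool.Agent.Lib.MP_32d917_al.NDefs
import Pool.Agent.Lib.MP_32d917_al.GPRES

/-!
# Presentations of fundamental groups given by codes, n trees
-/

set_option autoImplicit false

namespace LatN

open LatIso

/-- the presentation -/
def NGPRES_f (y : Code × ℕ × ℕ) : Pres :=
  let nI := y.1.1.1
  let nP := y.1.1.2.1
  let nA := y.1.1.2.2
  let t := y.1.2
  (nA + 1,
    ((List.range (nA + 1)).map fun a => [(a, true), (GPRES_d nA t.2.2.1 a, true)]) ++
    (((List.range ((nA + 1) * (nA + 1))).map fun j =>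
        if GPRES_d nP t.2.1 (j / (nA + 1)) = GPRES_d nP t.2.1 (j % (nA + 1)) then
          (if GPRES_d nI t.1 (j / (nA + 1)) = GPRES_d nI t.1 (j % (nA + 1)) then [] else
          [(j / (nA + 1), true), (GPRES_d nA t.2.2.2 (j % (nA + 1) * (nA + 1) + j / (nA + 1)), true),
            (GPRES_d nA t.2.2.2 j, false), (j % (nA + 1), false)])
        else []) ++
    ((List.range (nP + 1)).map fun q => if q = y.2.1 % (nP + 1) then [] else
        [(GPRES_d nA y.2.2 q, true)])))

theorem NGPRES_prim : Primrec NGPRES_f := by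
  have hnI : Primrec fun y : Code × ℕ × ℕ => y.1.1.1 :=
    Primrec.fst.comp (Primrec.fst.comp Primrec.fst)
  have hnP : Primrec fun y : Code × ℕ × ℕ => y.1.1.2.1 :=
    Primrec.fst.comp (Primrec.snd.comp (Primrec.fst.comp Primrec.fst))
  have hnA : Primrec fun y : Code × ℕ × ℕ => y.1.1.2.2 :=
    Primrec.snd.comp (Primrec.snd.comp (Primrec.fst.comp Primrec.fst))
  have ht : Primrec fun y : Code × ℕ × ℕ => y.1.2 := Primrec.snd.comp Primrec.fst
  have ht1 : Primrec fun y : Code × ℕ × ℕ => y.1.2.1 := Primrec.fst.comp ht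
  have ht2 : Primrec fun y : Code × ℕ × ℕ => y.1.2.2.1 := Primrec.fst.comp (Primrec.snd.comp ht)
  have ht3 : Primrec fun y : Code × ℕ × ℕ => y.1.2.2.2.1 :=
    Primrec.fst.comp (Primrec.snd.comp (Primrec.snd.comp ht))
  have ht4 : Primrec fun y : Code × ℕ × ℕ => y.1.2.2.2.2 :=
    Primrec.snd.comp (Primrec.snd.comp (Primrec.snd.comp ht))
  have hp : Primrec fun y : Code × ℕ × ℕ => y.2.1 := Primrec.fst.comp Primrec.snd
  have hd : Primrec fun y : Code × ℕ × ℕ => y.2.2 := Primrec.snd.comp Primrec.snd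
  have hA1 := Primrec.succ.comp hnA
  have hP1 := Primrec.succ.comp hnP
  have hnil : ∀ {α : Type} [Primcodable α], Primrec fun _ : α => ([] : List (ℕ × Bool)) :=
    Primrec.const _
  have htr : ∀ {α : Type} [Primcodable α], Primrec fun _ : α => true := Primrec.const _
  have hfa : ∀ {α : Type} [Primcodable α], Primrec fun _ : α => false := Primrec.const _
  unfold NGPRES_f
  refine Primrec.pair hA1 (Primrec.list_append.comp ?_ (Primrec.list_append.comp ?_ ?_))
  · refine Primrec.list_map (Primrec.list_range.comp hA1) ?_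
    refine Primrec.list_cons.comp (Primrec.pair Primrec.snd htr)
      (Primrec.list_cons.comp (Primrec.pair ?_ htr) hnil)
    exact GPRES_dc (hnA.comp Primrec.fst) (ht3.comp Primrec.fst) Primrec.snd
  · refine Primrec.list_map (Primrec.list_range.comp (Primrec.nat_mul.comp hA1 hA1)) ?_
    have ha : Primrec fun z : (Code × ℕ × ℕ) × ℕ => z.2 / (z.1.1.1.2.2 + 1) :=
      Primrec.nat_div.comp Primrec.snd (hA1.comp Primrec.fst)
    have hb : Primrec fun z : (Code × ℕ × ℕ) × ℕ => z.2 % (z.1.1.1.2.2 + 1) :=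
      Primrec.nat_mod.comp Primrec.snd (hA1.comp Primrec.fst)
    have hc : Primrec fun z : (Code × ℕ × ℕ) × ℕ =>
        z.2 % (z.1.1.1.2.2 + 1) * (z.1.1.1.2.2 + 1) + z.2 / (z.1.1.1.2.2 + 1) :=
      Primrec.nat_add.comp (Primrec.nat_mul.comp hb (hA1.comp Primrec.fst)) ha
    refine Primrec.ite ?_ (Primrec.ite ?_ hnil ?_) hnil
    · exact Primrec.eq.comp (GPRES_dc (hnP.comp Primrec.fst) (ht2.comp Primrec.fst) ha)
        (GPRES_dc (hnP.comp Primrec.fst) (ht2.comp Primrec.fst) hb)
    · exact Primrec.eq.comp (GPRES_dc (hnI.comp Primrec.fst) (ht1.comp Primrec.fst) ha)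
        (GPRES_dc (hnI.comp Primrec.fst) (ht1.comp Primrec.fst) hb)
    · refine Primrec.list_cons.comp (Primrec.pair ha htr)
        (Primrec.list_cons.comp (Primrec.pair ?_ htr)
        (Primrec.list_cons.comp (Primrec.pair ?_ hfa)
        (Primrec.list_cons.comp (Primrec.pair hb hfa) hnil)))
      · exact GPRES_dc (hnA.comp Primrec.fst) (ht4.comp Primrec.fst) hc
      · exact GPRES_dc (hnA.comp Primrec.fst) (ht4.comp Primrec.fst) Primrec.snd
  · refine Primrec.list_map (Primrec.list_range.comp hP1) ?_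
    refine Primrec.ite ?_ hnil (Primrec.list_cons.comp (Primrec.pair ?_ htr) hnil)
    · exact Primrec.eq.comp Primrec.snd (Primrec.nat_mod.comp (hp.comp Primrec.fst)
        (hP1.comp Primrec.fst))
    · exact GPRES_dc (hnA.comp Primrec.fst) (hd.comp Primrec.fst) Primrec.snd

/-- the presentation of the fundamental group given by a code, base point and spanning tree -/
theorem ngam_pres : ∃ f : Code × ℕ × ℕ → Pres, Primrec f ∧
    ∀ (x : Code) (p d : ℕ), Nonempty ((f (x, p, d)).Grp ≃*
      Gam (dec x.1 x.2) (decp x.1 p) (decd x.1 d)) := by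
  refine ⟨NGPRES_f, NGPRES_prim, ?_⟩
  intro x p d
  obtain ⟨⟨nI, nP, nA⟩, t1, t2, t3, t4⟩ := x
  refine GPRES_iso (nA + 1) (Equiv.refl (Fin (nA + 1))) _ _ ?_ ?_
  · intro r hr
    cases hr with
    | inv a =>
      exact ⟨_, List.mem_append_left _ (List.mem_map.2 ⟨(a : ℕ), List.mem_range.2 a.2, rfl⟩), rfl⟩
    | sq a b h hab =>
      have hj : (a : ℕ) * (nA + 1) + (b : ℕ) < (nA + 1) * (nA + 1) := by
        have h1 := a.2
        have h2 := b.2
        have : ((a : ℕ) + 1) * (nA + 1) ≤ (nA + 1) * (nA + 1) := Nat.mul_le_mul_right _ h1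
        nlinarith
      have hdiv : ((a : ℕ) * (nA + 1) + (b : ℕ)) / (nA + 1) = a := by
        rw [mul_comm, Nat.mul_add_div (Nat.succ_pos nA), Nat.div_eq_of_lt b.2, add_zero]
      have hmod : ((a : ℕ) * (nA + 1) + (b : ℕ)) % (nA + 1) = b := by
        rw [mul_comm, Nat.mul_add_mod, Nat.mod_eq_of_lt b.2]
      refine ⟨_, List.mem_append_right _ (List.mem_append_left _
        (List.mem_map.2 ⟨(a : ℕ) * (nA + 1) + (b : ℕ), List.mem_range.2 hj, rfl⟩)), ?_⟩
      have hc : GPRES_d nP t2 a = GPRES_d nP t2 b := congrArg Fin.val h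
      have hc' : ¬ GPRES_d nI t1 a = GPRES_d nI t1 b := fun h' => hab (Fin.ext h')
      rw [hdiv, hmod, if_pos hc, if_neg hc']
      rfl
    | span q h =>
      refine ⟨_, List.mem_append_right _ (List.mem_append_right _
        (List.mem_map.2 ⟨(q : ℕ), List.mem_range.2 q.2, rfl⟩)), ?_⟩
      have hq : ¬ (q : ℕ) = p % (nP + 1) := by
        intro h'
        exact h (Fin.ext h')
      simp only [hq, if_false]
      rfl
  · intro w hw
    rcases List.mem_append.1 hw with hw | hw
    · obtain ⟨a, ha, rfl⟩ := List.mem_map.1 hw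
      right
      exact ⟨_, Rel.inv ⟨a, List.mem_range.1 ha⟩, rfl⟩
    rcases List.mem_append.1 hw with hw | hw
    · obtain ⟨j, hj, rfl⟩ := List.mem_map.1 hw
      have hj := List.mem_range.1 hj
      change j < (nA + 1) * (nA + 1) at hj
      have ha : j / (nA + 1) < nA + 1 := by
        rw [Nat.div_lt_iff_lt_mul (Nat.succ_pos nA)]
        exact hj
      have hb : j % (nA + 1) < nA + 1 := Nat.mod_lt _ (Nat.succ_pos nA)
      have hjj : j / (nA + 1) * (nA + 1) + j % (nA + 1) = j := by
        rw [mul_comm]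
        exact Nat.div_add_mod j (nA + 1)
      by_cases hc : GPRES_d nP t2 (j / (nA + 1)) = GPRES_d nP t2 (j % (nA + 1))
      · by_cases hc' : GPRES_d nI t1 (j / (nA + 1)) = GPRES_d nI t1 (j % (nA + 1))
        · left
          rw [if_pos hc, if_pos hc']
        · right
          have hoo : (dec (nI, nP, nA) (t1, t2, t3, t4)).o ⟨_, ha⟩ =
            (dec (nI, nP, nA) (t1, t2, t3, t4)).o ⟨_, hb⟩ := Fin.ext hc
          have hty : (dec (nI, nP, nA) (t1, t2, t3, t4)).ty ⟨_, ha⟩ ≠
            (dec (nI, nP, nA) (t1, t2, t3, t4)).ty ⟨_, hb⟩ := fun h => hc' (congrArg Fin.val h)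
          refine ⟨_, Rel.sq ⟨_, ha⟩ ⟨_, hb⟩ hoo hty, ?_⟩
          have e2 : (((dec (nI, nP, nA) (t1, t2, t3, t4)).tr ⟨_, ha⟩ ⟨_, hb⟩ :
              Fin (nA + 1)) : ℕ) = GPRES_d nA t4 j := by
            conv_rhs => rw [← hjj]
            rfl
          rw [if_pos hc, if_neg hc', ← e2]
          rfl
      · left
        rw [if_neg hc]
    · obtain ⟨q, hq, rfl⟩ := List.mem_map.1 hw
      have hq := List.mem_range.1 hq
      change q < nP + 1 at hq
      by_cases hc : q = p % (nP + 1)
      · left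
        exact if_pos hc
      · right
        have hc' : (⟨q, hq⟩ : Fin (nP + 1)) ≠ decp (nI, nP, nA) p := by
          intro h'
          exact hc (congrArg Fin.val h')
        refine ⟨_, Rel.span ⟨q, hq⟩ hc', ?_⟩
        simp only [hc, if_false]
        rfl

end LatN
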