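import Pool.Agent.Lib.MP_32d917_al.NDefs
import Pool.Agent.Lib.MP_32d917_al.TTL

/-!
# Transport on a product of trees
-/

set_option autoImplicit false

namespace LatN

open LatIso

section NTTL

variable {ι : Type} [DecidableEq ι] {V : ι → Type} {S : ∀ i, SimpleGraph (V i)}

/-- connectedness of the product, finitely many coordinates at a time -/
theorem NTTL_ind (hS : ∀ i, (S i).Connected) (P : (∀ i, V i) → Prop) (x0 : ∀ i, V i)
    (h0 : P x0) (hs : ∀ x i y, (S i).Adj (x i) y → P x → P (Function.update x i y))
    (J : Finset ι) : ∀ x : ∀ i, V i, (∀ i, i ∉ J → x i = x0 i) → P x := by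
  induction J using Finset.induction_on with
  | empty =>
    intro x hx
    have : x = x0 := funext fun i => hx i (Finset.notMem_empty i)
    rw [this]
    exact h0
  | insert k J hk ih =>
    intro x hx
    have h1 : P (Function.update x k (x0 k)) := by
      apply ih
      intro i hi
      by_cases hik : i = k
      · subst hik
        rw [Function.update_self]
      · rw [Function.update_of_ne hik]
        exact hx i (by simp [hik, hi])
    have h2 : ∀ v, P (Function.update x k v) := by
      refine ttl_ind (hS k) (fun v => P (Function.update x k v)) (x0 k) h1 ?_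
      intro v v' hv hP
      have h3 := hs (Function.update x k v) k v' (by rw [Function.update_self]; exact hv) hP
      rwa [Function.update_idem] at h3
    have h3 := h2 (x k)
    rwa [Function.update_eq_self] at h3

theorem NTTL_tp {Y : Type} (hS : ∀ i, (S i).IsTree) (Q : (∀ i, V i) → Y → Prop)
    (ph : (∀ i, V i) → (i : ι) → V i → Y → Y)
    (h1 : ∀ x i y s, (S i).Adj (x i) y → Q x s → Q (Function.update x i y) (ph x i y s))
    (h2 : ∀ x i y s, (S i).Adj (x i) y → Q x s →
      ph (Function.update x i y) i (x i) (ph x i y s) = s)
    (h3 : ∀ x i y j z s, i ≠ j → (S i).Adj (x i) y → (S j).Adj (x j) z → Q x s →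
      ph (Function.update x i y) j z (ph x i y s) = ph (Function.update x j z) i y (ph x j z s))
    (x0 : ∀ i, V i) (s0 : Y) (h0 : Q x0 s0) (J : Finset ι) :
    ∃ f : (∀ i, V i) → Y, f x0 = s0 ∧ (∀ x, (∀ i, i ∉ J → x i = x0 i) → Q x (f x)) ∧
      ∀ x i y, i ∈ J → (∀ j, j ∉ J → x j = x0 j) → (S i).Adj (x i) y →
        f (Function.update x i y) = ph x i y (f x) := by
  classical
  induction J using Finset.induction_on with
  | empty =>
    refine ⟨fun _ => s0, rfl, ?_, ?_⟩
    · intro x hx
      have : x = x0 := funext fun i => hx i (Finset.notMem_empty i)
      rw [this]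
      exact h0
    · intro x i y hi
      exact absurd hi (Finset.notMem_empty i)
  | insert k J hk ih =>
    obtain ⟨f, hf0, hfQ, hfr⟩ := ih
    -- transport along the `k`-th tree
    have key : ∀ b : ∀ i, V i, ∃ G : V k → Y, (∀ i, i ∉ J → b i = x0 i) →
        G (x0 k) = f b ∧ (∀ v, Q (Function.update b k v) (G v)) ∧
        ∀ v v', (S k).Adj v v' → G v' = ph (Function.update b k v) k v' (G v) := by
      intro b
      by_cases hb : ∀ i, i ∉ J → b i = x0 i
      · have hbk : b k = x0 k := hb k hk
        have hbu : Function.update b k (x0 k) = b := by
          rw [← hbk, Function.update_eq_self]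
        obtain ⟨G, hG0, hG1, hG2⟩ := ttl (hS k) (fun v s => Q (Function.update b k v) s)
          (fun v v' s => ph (Function.update b k v) k v' s)
          (fun v v' s hv hQ => by
            have h4 := h1 (Function.update b k v) k v' s
              (by rw [Function.update_self]; exact hv) hQ
            rwa [Function.update_idem] at h4)
          (fun v v' s hv hQ => by
            have h4 := h2 (Function.update b k v) k v' s
              (by rw [Function.update_self]; exact hv) hQ
            rwa [Function.update_idem, Function.update_self] at h4)
          (x0 k) (f b) (by simp only [hbu]; exact hfQ b hb)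
        exact ⟨G, fun _ => ⟨hG0, hG1, hG2⟩⟩
      · exact ⟨fun _ => s0, fun h => absurd h hb⟩
    choose G hG using key
    have hbase : ∀ x : ∀ i, V i, (∀ i, i ∉ insert k J → x i = x0 i) →
        ∀ i, i ∉ J → Function.update x k (x0 k) i = x0 i := by
      intro x hx i hi
      by_cases hik : i = k
      · subst hik
        rw [Function.update_self]
      · rw [Function.update_of_ne hik]
        exact hx i (by simp [hik, hi])
    refine ⟨fun x => G (Function.update x k (x0 k)) (x k), ?_, ?_, ?_⟩
    · simp only [Function.update_eq_self]
      rw [(hG x0 (fun _ _ => rfl)).1, hf0]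
    · intro x hx
      have h4 := (hG _ (hbase x hx)).2.1 (x k)
      rwa [Function.update_idem, Function.update_eq_self] at h4
    · intro x i y hi hx hy
      by_cases hik : i = k
      · subst hik
        simp only [Function.update_idem, Function.update_self]
        have h4 := (hG _ (hbase x hx)).2.2 (x i) y hy
        rw [Function.update_idem, Function.update_eq_self] at h4
        exact h4
      · have hiJ : i ∈ J := by
          rcases Finset.mem_insert.mp hi with h | h
          · exact absurd h hik
          · exact h
        set b := Function.update x k (x0 k) with hb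
        have hbJ := hbase x hx
        have hbi : b i = x i := by rw [hb, Function.update_of_ne hik]
        have hb' : Function.update (Function.update x i y) k (x0 k) = Function.update b i y := by
          rw [hb, Function.update_comm hik]
        have hb'J : ∀ j, j ∉ J → Function.update b i y j = x0 j := by
          intro j hj
          have hji : j ≠ i := fun h => hj (h ▸ hiJ)
          rw [Function.update_of_ne hji]
          exact hbJ j hj
        have hGb := hG b hbJ
        have hGb' := hG (Function.update b i y) hb'J
        have hmain : ∀ v, G (Function.update b i y) v =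
            ph (Function.update b k v) i y (G b v) := by
          refine ttl_ind (hS k).connected (fun v => G (Function.update b i y) v =
            ph (Function.update b k v) i y (G b v)) (x0 k) ?_ ?_
          · have hbu : Function.update b k (x0 k) = b := by
              rw [hb, Function.update_idem]
            rw [hGb'.1, hbu, hGb.1, hfr b i y hiJ hbJ (by rw [hbi]; exact hy)]
          · intro v v' hv hIH
            rw [hGb'.2.2 v v' hv, hIH, hGb.2.2 v v' hv]
            have h4 : Function.update (Function.update b i y) k v =
                Function.update (Function.update b k v) i y := Function.update_comm hik _ _ _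
            rw [h4]
            have h5 := h3 (Function.update b k v) i y k v' (G b v) hik
              (by rw [Function.update_of_ne hik, hbi]; exact hy)
              (by rw [Function.update_self]; exact hv) (hGb.2.1 v)
            rw [h5, Function.update_idem]
        have hxk : Function.update x i y k = x k := Function.update_of_ne (Ne.symm hik) _ _
        simp only []
        rw [hb', hxk, hmain (x k)]
        have h6 : Function.update b k (x k) = x := by
          rw [hb, Function.update_idem, Function.update_eq_self]
        rw [h6]

end NTTL

section NTTL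

variable {ι : Type} [Fintype ι] [DecidableEq ι] {V : ι → Type} {S : ∀ i, SimpleGraph (V i)}

theorem nttl {Y : Type} (hS : ∀ i, (S i).IsTree) (Q : (∀ i, V i) → Y → Prop)
    (ph : (∀ i, V i) → (i : ι) → V i → Y → Y)
    (h1 : ∀ x i y s, (S i).Adj (x i) y → Q x s → Q (Function.update x i y) (ph x i y s))
    (h2 : ∀ x i y s, (S i).Adj (x i) y → Q x s →
      ph (Function.update x i y) i (x i) (ph x i y s) = s)
    (h3 : ∀ x i y j z s, i ≠ j → (S i).Adj (x i) y → (S j).Adj (x j) z → Q x s →
      ph (Function.update x i y) j z (ph x i y s) = ph (Function.update x j z) i y (ph x j z s))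
    (x0 : ∀ i, V i) (s0 : Y) (h0 : Q x0 s0) :
    ∃ f : (∀ i, V i) → Y, f x0 = s0 ∧ (∀ x, Q x (f x)) ∧
      ∀ x i y, (S i).Adj (x i) y → f (Function.update x i y) = ph x i y (f x) := by
  obtain ⟨f, hf0, hf1, hf2⟩ := NTTL_tp hS Q ph h1 h2 h3 x0 s0 h0 Finset.univ
  exact ⟨f, hf0, fun x => hf1 x fun i hi => absurd (Finset.mem_univ i) hi,
    fun x i y hy => hf2 x i y (Finset.mem_univ i) (fun j hj => absurd (Finset.mem_univ j) hj) hy⟩

/-- connectedness of the product -/
theorem n_induct (hS : ∀ i, (S i).Connected) (P : (∀ i, V i) → Prop) (x0 : ∀ i, V i)
    (h0 : P x0) (hs : ∀ x i y, (S i).Adj (x i) y → P x → P (Function.update x i y)) (x : ∀ i, V i) :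
    P x :=
  NTTL_ind hS P x0 h0 hs Finset.univ x fun i hi => absurd (Finset.mem_univ i) hi

end NTTL

end LatN
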