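import Pool.Agent.Lib.MP_32d917_al.NDefs
import Pool.Agent.Lib.MP_32d917_al.LATB1
import Pool.Agent.Lib.MP_32d917_al.LATB2

/-!
# From lattices in products of trees to single trees
-/

set_option autoImplicit false

namespace LatN

open LatIso

theorem ncinv_orbit {G : Type} [Group G] {V : Type} [MulAction G V] {S : SimpleGraph V}
    (hS : TA G S) (loc : ∀ v, (S.neighborSet v).Finite) (v v' : V) :
    (Set.range fun k : MulAction.stabilizer G v => (k : G) • v').Finite := by
  refine (latb1_ball hS.tree.connected loc v (S.dist v v')).subset ?_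
  rintro _ ⟨k, rfl⟩
  simp only [Set.mem_ofPred_eq]
  have h1 : (k : G) • v = v := k.2
  have h2 := ta_dist hS (k : G) v v'
  rw [h1] at h2
  exact h2.le

/-- (1.9) -/
theorem ncinv_gen {G : Type} [Group G] {V W : Type} [MulAction G V] [MulAction G W]
    {S : SimpleGraph V} (hS : TA G S) (loc : ∀ v, (S.neighborSet v).Finite)
    (free : ∀ (g : G) (v : V) (w : W), g • v = v → g • w = w → g = 1)
    (fin : ∀ v : V, ∃ F : Finset W, ∀ w : W, ∃ k ∈ MulAction.stabilizer G v, k • w ∈ F) (w : W)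
    (v x : V) (g : G)
    (h : ∀ k : G, k • v = v → k • x = x → k • g • v = g • v ∧ k • g • x = g • x) :
    ∀ k : G, k • g • v = g • v → k • g • x = g • x → k • v = v ∧ k • x = x := by
  classical
  -- `H = stab v ∩ stab x`
  let H : Subgroup G := MulAction.stabilizer G v ⊓ MulAction.stabilizer G x
  have memH : ∀ k : G, k ∈ H ↔ k • v = v ∧ k • x = x := fun k => by
    rw [Subgroup.mem_inf, MulAction.mem_stabilizer_iff, MulAction.mem_stabilizer_iff]
  let st : Setoid W := ⟨fun a b => ∃ k : G, k ∈ H ∧ k • a = b,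
    fun a => ⟨1, H.one_mem, one_smul _ _⟩,
    fun {a b} ⟨k, hk, hab⟩ => ⟨k⁻¹, H.inv_mem hk, by rw [← hab, inv_smul_smul]⟩,
    fun {a b c} ⟨k, hk, hab⟩ ⟨k', hk', hbc⟩ => ⟨k' * k, H.mul_mem hk' hk, by
      rw [mul_smul, hab, hbc]⟩⟩
  -- finitely many `H`-orbits on `W`
  have hfin : Finite (Quotient st) := by
    obtain ⟨F, hF⟩ := fin v
    choose κ hκ1 hκ2 using hF
    have hO := ncinv_orbit hS loc v x
    let Of : Finset V := hO.toFinset
    let φ : Quotient st → W × V := fun q => (κ q.out • q.out, κ q.out • x)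
    have hφ : ∀ q, φ q ∈ F ×ˢ Of := by
      intro q
      refine Finset.mem_product.2 ⟨hκ2 _, ?_⟩
      rw [Set.Finite.mem_toFinset]
      exact ⟨⟨κ q.out, hκ1 _⟩, rfl⟩
    have hinj : Function.Injective φ := by
      intro q q' hq
      have h1 : κ q.out • q.out = κ q'.out • q'.out := congrArg Prod.fst hq
      have h2 : κ q.out • x = κ q'.out • x := congrArg Prod.snd hq
      rw [← Quotient.out_eq q, ← Quotient.out_eq q']
      refine Quotient.sound ⟨(κ q'.out)⁻¹ * κ q.out, ?_, ?_⟩
      · rw [memH, mul_smul, mul_smul, h2, inv_smul_smul]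
        refine ⟨?_, rfl⟩
        have h3 : κ q.out • v = v := hκ1 q.out
        have h4 : κ q'.out • v = v := hκ1 q'.out
        rw [h3, inv_smul_eq_iff, h4]
      · rw [mul_smul, h1, inv_smul_smul]
    exact Finite.of_injective (fun q => (⟨φ q, hφ q⟩ : {y // y ∈ F ×ˢ Of}))
      fun q q' hq => hinj (congrArg Subtype.val hq)
  -- the map `w ↦ g⁻¹ w` on orbits
  let e : Quotient st → Quotient st := Quotient.map (fun w => g⁻¹ • w) (by
    rintro a b ⟨k, hk, hab⟩
    have h1 := h k ((memH k).1 hk).1 ((memH k).1 hk).2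
    refine ⟨g⁻¹ * k * g, ?_, ?_⟩
    · rw [memH, mul_smul, mul_smul, mul_smul, mul_smul, h1.1, h1.2, inv_smul_smul, inv_smul_smul]
      exact ⟨rfl, rfl⟩
    · rw [← hab, mul_smul, mul_smul, smul_inv_smul])
  have hsurj : Function.Surjective e := by
    intro q
    induction q using Quotient.inductionOn with
    | h w => exact ⟨⟦g • w⟧, by simp [e]⟩
  have hinj : Function.Injective e := Finite.injective_iff_surjective.2 hsurj
  intro k hk1 hk2
  -- `w` and `k w` are in one `H`-orbit
  have h1 : (⟦w⟧ : Quotient st) = ⟦k • w⟧ := by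
    apply hinj
    refine Quotient.sound ⟨g⁻¹ * k * g, ?_, ?_⟩
    · rw [memH, mul_smul, mul_smul, mul_smul, mul_smul, hk1, hk2, inv_smul_smul, inv_smul_smul]
      exact ⟨rfl, rfl⟩
    · rw [mul_smul, mul_smul, smul_inv_smul]
  obtain ⟨l, hl, hlw⟩ := Quotient.exact h1
  have h2 := h l ((memH l).1 hl).1 ((memH l).1 hl).2
  have h3 : l⁻¹ * k = 1 := by
    refine free _ (g • v) w ?_ ?_
    · rw [mul_smul, hk1, inv_smul_eq_iff]
      exact h2.1.symm
    · rw [mul_smul, ← hlw, inv_smul_smul]
  have h4 : k = l := by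
    rw [inv_mul_eq_one] at h3
    exact h3.symm
  rw [h4]
  exact (memH l).1 hl

variable {G : Type} [Group G] {ι : Type} [Fintype ι] [DecidableEq ι] {V : ι → Type}
  [∀ i, MulAction G (V i)] {S : ∀ i, SimpleGraph (V i)}

theorem ncinv_pt (L : NLat G S) : Nonempty (∀ i, V i) :=
  ⟨fun i => (L.leafless i).three.choose⟩

/-- finitely many orbits of the pointwise stabilizer of a set of coordinates -/
theorem stabJ_fin (L : NLat G S) (x : ∀ i, V i) (J : Finset ι) :
    ∃ F : Finset (∀ i, V i), ∀ y : ∀ i, V i, (∀ i ∈ J, y i = x i) →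
      ∃ k : G, (∀ i ∈ J, k • x i = x i) ∧ (fun i => k • y i) ∈ F := by
  classical
  obtain ⟨F, hF⟩ := L.fin
  -- for every `z` in `F` a group element moving `z i` to `x i` for `i ∈ J`, if possible
  let h : (∀ i, V i) → G := fun z => if hz : ∃ k : G, ∀ i ∈ J, k • z i = x i then hz.choose else 1
  have hh : ∀ z : ∀ i, V i, (∃ k : G, ∀ i ∈ J, k • z i = x i) → ∀ i ∈ J, h z • z i = x i := by
    intro z hz
    simp only [h, dif_pos hz]
    exact hz.choose_spec
  refine ⟨F.image fun z => fun i => h z • z i, fun y hy => ?_⟩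
  obtain ⟨g, hg⟩ := hF y
  have h1 := hh (fun i => g • y i) ⟨g⁻¹, fun i hi => by rw [inv_smul_smul]; exact hy i hi⟩
  refine ⟨h (fun i => g • y i) * g, ?_, ?_⟩
  · intro i hi
    have h2 := h1 i hi
    rw [mul_smul, ← hy i hi, h2, hy i hi]
  · refine Finset.mem_image.2 ⟨_, hg, ?_⟩
    funext i
    rw [mul_smul]

/-- `stabOff x i` acts freely on `V i` -/
theorem stabOff_free (L : NLat G S) (x : ∀ i, V i) (i : ι) :
    ∀ k ∈ stabOff G x i, ∀ v : V i, k • v = v → k = 1 := by
  intro k hk v hv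
  refine L.free k (Function.update x i v) fun j => ?_
  by_cases hj : j = i
  · subst hj
    rw [Function.update_self]
    exact hv
  · rw [Function.update_of_ne hj]
    exact hk j hj

theorem stabOff_fin (L : NLat G S) (x : ∀ i, V i) (i : ι) :
    ∃ F : Finset (V i), ∀ v : V i, ∃ k ∈ stabOff G x i, k • v ∈ F := by
  classical
  obtain ⟨F, hF⟩ := stabJ_fin L x (Finset.univ.erase i)
  refine ⟨F.image fun z => z i, fun v => ?_⟩
  obtain ⟨k, hk, hk'⟩ := hF (Function.update x i v) (fun j hj => by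
    rw [Function.update_of_ne (Finset.ne_of_mem_erase hj)])
  refine ⟨k, fun j hj => hk j (Finset.mem_erase.2 ⟨hj, Finset.mem_univ _⟩), ?_⟩
  refine Finset.mem_image.2 ⟨_, hk', ?_⟩
  simp

theorem nlat_tlat (L : NLat G S) (i : ι) : TLat G (S i) := by
  classical
  obtain ⟨x⟩ := ncinv_pt L
  refine ⟨L.ta i, L.loc i, ?_, ?_⟩
  · obtain ⟨F, hF⟩ := L.fin
    refine ⟨F.image fun z => z i, fun v => ?_⟩
    obtain ⟨g, hg⟩ := hF (Function.update x i v)
    refine ⟨g, Finset.mem_image.2 ⟨_, hg, ?_⟩⟩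
    simp
  · refine ncinv_gen (W := ∀ l : {l // l ≠ i}, V l) (L.ta i) (L.loc i) ?_ ?_ (fun l => x l)
    · intro g v w hv hw
      refine L.free g (fun j => if hj : j = i then hj ▸ v else w ⟨j, hj⟩) fun j => ?_
      by_cases hj : j = i
      · subst hj
        simpa using hv
      · simp only [dif_neg hj]
        exact congrFun hw ⟨j, hj⟩
    · intro v
      obtain ⟨F, hF⟩ := stabJ_fin L (Function.update x i v) {i}
      refine ⟨F.image fun z => fun l : {l // l ≠ i} => z l, fun w => ?_⟩
      obtain ⟨k, hk, hk'⟩ := hF (fun j => if hj : j = i then hj ▸ v else w ⟨j, hj⟩) (fun j hj => by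
        rw [Finset.mem_singleton] at hj
        subst hj
        simp)
      have h1 := hk i (Finset.mem_singleton_self i)
      rw [Function.update_self] at h1
      refine ⟨k, h1, Finset.mem_image.2 ⟨_, hk', ?_⟩⟩
      funext l
      simp only [dif_neg l.2]
      rfl

end LatN
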