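import Pool.Agent.Lib.MP_32d917_al.NDefs
import Pool.Agent.Lib.MP_32d917_al.LATB1
import Pool.Agent.Lib.MP_32d917_al.LATB2
import Pool.Agent.Lib.MP_32d917_al.FIX

/-!
# Single trees: basic facts
-/

set_option autoImplicit false

namespace LatN

open LatIso

variable {G : Type} [Group G] {V U : Type} [MulAction G V] [MulAction G U] {S : SimpleGraph V}
  {R : SimpleGraph U}

theorem torbit_fin (L : TLat G S) (v v' : V) :
    (Set.range fun k : MulAction.stabilizer G v => (k : G) • v').Finite := by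
  refine (latb1_ball L.ta.tree.connected L.loc v (S.dist v v')).subset ?_
  rintro _ ⟨k, rfl⟩
  simp only [Set.mem_ofPred_eq]
  have h1 : (k : G) • v = v := k.2
  have h2 := ta_dist L.ta (k : G) v v'
  rw [h1] at h2
  exact h2.le

/-- (1.8) -/
theorem tpow_fix (L : TLat G S) (v v' : V) (g : G) (hg : g • v = v) :
    ∃ m : ℕ, 0 < m ∧ g ^ m • v' = v' := by
  have h1 : (Set.range fun n : ℕ => g ^ n • v').Finite := by
    refine (torbit_fin L v v').subset ?_
    rintro _ ⟨n, rfl⟩
    have h2 : g ^ n ∈ MulAction.stabilizer G v :=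
      Subgroup.pow_mem _ (by rw [MulAction.mem_stabilizer_iff]; exact hg) n
    exact ⟨⟨g ^ n, h2⟩, rfl⟩
  have h2 : ¬ Function.Injective fun n : ℕ => g ^ n • v' := by
    intro h3
    exact Set.infinite_range_of_injective h3 h1
  rw [Function.Injective] at h2
  push Not at h2
  obtain ⟨i, j, h3, h4⟩ := h2
  wlog hij : i < j generalizing i j
  · exact this j i h3.symm (Ne.symm h4) (lt_of_le_of_ne (not_lt.1 hij) (Ne.symm h4))
  refine ⟨j - i, Nat.sub_pos_of_lt hij, ?_⟩
  have h5 : g ^ j = g ^ i * g ^ (j - i) := by rw [← pow_add]; congr 1; omega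
  rw [h5, mul_smul] at h3
  exact (MulAction.injective (g ^ i) h3).symm

/-- ellipticity of a subgroup passes to a subgroup in which it has finite index, in the following
form: `H` fixes a vertex of `U`, and every `K`-orbit of a point of the `G`-set `X` fixed by `H` is
finite, where the stabilizer of the point in `K` is contained in `H` -/
theorem ell_of_finite_orbit (hR : TA G R) (H K : Subgroup G) {X : Type} [MulAction G X] (x : X)
    (hx : (Set.range fun k : K => (k : G) • x).Finite) (h1 : ∀ k ∈ K, k • x = x → k ∈ H)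
    (h2 : ∃ u : U, ∀ k ∈ H, k • u = u) : ∃ u : U, ∀ k ∈ K, k • u = u := by
  classical
  obtain ⟨u, hu⟩ := h2
  have h3 : (Set.range fun k : K => (k : G) • u).Finite := by
    -- the orbit of `u` is an image of the orbit of `x`
    let f : X → U := fun y => if hy : ∃ k : K, (k : G) • x = y then
      ((hy.choose : K) : G) • u else u
    refine (hx.image f).subset ?_
    rintro _ ⟨k, rfl⟩
    refine ⟨(k : G) • x, ⟨k, rfl⟩, ?_⟩
    have hy : ∃ k' : K, (k' : G) • x = (k : G) • x := ⟨k, rfl⟩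
    simp only [f, dif_pos hy]
    have h3 := hy.choose_spec
    have h4 : ((k : G)⁻¹ * (hy.choose : G)) • x = x := by
      rw [mul_smul, h3, inv_smul_smul]
    have h5 := hu _ (h1 _ (K.mul_mem (K.inv_mem k.2) hy.choose.2) h4)
    rw [mul_smul, inv_smul_eq_iff] at h5
    exact h5
  exact fix_of_finite hR K u h3


/-- every vertex lies in every invariant nonempty convex set -/
theorem tmin (L : TLat G S) (hl : Leafless S) (C : Set V) (hC : Cvx S C) (h0 : C.Nonempty)
    (hG : ∀ (g : G), ∀ x ∈ C, g • x ∈ C) (x : V) : x ∈ C := by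
  classical
  by_contra hx
  -- distance to `C`
  let δ : V → ℕ := fun y => sInf (Set.range fun c : C => S.dist y c)
  have hne : ∀ y, (Set.range fun c : C => S.dist y c).Nonempty := by
    intro y
    obtain ⟨c, hc⟩ := h0
    exact ⟨_, ⟨⟨c, hc⟩, rfl⟩⟩
  have hδ1 : ∀ y, ∃ c ∈ C, S.dist y c = δ y := by
    intro y
    obtain ⟨c, hc⟩ := Nat.sInf_mem (hne y)
    exact ⟨c.1, c.2, hc⟩
  have hδ2 : ∀ y, ∀ c ∈ C, δ y ≤ S.dist y c := by
    intro y c hc
    exact Nat.sInf_le ⟨⟨c, hc⟩, rfl⟩
  have hδG : ∀ (g : G) y, δ (g • y) ≤ δ y := by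
    intro g y
    obtain ⟨c, hc, h1⟩ := hδ1 y
    rw [← h1, ← ta_dist L.ta g y c]
    exact hδ2 _ _ (hG g c hc)
  -- a vertex of maximal distance
  obtain ⟨F, hF⟩ := L.fin
  have hFne : F.Nonempty := by
    obtain ⟨k, hk⟩ := hF x
    exact ⟨_, hk⟩
  obtain ⟨m, _, hm⟩ := Finset.exists_max_image F δ hFne
  have hmax : ∀ y, δ y ≤ δ m := by
    intro y
    obtain ⟨k, hk⟩ := hF y
    have h1 := hδG k⁻¹ (k • y)
    rw [inv_smul_smul] at h1
    exact h1.trans (hm _ hk)
  have hmC : m ∉ C := by
    intro h1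
    have h2 : δ m ≤ 0 := by
      have h3 := hδ2 m m h1
      rwa [SimpleGraph.dist_self] at h3
    obtain ⟨c, hc, h3⟩ := hδ1 x
    have h4 := hmax x
    have h5 : S.dist x c = 0 := by omega
    have h6 : x = c := (L.ta.tree.connected.dist_eq_zero_iff).1 h5
    exact hx (h6 ▸ hc)
  obtain ⟨c, hc, h1⟩ := hδ1 m
  -- a neighbour `y` of `m` farther from `c`
  obtain ⟨y, hy, hyc⟩ : ∃ y, S.Adj m y ∧ S.dist y c = S.dist m c + 1 := by
    obtain ⟨y, z, hyz, hy, hz⟩ := hl.two m
    by_contra hno
    push Not at hno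
    have key : ∀ t, S.Adj m t → Bt S m t c := by
      intro t ht
      have h2 : S.dist m t = 1 := SimpleGraph.dist_eq_one_iff_adj.2 ht
      have h3 := hno t ht
      unfold Bt
      rcases st_adj L.ta.tree ht c with h4 | h4
      · rw [SimpleGraph.dist_comm, SimpleGraph.dist_comm (u := c) (v := m)] at h4
        omega
      · rw [SimpleGraph.dist_comm, SimpleGraph.dist_comm (u := c) (v := t)] at h4
        omega
    exact hyz (st_uniq L.ta.tree hy hz (key y hy) (key z hz))
  obtain ⟨c', hc', h2⟩ := hδ1 y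
  have h3 := hmax y
  have h4 := hδ2 m c' hc'
  have hmy : S.dist m y = 1 := SimpleGraph.dist_eq_one_iff_adj.2 hy
  have h5 : Bt S m y c' := by
    unfold Bt
    rcases st_adj L.ta.tree hy c' with h6 | h6
    · rw [SimpleGraph.dist_comm, SimpleGraph.dist_comm (u := c') (v := m)] at h6
      omega
    · rw [SimpleGraph.dist_comm, SimpleGraph.dist_comm (u := c') (v := y)] at h6
      omega
  rcases st_bt L.ta.tree h5 c with h6 | h6
  · unfold Bt at h6
    omega
  · -- `m` lies between `c'` and `c`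
    refine hmC (hC c' hc' c hc m ?_)
    unfold Bt at h5 h6 ⊢
    rw [SimpleGraph.dist_comm (u := c') (v := m)]
    rw [SimpleGraph.dist_comm (u := c') (v := y)] at h6
    omega

theorem tlat_transport (L : TLat G S) (f : U ≃ V) (hf : ∀ (g : G) (u : U), f (g • u) = g • f u) :
    TLat G (S.comap f) := by
  classical
  have hd : ∀ (g : G) (u : U), g • u = f.symm (g • f u) := fun g u => by
    rw [← hf, Equiv.symm_apply_apply]
  have heq : ∀ (g : G) (u u' : U), g • u = u' ↔ g • f u = f u' := fun g u u' => by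
    rw [← hf, f.apply_eq_iff_eq]
  refine ⟨⟨?_, ?_, ?_⟩, ?_, ?_, ?_⟩
  · exact (SimpleGraph.Iso.comap f S).isTree_iff.mpr L.ta.tree
  · intro g x y h
    rw [SimpleGraph.comap_adj] at h ⊢
    rw [hf, hf]
    exact L.ta.adj g _ _ h
  · intro g x y h h1 h2
    rw [SimpleGraph.comap_adj] at h
    rw [heq] at h1 h2
    exact L.ta.noinv g _ _ h h1 h2
  · intro v
    have h1 : (S.comap f).neighborSet v = f ⁻¹' (S.neighborSet (f v)) := by
      ext y
      simp
    rw [h1]
    exact (L.loc (f v)).preimage f.injective.injOn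
  · obtain ⟨F, hF⟩ := L.fin
    refine ⟨F.image f.symm, fun v => ?_⟩
    obtain ⟨g, hg⟩ := hF (f v)
    refine ⟨g, Finset.mem_image.2 ⟨_, hg, ?_⟩⟩
    rw [← hf, Equiv.symm_apply_apply]
  · intro v x g h k hk1 hk2
    rw [heq] at hk1 hk2 ⊢
    rw [heq k x x]
    rw [hf] at hk1 hk2
    refine L.cinv (f v) (f x) g ?_ k hk1 hk2
    intro k' hk3 hk4
    have h5 := h k' ((heq _ _ _).2 hk3) ((heq _ _ _).2 hk4)
    rw [heq, heq, hf, hf] at h5
    exact h5

end LatN
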