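import Pool.Agent.Lib.MP_32d917_al.LEME
import Pool.Agent.Lib.MP_32d917_al.N.NS1

/-!
# Some translate of an axis meets the axis in a finite set
-/

set_option autoImplicit false

namespace LatN

open LatIso

variable {G : Type} [Group G] {V : Type} [MulAction G V] {S : SimpleGraph V}

/-- all translates of the axis contain a positive ray: the axis is invariant -/
theorem ns2_aux (L : TLat G S) (hl : Leafless S) (k : G) (hk : 0 < tl S k) (b : ℤ → V)
    (hb1 : ∀ i j, S.dist (b i) (b j) = (i - j).natAbs)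
    (hb2 : ∀ i, k • b i = b (i + tl S k)) (hb3 : ∀ x, x ∈ CC S k ↔ ∃ i, b i = x)
    (hP : ∀ x : G, ∃ i0 : ℤ, ∀ i, i0 ≤ i → b i ∈ CC S (x * k * x⁻¹)) : False := by
  have h := L.ta
  have hmem : ∀ (x : G) (i : ℤ), b i ∈ CC S (x * k * x⁻¹) ↔ x⁻¹ • b i ∈ CC S k := by
    intro x i
    rw [← cc_conj h x k, smul_inv_smul]
  -- it suffices to show that all translates contain the axis
  have hsuff : (∀ (x : G) (m : ℤ), b m ∈ CC S (x * k * x⁻¹)) → False := by
    intro hall
    have hinv : ∀ (g : G), ∀ x ∈ CC S k, g • x ∈ CC S k := by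
      intro g x hx
      obtain ⟨m, rfl⟩ := (hb3 x).mp hx
      have := (hmem g⁻¹ m).mp (hall g⁻¹ m)
      rwa [inv_inv] at this
    have hmin := tmin L hl (CC S k) (cc_cvx h k) (cc_nonempty h k) hinv
    obtain ⟨v, x, y, z, hxy, hyz, hxz, hvx, hvy, hvz⟩ := hl.three
    obtain ⟨i, rfl⟩ := (hb3 v).mp (hmin v)
    obtain ⟨j1, rfl⟩ := (hb3 x).mp (hmin x)
    obtain ⟨j2, rfl⟩ := (hb3 y).mp (hmin y)
    obtain ⟨j3, rfl⟩ := (hb3 z).mp (hmin z)
    rw [← SimpleGraph.dist_eq_one_iff_adj, hb1] at hvx hvy hvz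
    have n1 : j1 ≠ j2 := fun h => hxy (by rw [h])
    have n2 : j2 ≠ j3 := fun h => hyz (by rw [h])
    have n3 : j1 ≠ j3 := fun h => hxz (by rw [h])
    omega
  -- the two types
  have htype : ∀ x : G, (∃ i0 c : ℤ, ∀ i, i0 ≤ i → x • b i = b (i + c)) ∨
      (∃ i0 c : ℤ, ∀ i, i0 ≤ i → x • b i = b (c - i)) := by
    intro x
    obtain ⟨i0, hi0⟩ := hP x⁻¹
    have hs : ∀ i, i0 ≤ i → ∃ s, b s = x • b i := by
      intro i hi
      have := (hmem x⁻¹ i).mp (hi0 i hi)
      rw [inv_inv] at this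
      exact (hb3 _).mp this
    obtain ⟨a, ha⟩ := hs i0 le_rfl
    obtain ⟨a', ha'⟩ := hs (i0 + 1) (by omega)
    have haa : (a - a').natAbs = 1 := by
      rw [← hb1, ha, ha', ta_dist h, hb1]; omega
    have hgen : ∀ i, i0 + 1 ≤ i → ∃ s, b s = x • b i ∧ (a - s).natAbs = (i0 - i).natAbs ∧
        (a' - s).natAbs = (i0 + 1 - i).natAbs := by
      intro i hi
      obtain ⟨s, hs'⟩ := hs i (by omega)
      refine ⟨s, hs', ?_, ?_⟩
      · rw [← hb1, ha, hs', ta_dist h, hb1]
      · rw [← hb1, ha', hs', ta_dist h, hb1]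
    rcases (show a' = a + 1 ∨ a' = a - 1 by omega) with h' | h'
    · refine Or.inl ⟨i0, a - i0, fun i hi => ?_⟩
      rcases hi.eq_or_lt with rfl | hi
      · rw [← ha]; congr 1; omega
      · obtain ⟨s, e1, e2, e3⟩ := hgen i (by omega)
        rw [← e1]; congr 1; omega
    · refine Or.inr ⟨i0, a + i0, fun i hi => ?_⟩
      rcases hi.eq_or_lt with rfl | hi
      · rw [← ha]; congr 1; omega
      · obtain ⟨s, e1, e2, e3⟩ := hgen i (by omega)
        rw [← e1]; congr 1; omega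
  by_cases hA : ∃ y : G, ∃ i0 c : ℤ, ∀ i, i0 ≤ i → y • b i = b (c - i)
  · obtain ⟨y, i0, c, hy⟩ := hA
    apply hsuff
    intro z m
    have hM : ∃ j0 : ℤ, ∀ j, j ≤ j0 → b j ∈ CC S (z * k * z⁻¹) := by
      obtain ⟨i1, hi1⟩ := hP (y⁻¹ * z)
      refine ⟨c - max i0 i1, fun j hj => ?_⟩
      have h1 := (hmem _ _).mp (hi1 (c - j) (by omega))
      have h2 : (y⁻¹ * z)⁻¹ • b (c - j) = z⁻¹ • b j := by
        rw [mul_inv_rev, inv_inv, mul_smul, hy (c - j) (by omega)]
        congr 2; omega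
      rw [h2] at h1
      exact (hmem z j).mpr h1
    obtain ⟨j0, hj0⟩ := hM
    obtain ⟨i1, hi1⟩ := hP z
    exact leme_cvx hb1 (cc_cvx h _) (hj0 (min j0 m) (by omega)) (hi1 (max i1 m) (by omega))
      (by omega) (by omega)
  · push Not at hA
    have hB : ∀ x : G, ∃ i0 c : ℤ, ∀ i, i0 ≤ i → x • b i = b (i + c) := by
      intro x
      rcases htype x with h' | ⟨i0, c, h'⟩
      · exact h'
      · obtain ⟨i, hi, hne⟩ := hA x i0 c
        exact absurd (h' i hi) hne
    -- stabilizers increase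
    have hup : ∀ (x : G) (j : ℤ), x • b j = b j → ∀ m, j ≤ m → x • b m = b m := by
      intro x j hxj m hm
      obtain ⟨i0, c, hx⟩ := hB x
      have hfix : ∀ i, max i0 (j + c.natAbs) ≤ i → j ≤ i → x • b i = b i := by
        intro i hi hji
        have h1 := hx i (by omega)
        have h2 : (j - (i + c)).natAbs = (j - i).natAbs := by
          rw [← hb1, ← hb1, ← h1]
          conv_lhs => rw [← hxj]
          exact ta_dist h x _ _
        rw [h1]; congr 1; omega
      set i := max m (max i0 (j + c.natAbs)) with hi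
      have hxi := hfix i (by omega) (by omega)
      have q1 : Bt S (b j) (b m) (b i) := by
        show S.dist _ _ + S.dist _ _ = S.dist _ _
        rw [hb1, hb1, hb1]; omega
      have q2 : Bt S (b j) (x • b m) (b i) := by
        show S.dist _ _ + S.dist _ _ = S.dist _ _
        have e1 : S.dist (b j) (x • b m) = S.dist (b j) (b m) := by
          conv_lhs => rw [← hxj]
          exact ta_dist h x _ _
        have e2 : S.dist (x • b m) (b i) = S.dist (b m) (b i) := by
          conv_lhs => rw [← hxi]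
          exact ta_dist h x _ _
        rw [e1, e2]; exact q1
      refine st_pt_uniq h.tree q2 q1 ?_
      conv_lhs => rw [← hxj]
      exact ta_dist h x _ _
    have hdown1 : ∀ (x : G) (j : ℤ), x • b (j + tl S k) = b (j + tl S k) → x • b j = b j := by
      intro x j hx
      have := L.cinv (b j) (b j) k (fun y hy _ => by
        have h1 := hup y j hy (j + tl S k) (by omega)
        rw [hb2]
        exact ⟨h1, h1⟩) x (by rw [hb2]; exact hx) (by rw [hb2]; exact hx)
      exact this.1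
    have hdown : ∀ (x : G) (j : ℤ), x • b j = b j → ∀ n : ℕ, x • b (j - n * tl S k) =
        b (j - n * tl S k) := by
      intro x j hx n
      induction n with
      | zero => simpa using hx
      | succ n ih =>
        apply hdown1
        have e : j - (n + 1 : ℕ) * (tl S k : ℤ) + tl S k = j - n * tl S k := by push_cast; ring
        rw [e]; exact ih
    have hfixall : ∀ (x : G) (j : ℤ), x • b j = b j → ∀ m, x • b m = b m := by
      intro x j hx m
      refine hup x _ (hdown x j hx (j - m).natAbs) m ?_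
      have : (1 : ℤ) ≤ tl S k := by exact_mod_cast hk
      nlinarith [Int.natCast_nonneg (j - m).natAbs, le_abs_self (j - m), Int.natCast_natAbs (j - m)]
    apply hsuff
    intro x m
    obtain ⟨i0, c, hx⟩ := hB x⁻¹
    have hlarge : ∀ i, i0 ≤ i → (x * k * x⁻¹) • b i = b (i + tl S k) := by
      intro i hi
      rw [mul_smul, hx i hi, mul_smul, hb2]
      have h1 := hx (i + tl S k) (by omega)
      rw [inv_smul_eq_iff] at h1
      have e : i + c + (tl S k : ℤ) = i + tl S k + c := by ring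
      rw [e, ← h1]
    have hn : ∀ m, (k⁻¹ * (x * k * x⁻¹)) • b m = b m := by
      apply hfixall _ i0
      rw [mul_smul, hlarge i0 le_rfl, ← hb2, inv_smul_smul]
    have hm : (x * k * x⁻¹) • b m = b (m + tl S k) := by
      have := hn m
      rw [mul_smul, inv_smul_eq_iff, hb2] at this
      exact this
    show S.dist (b m) ((x * k * x⁻¹) • b m) = tl S (x * k * x⁻¹)
    rw [hm, tl_conj h, hb1]
    omega

/-- (3.1) -/
theorem tlemE (L : TLat G S) (h2 : Leafless S) (k : G) (hk : 0 < tl S k) :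
    ∃ x : G, (CC S (x * k * x⁻¹) ∩ CC S k).Finite := by
  by_contra hcon
  push Not at hcon
  have hinf : ∀ x : G, (CC S (x * k * x⁻¹) ∩ CC S k).Infinite := hcon
  have h := L.ta
  obtain ⟨b, hb1, hb2, hb3⟩ := tl_line h k hk
  have hmem : ∀ (x : G) (y : V), y ∈ CC S (x * k * x⁻¹) ↔ x⁻¹ • y ∈ CC S k := by
    intro x y
    rw [← cc_conj h x k, smul_inv_smul]
  have hPM : ∀ x : G, (∃ i0 : ℤ, ∀ i, i0 ≤ i → b i ∈ CC S (x * k * x⁻¹)) ∨
      (∃ i0 : ℤ, ∀ i, i ≤ i0 → b i ∈ CC S (x * k * x⁻¹)) := fun x =>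
    leme_ray hb1 (fun y => hb3 y) (cc_cvx h _) (hinf x)
  by_cases hP : ∀ x : G, ∃ i0 : ℤ, ∀ i, i0 ≤ i → b i ∈ CC S (x * k * x⁻¹)
  · exact ns2_aux L h2 k hk b hb1 hb2 hb3 hP
  by_cases hM : ∀ x : G, ∃ i0 : ℤ, ∀ i, i ≤ i0 → b i ∈ CC S (x * k * x⁻¹)
  · refine ns2_aux L h2 k⁻¹ (by rw [tl_inv h]; exact hk) (fun i => b (-i)) (fun i j => ?_)
      (fun i => ?_) (fun x => ?_) (fun x => ?_)
    · rw [hb1]; omega
    · rw [tl_inv h, inv_smul_eq_iff, hb2]; congr 1; omega
    · rw [cc_inv h, hb3]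
      constructor
      · rintro ⟨i, hi⟩; exact ⟨-i, by simpa using hi⟩
      · rintro ⟨i, hi⟩; exact ⟨-i, hi⟩
    · obtain ⟨i0, hi0⟩ := hM x
      refine ⟨-i0, fun i hi => ?_⟩
      have e : x * k⁻¹ * x⁻¹ = (x * k * x⁻¹)⁻¹ := by group
      rw [e, cc_inv h]
      exact hi0 _ (by omega)
  · exfalso
    push Not at hP hM
    obtain ⟨x, hx⟩ := hP
    obtain ⟨y, hy⟩ := hM
    -- x contains a negative ray only, y a positive ray only
    obtain ⟨i1, hi1⟩ : ∃ i1 : ℤ, ∀ i, i ≤ i1 → b i ∈ CC S (x * k * x⁻¹) := by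
      rcases hPM x with ⟨i0, h0⟩ | h'
      · obtain ⟨i, hi, hn⟩ := hx i0
        exact absurd (h0 i hi) hn
      · exact h'
    obtain ⟨j1, hj1⟩ : ∃ i1 : ℤ, ∀ i, i1 ≤ i → b i ∈ CC S (y * k * y⁻¹) := by
      rcases hPM y with h' | ⟨i0, h0⟩
      · exact h'
      · obtain ⟨i, hi, hn⟩ := hy i0
        exact absurd (h0 i hi) hn
    obtain ⟨u, hu1, hu2⟩ := hx i1
    obtain ⟨l, hl1, hl2⟩ := hy j1
    have hu : ∀ j, b j ∈ CC S (x * k * x⁻¹) → j < u := by
      intro j hj
      by_contra hlt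
      push Not at hlt
      exact hu2 (leme_cvx hb1 (cc_cvx h _) (hi1 i1 le_rfl) hj hu1 hlt)
    have hl : ∀ j, b j ∈ CC S (y * k * y⁻¹) → l < j := by
      intro j hj
      by_contra hlt
      push Not at hlt
      exact hl2 (leme_cvx hb1 (cc_cvx h _) hj (hj1 j1 le_rfl) hlt hl1)
    -- translate y
    set n : ℕ := (u - l).natAbs with hn
    have hkn : ∀ (n : ℕ) (i : ℤ), (k ^ n) • b i = b (i + n * tl S k) := by
      intro n i
      induction n with
      | zero => simp
      | succ n ih =>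
        rw [pow_succ', mul_smul, ih, hb2]; congr 1; push_cast; ring
    have hyn : ∀ j : ℤ, b j ∈ CC S ((k ^ n * y) * k * (k ^ n * y)⁻¹) → u ≤ j := by
      intro j hj
      rw [hmem, mul_inv_rev, mul_smul] at hj
      have e : (k ^ n)⁻¹ • b j = b (j - n * tl S k) := by
        rw [inv_smul_eq_iff, hkn]; congr 1; ring
      rw [e, ← hmem] at hj
      have h1 := hl _ hj
      have : (1 : ℤ) ≤ tl S k := by exact_mod_cast hk
      have h2 : (u - l) ≤ (n : ℤ) := by rw [hn]; omega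
      nlinarith
    -- a point of both translates
    obtain ⟨w, hw1, hw2⟩ := (hinf (x⁻¹ * (k ^ n * y))).nonempty
    set z := x • w with hz
    have hz1 : z ∈ CC S (x * k * x⁻¹) := by rw [hmem, hz, inv_smul_smul]; exact hw2
    have hz2 : z ∈ CC S ((k ^ n * y) * k * (k ^ n * y)⁻¹) := by
      rw [hmem] at hw1 ⊢
      rw [mul_inv_rev, inv_inv, mul_smul] at hw1
      exact hw1
    have hyy : b (j1 + n * tl S k) ∈ CC S ((k ^ n * y) * k * (k ^ n * y)⁻¹) := by
      rw [hmem, mul_inv_rev, mul_smul]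
      have e : (k ^ n)⁻¹ • b (j1 + n * tl S k) = b j1 := by
        rw [inv_smul_eq_iff, hkn]
      rw [e, ← hmem]
      exact hj1 j1 le_rfl
    obtain ⟨q, q1, q2, q3⟩ := st_median h.tree z (b i1) (b (j1 + n * tl S k))
    have hqx : q ∈ CC S (x * k * x⁻¹) := cc_cvx h _ _ hz1 _ (hi1 i1 le_rfl) _ q1
    have hqy : q ∈ CC S ((k ^ n * y) * k * (k ^ n * y)⁻¹) := cc_cvx h _ _ hz2 _ hyy _ q3
    have hqk : q ∈ CC S k := cc_cvx h _ _ ((hb3 _).mpr ⟨_, rfl⟩) _ ((hb3 _).mpr ⟨_, rfl⟩) _ q2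
    obtain ⟨m, rfl⟩ := (hb3 q).mp hqk
    have a1 := hu m hqx
    have a2 := hyn m hqy
    omega

end LatN
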