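import Pool.Agent.Lib.MP_32d917_al.LATB2
import Pool.Agent.Lib.MP_32d917_al.N.NTHMA

/-!
# Comparison of two lattice structures on products of finitely many trees
-/

set_option autoImplicit false

namespace LatN

open LatIso

section NCOMM

variable {G : Type} [Group G] {ι κ : Type} [Fintype ι] [DecidableEq ι] [Fintype κ]
  [DecidableEq κ] {V : ι → Type} [∀ i, MulAction G (V i)] {S : ∀ i, SimpleGraph (V i)}
  {V' : κ → Type} [∀ i, MulAction G (V' i)] {S' : ∀ i, SimpleGraph (V' i)}

/-- the pointwise stabilizer of the coordinates in `J` -/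
def NCOMM_K (G : Type) [Group G] {ι : Type} {V : ι → Type} [∀ i, MulAction G (V i)]
    (x : ∀ i, V i) (J : Finset ι) : Subgroup G where
  carrier := {g | ∀ j ∈ J, g • x j = x j}
  mul_mem' := by
    intro a b ha hb j hj
    rw [mul_smul, hb j hj, ha j hj]
  one_mem' := fun j _ => one_smul _ _
  inv_mem' := by
    intro a ha j hj
    rw [inv_smul_eq_iff, ha j hj]

/-- if all `stabOff y j` with `j ∉ J` are elliptic on `U` then so is the pointwise stabilizer of the
coordinates in `J` of a point `x` -/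
theorem stabJ_ell (L : NLat G S) {U : Type} [MulAction G U] {R : SimpleGraph U} (hR : TA G R)
    (hfin : ∀ (u u' : U), (Set.range fun k : MulAction.stabilizer G u => (k : G) • u').Finite)
    (J : Finset ι) (h : ∀ (y : ∀ i, V i) (j : ι), j ∉ J → ∃ u : U, ∀ k ∈ stabOff G y j, k • u = u)
    (x : ∀ i, V i) : ∃ u : U, ∀ k : G, (∀ i ∈ J, k • x i = x i) → k • u = u := by
  classical
  suffices H : ∀ (n : ℕ) (J : Finset ι), Jᶜ.card = n →
      (∀ (y : ∀ i, V i) (j : ι), j ∉ J → ∃ u : U, ∀ k ∈ stabOff G y j, k • u = u) →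
      ∃ u : U, ∀ k : G, (∀ i ∈ J, k • x i = x i) → k • u = u from H _ J rfl h
  intro n
  induction n with
  | zero =>
    intro J hJ _
    obtain ⟨u⟩ := hR.tree.connected.nonempty
    refine ⟨u, fun k hk => ?_⟩
    have h1 : J = Finset.univ := by
      rw [Finset.card_eq_zero, Finset.compl_eq_empty_iff] at hJ
      exact hJ
    have h2 : k = 1 := L.free k x fun i => hk i (by rw [h1]; exact Finset.mem_univ i)
    rw [h2, one_smul]
  | succ n ih =>
    intro J hJ h
    have hne : Jᶜ.Nonempty := by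
      rw [← Finset.card_pos, hJ]
      exact Nat.succ_pos n
    obtain ⟨j, hj⟩ := hne
    have hjJ : j ∉ J := Finset.mem_compl.1 hj
    have hc : (insert j J)ᶜ.card = n := by
      rw [Finset.compl_insert, Finset.card_erase_of_mem hj, hJ]
      rfl
    obtain ⟨u1, hu1⟩ := ih (insert j J) hc
      (fun y l hl => h y l fun hlJ => hl (Finset.mem_insert_of_mem hlJ))
    obtain ⟨u2, hu2⟩ := h x j hjJ
    obtain ⟨F, hF⟩ := stabOff_fin L x j
    have hHK : ∀ k ∈ stabOff G x j, k ∈ NCOMM_K G x J := by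
      intro k hk l hl
      exact hk l fun hlj => hjJ (hlj ▸ hl)
    -- representatives
    let γ : V j → G := fun f => if hf : ∃ g ∈ NCOMM_K G x J, g⁻¹ • x j = f then hf.choose else 1
    have hγ : ∀ f : V j, (∃ g ∈ NCOMM_K G x J, g⁻¹ • x j = f) →
        γ f ∈ NCOMM_K G x J ∧ (γ f)⁻¹ • x j = f := by
      intro f hf
      simp only [γ, dif_pos hf]
      exact hf.choose_spec
    have hfinite : (Set.range fun k : NCOMM_K G x J => (k : G) • u2).Finite := by
      have h1 : (⋃ f ∈ F, Set.range fun k : MulAction.stabilizer G u1 =>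
          (k : G) • γ f • u2).Finite :=
        F.finite_toSet.biUnion fun f _ => hfin u1 (γ f • u2)
      refine h1.subset ?_
      rintro _ ⟨k, rfl⟩
      obtain ⟨c, hc, hcF⟩ := hF ((k : G)⁻¹ • x j)
      have hkc : (k : G) * c⁻¹ ∈ NCOMM_K G x J := mul_mem k.2 (inv_mem (hHK c hc))
      have h2 : ((k : G) * c⁻¹)⁻¹ • x j = c • (k : G)⁻¹ • x j := by
        rw [mul_inv_rev, inv_inv, mul_smul]
      obtain ⟨h3, h4⟩ := hγ (c • (k : G)⁻¹ • x j) ⟨_, hkc, h2⟩
      set f : V j := c • (k : G)⁻¹ • x j with hf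
      have h5 : ((k : G) * c⁻¹ * (γ f)⁻¹) • u1 = u1 := by
        refine hu1 _ fun i hi => ?_
        rcases Finset.mem_insert.1 hi with rfl | hi
        · rw [mul_smul, h4, ← h2, smul_inv_smul]
        · exact mul_mem hkc (inv_mem h3) i hi
      refine Set.mem_iUnion₂.2 ⟨f, hcF, ⟨⟨(k : G) * c⁻¹ * (γ f)⁻¹, h5⟩, ?_⟩⟩
      change ((k : G) * c⁻¹ * (γ f)⁻¹) • γ f • u2 = (k : G) • u2
      have h6 : c⁻¹ • u2 = u2 := hu2 _ (inv_mem hc)
      rw [mul_smul, inv_smul_smul, mul_smul, h6]
    obtain ⟨u, hu⟩ := fix_of_finite hR (NCOMM_K G x J) u2 hfinite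
    exact ⟨u, fun k hk => hu k hk⟩

omit [Fintype ι] [DecidableEq ι] in
theorem NCOMM_pt (L : NLat G S) : Nonempty (∀ i, V i) :=
  ⟨fun i => (L.leafless i).three.choose⟩

/-- a tree without leaves on which the group acts with finitely many orbits has no fixed vertex -/
theorem NCOMM_nofix {U : Type} [MulAction G U] {R : SimpleGraph U} (L' : TLat G R)
    (h2 : Leafless R) (u : U) (hu : ∀ k : G, k • u = u) : False := by
  have h1 : ∀ x : U, x ∈ ({u} : Set U) := by
    refine tmin L' h2 {u} ?_ ⟨u, rfl⟩ ?_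
    · intro x hx y hy m hm
      rw [Set.mem_singleton_iff] at hx hy ⊢
      subst hx
      subst hy
      unfold Bt at hm
      rw [SimpleGraph.dist_self] at hm
      exact (st1_eq L'.ta.tree (by omega)).symm
    · intro g x hx
      rw [Set.mem_singleton_iff] at hx ⊢
      rw [hx, hu]
  obtain ⟨v, a, b, c, hab, _, _, _⟩ := h2.three
  exact hab ((h1 a).trans (h1 b).symm)

/-- for every factor of the second product there is exactly one factor of the first product which
is not elliptic on it; the stabilizers of its vertices are elliptic -/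
theorem NCOMM_tau (L : NLat G S) (L' : NLat G S') (k : κ) : ∃ i : ι,
    ∀ v : V i, ∃ u : V' k, StabLe G v u := by
  classical
  obtain ⟨x0⟩ := NCOMM_pt L
  have hT := nlat_tlat L' k
  have hex : ∃ i, ¬ ∃ u : V' k, ∀ g ∈ stabOff G x0 i, g • u = u := by
    by_contra hno
    push Not at hno
    obtain ⟨u, hu⟩ := stabJ_ell L hT.ta (torbit_fin hT) ∅
      (fun y j _ => stabOff_ell L hT.ta x0 y j (hno j)) x0
    exact NCOMM_nofix hT (L'.leafless k) u fun g => hu g fun i hi => absurd hi (Finset.notMem_empty i)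
  obtain ⟨i, hi⟩ := hex
  refine ⟨i, fun v => ?_⟩
  obtain ⟨u, hu⟩ := stabJ_ell L hT.ta (torbit_fin hT) {i}
    (fun y j hj => by
      rw [Finset.mem_singleton] at hj
      rcases nthmA L hT (L'.leafless k) x0 y i j (Ne.symm hj) with h | h
      · exact absurd h hi
      · exact h) (Function.update x0 i v)
  refine ⟨u, fun g hg => hu g fun l hl => ?_⟩
  rw [Finset.mem_singleton] at hl
  subst hl
  rw [Function.update_self, hg]

/-- composition of the two correspondences -/
theorem NCOMM_inv (L' : NLat G S') (k k' : κ) (h : ∀ v : V' k', ∃ u : V' k, StabLe G v u) :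
    k' = k := by
  by_contra hne
  obtain ⟨x0⟩ := NCOMM_pt L'
  obtain ⟨u, hu⟩ := h (x0 k')
  obtain ⟨F, hF⟩ := stabOff_fin L' x0 k
  have h1 : ∀ g ∈ stabOff G x0 k, g = 1 := by
    intro g hg
    exact stabOff_free L' x0 k g hg u (hu g (hg k' hne))
  refine latb2_inf (L'.ta k).tree (L'.leafless k).two u ?_
  have h2 : (Set.univ : Set (V' k)) ⊆ (F : Set (V' k)) := by
    intro w _
    obtain ⟨g, hg, hgw⟩ := hF w
    rw [h1 g hg, one_smul] at hgw
    exact hgw
  exact Set.finite_univ_iff.1 (F.finite_toSet.subset h2)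

/-- the factors correspond to each other -/
theorem ncomm (L : NLat G S) (L' : NLat G S') : ∃ σ : ι ≃ κ, ∀ i,
    (∀ v : V i, ∃ v' : V' (σ i), StabLe G v v') ∧ (∀ v' : V' (σ i), ∃ v : V i, StabLe G v' v) := by
  choose τ hτ using NCOMM_tau L L'
  choose τ' hτ' using NCOMM_tau L' L
  have h1 : ∀ k, τ' (τ k) = k := by
    intro k
    refine NCOMM_inv L' k (τ' (τ k)) fun v => ?_
    obtain ⟨v1, hv1⟩ := hτ' (τ k) v
    obtain ⟨v2, hv2⟩ := hτ k v1
    exact ⟨v2, fun g hg => hv2 g (hv1 g hg)⟩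
  have h2 : ∀ i, τ (τ' i) = i := by
    intro i
    refine NCOMM_inv L i (τ (τ' i)) fun v => ?_
    obtain ⟨v1, hv1⟩ := hτ (τ' i) v
    obtain ⟨v2, hv2⟩ := hτ' i v1
    exact ⟨v2, fun g hg => hv2 g (hv1 g hg)⟩
  have h3 : ∀ (k : κ) (i : ι), τ k = i → ∀ v : V i, ∃ u : V' k, StabLe G v u := by
    rintro k _ rfl
    exact hτ k
  exact ⟨⟨τ', τ, h2, h1⟩, fun i => ⟨h3 (τ' i) i (h2 i), hτ' i⟩⟩

end NCOMM

end LatN
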