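import Pool.Agent.Lib.MP_32d917_al.NDefs
import Pool.Agent.Lib.MP_32d917_al.ST1
import Pool.Agent.Lib.MP_32d917_al.TL1

/-!
# The vertex set of a reduced tree is determined by its elliptic subgroups
-/

set_option autoImplicit false

namespace LatN

open LatIso

variable {G : Type} [Group G] {V U : Type} [MulAction G V] [MulAction G U] {S : SimpleGraph V}
  {R : SimpleGraph U}

/-- in a reduced tree, inclusion of stabilizers implies the same orbit and equality -/
theorem ns3_red (L : TLat G S) (hS : Red G S) : ∀ (n : ℕ) (v x : V), S.dist v x = n →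
    StabLe G v x → (∃ g : G, g • v = x) ∧ StabLe G x v := by
  intro n
  induction n using Nat.strong_induction_on with
  | _ n ih =>
    intro v x hn h
    by_cases hvx : v = x
    · subst hvx
      exact ⟨⟨1, one_smul G v⟩, fun k hk => hk⟩
    · obtain ⟨m, hm1, hm2⟩ := st_next L.ta.tree hvx
      have hd : S.dist v m = 1 := SimpleGraph.dist_eq_one_iff_adj.2 hm1
      have hvm : StabLe G v m := by
        intro k hk
        have hkx := h k hk
        have e1 : S.dist v (k • m) = S.dist v m := by
          conv_lhs => rw [← hk]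
          exact ta_dist L.ta k v m
        have e2 : S.dist (k • m) x = S.dist m x := by
          conv_lhs => rw [← hkx]
          exact ta_dist L.ta k m x
        have e3 : Bt S v (k • m) x := by
          unfold Bt at hm2 ⊢
          rw [e1, e2]
          exact hm2
        exact st_pt_uniq L.ta.tree e3 hm2 e1
      obtain ⟨g, hg⟩ := hS v m hm1 hvm
      have hmv : StabLe G m v := by
        intro k hk
        have c := L.cinv v v g (fun j h1 _ => by
          have := hvm j h1
          rw [hg]
          exact ⟨this, this⟩) k (by rw [hg]; exact hk) (by rw [hg]; exact hk)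
        exact c.1
      have hlt : S.dist m x < n := by
        unfold Bt at hm2
        omega
      obtain ⟨⟨g', hg'⟩, h'⟩ := ih _ hlt m x rfl (fun k hk => h k (hmv k hk))
      exact ⟨⟨g' * g, by rw [mul_smul, hg, hg']⟩, fun k hk => hmv k (h' k hk)⟩

/-- (3.5) -/
theorem tvset (L : TLat G S) (L' : TLat G R) (hS : Red G S) (hR : Red G R)
    (h1 : ∀ v : V, ∃ v' : U, StabLe G v v') (h2 : ∀ v' : U, ∃ v : V, StabLe G v' v) :
    ∃ φ : V ≃ U, ∀ (g : G) (v : V), φ (g • v) = g • φ v := by
  classical
  have e1 : ∀ v : V, ∃ v' : U, ∀ g : G, g • v = v ↔ g • v' = v' := by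
    intro v
    obtain ⟨v', hv'⟩ := h1 v
    obtain ⟨x, hx⟩ := h2 v'
    have := ns3_red L hS _ v x rfl (fun k hk => hx k (hv' k hk))
    exact ⟨v', fun g => ⟨hv' g, fun h => this.2 g (hx g h)⟩⟩
  have e2 : ∀ v' : U, ∃ v : V, ∀ g : G, g • v = v ↔ g • v' = v' := by
    intro v'
    obtain ⟨v, hv⟩ := h2 v'
    obtain ⟨x, hx⟩ := h1 v
    have := ns3_red L' hR _ v' x rfl (fun k hk => hx k (hv k hk))
    exact ⟨v, fun g => ⟨fun h => this.2 g (hx g h), hv g⟩⟩
  choose c hc using e1
  let r : V → V := fun v => (Quotient.mk (MulAction.orbitRel G V) v).out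
  have hr : ∀ v, ∃ g : G, g • r v = v := by
    intro v
    have : (MulAction.orbitRel G V) (r v) v := Quotient.mk_out (s := MulAction.orbitRel G V) v
    rw [MulAction.orbitRel_apply] at this
    obtain ⟨g, hg⟩ := this
    refine ⟨g⁻¹, ?_⟩
    rw [← hg]
    simp
  have hrg : ∀ (g : G) (v : V), r (g • v) = r v := by
    intro g v
    have : Quotient.mk (MulAction.orbitRel G V) (g • v) = Quotient.mk (MulAction.orbitRel G V) v := by
      apply Quotient.sound
      change (MulAction.orbitRel G V) (g • v) v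
      rw [MulAction.orbitRel_apply]
      exact ⟨g, rfl⟩
    simp only [r, this]
  choose γ hγ using hr
  let φ : V → U := fun v => γ v • c (r v)
  have hφ : ∀ (g : G) (v : V), φ (g • v) = g • φ v := by
    intro g v
    have h3 : (γ v)⁻¹ • g⁻¹ • γ (g • v) • r v = r v := by
      have := hγ (g • v)
      rw [hrg] at this
      rw [this, inv_smul_smul, inv_smul_eq_iff, hγ]
    have h4 : ((γ v)⁻¹ * (g⁻¹ * γ (g • v))) • c (r v) = c (r v) := by
      rw [← hc]
      rw [mul_smul, mul_smul]
      exact h3
    change γ (g • v) • c (r (g • v)) = g • γ v • c (r v)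
    rw [hrg]
    rw [mul_smul, mul_smul, inv_smul_eq_iff, inv_smul_eq_iff] at h4
    exact h4
  have hst : ∀ (v : V) (g : G), g • v = v ↔ g • φ v = φ v := by
    intro v g
    have e : φ v = γ v • c (r v) := rfl
    have h3 := hc (r v) ((γ v)⁻¹ * (g * γ v))
    rw [mul_smul, mul_smul, mul_smul, mul_smul, inv_smul_eq_iff, inv_smul_eq_iff, hγ] at h3
    rw [e]
    exact h3
  refine ⟨Equiv.ofBijective φ ⟨?_, ?_⟩, hφ⟩
  · intro x y hxy
    have h3 : StabLe G x y := by
      intro k hk
      rw [hst] at hk ⊢
      rw [← hxy]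
      exact hk
    obtain ⟨⟨g, hg⟩, -⟩ := ns3_red L hS _ x y rfl h3
    have h4 : g • φ x = φ x := by
      rw [← hφ, hg, hxy]
    rw [← hst] at h4
    rw [← h4, hg]
  · intro v'
    obtain ⟨v, hv⟩ := e2 v'
    have h3 : StabLe G (φ v) v' := by
      intro k hk
      rw [← hst] at hk
      exact (hv k).1 hk
    obtain ⟨⟨g, hg⟩, -⟩ := ns3_red L' hR _ (φ v) v' rfl h3
    exact ⟨g • v, by rw [hφ, hg]⟩

end LatN
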