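import Pool.Agent.Lib.MP_32d917_al.N.NTTL

/-!
# Cochains on a product of trees, and the fundamental group of the data
-/

set_option autoImplicit false

namespace LatN

open LatIso

section NDG

variable {ι P A : Type} [Fintype ι] [DecidableEq ι] {X : Dat ι P A} {G : Type} [Group G]
  {V : ι → Type} [∀ i, MulAction G (V i)] {S : ∀ i, SimpleGraph (V i)}

omit [∀ i, MulAction G (V i)] in
theorem ndg_pot {Γ : Type} [Group Γ] (hS : ∀ i, (S i).IsTree) (L : LP X S) (c : A → Γ)
    (hi : ∀ a, c a * c (X.i a) = 1)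
    (hsq : ∀ a b, X.o a = X.o b → X.ty a ≠ X.ty b → c a * c (X.tr b a) = c b * c (X.tr a b))
    (x0 : ∀ i, V i) : ∃ F : (∀ i, V i) → Γ, F x0 = 1 ∧
      ∀ x i y, (S i).Adj (x i) y → F (Function.update x i y) = F x * c (L.al x i y) := by
  obtain ⟨F, hF0, -, hF⟩ := nttl hS (fun (_ : ∀ i, V i) (_ : Γ) => True)
    (fun x i y s => s * c (L.al x i y)) (fun _ _ _ _ _ _ => trivial)
    (fun x i y s h _ => by
      show s * c (L.al x i y) * c (L.al (Function.update x i y) i (x i)) = s
      rw [L.inv x i y h, mul_assoc, hi, mul_one])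
    (fun x i y j z s hij hy hz _ => by
      show s * c (L.al x i y) * c (L.al (Function.update x i y) j z) =
        s * c (L.al x j z) * c (L.al (Function.update x j z) i y)
      rw [← L.tr x i y j z hij hy hz, ← L.tr x j z i y (Ne.symm hij) hz hy, mul_assoc, mul_assoc,
        hsq _ _ (by rw [L.o x i y hy, L.o x j z hz]) (by rw [L.ty x i y hy, L.ty x j z hz]; exact hij)])
    x0 (1 : Γ) trivial
  exact ⟨F, hF0, hF⟩

/-- `y'` is the end of the lift of the dart `d` at `y` -/
def ndgLift (L : LP X S) (y : ∀ i, V i) (d : A) (y' : ∀ i, V i) : Prop :=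
  ∃ i z, (S i).Adj (y i) z ∧ y' = Function.update y i z ∧ L.al y i z = d

omit [Fintype ι] [Group G] [∀ i, MulAction G (V i)] in
theorem ndg_ex (L : LP X S) (y : ∀ i, V i) (d : A) (h : X.o d = L.p y) :
    ∃ y', ndgLift L y d y' := by
  obtain ⟨z, h1, h2⟩ := L.sur y (X.ty d) d h rfl
  exact ⟨_, _, z, h1, rfl, h2⟩

omit [Fintype ι] [Group G] [∀ i, MulAction G (V i)] in
theorem ndg_uniq (L : LP X S) {y : ∀ i, V i} {d : A} {y' y'' : ∀ i, V i} (h : ndgLift L y d y')
    (h' : ndgLift L y d y'') : y' = y'' := by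
  obtain ⟨i, z, h1, h2, h3⟩ := h
  obtain ⟨j, z', k1, k2, k3⟩ := h'
  have hij : i = j := by rw [← L.ty y i z h1, ← L.ty y j z' k1, h3, k3]
  subst hij
  have := L.inj y i z z' h1 k1 (h3.trans k3.symm)
  rw [h2, k2, this]

omit [Fintype ι] [Group G] [∀ i, MulAction G (V i)] in
theorem ndg_inv (L : LP X S) {y : ∀ i, V i} {d : A} {y' : ∀ i, V i} (h : ndgLift L y d y') :
    ndgLift L y' (X.i d) y := by
  obtain ⟨i, z, h1, h2, h3⟩ := h
  refine ⟨i, y i, ?_, ?_, ?_⟩
  · rw [h2, Function.update_self]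
    exact h1.symm
  · rw [h2, Function.update_idem, Function.update_eq_self]
  · rw [h2, L.inv y i z h1, h3]

omit [Fintype ι] [Group G] [∀ i, MulAction G (V i)] in
theorem ndg_src (L : LP X S) {y : ∀ i, V i} {d : A} {y' : ∀ i, V i} (h : ndgLift L y d y') :
    L.p y = X.o d := by
  obtain ⟨i, z, h1, h2, h3⟩ := h
  rw [← h3, L.o _ _ _ h1]

omit [Fintype ι] [Group G] [∀ i, MulAction G (V i)] in
theorem ndg_tgt (L : LP X S) {y : ∀ i, V i} {d : A} {y' : ∀ i, V i} (h : ndgLift L y d y') :
    L.p y' = X.o (X.i d) := ndg_src L (ndg_inv L h)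

omit [Fintype ι] in
theorem ndg_smul {L : LP X S} (hL : Cov G L) (g : G) {y : ∀ i, V i} {d : A} {y' : ∀ i, V i}
    (h : ndgLift L y d y') : ndgLift L (g • y) d (g • y') := by
  obtain ⟨i, z, h1, h2, h3⟩ := h
  refine ⟨i, g • z, hL.adj g i _ _ h1, ?_, ?_⟩
  · rw [h2]
    funext j
    by_cases hj : j = i
    · subst hj
      show g • Function.update y j z j = _
      rw [Function.update_self, Function.update_self]
    · show g • Function.update y i z j = _
      rw [Function.update_of_ne hj, Function.update_of_ne hj]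
      rfl
  · rw [← h3]
    exact hL.gal g y i z h1

omit [Fintype ι] in
theorem ndg_smulP {L : LP X S} (hL : Cov G L) (g : G) (y : ∀ i, V i) :
    L.p (g • y) = L.p y := hL.gp g y

omit [Fintype ι] in
theorem ndg_free {L : LP X S} (hL : Cov G L) {g k : G} {y : ∀ i, V i} (h : g • y = k • y) :
    g = k := by
  have h1 : (k⁻¹ * g) • y = y := by rw [mul_smul, h, inv_smul_smul]
  have h2 := hL.free (k⁻¹ * g) y (fun i => congrFun h1 i)
  rw [inv_mul_eq_one] at h2
  exact h2.symm

omit [Fintype ι] in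
theorem ndg_trans {L : LP X S} (hL : Cov G L) {y y' : ∀ i, V i} (h : L.p y = L.p y') :
    ∃ g : G, g • y = y' := hL.trans y y' h

/-- the generator of the fundamental group given by a dart -/
def ndgG (X : Dat ι P A) (p0 : P) (δ : P → A) (d : A) : Gam X p0 δ := PresentedGroup.of d

omit [Fintype ι] [DecidableEq ι] in
theorem ndg_rel {p0 : P} {δ : P → A} {r : FreeGroup A} (h : Rel X p0 δ r) :
    PresentedGroup.mk {r | Rel X p0 δ r} r = 1 := by
  rw [PresentedGroup.mk_eq_one_iff]
  exact Subgroup.subset_normalClosure h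

omit [Fintype ι] [DecidableEq ι] in
theorem ndg_gi (p0 : P) (δ : P → A) (d : A) :
    ndgG X p0 δ d * ndgG X p0 δ (X.i d) = 1 := ndg_rel (Rel.inv d)

omit [Fintype ι] [DecidableEq ι] in
theorem ndg_gsq (p0 : P) (δ : P → A) (a b : A) (h : X.o a = X.o b) (hab : X.ty a ≠ X.ty b) :
    ndgG X p0 δ a * ndgG X p0 δ (X.tr b a) = ndgG X p0 δ b * ndgG X p0 δ (X.tr a b) := by
  have h1 : ndgG X p0 δ a * ndgG X p0 δ (X.tr b a) * (ndgG X p0 δ (X.tr a b))⁻¹ *
      (ndgG X p0 δ b)⁻¹ = 1 := ndg_rel (Rel.sq a b h hab)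
  rw [mul_inv_eq_one, mul_inv_eq_iff_eq_mul] at h1
  exact h1

omit [Fintype ι] [DecidableEq ι] in
theorem ndg_gspan (p0 : P) (δ : P → A) (q : P) (h : q ≠ p0) : ndgG X p0 δ (δ q) = 1 :=
  ndg_rel (Rel.span q h)

omit [Fintype ι] [Group G] [∀ i, MulAction G (V i)] in
/-- a section compatible with the spanning tree -/
theorem ndg_section {L : LP X S} {p0 : P} {δ : P → A} {r : P → ℕ} (hs : Span X p0 δ r)
    (x0 : ∀ i, V i) (h0 : L.p x0 = p0) :
    ∃ z : P → ∀ i, V i, z p0 = x0 ∧ (∀ q, L.p (z q) = q) ∧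
      ∀ q, q ≠ p0 → ndgLift L (z (X.o (δ q))) (δ q) (z q) := by
  classical
  have hst : ∀ q, ∀ ih : (∀ q', r q' < r q → {y : ∀ i, V i // L.p y = q'}), ∀ h : q ≠ p0,
      ∃ y', ndgLift L (ih (X.o (δ q)) (hs q h).2).1 (δ q) y' := by
    intro q ih h
    exact ndg_ex L _ _ (ih (X.o (δ q)) (hs q h).2).2.symm
  let F : ∀ q, (∀ q', r q' < r q → {y : ∀ i, V i // L.p y = q'}) →
      {y : ∀ i, V i // L.p y = q} :=
    fun q ih => if h : q = p0 then ⟨x0, by rw [h0, h]⟩ else
      ⟨Classical.choose (hst q ih h), by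
        rw [ndg_tgt L (Classical.choose_spec (hst q ih h))]
        exact (hs q h).1⟩
  let z : ∀ q, {y : ∀ i, V i // L.p y = q} := (measure r).wf.fix F
  have hz : ∀ q, z q = F q (fun q' _ => z q') := fun q => (measure r).wf.fix_eq F q
  refine ⟨fun q => (z q).1, ?_, fun q => (z q).2, ?_⟩
  · show (z p0).1 = x0
    rw [hz p0]
    simp [F]
  · intro q hq
    show ndgLift L (z (X.o (δ q))).1 (δ q) (z q).1
    have h1 : (z q).1 = Classical.choose (hst q (fun q' _ => z q') hq) := by
      rw [hz q]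
      simp only [F]
      rw [dif_neg hq]
    rw [h1]
    exact Classical.choose_spec (hst q (fun q' _ => z q') hq)

/-- the fundamental group of the data is the covering group -/
theorem ncov_gam [Finite P] (hS : ∀ i, (S i).IsTree) {L : LP X S} (hL : Cov G L) {p0 : P}
    {δ : P → A} {r : P → ℕ} (hs : Span X p0 δ r) : Nonempty (G ≃* Gam X p0 δ) := by
  classical
  obtain ⟨x0, hx0⟩ := hL.onto p0
  obtain ⟨F, hF1, hF'⟩ := ndg_pot (X := X) hS L (fun a => ndgG X p0 δ a)
    (fun a => ndg_gi p0 δ a) (fun a b h hab => ndg_gsq p0 δ a b h hab) x0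
  have hF : ∀ y d y', ndgLift L y d y' → F y' = F y * ndgG X p0 δ d := by
    rintro y d y' ⟨i, z, h1, h2, h3⟩
    rw [h2, hF' _ _ _ h1, h3]
  -- equivariance
  have heq : ∀ (g : G) (y : ∀ i, V i), F (g • y) = F (g • x0) * F y := by
    intro g
    refine n_induct (fun i => (hS i).1) (fun y => F (g • y) = F (g • x0) * F y) x0 ?_ ?_
    · rw [hF1, mul_one]
    · intro x i y h ih
      have hl : ndgLift L x (L.al x i y) (Function.update x i y) := ⟨i, y, h, rfl, rfl⟩
      rw [hF _ _ _ (ndg_smul hL g hl), ih, hF _ _ _ hl, mul_assoc]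
  let Psi : G →* Gam X p0 δ :=
    { toFun := fun g => F (g • x0)
      map_one' := by rw [one_smul, hF1]
      map_mul' := fun g h => by rw [mul_smul, heq] }
  obtain ⟨z, hz0, hzp, hzs⟩ := ndg_section (L := L) hs x0 hx0
  -- the group element given by a dart
  have hph : ∀ d : A, ∃ g : G, ndgLift L (z (X.o d)) d (g • z (X.o (X.i d))) := by
    intro d
    obtain ⟨y', hy'⟩ := ndg_ex L (z (X.o d)) d (hzp _).symm
    obtain ⟨g, hg⟩ := ndg_trans hL (y := z (X.o (X.i d))) (y' := y')
      (by rw [hzp, ndg_tgt L hy'])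
    exact ⟨g, by rw [hg]; exact hy'⟩
  choose ph hph using hph
  have hinv : ∀ d : A, X.o (X.i (X.i d)) = X.o d := by
    intro d
    have h1 := ndg_inv L (hph d)
    have h2 := ndg_inv L h1
    rw [← ndg_src L h2, ndg_src L (hph d)]
  have hrel : ∀ w ∈ {r | Rel X p0 δ r}, FreeGroup.lift ph w = 1 := by
    intro w hw
    have hcomp : ∀ d, ph d * ph (X.i d) = 1 := by
      intro d
      have h1 := ndg_inv L (hph d)
      have h2 := ndg_smul hL (ph d) (hph (X.i d))
      have h3 := ndg_uniq L h1 h2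
      rw [hinv d] at h3
      rw [← mul_smul] at h3
      refine ndg_free hL (y := z (X.o d)) ?_
      rw [one_smul]
      exact h3.symm
    induction hw with
    | inv a =>
      rw [map_mul, FreeGroup.lift_apply_of, FreeGroup.lift_apply_of]
      exact hcomp a
    | sq a b h hab =>
      rw [map_mul, map_mul, map_mul, map_inv, map_inv, FreeGroup.lift_apply_of,
        FreeGroup.lift_apply_of, FreeGroup.lift_apply_of, FreeGroup.lift_apply_of, mul_inv_eq_one,
        mul_inv_eq_iff_eq_mul]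
      -- base point
      have ha := hph a
      have hb := hph b
      rw [← h] at hb
      set y := z (X.o a) with hy
      set ya := ph a • z (X.o (X.i a)) with hya
      set yb := ph b • z (X.o (X.i b)) with hyb
      obtain ⟨i, u, a1, a2, a3⟩ := ha
      obtain ⟨j, u', b1, b2, b3⟩ := hb
      have hij : i ≠ j := by
        rw [← L.ty y i u a1, ← L.ty y j u' b1, a3, b3]
        exact hab
      -- the opposite corner
      have htl : ndgLift L ya (X.tr b a) (Function.update ya j u') := by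
        refine ⟨j, u', ?_, rfl, ?_⟩
        · rw [a2, Function.update_of_ne (Ne.symm hij)]
          exact b1
        · rw [a2, ← L.tr _ _ _ _ _ (Ne.symm hij) b1 a1, a3, b3]
      have htr : ndgLift L yb (X.tr a b) (Function.update ya j u') := by
        refine ⟨i, u, ?_, ?_, ?_⟩
        · rw [b2, Function.update_of_ne hij]
          exact a1
        · rw [a2, b2, Function.update_comm hij]
        · rw [b2, ← L.tr _ _ _ _ _ hij a1 b1, a3, b3]
      have e1 := ndg_smul hL (ph a) (hph (X.tr b a))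
      have e2 := ndg_smul hL (ph b) (hph (X.tr a b))
      have f1 : z (X.o (X.tr b a)) = z (X.o (X.i a)) := by
        congr 1
        rw [← ndg_src L htl, hya, ndg_smulP hL, hzp]
      have f2 : z (X.o (X.tr a b)) = z (X.o (X.i b)) := by
        congr 1
        rw [← ndg_src L htr, hyb, ndg_smulP hL, hzp]
      rw [f1, ← hya] at e1
      rw [f2, ← hyb] at e2
      have g1 := ndg_uniq L htl e1
      have g2 := ndg_uniq L htr e2
      have f3 : X.o (X.i (X.tr a b)) = X.o (X.i (X.tr b a)) := by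
        rw [← ndg_tgt L htl, ← ndg_tgt L htr]
      rw [f3] at g2
      refine ndg_free hL (y := z (X.o (X.i (X.tr b a)))) ?_
      rw [mul_smul, mul_smul, ← g1, ← g2]
    | span q h =>
      rw [FreeGroup.lift_apply_of]
      have h1 := hzs q h
      have h2 := ndg_uniq L h1 (hph (δ q))
      have h3 : X.o (X.i (δ q)) = q := by rw [← ndg_tgt L h1, hzp]
      rw [h3] at h2
      refine ndg_free hL (y := z q) ?_
      rw [one_smul, ← h2]
  let Phi : Gam X p0 δ →* G := PresentedGroup.toGroup hrel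
  have hPhi : ∀ d, Phi (ndgG X p0 δ d) = ph d := fun d => PresentedGroup.toGroup.of hrel
  -- the two maps are inverse to each other
  have key : ∀ y, Phi (F y) • z (L.p y) = y := by
    refine n_induct (fun i => (hS i).1) (fun y => Phi (F y) • z (L.p y) = y) x0 ?_ ?_
    · rw [hF1, map_one, one_smul, hx0, hz0]
    · intro x i y h ih
      have hl : ndgLift L x (L.al x i y) (Function.update x i y) := ⟨i, y, h, rfl, rfl⟩
      rw [hF _ _ _ hl, map_mul, hPhi, mul_smul, ndg_tgt L hl]
      have h1 := ndg_smul hL (Phi (F x)) (hph (L.al x i y))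
      rw [← ndg_src L hl, ih] at h1
      exact ndg_uniq L h1 hl
  have hzF : ∀ q, F (z q) = 1 := by
    intro q
    induction hr : r q using Nat.strong_induction_on generalizing q with
    | _ n ih =>
      by_cases h : q = p0
      · rw [h, hz0, hF1]
      · have h1 := hzs q h
        have h2 : r (X.o (δ q)) < r q := (hs q h).2
        rw [hF _ _ _ h1, ih _ (hr ▸ h2) _ rfl, one_mul, ndg_gspan p0 δ q h]
  have c1 : ∀ g, Phi (Psi g) = g := by
    intro g
    have h1 := key (g • x0)
    rw [ndg_smulP hL, hx0, hz0] at h1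
    exact ndg_free hL h1
  have c2 : ∀ d, Psi (Phi (ndgG X p0 δ d)) = ndgG X p0 δ d := by
    intro d
    rw [hPhi]
    have h1 := hF _ _ _ (hph d)
    rw [hzF, one_mul, heq, hzF, mul_one] at h1
    exact h1
  refine ⟨MonoidHom.toMulEquiv Psi Phi ?_ ?_⟩
  · ext g
    exact c1 g
  · apply PresentedGroup.ext
    intro d
    exact c2 d

end NDG

end LatN
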