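import Pool.Agent.Lib.MP_32d917_al.NDefs
import Pool.Agent.Lib.MP_32d917_al.ST2
import Pool.Agent.Lib.MP_32d917_al.RANK
import Pool.Agent.Lib.MP_32d917_al.NIEL

/-!
# Two actions on trees with the same vertex set differ by slides (TLat version of Theorem N)
-/

set_option autoImplicit false

namespace LatN

open LatIso

variable {G : Type} [Group G] {V : Type} [MulAction G V]

theorem ns4_fam {S : SimpleGraph V} (L : TLat G S) :
    ∃ (n : ℕ) (c : Fin n → V × V), FGood G c ∧ FGr G c = S := by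
  classical
  obtain ⟨F, hFv⟩ := L.fin
  -- the edges starting in `F`
  have hE0 : {e : V × V | e.1 ∈ F ∧ S.Adj e.1 e.2}.Finite := by
    have : {e : V × V | e.1 ∈ F ∧ S.Adj e.1 e.2} ⊆
        ⋃ v ∈ (F : Set V), (fun x => (v, x)) '' S.neighborSet v := by
      rintro ⟨a, b⟩ ⟨h1, h2⟩
      simp only [Set.mem_iUnion]
      exact ⟨a, h1, b, h2, rfl⟩
    refine Set.Finite.subset ?_ this
    exact Set.Finite.biUnion F.finite_toSet fun v _ => (L.loc v).image _
  let E : Type := {e : V × V // S.Adj e.1 e.2}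
  let r : Setoid E :=
    { r := fun e f => ∃ g : G, (g • e.1.1 = f.1.1 ∧ g • e.1.2 = f.1.2) ∨
        (g • e.1.1 = f.1.2 ∧ g • e.1.2 = f.1.1)
      iseqv := by
        refine ⟨?_, ?_, ?_⟩
        · intro e
          exact ⟨1, Or.inl ⟨one_smul _ _, one_smul _ _⟩⟩
        · rintro e f ⟨g, ⟨h1, h2⟩ | ⟨h1, h2⟩⟩
          · exact ⟨g⁻¹, Or.inl ⟨by rw [← h1, inv_smul_smul], by rw [← h2, inv_smul_smul]⟩⟩
          · exact ⟨g⁻¹, Or.inr ⟨by rw [← h2, inv_smul_smul], by rw [← h1, inv_smul_smul]⟩⟩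
        · rintro e f k ⟨g, ⟨h1, h2⟩ | ⟨h1, h2⟩⟩ ⟨g', ⟨h3, h4⟩ | ⟨h3, h4⟩⟩
          · exact ⟨g' * g, Or.inl ⟨by rw [mul_smul, h1, h3], by rw [mul_smul, h2, h4]⟩⟩
          · exact ⟨g' * g, Or.inr ⟨by rw [mul_smul, h1, h3], by rw [mul_smul, h2, h4]⟩⟩
          · exact ⟨g' * g, Or.inr ⟨by rw [mul_smul, h1, h4], by rw [mul_smul, h2, h3]⟩⟩
          · exact ⟨g' * g, Or.inl ⟨by rw [mul_smul, h1, h4], by rw [mul_smul, h2, h3]⟩⟩ }
  have hfin : Finite (Quotient r) := by
    have : Finite {e : V × V | e.1 ∈ F ∧ S.Adj e.1 e.2} := hE0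
    refine Finite.of_surjective
      (fun e : {e : V × V | e.1 ∈ F ∧ S.Adj e.1 e.2} => (Quotient.mk r ⟨e.1, e.2.2⟩)) ?_
    intro q
    induction q using Quotient.inductionOn with
    | h e =>
      obtain ⟨g, hg⟩ := hFv e.1.1
      refine ⟨⟨(g • e.1.1, g • e.1.2), hg, L.ta.adj g _ _ e.2⟩, ?_⟩
      apply Quotient.sound
      refine ⟨g⁻¹, Or.inl ⟨?_, ?_⟩⟩
      · exact inv_smul_smul _ _
      · exact inv_smul_smul _ _
  obtain ⟨n, ⟨φ⟩⟩ := Finite.exists_equiv_fin (Quotient r)
  set c : Fin n → V × V := fun i => (Quotient.out (φ.symm i)).1 with hc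
  have hcadj : ∀ i, S.Adj (c i).1 (c i).2 := fun i => (Quotient.out (φ.symm i)).2
  have hS : FGr G c = S := by
    ext a b
    constructor
    · rintro ⟨hne, i, g, ⟨h1, h2⟩ | ⟨h1, h2⟩⟩
      · rw [← h1, ← h2]
        exact L.ta.adj g _ _ (hcadj i)
      · rw [← h1, ← h2]
        exact (L.ta.adj g _ _ (hcadj i)).symm
    · intro hab
      refine ⟨hab.ne, ?_⟩
      set e : E := ⟨(a, b), hab⟩ with he
      refine ⟨φ (Quotient.mk r e), ?_⟩
      have h1 : r.r (Quotient.out (φ.symm (φ (Quotient.mk r e)))) e := by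
        rw [Equiv.symm_apply_apply]
        exact Quotient.mk_out (s := r) e
      exact h1
  refine ⟨n, c, ⟨?_, ?_, ?_⟩, hS⟩
  · rw [hS]
    exact L.ta
  · exact fun i => (hcadj i).ne
  · intro i j hij g
    have key : ¬ r.r (Quotient.out (φ.symm i)) (Quotient.out (φ.symm j)) := by
      intro h
      apply hij
      have h2 : (Quotient.mk r (Quotient.out (φ.symm i))) =
          (Quotient.mk r (Quotient.out (φ.symm j))) := Quotient.sound h
      rw [Quotient.out_eq, Quotient.out_eq] at h2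
      exact φ.symm.injective h2
    constructor
    · intro h
      exact key ⟨g, Or.inl h⟩
    · intro h
      exact key ⟨g, Or.inr h⟩

/-- (4.3) -/
theorem ns4_min_stab {S S' : SimpleGraph V}
    (L : TLat G S) (L' : TLat G S')
    {n : ℕ} (c : Fin n → V × V) (hc : FGood G c) (hm : FMin G S' c)
    (v x z : V) (hvx : (FGr G c).Adj v x) (hz : Bt S' v z x) (hzv : z ≠ v) :
    ∀ g : G, g • v = v → g • z = z → g • x = x := by
  intro g hgv hgz
  have hfix : ∀ k : G, k • v = v → k • x = x → k • z = z := fun k h1 h2 =>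
    min1_fix L'.ta k h1 h2 hz
  by_cases hcase : ∀ a b : V, (FGr G c).Adj a b → Bt (FGr G c) v a z → Bt (FGr G c) v b z →
      ∀ g : G, ¬ (g • v = a ∧ g • x = b) ∧ ¬ (g • v = b ∧ g • x = a)
  · exfalso
    have h1 := min1_slide L'.ta c hc hm v x z hvx hcase hfix
    have h2 : S'.dist v z + S'.dist z x = S'.dist v x := hz
    have h3 : 0 < S'.dist v z := L'.ta.tree.connected.pos_dist_of_ne hzv.symm
    omega
  · push Not at hcase
    obtain ⟨a, b, hab, ha, hb, g0, hg0⟩ := hcase
    -- elements fixing v and z fix the translate of the edge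
    have hsub : ∀ k : G, k • v = v → k • z = z → k • g0 • v = g0 • v ∧ k • g0 • x = g0 • x := by
      intro k h1 h2
      have ka := min1_fix hc.1 k h1 h2 ha
      have kb := min1_fix hc.1 k h1 h2 hb
      by_cases h : g0 • v = a ∧ g0 • x = b
      · rw [h.1, h.2]; exact ⟨ka, kb⟩
      · have h' : g0 • v = b ∧ g0 • x = a := hg0 (fun e1 e2 => h ⟨e1, e2⟩)
        rw [h'.1, h'.2]; exact ⟨kb, ka⟩
    have hci := L.cinv v x g0 (fun k h1 h2 => hsub k h1 (hfix k h1 h2))
    obtain ⟨e1, e2⟩ := hsub g hgv hgz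
    exact (hci g e1 e2).2

/-- (4.4) -/
theorem ns4_min_overlap {S S' : SimpleGraph V}
    (L : TLat G S) (L' : TLat G S')
    {n : ℕ} (c : Fin n → V × V) (hc : FGood G c) (hm : FMin G S' c)
    (v x y : V) (hx : (FGr G c).Adj v x) (hy : (FGr G c).Adj v y) (hxy : x ≠ y) :
    S'.dist v x ≤ S'.dist x y ∧
    (S'.dist v x = S'.dist x y → ∀ g : G, ¬ (g • v = v ∧ g • x = y) ∧ ¬ (g • v = y ∧ g • x = v)) ∧
    (S'.dist v x = S'.dist x y → ∀ g : G, g • v = v → g • x = x → g • y = y) := by
  have h' := L'.ta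
  obtain ⟨m, m1, m2, m3⟩ := st_median h'.tree v x y
  -- m1 : Bt v m x, m2 : Bt x m y, m3 : Bt v m y
  have d1 : S'.dist v m + S'.dist m x = S'.dist v x := m1
  have d2 : S'.dist x m + S'.dist m y = S'.dist x y := m2
  have d3 : S'.dist v m + S'.dist m y = S'.dist v y := m3
  have dc : S'.dist x m = S'.dist m x := SimpleGraph.dist_comm
  by_cases hmv : m = v
  · subst hmv
    have h0 : 0 < S'.dist m y := h'.tree.connected.pos_dist_of_ne hy.ne
    refine ⟨by omega, fun h => ?_, fun h => ?_⟩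
    · omega
    · omega
  -- the stabilizers agree
  have sx := ns4_min_stab L L' c hc hm v x m hx m1 hmv
  have sy := ns4_min_stab L L' c hc hm v y m hy m3 hmv
  have hC : ∀ g : G, g • v = v → g • x = x → g • y = y := fun g h1 h2 =>
    sy g h1 (min1_fix h' g h1 h2 m1)
  -- no element of the stabilizer of v maps x to y
  have hi : ∀ g : G, ¬ (g • v = v ∧ g • x = y) := by
    rintro g ⟨h1, h2⟩
    have e0 : S'.dist v (g • m) = S'.dist v m := by
      conv_lhs => rw [← h1]
      exact ta_dist h' g _ _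
    have e1 : S'.dist (g • m) y = S'.dist m x := by
      rw [← h2]; exact ta_dist h' g _ _
    have e2 : S'.dist v y = S'.dist v x := by
      conv_lhs => rw [← h2, ← h1]
      exact ta_dist h' g _ _
    have e3 : g • m = m := by
      refine st_pt_uniq h'.tree (y := y) ?_ m3 e0
      show S'.dist v (g • m) + S'.dist (g • m) y = S'.dist v y
      omega
    exact hxy ((sx g h1 e3).symm.trans h2)
  -- edges in the same orbit up to reversal
  have hii : ∀ g : G, g • v = y → g • x = v → S'.dist v x < S'.dist x y := by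
    intro g h1 h2
    by_contra hlt
    push Not at hlt
    have hgg : g • g • x = y := by rw [h2, h1]
    have hg2 : (g ^ 2) • x = y := by rw [pow_two, mul_smul, hgg]
    have hx1 : S'.dist x (g • x) = S'.dist v x := by rw [h2, SimpleGraph.dist_comm]
    -- g is elliptic on S'
    have htl : tl S' g = 0 := by
      by_contra hne
      have hpos : 0 < tl S' g := Nat.pos_of_ne_zero hne
      obtain ⟨w2, hw2, e2⟩ := tl_disp h' (g ^ 2) x
      rw [cc_pow h' g hpos 2 (by norm_num)] at hw2
      have e3 : S'.dist x (g • x) ≤ S'.dist x w2 + S'.dist w2 (g • w2) +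
          S'.dist (g • w2) (g • x) := by
        refine (h'.tree.connected.dist_triangle (v := g • w2)).trans ?_
        exact Nat.add_le_add_right (h'.tree.connected.dist_triangle (v := w2)) _
      rw [ta_dist h'] at e3
      have e4 : S'.dist w2 (g • w2) = tl S' g := hw2
      have e5 : S'.dist w2 x = S'.dist x w2 := SimpleGraph.dist_comm
      rw [tl_pow h', hg2] at e2
      omega
    obtain ⟨u, hu⟩ := (tl_eq_zero h' g).mp htl
    have htl2 : tl (FGr G c) g = 0 := (tl_eq_zero hc.1 g).mpr ⟨u, hu⟩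
    obtain ⟨w, -, hw⟩ := tl_disp hc.1 g x
    rw [h2, htl2, SimpleGraph.dist_eq_one_iff_adj.mpr hx.symm] at hw
    omega
  by_cases hrev : ∃ g : G, g • v = y ∧ g • x = v
  · obtain ⟨g, h1, h2⟩ := hrev
    have := hii g h1 h2
    exact ⟨this.le, fun h => by omega, fun h => by omega⟩
  push Not at hrev
  refine ⟨?_, fun _ g => ⟨hi g, fun h => hrev g h.1 h.2⟩, fun _ => hC⟩
  -- slide the edge over the edge v y
  have hvy : (FGr G c).dist v y = 1 := SimpleGraph.dist_eq_one_iff_adj.mpr hy
  have hend : ∀ a, Bt (FGr G c) v a y → a = v ∨ a = y := by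
    intro a ha
    have ha' : (FGr G c).dist v a + (FGr G c).dist a y = (FGr G c).dist v y := ha
    rw [hvy] at ha'
    have hcon := hc.1.tree.connected
    rcases Nat.eq_zero_or_pos ((FGr G c).dist v a) with h | h
    · exact Or.inl ((hcon.dist_eq_zero_iff).mp h).symm
    · exact Or.inr ((hcon.dist_eq_zero_iff).mp (by omega))
  have := min1_slide h' c hc hm v x y hx (by
    intro a b hab ha hb g
    rcases hend a ha with rfl | rfl <;> rcases hend b hb with rfl | rfl
    · exact absurd hab (SimpleGraph.irrefl _)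
    · exact ⟨hi g, fun h => hrev g h.1 h.2⟩
    · exact ⟨fun h => hrev g h.1 h.2, hi g⟩
    · exact absurd hab (SimpleGraph.irrefl _)) hC
  rwa [SimpleGraph.dist_comm (u := y)] at this

/-- one half of the comparison -/
theorem ns4_min2_key {S S' : SimpleGraph V}
    (L : TLat G S) (L' : TLat G S') (R : V → V → ℕ)
    (hR1 : ∀ (g : G) x m, R (g • x) (g • m) = R x m)
    (hR3 : ∀ x m x' m' m₁ m₁', S'.dist x m = S'.dist x' m' → Bt S' x m₁ m → Bt S' x' m₁' m' →
        S'.dist x m₁ = S'.dist x' m₁' → R x m₁ < R x' m₁' → R x m < R x' m')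
    {n : ℕ} (c : Fin n → V × V) (hc : FGood G c) (hm : FMin G S' c)
    (hm2 : ∀ c' : Fin n → V × V, FGood G c' →
      Relation.ReflTransGen (Slide G) (FGr G c) (FGr G c') → FE S' c' = FE S' c →
      FW S' R c ≤ FW S' R c')
    (v w x m : V) (hvw : (FGr G c).Adj v w) (hx : (FGr G c).Adj v x) (hxw : x ≠ w)
    (hd : S'.dist x w = S'.dist v x) (m1 : Bt S' v m w) (m2 : S'.dist v m = S'.dist m w) :
    R v m ≤ R w m := by
  have h' := L'.ta
  have ht := h'.tree
  obtain ⟨-, o2, o3⟩ := ns4_min_overlap L L' c hc hm v x w hx hvw hxw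
  obtain ⟨o4, -, -⟩ := ns4_min_overlap L L' c hc hm v w x hvw hx hxw.symm
  -- the median is m
  obtain ⟨q, q1, q2, q3⟩ := st_median ht v x w
  have f1 : S'.dist v q + S'.dist q x = S'.dist v x := q1
  have f2 : S'.dist x q + S'.dist q w = S'.dist x w := q2
  have f3 : S'.dist v q + S'.dist q w = S'.dist v w := q3
  have f4 : S'.dist v m + S'.dist m w = S'.dist v w := m1
  have f5 : S'.dist x q = S'.dist q x := SimpleGraph.dist_comm
  have hqm : q = m := st_pt_uniq ht q3 m1 (by omega)
  subst hqm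
  have f6 : S'.dist w x = S'.dist x w := SimpleGraph.dist_comm
  have f7 : S'.dist w q = S'.dist q w := SimpleGraph.dist_comm
  have f8 : S'.dist x v = S'.dist v x := SimpleGraph.dist_comm
  have f9 : S'.dist q v = S'.dist v q := SimpleGraph.dist_comm
  -- the slide
  obtain ⟨i, hg1, hgr, hfe, hfw⟩ := min2_repr h' R hR1 c hc v x hx
  set c1 := Function.update c i (v, x) with hc1
  have hci : c1 i = (v, x) := by rw [hc1, Function.update_self]
  have hend : ∀ a, Bt (FGr G c) v a w → a = v ∨ a = w := by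
    intro a ha
    have ha' : (FGr G c).dist v a + (FGr G c).dist a w = (FGr G c).dist v w := ha
    rw [SimpleGraph.dist_eq_one_iff_adj.mpr hvw] at ha'
    have hcon := hc.1.tree.connected
    rcases Nat.eq_zero_or_pos ((FGr G c).dist v a) with h | h
    · exact Or.inl ((hcon.dist_eq_zero_iff).mp h).symm
    · exact Or.inr ((hcon.dist_eq_zero_iff).mp (by omega))
  have hms := multislide c1 hg1 i w (by
    rw [hci, hgr]
    intro a b hab ha hb g
    have o2' := o2 hd.symm g
    rcases hend a ha with rfl | rfl <;> rcases hend b hb with rfl | rfl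
    · exact absurd hab (SimpleGraph.irrefl _)
    · exact o2'
    · exact ⟨fun h => o2'.2 h, fun h => o2'.1 h⟩
    · exact absurd hab (SimpleGraph.irrefl _)) (by
    rw [hci]
    exact fun g h1 h2 => o3 hd.symm g h1 h2)
  have h3 := min2_fe_update S' c1 i (w, (c1 i).2)
  have h4 := min2_fw_update S' R c1 i (w, (c1 i).2)
  have h5 := hm2 _ hms.1 (by rw [← hgr]; exact hms.2)
  rw [hci] at h3 h4 h5
  simp only at h3 h4 h5
  have h6 := h5 (by omega)
  -- the halves
  obtain ⟨n0, n01, n02⟩ := st_pt ht x q ((S'.dist x v + 1) / 2) (by omega)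
  have n03 : S'.dist x n0 + S'.dist n0 q = S'.dist x q := n02
  have hb : ∀ z, Bt S' x q z → Bt S' x n0 z := by
    intro z hz
    have hz' : S'.dist x q + S'.dist q z = S'.dist x z := hz
    have t1 := ht.connected.dist_triangle (u := n0) (v := q) (w := z)
    have t2 := ht.connected.dist_triangle (u := x) (v := n0) (w := z)
    show S'.dist x n0 + S'.dist n0 z = S'.dist x z
    omega
  have e1 : halfRk S' R x v = R x n0 := min2_half ht R n01 (hb v (by
    show S'.dist x q + S'.dist q v = S'.dist x v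
    omega))
  have e2 : halfRk S' R x w = R x n0 := min2_half ht R (by rw [n01]; omega) (hb w (by
    show S'.dist x q + S'.dist q w = S'.dist x w
    omega))
  have hc2 : ∀ a, Bt S' a q x → S'.dist a q = S'.dist v q → ∃ n1, Bt S' a q n1 ∧ Bt S' a n1 x ∧
      S'.dist a n1 = (S'.dist a x + 1) / 2 := by
    intro a ha hav
    have ha' : S'.dist a q + S'.dist q x = S'.dist a x := ha
    obtain ⟨n1, n11, n12⟩ := st_pt ht a x ((S'.dist a x + 1) / 2) (by omega)
    exact ⟨n1, (st_seg ht ha n12 (by omega)).1, n12, n11⟩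
  obtain ⟨n1, n11, n12, n13⟩ := hc2 v q1 rfl
  obtain ⟨n2, n21, n22, n23⟩ := hc2 w (by
    show S'.dist w q + S'.dist q x = S'.dist w x
    omega) (by omega)
  have e3 : halfRk S' R v x = R v n1 := min2_half ht R n13 n12
  have e4 : halfRk S' R w x = R w n2 := min2_half ht R n23 n22
  by_contra hlt
  push Not at hlt
  have := hR3 w n2 v n1 q q (by omega) n21 n11 (by omega) hlt
  omega

/-- (4.5): `c` is minimal for the lexicographic order of the two potentials -/
theorem ns4_min_tie {S S' : SimpleGraph V}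
    (L : TLat G S) (L' : TLat G S') (R : V → V → ℕ)
    (hR1 : ∀ (g : G) x m, R (g • x) (g • m) = R x m)
    (hR2 : ∀ x m x' m', R x m = R x' m' → S'.dist x m = S'.dist x' m' →
        ∃ g : G, g • x = x' ∧ g • m = m')
    (hR3 : ∀ x m x' m' m₁ m₁', S'.dist x m = S'.dist x' m' → Bt S' x m₁ m → Bt S' x' m₁' m' →
        S'.dist x m₁ = S'.dist x' m₁' → R x m₁ < R x' m₁' → R x m < R x' m')
    {n : ℕ} (c : Fin n → V × V) (hc : FGood G c) (hm : FMin G S' c)
    (hm2 : ∀ c' : Fin n → V × V, FGood G c' →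
      Relation.ReflTransGen (Slide G) (FGr G c) (FGr G c') → FE S' c' = FE S' c →
      FW S' R c ≤ FW S' R c')
    (v w x y : V) (hvw : (FGr G c).Adj v w) (hx : (FGr G c).Adj v x) (hy : (FGr G c).Adj w y)
    (hxw : x ≠ w) (hyv : y ≠ v) :
    ¬ (S'.dist x w = S'.dist v x ∧ S'.dist v y = S'.dist w y) := by
  rintro ⟨hd1, hd2⟩
  have h' := L'.ta
  have ht := h'.tree
  obtain ⟨m, m1, m2, m3⟩ := st_median ht v x w
  have f1 : S'.dist v m + S'.dist m x = S'.dist v x := m1
  have f2 : S'.dist x m + S'.dist m w = S'.dist x w := m2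
  have f3 : S'.dist v m + S'.dist m w = S'.dist v w := m3
  have f4 : S'.dist x m = S'.dist m x := SimpleGraph.dist_comm
  have f5 : S'.dist w m = S'.dist m w := SimpleGraph.dist_comm
  have f6 : S'.dist m v = S'.dist v m := SimpleGraph.dist_comm
  have f7 : S'.dist w v = S'.dist v w := SimpleGraph.dist_comm
  have f8 : S'.dist y v = S'.dist v y := SimpleGraph.dist_comm
  have k1 := ns4_min2_key L L' R hR1 hR3 c hc hm hm2 v w x m hvw hx hxw hd1 m3 (by omega)
  have k2 := ns4_min2_key L L' R hR1 hR3 c hc hm hm2 w v y m hvw.symm hy hyv (by omega) (by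
    show S'.dist w m + S'.dist m v = S'.dist w v
    omega) (by omega)
  obtain ⟨g, g1, g2⟩ := hR2 v m w m (le_antisymm k1 k2) (by omega)
  have htl2 : tl (FGr G c) g = 0 := (tl_eq_zero hc.1 g).mpr ⟨m, g2⟩
  obtain ⟨u, -, hu⟩ := tl_disp hc.1 g v
  rw [g1, htl2, SimpleGraph.dist_eq_one_iff_adj.mpr hvw] at hu
  omega

/-- (4.6) -/
theorem ns4_niel_tight {S S' : SimpleGraph V}
    (L : TLat G S) (L' : TLat G S') (R : V → V → ℕ)
    (hR1 : ∀ (g : G) x m, R (g • x) (g • m) = R x m)
    (hR2 : ∀ x m x' m', R x m = R x' m' → S'.dist x m = S'.dist x' m' →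
        ∃ g : G, g • x = x' ∧ g • m = m')
    (hR3 : ∀ x m x' m' m₁ m₁', S'.dist x m = S'.dist x' m' → Bt S' x m₁ m → Bt S' x' m₁' m' →
        S'.dist x m₁ = S'.dist x' m₁' → R x m₁ < R x' m₁' → R x m < R x' m')
    {n : ℕ} (c : Fin n → V × V) (hc : FGood G c) (hm : FMin G S' c)
    (hm2 : ∀ c' : Fin n → V × V, FGood G c' →
      Relation.ReflTransGen (Slide G) (FGr G c) (FGr G c') → FE S' c' = FE S' c →
      FW S' R c ≤ FW S' R c') (a b : V) :
    (FGr G c).dist a b ≤ S'.dist a b := by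
  have ht := hc.1.tree
  have ht' := L'.ta.tree
  have hx : ∀ i, ∃ m, i ≤ (FGr G c).dist a b → ((FGr G c).dist a m = i ∧ Bt (FGr G c) a m b) := by
    intro i
    by_cases hi : i ≤ (FGr G c).dist a b
    · obtain ⟨m, h1, h2⟩ := st_pt ht a b i hi
      exact ⟨m, fun _ => ⟨h1, h2⟩⟩
    · exact ⟨a, fun h => absurd h hi⟩
  choose x hx using hx
  have hx0 : x 0 = a := ((ht.connected.dist_eq_zero_iff).mp (hx 0 (Nat.zero_le _)).1).symm
  have hxn : x ((FGr G c).dist a b) = b := by
    have h1 := hx _ le_rfl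
    have h2 : (FGr G c).dist a (x ((FGr G c).dist a b)) +
      (FGr G c).dist (x ((FGr G c).dist a b)) b = (FGr G c).dist a b := h1.2
    exact (ht.connected.dist_eq_zero_iff).mp (by omega)
  have hd : ∀ i j, i ≤ j → j ≤ (FGr G c).dist a b → (FGr G c).dist (x i) (x j) = j - i := by
    intro i j hij hj
    have h1 := hx i (hij.trans hj)
    have h2 := hx j hj
    have h3 : (FGr G c).dist a (x i) + (FGr G c).dist (x i) (x j) = (FGr G c).dist a (x j) :=
      (st_seg ht h1.2 h2.2 (by omega)).1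
    omega
  have hadj : ∀ i, i + 1 ≤ (FGr G c).dist a b → (FGr G c).Adj (x i) (x (i + 1)) := by
    intro i hi
    refine SimpleGraph.dist_eq_one_iff_adj.mp ?_
    rw [hd i (i + 1) (by omega) hi]; omega
  have hne2 : ∀ i, i + 2 ≤ (FGr G c).dist a b → x i ≠ x (i + 2) := by
    intro i hi he
    have := hd i (i + 2) (by omega) hi
    rw [← he, SimpleGraph.dist_self] at this
    omega
  have hpar : ∀ i, Even (S'.dist (x i) (x (i + 1)) + S'.dist (x (i + 1)) (x (i + 2)) +
      S'.dist (x i) (x (i + 2))) := fun i => st_parity ht' _ _ _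
  have htri : ∀ i, S'.dist (x i) (x (i + 2)) ≤ S'.dist (x i) (x (i + 1)) +
      S'.dist (x (i + 1)) (x (i + 2)) := fun i => ht'.connected.dist_triangle
  have hov : ∀ i, i + 1 < (FGr G c).dist a b →
      S'.dist (x i) (x (i + 1)) ≤ S'.dist (x i) (x (i + 2)) ∧
      S'.dist (x (i + 1)) (x (i + 2)) ≤ S'.dist (x i) (x (i + 2)) := by
    intro i hi
    have a1 := hadj i (by omega)
    have a2 := hadj (i + 1) (by omega)
    have h1 := (ns4_min_overlap L L' c hc hm (x (i + 1)) (x i) (x (i + 2)) a1.symm a2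
      (hne2 i (by omega))).1
    have h2 := (ns4_min_overlap L L' c hc hm (x (i + 1)) (x (i + 2)) (x i) a2 a1.symm
      (hne2 i (by omega)).symm).1
    rw [SimpleGraph.dist_comm (u := x (i + 1)) (v := x i)] at h1
    rw [SimpleGraph.dist_comm (u := x (i + 2)) (v := x i)] at h2
    exact ⟨h1, h2⟩
  have hpos : ∀ i, i < (FGr G c).dist a b → 0 < S'.dist (x i) (x (i + 1)) := by
    intro i hi
    exact ht'.connected.pos_dist_of_ne (hadj i (by omega)).ne
  have key := st_tight ht' ((FGr G c).dist a b) x (fun i => S'.dist (x i) (x (i + 1)))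
    (fun i => (S'.dist (x i) (x (i + 1)) + S'.dist (x (i + 1)) (x (i + 2)) -
      S'.dist (x i) (x (i + 2))) / 2) (fun i _ => rfl) (fun i hi => hpos i hi) ?_ ?_ ?_ ?_
  · rw [hx0, hxn] at key; exact key
  · intro i hi
    have h1 := hpar i
    have h2 := htri i
    rw [Nat.even_iff] at h1
    rw [show i + 1 + 1 = i + 2 from rfl]
    omega
  · intro i hi
    have h1 := hpar i
    have h2 := htri i
    have h3 := hov i hi
    have h4 := hpos i (by omega)
    rw [Nat.even_iff] at h1
    omega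
  · intro i hi
    have h1 := hpar i
    have h2 := htri i
    have h3 := hov i hi
    have h4 := hpos (i + 1) (by omega)
    rw [Nat.even_iff] at h1
    rw [show i + 1 + 1 = i + 2 from rfl] at h4 ⊢
    omega
  · intro i hi
    have h1 := hpar i
    have h2 := htri i
    have h3 := hov i (by omega)
    have h1' := hpar (i + 1)
    have h2' := htri (i + 1)
    have h3' := hov (i + 1) (by omega)
    have h4 := hpos (i + 1) (by omega)
    have a1 := hadj i (by omega)
    have a2 := hadj (i + 1) (by omega)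
    have a3 := hadj (i + 2) (by omega)
    have htie := ns4_min_tie L L' R hR1 hR2 hR3 c hc hm hm2 (x (i + 1)) (x (i + 2)) (x i) (x (i + 3))
      a2 a1.symm a3 (hne2 i (by omega)) (hne2 (i + 1) (by omega)).symm
    rw [Nat.even_iff] at h1 h1'
    rw [SimpleGraph.dist_comm (u := x (i + 1)) (v := x i)] at htie
    rw [show i + 1 + 1 = i + 2 from rfl, show i + 1 + 2 = i + 3 from rfl] at *
    omega

/-- Theorem N -/
theorem tniel {S S' : SimpleGraph V}
    (L : TLat G S) (L' : TLat G S') : Relation.ReflTransGen (Slide G) S S' := by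
  classical
  obtain ⟨R, hR1, hR2, hR3⟩ := rank_exists L'.ta L'.loc L'.fin
  obtain ⟨n, c0, hc0, hS⟩ := ns4_fam L
  -- minimal families
  have hex : ∃ e, ∃ c : Fin n → V × V, FGood G c ∧
      Relation.ReflTransGen (Slide G) S (FGr G c) ∧ FE S' c = e :=
    ⟨_, c0, hc0, by rw [hS], rfl⟩
  have hex2 : ∃ f, ∃ c : Fin n → V × V, FGood G c ∧
      Relation.ReflTransGen (Slide G) S (FGr G c) ∧ FE S' c = Nat.find hex ∧ FW S' R c = f := by
    obtain ⟨c, h1, h2, h3⟩ := Nat.find_spec hex
    exact ⟨_, c, h1, h2, h3, rfl⟩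
  obtain ⟨c, hc, hr, he, hf⟩ := Nat.find_spec hex2
  have hm : FMin G S' c := by
    intro c' hc' hr'
    rw [he]
    exact Nat.find_min' hex ⟨c', hc', hr.trans hr', rfl⟩
  have hm2 : ∀ c' : Fin n → V × V, FGood G c' →
      Relation.ReflTransGen (Slide G) (FGr G c) (FGr G c') → FE S' c' = FE S' c →
      FW S' R c ≤ FW S' R c' := by
    intro c' hc' hr' he'
    rw [hf]
    exact Nat.find_min' hex2 ⟨c', hc', hr.trans hr', by rw [he', he], rfl⟩
  have htight := ns4_niel_tight L L' R hR1 hR2 hR3 c hc hm hm2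
  have hle : S' ≤ FGr G c := by
    intro a b hab
    have h1 := htight a b
    rw [SimpleGraph.dist_eq_one_iff_adj.mpr hab] at h1
    have h2 := hc.1.tree.connected.pos_dist_of_ne hab.ne
    exact SimpleGraph.dist_eq_one_iff_adj.mp (by omega)
  have heq : S' = FGr G c :=
    le_antisymm hle ((SimpleGraph.isTree_iff_minimal_connected.mp hc.1.tree).2
      L'.ta.tree.connected hle)
  rw [heq]
  exact hr

end LatN
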