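import Pool.Agent.Lib.MP_32d917_al.NDefs
import Pool.Agent.Lib.MP_32d917_al.RED

/-!
# Reduction of lattices in products of finitely many trees
-/

set_option autoImplicit false

namespace LatN

open LatIso

/-- number of orbits on one tree -/
noncomputable def nredN (G V : Type) [Group G] [MulAction G V] : ℕ :=
  Nat.card (MulAction.orbitRel.Quotient G V)

theorem nred_fin {G V : Type} [Group G] [MulAction G V]
    (fin : ∃ F : Finset V, ∀ v, ∃ g : G, g • v ∈ F) :
    Finite (MulAction.orbitRel.Quotient G V) := by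
  obtain ⟨F, hF⟩ := fin
  let f : F → MulAction.orbitRel.Quotient G V := fun x => Quotient.mk'' x.1
  refine Finite.of_surjective f ?_
  intro q
  induction q using Quotient.inductionOn' with
  | h x =>
    obtain ⟨g, hg⟩ := hF x
    refine ⟨⟨_, hg⟩, ?_⟩
    apply Quotient.sound'
    exact ⟨g, rfl⟩

theorem nred_lt {G V V₁ : Type} [Group G] [MulAction G V] [MulAction G V₁] {i : V₁ → V}
    (fin : ∃ F : Finset V, ∀ v, ∃ g : G, g • v ∈ F) (gi : ∀ (g : G) a, i (g • a) = g • i a)
    (ii : Function.Injective i) (v : V) (hv : ∀ a, i a ≠ v) : nredN G V₁ < nredN G V := by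
  have := nred_fin fin
  let f : MulAction.orbitRel.Quotient G V₁ → MulAction.orbitRel.Quotient G V :=
    Quotient.map' i (by
      rintro a b ⟨g, hg⟩
      refine ⟨g, ?_⟩
      have h1 : g • b = a := hg
      show g • i b = i a
      rw [← h1]
      exact (gi g b).symm)
  have hf : Function.Injective f := by
    intro q q' h
    induction q using Quotient.inductionOn' with
    | h a =>
      induction q' using Quotient.inductionOn' with
      | h b =>
        have h1 := Quotient.exact h
        obtain ⟨g, hg⟩ := h1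
        apply Quotient.sound'
        refine ⟨g, ?_⟩
        have h2 : g • i b = i a := hg
        show g • b = a
        apply ii
        rw [gi]
        exact h2
  have hns : ¬ Function.Surjective f := by
    intro hs
    obtain ⟨q, hq⟩ := hs (Quotient.mk'' v)
    induction q using Quotient.inductionOn' with
    | h a =>
      obtain ⟨g, hg⟩ := Quotient.exact hq
      have h3 : g • v = i a := hg
      apply hv (g⁻¹ • a)
      rw [gi, ← h3, inv_smul_smul]
  unfold nredN
  have : Finite (MulAction.orbitRel.Quotient G V₁) := Finite.of_injective f hf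
  have h5 : Nat.card (MulAction.orbitRel.Quotient G V₁) ≤
      Nat.card (MulAction.orbitRel.Quotient G V) := Nat.card_le_card_of_injective f hf
  refine lt_of_le_of_ne h5 ?_
  intro heq
  apply hns
  have hb : Function.Bijective f := (Nat.bijective_iff_injective_and_card f).mpr ⟨hf, heq⟩
  exact hb.2

/-- one collapse -/
theorem nred_step {G V : Type} [Group G] [MulAction G V] {S : SimpleGraph V} (h : TA G S)
    (loc : ∀ v, (S.neighborSet v).Finite) (hl : Leafless S)
    (fin : ∃ F : Finset V, ∀ v, ∃ g : G, g • v ∈ F) (hS : ¬ Red G S) :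
    ∃ (V₁ : Type) (_ : MulAction G V₁) (S₁ : SimpleGraph V₁) (f : V₁ → V), TA G S₁ ∧
      (∀ v, (S₁.neighborSet v).Finite) ∧ Leafless S₁ ∧
      (∃ F : Finset V₁, ∀ v : V₁, ∃ g : G, g • v ∈ F) ∧ Function.Injective f ∧
      (∀ (g : G) (v : V₁), f (g • v) = g • f v) ∧ nredN G V₁ < nredN G V := by
  unfold Red at hS
  push Not at hS
  obtain ⟨v, x, hvx, h1, h2⟩ := hS
  -- the complement of the orbit of `v`
  let V₁ : Type := {y : V // ∀ g : G, g • v ≠ y}
  letI act : MulAction G V₁ :=
    { smul := fun g y => ⟨g • y.1, fun k hk => y.2 (g⁻¹ * k) (by rw [mul_smul, hk, inv_smul_smul])⟩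
      one_smul := fun y => Subtype.ext (one_smul G y.1)
      mul_smul := fun g k y => Subtype.ext (mul_smul g k y.1) }
  have hsm : ∀ (g : G) (y : V₁), (g • y).1 = g • y.1 := fun g y => rfl
  have hx : ∀ g : G, g • v ≠ x := h2
  have hgx : ∀ k g : G, g • v ≠ k • x := by
    intro k g hh
    apply hx (k⁻¹ * g)
    rw [mul_smul, hh, inv_smul_smul]
  classical
  let r : V → V₁ := fun y => if h : ∃ g : G, g • v = y then ⟨h.choose • x, hgx _⟩ else
    ⟨y, fun g hg => h ⟨g, hg⟩⟩
  have r1 : ∀ g : G, (r (g • v)).1 = g • x := by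
    intro g
    have hex : ∃ k : G, k • v = g • v := ⟨g, rfl⟩
    have e1 : (r (g • v)).1 = hex.choose • x := by
      show (if h : ∃ k : G, k • v = g • v then (⟨h.choose • x, hgx _⟩ : V₁) else
        ⟨g • v, fun k hk => h ⟨k, hk⟩⟩).1 = _
      rw [dif_pos hex]
    have e2 := hex.choose_spec
    rw [e1]
    have e3 : (g⁻¹ * hex.choose) • v = v := by
      rw [mul_smul, e2, inv_smul_smul]
    have e4 := h1 _ e3
    rw [mul_smul, inv_smul_eq_iff] at e4
    exact e4
  have r2 : ∀ y : V, (∀ g : G, g • v ≠ y) → (r y).1 = y := by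
    intro y hy
    have hex : ¬ ∃ g : G, g • v = y := fun ⟨g, hg⟩ => hy g hg
    show (if h : ∃ k : G, k • v = y then (⟨h.choose • x, hgx _⟩ : V₁) else
        ⟨y, fun k hk => h ⟨k, hk⟩⟩).1 = _
    rw [dif_neg hex]
  have gr : ∀ (g : G) y, r (g • y) = g • r y := by
    intro g y
    apply Subtype.ext
    rw [hsm]
    by_cases hy : ∃ k : G, k • v = y
    · obtain ⟨k, rfl⟩ := hy
      rw [← mul_smul, r1, r1, mul_smul]
    · have hy1 : ∀ k : G, k • v ≠ y := fun k hk => hy ⟨k, hk⟩
      have hy2 : ∀ k : G, k • v ≠ g • y := fun k hk => hy1 (g⁻¹ * k) (by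
        rw [mul_smul, hk, inv_smul_smul])
      rw [r2 _ hy1, r2 _ hy2]
  have ad : ∀ y, y = (r y).1 ∨ S.Adj y (r y).1 := by
    intro y
    by_cases hy : ∃ k : G, k • v = y
    · obtain ⟨k, rfl⟩ := hy
      right
      rw [r1]
      exact h.adj k v x hvx
    · left
      exact (r2 y fun k hk => hy ⟨k, hk⟩).symm
  have ri : ∀ a : V₁, r a.1 = a := fun a => Subtype.ext (r2 a.1 a.2)
  have hT := h.tree
  refine ⟨V₁, act, rcG S r, fun a => a.1,
    ⟨red_tree (i := fun a : V₁ => a.1) hT ri ad, ?_, ?_⟩,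
    red_loc (i := fun a : V₁ => a.1) hT ri ad loc,
    ⟨red_two (i := fun a : V₁ => a.1) hT ri ad hl.two,
      red_three (i := fun a : V₁ => a.1) hT ri ad hl.two hl.three⟩, ?_,
    Subtype.val_injective, hsm,
    nred_lt (i := fun a : V₁ => a.1) fin hsm Subtype.val_injective v ?_⟩
  · rintro g a b ⟨hab, u, w, h', rfl, rfl⟩
    refine ⟨?_, g • u, g • w, h.adj g u w h', gr g u, gr g w⟩
    intro hh
    exact hab (MulAction.injective g hh)
  · rintro g a b ⟨hab, u, w, h', rfl, rfl⟩ h3 h4
    have e := red_dart (i := fun a : V₁ => a.1) hT ri ad h'.symm (h.adj g u w h') hab.symm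
      (by rw [gr, h3]) (by rw [gr, h4])
    exact h.noinv g u w h' e.1 e.2
  · obtain ⟨F, hF⟩ := fin
    refine ⟨F.image r, ?_⟩
    intro a
    obtain ⟨g, hg⟩ := hF a.1
    refine ⟨g, ?_⟩
    rw [Finset.mem_image]
    refine ⟨_, hg, ?_⟩
    rw [gr, ri]
  · intro a h3
    exact a.2 1 (by rw [one_smul]; exact h3.symm)

/-- reducing one tree -/
theorem red_one {G V : Type} [Group G] [MulAction G V] {S : SimpleGraph V} (h : TA G S)
    (loc : ∀ v, (S.neighborSet v).Finite) (h2 : Leafless S)
    (fin : ∃ F : Finset V, ∀ v, ∃ g : G, g • v ∈ F) :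
    ∃ (V₁ : Type) (_ : MulAction G V₁) (S₁ : SimpleGraph V₁) (f : V₁ → V), TA G S₁ ∧
      (∀ v, (S₁.neighborSet v).Finite) ∧ Leafless S₁ ∧ Red G S₁ ∧ Function.Injective f ∧
      ∀ (g : G) (v : V₁), f (g • v) = g • f v := by
  have key : ∀ n : ℕ, ∀ (V : Type) [MulAction G V] (S : SimpleGraph V), TA G S →
      (∀ v, (S.neighborSet v).Finite) → Leafless S → (∃ F : Finset V, ∀ v : V, ∃ g : G, g • v ∈ F) →
      nredN G V = n →
      ∃ (V₁ : Type) (_ : MulAction G V₁) (S₁ : SimpleGraph V₁) (f : V₁ → V), TA G S₁ ∧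
      (∀ v, (S₁.neighborSet v).Finite) ∧ Leafless S₁ ∧ Red G S₁ ∧ Function.Injective f ∧
      ∀ (g : G) (v : V₁), f (g • v) = g • f v := by
    intro n
    induction n using Nat.strong_induction_on with
    | _ n ih =>
      intro V _ S h loc h2 fin hn
      by_cases hS : Red G S
      · exact ⟨V, inferInstance, S, id, h, loc, h2, hS, Function.injective_id, fun g v => rfl⟩
      · obtain ⟨V₁, _, S₁, f, a1, a2, a3, a4, a5, a6, hlt⟩ := nred_step h loc h2 fin hS
        obtain ⟨V₂, inst, S₂, f', b1, b2, b3, b4, b5, b6⟩ :=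
          ih (nredN G V₁) (by rw [← hn]; exact hlt) V₁ S₁ a1 a2 a3 a4 rfl
        exact ⟨V₂, inst, S₂, fun v => f (f' v), b1, b2, b3, b4, a5.comp b5,
          fun g v => by
            show f (f' (g • v)) = g • f (f' v)
            rw [b6, a6]⟩
  exact key _ V S h loc h2 fin rfl

theorem nred_exists {n : ℕ} {G : Type} [Group G] {V : Fin (n + 1) → Type}
    [∀ i, MulAction G (V i)] {S : ∀ i, SimpleGraph (V i)} (L : NLat G S) : IsRedLattice G := by
  have fin1 : ∀ i, ∃ F : Finset (V i), ∀ v : V i, ∃ g : G, g • v ∈ F := by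
    intro i
    obtain ⟨F, hF⟩ := L.fin
    classical
    have hne : ∀ j, Nonempty (V j) := fun j => (L.ta j).tree.1.nonempty
    refine ⟨F.image (fun x => x i), fun v => ?_⟩
    obtain ⟨g, hg⟩ := hF (Function.update (fun j => Classical.choice (hne j)) i v)
    refine ⟨g, ?_⟩
    rw [Finset.mem_image]
    refine ⟨_, hg, ?_⟩
    simp
  choose V₁ act S₁ f h1 h2 h3 h4 h5 h6 using
    fun i => red_one (L.ta i) (L.loc i) (L.leafless i) (fin1 i)
  refine ⟨n, V₁, act, S₁, ⟨h1, h2, h3, ?_, ?_⟩, h4⟩
  · intro g x hx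
    refine L.free g (fun i => f i (x i)) ?_
    intro i
    rw [← h6, hx]
  · obtain ⟨F, hF⟩ := L.fin
    have hinj : Function.Injective (fun (x : ∀ i, V₁ i) (i : Fin (n + 1)) => f i (x i)) := by
      intro x y hxy
      funext i
      exact h5 i (congrFun hxy i)
    refine ⟨(F.finite_toSet.preimage hinj.injOn).toFinset, ?_⟩
    intro x
    obtain ⟨g, hg⟩ := hF (fun i => f i (x i))
    refine ⟨g, ?_⟩
    rw [Set.Finite.mem_toFinset]
    show (fun i => f i (g • x i)) ∈ F
    have : (fun i => f i (g • x i)) = fun i => g • f i (x i) := by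
      funext i
      exact h6 i g (x i)
    rw [this]
    exact hg

end LatN
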