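import Pool.Agent.Lib.MP_32d917_al.NDefs
import Pool.Agent.Lib.MP_32d917_al.SUBD

/-!
# Barycentric subdivision, n trees
-/

set_option autoImplicit false

namespace LatN

open LatIso

theorem nsubd {G : Type} [Group G] (h : IsTreeLattice G) :
    ∃ (n : ℕ) (V : Fin (n + 1) → Type) (_ : ∀ i, MulAction G (V i))
      (S : ∀ i, SimpleGraph (V i)), NLat G S := by
  obtain ⟨n, V, act, S, L⟩ := h
  have hadj : ∀ i (g : G) (x y : V i), (S i).Adj x y → (S i).Adj (g • x) (g • y) :=
    fun i g x y => L.adj g i x y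
  refine ⟨n, fun i => SbV (S i), fun i => sbAct (hadj i), fun i => sbG (S i), ?_⟩
  let _ : ∀ i, MulAction G (SbV (S i)) := fun i => sbAct (hadj i)
  refine ⟨fun i => sb_ta (L.tree i) (hadj i), fun i => sb_loc (L.loc i),
    fun i => ⟨sb_two (L.leafless i).two, sb_three (L.leafless i).three⟩, ?_, ?_⟩
  · intro g x hx
    have h1 : ∀ i, ∃ a : V i, (g ^ 2) • a = a := fun i => sb_sq (hadj i) g (x i) (hx i)
    choose a ha using h1
    by_contra hg
    exact L.tf g hg 2 (by omega) (L.free _ a ha)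
  · obtain ⟨F, hF⟩ := L.fin
    let Q : Set (∀ i, Sym2 (V i)) := ⋃ p ∈ F, {z | ∀ i, z i ∈
      ((fun b => s(p i, b)) '' (insert (p i) ((S i).neighborSet (p i))))}
    have hQ : Q.Finite := by
      apply Set.Finite.biUnion F.finite_toSet
      intro p _
      exact Set.Finite.pi' (fun i => ((L.loc i (p i)).insert _).image _)
    let f : (∀ i, SbV (S i)) → ∀ i, Sym2 (V i) := fun x i => (x i).1
    have hf : Function.Injective f := by
      intro x y hxy
      funext i
      exact Subtype.ext (congrFun hxy i)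
    have hQ2 : (f ⁻¹' Q).Finite := Set.Finite.preimage hf.injOn hQ
    refine ⟨hQ2.toFinset, ?_⟩
    intro x
    have hx : ∀ i, ∃ a b, (x i).1 = s(a, b) ∧ (a = b ∨ (S i).Adj a b) := fun i => (x i).2
    choose a b hab hab' using hx
    obtain ⟨g, hg⟩ := hF a
    refine ⟨g, ?_⟩
    rw [Set.Finite.mem_toFinset]
    show f _ ∈ Q
    refine Set.mem_iUnion₂.mpr ⟨_, hg, ?_⟩
    intro i
    refine ⟨g • b i, ?_, ?_⟩
    · rcases hab' i with h | h
      · left; rw [h]
      · right; exact L.adj g i _ _ h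
    · show s(g • a i, g • b i) = (x i).1.map (fun v => g • v)
      rw [hab i]; rfl

end LatN
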