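import Pool.Agent.Lib.MP_32d917_al.N.NCODE2

/-!
# Codes: surjectivity of the decoding, closed lists, spanning trees
-/

set_option autoImplicit false

namespace LatN

open LatIso

theorem ncode1_exists_dig_bd (s : ℕ × ℕ × ℕ) (n m : ℕ) (hn : n ≤ s.1 + s.2.1 + s.2.2)
    (hm : m + 1 ≤ (s.2.2 + 1) * (s.2.2 + 1)) (F : Fin (m + 1) → Fin (n + 1)) :
    ∃ w < bd s, ∀ a : Fin (m + 1), dig n w a = F a := by
  obtain ⟨w, hw, h⟩ := CB.exists_dig n m F
  refine ⟨w, lt_of_lt_of_le hw ?_, h⟩
  unfold bd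
  calc (n + 1) ^ (m + 1) ≤ (s.1 + s.2.1 + s.2.2 + 1) ^ (m + 1) :=
        Nat.pow_le_pow_left (by omega) _
    _ ≤ _ := Nat.pow_le_pow_right (by omega) hm

theorem ncode1_exists_dig2_bd (s : ℕ × ℕ × ℕ) (n : ℕ) (hn : n ≤ s.1 + s.2.1 + s.2.2)
    (F : Fin (s.2.2 + 1) → Fin (s.2.2 + 1) → Fin (n + 1)) :
    ∃ w < bd s, ∀ (a : Fin (s.2.2 + 1)) (b : Fin (s.2.2 + 1)),
      dig n w (a * (s.2.2 + 1) + b) = F a b := by
  obtain ⟨w, hw, h⟩ := CB.exists_dg n
    (fun t => if ht : t / (s.2.2 + 1) < s.2.2 + 1 then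
      ((F ⟨t / (s.2.2 + 1), ht⟩ ⟨t % (s.2.2 + 1), Nat.mod_lt _ (Nat.succ_pos _)⟩ : Fin (n + 1)) : ℕ)
      else 0)
    (fun t => by
      split_ifs with h
      · exact Fin.isLt _
      · exact Nat.succ_pos n) ((s.2.2 + 1) * (s.2.2 + 1))
  refine ⟨w, lt_of_lt_of_le hw ?_, fun a b => ?_⟩
  · unfold bd
    exact Nat.pow_le_pow_left (by omega) _
  · have h1 : (a : ℕ) * (s.2.2 + 1) + b < (s.2.2 + 1) * (s.2.2 + 1) := by
      have := a.2
      have := b.2
      calc (a : ℕ) * (s.2.2 + 1) + b < (a : ℕ) * (s.2.2 + 1) + (s.2.2 + 1) := by omega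
        _ = ((a : ℕ) + 1) * (s.2.2 + 1) := by ring
        _ ≤ _ := Nat.mul_le_mul_right _ (by omega)
    have h2 : ((a : ℕ) * (s.2.2 + 1) + b) / (s.2.2 + 1) = a := by
      rw [Nat.mul_comm, Nat.mul_add_div (Nat.succ_pos _), Nat.div_eq_of_lt b.2]
      simp
    have h3 : ((a : ℕ) * (s.2.2 + 1) + b) % (s.2.2 + 1) = b := by
      rw [Nat.mul_comm, Nat.mul_add_mod]
      exact Nat.mod_eq_of_lt b.2
    apply Fin.ext
    rw [CB.dig_val, h _ h1, dif_pos (by rw [h2]; exact a.2)]
    congr 2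
    · exact Fin.ext h2
    · exact Fin.ext h3

theorem ncode1_bd_p : Primrec bd := by
  unfold bd
  (repeat' (with_reducible first | assumption | exact CB.p_id | exact Primrec.const _ | exact CB.pp_const _ | apply CB.p_fst | apply CB.p_snd | apply CB.p_pair | apply CB.p_add | apply CB.p_sub | apply CB.p_mul | apply CB.p_div | apply CB.p_mod | apply CB.p_pow | apply ncode2_p_ty | apply ncode2_p_o | apply ncode2_p_i | apply ncode2_p_tr | apply CB.p_dg | apply CB.pp_all | apply CB.pp_ex | apply CB.pp_all_mem | apply CB.pp_ex_mem | apply CB.pp_and | apply CB.pp_or | apply CB.pp_not | apply CB.pp_iff | apply CB.pp_imp | apply CB.pp_eq | apply CB.pp_lt | apply CB.pp_le | apply CB.pp_mem))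

theorem ncode1_cstep_p {β : Type} [Primcodable β] {f g : β → Code} (hf : Primrec f)
    (hg : Primrec g) : PrimrecPred (fun x => CStep (f x) (g x)) :=
  ncstep_p.comp (CB.p_pair hf hg)

/-- a bounded version of the closure condition -/
def ncode1_ClosedAt (l : List Code) (x : Code) (s : ℕ × ℕ × ℕ) : Prop :=
  ∀ t1 < bd s, ∀ t2 < bd s, ∀ t3 < bd s, ∀ t4 < bd s,
    CStep x (s, (t1, t2, t3, t4)) → (s, (t1, t2, t3, t4)) ∈ l

theorem ncode1_closedAt_iff (l : List Code) (x : Code) (s : ℕ × ℕ × ℕ) :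
    ncode1_ClosedAt l x s ↔ ∀ t, InBox s t → CStep x (s, t) → (s, t) ∈ l := by
  constructor
  · rintro h ⟨t1, t2, t3, t4⟩ ⟨h1, h2, h3, h4⟩ h7
    exact h t1 h1 t2 h2 t3 h3 t4 h4 h7
  · intro h t1 h1 t2 h2 t3 h3 t4 h4 h7
    exact h _ ⟨h1, h2, h3, h4⟩ h7

theorem ncode1_closedAt_p : PrimrecPred (fun x : List Code × Code × ℕ × ℕ × ℕ =>
    ncode1_ClosedAt x.1 x.2.1 x.2.2) := by
  unfold ncode1_ClosedAt
  have hb : ∀ {β : Type} [Primcodable β] {f : β → ℕ × ℕ × ℕ}, Primrec f →
    Primrec (fun x => bd (f x)) := fun hf => ncode1_bd_p.comp hf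
  apply CB.pp_all
  · apply hb; (repeat' (with_reducible first | assumption | exact CB.p_id | exact Primrec.const _ | exact CB.pp_const _ | apply CB.p_fst | apply CB.p_snd | apply CB.p_pair | apply CB.p_add | apply CB.p_sub | apply CB.p_mul | apply CB.p_div | apply CB.p_mod | apply CB.p_pow | apply ncode2_p_ty | apply ncode2_p_o | apply ncode2_p_i | apply ncode2_p_tr | apply CB.p_dg | apply CB.pp_all | apply CB.pp_ex | apply CB.pp_all_mem | apply CB.pp_ex_mem | apply CB.pp_and | apply CB.pp_or | apply CB.pp_not | apply CB.pp_iff | apply CB.pp_imp | apply CB.pp_eq | apply CB.pp_lt | apply CB.pp_le | apply CB.pp_mem))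
  apply CB.pp_all
  · apply hb; (repeat' (with_reducible first | assumption | exact CB.p_id | exact Primrec.const _ | exact CB.pp_const _ | apply CB.p_fst | apply CB.p_snd | apply CB.p_pair | apply CB.p_add | apply CB.p_sub | apply CB.p_mul | apply CB.p_div | apply CB.p_mod | apply CB.p_pow | apply ncode2_p_ty | apply ncode2_p_o | apply ncode2_p_i | apply ncode2_p_tr | apply CB.p_dg | apply CB.pp_all | apply CB.pp_ex | apply CB.pp_all_mem | apply CB.pp_ex_mem | apply CB.pp_and | apply CB.pp_or | apply CB.pp_not | apply CB.pp_iff | apply CB.pp_imp | apply CB.pp_eq | apply CB.pp_lt | apply CB.pp_le | apply CB.pp_mem))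
  apply CB.pp_all
  · apply hb; (repeat' (with_reducible first | assumption | exact CB.p_id | exact Primrec.const _ | exact CB.pp_const _ | apply CB.p_fst | apply CB.p_snd | apply CB.p_pair | apply CB.p_add | apply CB.p_sub | apply CB.p_mul | apply CB.p_div | apply CB.p_mod | apply CB.p_pow | apply ncode2_p_ty | apply ncode2_p_o | apply ncode2_p_i | apply ncode2_p_tr | apply CB.p_dg | apply CB.pp_all | apply CB.pp_ex | apply CB.pp_all_mem | apply CB.pp_ex_mem | apply CB.pp_and | apply CB.pp_or | apply CB.pp_not | apply CB.pp_iff | apply CB.pp_imp | apply CB.pp_eq | apply CB.pp_lt | apply CB.pp_le | apply CB.pp_mem))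
  apply CB.pp_all
  · apply hb; (repeat' (with_reducible first | assumption | exact CB.p_id | exact Primrec.const _ | exact CB.pp_const _ | apply CB.p_fst | apply CB.p_snd | apply CB.p_pair | apply CB.p_add | apply CB.p_sub | apply CB.p_mul | apply CB.p_div | apply CB.p_mod | apply CB.p_pow | apply ncode2_p_ty | apply ncode2_p_o | apply ncode2_p_i | apply ncode2_p_tr | apply CB.p_dg | apply CB.pp_all | apply CB.pp_ex | apply CB.pp_all_mem | apply CB.pp_ex_mem | apply CB.pp_and | apply CB.pp_or | apply CB.pp_not | apply CB.pp_iff | apply CB.pp_imp | apply CB.pp_eq | apply CB.pp_lt | apply CB.pp_le | apply CB.pp_mem))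
  apply CB.pp_imp
  · apply ncode1_cstep_p <;> (repeat' (with_reducible first | assumption | exact CB.p_id | exact Primrec.const _ | exact CB.pp_const _ | apply CB.p_fst | apply CB.p_snd | apply CB.p_pair | apply CB.p_add | apply CB.p_sub | apply CB.p_mul | apply CB.p_div | apply CB.p_mod | apply CB.p_pow | apply ncode2_p_ty | apply ncode2_p_o | apply ncode2_p_i | apply ncode2_p_tr | apply CB.p_dg | apply CB.pp_all | apply CB.pp_ex | apply CB.pp_all_mem | apply CB.pp_ex_mem | apply CB.pp_and | apply CB.pp_or | apply CB.pp_not | apply CB.pp_iff | apply CB.pp_imp | apply CB.pp_eq | apply CB.pp_lt | apply CB.pp_le | apply CB.pp_mem))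
  · (repeat' (with_reducible first | assumption | exact CB.p_id | exact Primrec.const _ | exact CB.pp_const _ | apply CB.p_fst | apply CB.p_snd | apply CB.p_pair | apply CB.p_add | apply CB.p_sub | apply CB.p_mul | apply CB.p_div | apply CB.p_mod | apply CB.p_pow | apply ncode2_p_ty | apply ncode2_p_o | apply ncode2_p_i | apply ncode2_p_tr | apply CB.p_dg | apply CB.pp_all | apply CB.pp_ex | apply CB.pp_all_mem | apply CB.pp_ex_mem | apply CB.pp_and | apply CB.pp_or | apply CB.pp_not | apply CB.pp_iff | apply CB.pp_imp | apply CB.pp_eq | apply CB.pp_lt | apply CB.pp_le | apply CB.pp_mem))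

/-- number version of `Span` -/
def ncode1_SpN (X : Code) (p d : ℕ) (r : List ℕ) : Prop :=
  ∀ q < X.1.2.1 + 1, ¬ q = p % (X.1.2.1 + 1) →
    ncode2_o X (ncode2_i X (CB.dg X.1.2.2 d q)) = q ∧
      r.getD (ncode2_o X (CB.dg X.1.2.2 d q)) 0 < r.getD q 0

theorem ncode1_p_getD {β : Type} [Primcodable β] {f : β → List ℕ} {g : β → ℕ} (hf : Primrec f)
    (hg : Primrec g) : Primrec (fun x => (f x).getD (g x) 0) :=
  (Primrec.list_getD 0).comp hf hg

theorem ncode1_spN_p : PrimrecPred (fun x : Code × ℕ × ℕ × List ℕ =>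
    ncode1_SpN x.1 x.2.1 x.2.2.1 x.2.2.2) := by
  unfold ncode1_SpN
  (repeat' (with_reducible first | assumption | exact CB.p_id | exact Primrec.const _ | exact CB.pp_const _ | apply CB.p_fst | apply CB.p_snd | apply CB.p_pair | apply CB.p_add | apply CB.p_sub | apply CB.p_mul | apply CB.p_div | apply CB.p_mod | apply CB.p_pow | apply ncode2_p_ty | apply ncode2_p_o | apply ncode2_p_i | apply ncode2_p_tr | apply CB.p_dg | apply CB.pp_all | apply CB.pp_ex | apply CB.pp_all_mem | apply CB.pp_ex_mem | apply CB.pp_and | apply CB.pp_or | apply CB.pp_not | apply CB.pp_iff | apply CB.pp_imp | apply CB.pp_eq | apply CB.pp_lt | apply CB.pp_le | apply CB.pp_mem))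
  all_goals apply ncode1_p_getD <;> (repeat' (with_reducible first | assumption | exact CB.p_id | exact Primrec.const _ | exact CB.pp_const _ | apply CB.p_fst | apply CB.p_snd | apply CB.p_pair | apply CB.p_add | apply CB.p_sub | apply CB.p_mul | apply CB.p_div | apply CB.p_mod | apply CB.p_pow | apply ncode2_p_ty | apply ncode2_p_o | apply ncode2_p_i | apply ncode2_p_tr | apply CB.p_dg | apply CB.pp_all | apply CB.pp_ex | apply CB.pp_all_mem | apply CB.pp_ex_mem | apply CB.pp_and | apply CB.pp_or | apply CB.pp_not | apply CB.pp_iff | apply CB.pp_imp | apply CB.pp_eq | apply CB.pp_lt | apply CB.pp_le | apply CB.pp_mem))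

theorem ncode1_span_iff (x : Code) (p d : ℕ) (r : List ℕ) :
    Span (dec x.1 x.2) (decp x.1 p) (decd x.1 d) (fun q => r.getD q 0) ↔
      ncode1_SpN x p d r := by
  obtain ⟨s, t⟩ := x
  have vp : ((decp s p : Fin _) : ℕ) = p % (s.2.1 + 1) := rfl
  have vd : ∀ q, ((decd s d q : Fin _) : ℕ) = CB.dg s.2.2 d q := fun _ => rfl
  unfold Span ncode1_SpN
  simp only [Fin.ext_iff, ncode2_ty_val, ncode2_o_val, ncode2_i_val, ncode2_tr_val,
    Fin.forall_iff, ne_eq, vp, vd]

theorem ndec_surj (s : ℕ × ℕ × ℕ)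
    (X : Dat (Fin (s.1 + 1)) (Fin (s.2.1 + 1)) (Fin (s.2.2 + 1))) :
    ∃ t, InBox s t ∧ dec s t = X := by
  have e1 : s.2.2 + 1 ≤ (s.2.2 + 1) * (s.2.2 + 1) := Nat.le_mul_of_pos_right _ (Nat.succ_pos _)
  obtain ⟨t1, b1, h1⟩ := ncode1_exists_dig_bd s s.1 s.2.2 (by omega) e1 X.ty
  obtain ⟨t2, b2, h2⟩ := ncode1_exists_dig_bd s s.2.1 s.2.2 (by omega) e1 X.o
  obtain ⟨t3, b3, h3⟩ := ncode1_exists_dig_bd s s.2.2 s.2.2 (by omega) e1 X.i
  obtain ⟨t4, b4, h4⟩ := ncode1_exists_dig2_bd s s.2.2 (by omega) X.tr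
  refine ⟨(t1, t2, t3, t4), ⟨b1, b2, b3, b4⟩, ?_⟩
  cases X
  simp only [dec, Dat.mk.injEq]
  exact ⟨funext h1, funext h2, funext h3, funext fun a => funext (h4 a)⟩

theorem nclosed_p : PrimrecPred Closed := by
  have h1 : PrimrecPred (fun l : List Code => ∀ x ∈ l, ncode1_ClosedAt l x x.1) := by
    apply CB.pp_all_mem (p := fun l x => ncode1_ClosedAt l x x.1)
    · (repeat' (with_reducible first | assumption | exact CB.p_id | exact Primrec.const _ | exact CB.pp_const _ | apply CB.p_fst | apply CB.p_snd | apply CB.p_pair | apply CB.p_add | apply CB.p_sub | apply CB.p_mul | apply CB.p_div | apply CB.p_mod | apply CB.p_pow | apply ncode2_p_ty | apply ncode2_p_o | apply ncode2_p_i | apply ncode2_p_tr | apply CB.p_dg | apply CB.pp_all | apply CB.pp_ex | apply CB.pp_all_mem | apply CB.pp_ex_mem | apply CB.pp_and | apply CB.pp_or | apply CB.pp_not | apply CB.pp_iff | apply CB.pp_imp | apply CB.pp_eq | apply CB.pp_lt | apply CB.pp_le | apply CB.pp_mem))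
    · refine ncode1_closedAt_p.comp (f := fun x : List Code × Code => (x.1, x.2, x.2.1)) ?_
      (repeat' (with_reducible first | assumption | exact CB.p_id | exact Primrec.const _ | exact CB.pp_const _ | apply CB.p_fst | apply CB.p_snd | apply CB.p_pair | apply CB.p_add | apply CB.p_sub | apply CB.p_mul | apply CB.p_div | apply CB.p_mod | apply CB.p_pow | apply ncode2_p_ty | apply ncode2_p_o | apply ncode2_p_i | apply ncode2_p_tr | apply CB.p_dg | apply CB.pp_all | apply CB.pp_ex | apply CB.pp_all_mem | apply CB.pp_ex_mem | apply CB.pp_and | apply CB.pp_or | apply CB.pp_not | apply CB.pp_iff | apply CB.pp_imp | apply CB.pp_eq | apply CB.pp_lt | apply CB.pp_le | apply CB.pp_mem))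
  refine PrimrecPred.of_eq h1 ?_
  intro l
  simp only [ncode1_closedAt_iff]
  constructor
  · rintro h x hx ⟨s, t⟩ hy hs
    have hs' : s = x.1 := hs.1
    subst hs'
    exact h x hx t hy hs
  · intro h x hx
    exact fun t ht hs => h x hx _ ht hs

theorem ndecp_surj (s : ℕ × ℕ × ℕ) (q : Fin (s.2.1 + 1)) : ∃ p, decp s p = q :=
  ⟨q, Fin.ext (Nat.mod_eq_of_lt q.2)⟩

theorem ndecd_surj (s : ℕ × ℕ × ℕ) (δ : Fin (s.2.1 + 1) → Fin (s.2.2 + 1)) :
    ∃ d, decd s d = δ := by
  obtain ⟨w, -, h⟩ := CB.exists_dig s.2.2 s.2.1 δ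
  exact ⟨w, funext fun q => h q⟩

theorem nspan_p : PrimrecPred (fun x : Code × ℕ × ℕ × List ℕ =>
    Span (dec x.1.1 x.1.2) (decp x.1.1 x.2.1) (decd x.1.1 x.2.2.1)
      (fun q => x.2.2.2.getD q 0)) :=
  PrimrecPred.of_eq ncode1_spN_p fun x => (ncode1_span_iff x.1 x.2.1 x.2.2.1 x.2.2.2).symm

end LatN
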