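import Pool.Agent.Lib.MP_32d917_al.N.NCODE2

/-!
# Codes: isomorphism of decoded data is primitive recursive
-/

set_option autoImplicit false

namespace LatN

open LatIso

/-- number version of the isomorphism conditions -/
def ncode3_IsoN (X Y : Code) (e f g : ℕ) : Prop :=
  (∀ a < X.1.1 + 1, ∀ b < X.1.1 + 1, CB.dg X.1.1 e a = CB.dg X.1.1 e b → a = b) ∧
  (∀ a < X.1.2.1 + 1, ∀ b < X.1.2.1 + 1, CB.dg X.1.2.1 f a = CB.dg X.1.2.1 f b → a = b) ∧
  (∀ a < X.1.2.2 + 1, ∀ b < X.1.2.2 + 1, CB.dg X.1.2.2 g a = CB.dg X.1.2.2 g b → a = b) ∧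
  (∀ a < X.1.2.2 + 1, ncode2_ty Y (CB.dg X.1.2.2 g a) = CB.dg X.1.1 e (ncode2_ty X a)) ∧
  (∀ a < X.1.2.2 + 1, ncode2_o Y (CB.dg X.1.2.2 g a) = CB.dg X.1.2.1 f (ncode2_o X a)) ∧
  (∀ a < X.1.2.2 + 1, ncode2_i Y (CB.dg X.1.2.2 g a) = CB.dg X.1.2.2 g (ncode2_i X a)) ∧
  (∀ a < X.1.2.2 + 1, ∀ b < X.1.2.2 + 1, ncode2_o X a = ncode2_o X b →
    ¬ ncode2_ty X a = ncode2_ty X b →
    ncode2_tr Y (CB.dg X.1.2.2 g a) (CB.dg X.1.2.2 g b) = CB.dg X.1.2.2 g (ncode2_tr X a b))

theorem ncode3_isoN_iff (s : ℕ × ℕ × ℕ) (t t' : ℕ × ℕ × ℕ × ℕ) (e f g : ℕ)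
    (E : Fin (s.1 + 1) → Fin (s.1 + 1)) (F : Fin (s.2.1 + 1) → Fin (s.2.1 + 1))
    (G : Fin (s.2.2 + 1) → Fin (s.2.2 + 1))
    (hE : ∀ a : Fin (s.1 + 1), dig s.1 e a = E a)
    (hF : ∀ a : Fin (s.2.1 + 1), dig s.2.1 f a = F a)
    (hG : ∀ a : Fin (s.2.2 + 1), dig s.2.2 g a = G a) :
    (Function.Injective E ∧ Function.Injective F ∧ Function.Injective G ∧
    (∀ a, (dec s t').ty (G a) = E ((dec s t).ty a)) ∧
    (∀ a, (dec s t').o (G a) = F ((dec s t).o a)) ∧
    (∀ a, (dec s t').i (G a) = G ((dec s t).i a)) ∧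
    (∀ a b, (dec s t).o a = (dec s t).o b → (dec s t).ty a ≠ (dec s t).ty b →
      (dec s t').tr (G a) (G b) = G ((dec s t).tr a b))) ↔
      ncode3_IsoN (s, t) (s, t') e f g := by
  have hE' : ∀ a, ((E a : Fin _) : ℕ) = CB.dg s.1 e a := fun a => by rw [← hE a]; rfl
  have hF' : ∀ a, ((F a : Fin _) : ℕ) = CB.dg s.2.1 f a := fun a => by rw [← hF a]; rfl
  have hG' : ∀ a, ((G a : Fin _) : ℕ) = CB.dg s.2.2 g a := fun a => by rw [← hG a]; rfl
  unfold ncode3_IsoN Function.Injective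
  simp only [Fin.ext_iff, ncode2_ty_val, ncode2_o_val, ncode2_i_val, ncode2_tr_val, hE', hF', hG',
    Fin.forall_iff, ne_eq]

/-- bounded form of the isomorphism relation -/
def ncode3_IsoB (x : Code × Code) : Prop :=
  x.1.1 = x.2.1 ∧ ∃ e < (x.1.1.1 + 1) ^ (x.1.1.1 + 1), ∃ f < (x.1.1.2.1 + 1) ^ (x.1.1.2.1 + 1),
    ∃ g < (x.1.1.2.2 + 1) ^ (x.1.1.2.2 + 1), ncode3_IsoN x.1 (x.1.1, x.2.2) e f g

theorem ncode3_isoN_p : PrimrecPred (fun x : (Code × Code) × ℕ × ℕ × ℕ =>
    ncode3_IsoN x.1.1 (x.1.1.1, x.1.2.2) x.2.1 x.2.2.1 x.2.2.2) := by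
  unfold ncode3_IsoN
  (repeat' (with_reducible first | assumption | exact CB.p_id | exact Primrec.const _ | exact CB.pp_const _ | apply CB.p_fst | apply CB.p_snd | apply CB.p_pair | apply CB.p_add | apply CB.p_sub | apply CB.p_mul | apply CB.p_div | apply CB.p_mod | apply CB.p_pow | apply ncode2_p_ty | apply ncode2_p_o | apply ncode2_p_i | apply ncode2_p_tr | apply CB.p_dg | apply CB.pp_all | apply CB.pp_ex | apply CB.pp_all_mem | apply CB.pp_ex_mem | apply CB.pp_and | apply CB.pp_or | apply CB.pp_not | apply CB.pp_iff | apply CB.pp_imp | apply CB.pp_eq | apply CB.pp_lt | apply CB.pp_le | apply CB.pp_mem))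

theorem ncode3_isoB_p : PrimrecPred ncode3_IsoB := by
  unfold ncode3_IsoB
  apply CB.pp_and
  · (repeat' (with_reducible first | assumption | exact CB.p_id | exact Primrec.const _ | exact CB.pp_const _ | apply CB.p_fst | apply CB.p_snd | apply CB.p_pair | apply CB.p_add | apply CB.p_sub | apply CB.p_mul | apply CB.p_div | apply CB.p_mod | apply CB.p_pow | apply ncode2_p_ty | apply ncode2_p_o | apply ncode2_p_i | apply ncode2_p_tr | apply CB.p_dg | apply CB.pp_all | apply CB.pp_ex | apply CB.pp_all_mem | apply CB.pp_ex_mem | apply CB.pp_and | apply CB.pp_or | apply CB.pp_not | apply CB.pp_iff | apply CB.pp_imp | apply CB.pp_eq | apply CB.pp_lt | apply CB.pp_le | apply CB.pp_mem))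
  apply CB.pp_ex
  · (repeat' (with_reducible first | assumption | exact CB.p_id | exact Primrec.const _ | exact CB.pp_const _ | apply CB.p_fst | apply CB.p_snd | apply CB.p_pair | apply CB.p_add | apply CB.p_sub | apply CB.p_mul | apply CB.p_div | apply CB.p_mod | apply CB.p_pow | apply ncode2_p_ty | apply ncode2_p_o | apply ncode2_p_i | apply ncode2_p_tr | apply CB.p_dg | apply CB.pp_all | apply CB.pp_ex | apply CB.pp_all_mem | apply CB.pp_ex_mem | apply CB.pp_and | apply CB.pp_or | apply CB.pp_not | apply CB.pp_iff | apply CB.pp_imp | apply CB.pp_eq | apply CB.pp_lt | apply CB.pp_le | apply CB.pp_mem))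
  apply CB.pp_ex
  · (repeat' (with_reducible first | assumption | exact CB.p_id | exact Primrec.const _ | exact CB.pp_const _ | apply CB.p_fst | apply CB.p_snd | apply CB.p_pair | apply CB.p_add | apply CB.p_sub | apply CB.p_mul | apply CB.p_div | apply CB.p_mod | apply CB.p_pow | apply ncode2_p_ty | apply ncode2_p_o | apply ncode2_p_i | apply ncode2_p_tr | apply CB.p_dg | apply CB.pp_all | apply CB.pp_ex | apply CB.pp_all_mem | apply CB.pp_ex_mem | apply CB.pp_and | apply CB.pp_or | apply CB.pp_not | apply CB.pp_iff | apply CB.pp_imp | apply CB.pp_eq | apply CB.pp_lt | apply CB.pp_le | apply CB.pp_mem))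
  apply CB.pp_ex
  · (repeat' (with_reducible first | assumption | exact CB.p_id | exact Primrec.const _ | exact CB.pp_const _ | apply CB.p_fst | apply CB.p_snd | apply CB.p_pair | apply CB.p_add | apply CB.p_sub | apply CB.p_mul | apply CB.p_div | apply CB.p_mod | apply CB.p_pow | apply ncode2_p_ty | apply ncode2_p_o | apply ncode2_p_i | apply ncode2_p_tr | apply CB.p_dg | apply CB.pp_all | apply CB.pp_ex | apply CB.pp_all_mem | apply CB.pp_ex_mem | apply CB.pp_and | apply CB.pp_or | apply CB.pp_not | apply CB.pp_iff | apply CB.pp_imp | apply CB.pp_eq | apply CB.pp_lt | apply CB.pp_le | apply CB.pp_mem))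
  refine ncode3_isoN_p.comp
    (f := fun x : (((Code × Code) × ℕ) × ℕ) × ℕ => (x.1.1.1, x.1.1.2, x.1.2, x.2)) ?_
  (repeat' (with_reducible first | assumption | exact CB.p_id | exact Primrec.const _ | exact CB.pp_const _ | apply CB.p_fst | apply CB.p_snd | apply CB.p_pair | apply CB.p_add | apply CB.p_sub | apply CB.p_mul | apply CB.p_div | apply CB.p_mod | apply CB.p_pow | apply ncode2_p_ty | apply ncode2_p_o | apply ncode2_p_i | apply ncode2_p_tr | apply CB.p_dg | apply CB.pp_all | apply CB.pp_ex | apply CB.pp_all_mem | apply CB.pp_ex_mem | apply CB.pp_and | apply CB.pp_or | apply CB.pp_not | apply CB.pp_iff | apply CB.pp_imp | apply CB.pp_eq | apply CB.pp_lt | apply CB.pp_le | apply CB.pp_mem))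

theorem ncode3_iso_iff (x : Code × Code) :
    ncode3_IsoB x ↔ Iso (dec x.1.1 x.1.2) (dec x.2.1 x.2.2) := by
  obtain ⟨⟨s, t⟩, ⟨s', t'⟩⟩ := x
  constructor
  · rintro ⟨h0, e, -, f, -, g, -, hN⟩
    dsimp only at h0
    subst h0
    obtain ⟨iE, iF, iG, h1, h2, h3, h4⟩ :=
      (ncode3_isoN_iff s t t' e f g (fun a => dig s.1 e a) (fun a => dig s.2.1 f a)
        (fun a => dig s.2.2 g a) (fun _ => rfl) (fun _ => rfl) (fun _ => rfl)).2 hN
    exact ⟨Equiv.ofBijective _ (Finite.injective_iff_bijective.1 iE),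
      Equiv.ofBijective _ (Finite.injective_iff_bijective.1 iF),
      Equiv.ofBijective _ (Finite.injective_iff_bijective.1 iG), h1, h2, h3, h4⟩
  · rintro ⟨E, F, G, h1, h2, h3, h4⟩
    have c1 : s.1 = s'.1 := by
      have := Fintype.card_congr E
      simpa using this
    have c2 : s.2.1 = s'.2.1 := by
      have := Fintype.card_congr F
      simpa using this
    have c3 : s.2.2 = s'.2.2 := by
      have := Fintype.card_congr G
      simpa using this
    have hs : s = s' := Prod.ext c1 (Prod.ext c2 c3)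
    subst hs
    obtain ⟨e, he, he'⟩ := CB.exists_dig _ _ E
    obtain ⟨f, hf, hf'⟩ := CB.exists_dig _ _ F
    obtain ⟨g, hg, hg'⟩ := CB.exists_dig _ _ G
    exact ⟨rfl, e, he, f, hf, g, hg, (ncode3_isoN_iff s t t' e f g E F G he' hf' hg').1
      ⟨E.injective, F.injective, G.injective, h1, h2, h3, h4⟩⟩

theorem nciso_p : PrimrecPred (fun x : Code × Code =>
    Iso (dec x.1.1 x.1.2) (dec x.2.1 x.2.2)) :=
  PrimrecPred.of_eq ncode3_isoB_p ncode3_iso_iff

end LatN
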