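import Pool.Agent.Lib.MP_32d917_al.NDefs
import Pool.Agent.Lib.MP_32d917_al.CODEB
import Pool.Agent.Lib.MP_32d917_al.RE
import Pool.Agent.Lib.MP_32d917_al.N.NCODE1

/-!
# Codes: goodness of decoded data is recursively enumerable (several trees)
-/

set_option autoImplicit false

namespace LatN

open LatIso

/-! ### the entries of a code -/

def nc4ty (x : Code) (a : ℕ) : ℕ := LatIso.CB.dg x.1.1 x.2.1 a
def nc4o (x : Code) (a : ℕ) : ℕ := LatIso.CB.dg x.1.2.1 x.2.2.1 a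
def nc4i (x : Code) (a : ℕ) : ℕ := LatIso.CB.dg x.1.2.2 x.2.2.2.1 a
def nc4tr (x : Code) (a b : ℕ) : ℕ :=
  LatIso.CB.dg x.1.2.2 x.2.2.2.2 (a * (x.1.2.2 + 1) + b)

section Nc4Prims

variable {β : Type} [Primcodable β] {f : β → Code} {g h : β → ℕ}

theorem nc4_ty (hf : Primrec f) (hg : Primrec g) : Primrec (fun x => nc4ty (f x) (g x)) := by
  unfold nc4ty
  exact LatIso.CB.p_dg (LatIso.CB.p_fst (LatIso.CB.p_fst hf))
    (LatIso.CB.p_fst (LatIso.CB.p_snd hf)) hg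

theorem nc4_o (hf : Primrec f) (hg : Primrec g) : Primrec (fun x => nc4o (f x) (g x)) := by
  unfold nc4o
  exact LatIso.CB.p_dg (LatIso.CB.p_fst (LatIso.CB.p_snd (LatIso.CB.p_fst hf)))
    (LatIso.CB.p_fst (LatIso.CB.p_snd (LatIso.CB.p_snd hf))) hg

theorem nc4_i (hf : Primrec f) (hg : Primrec g) : Primrec (fun x => nc4i (f x) (g x)) := by
  unfold nc4i
  exact LatIso.CB.p_dg (LatIso.CB.p_snd (LatIso.CB.p_snd (LatIso.CB.p_fst hf)))
    (LatIso.CB.p_fst (LatIso.CB.p_snd (LatIso.CB.p_snd (LatIso.CB.p_snd hf)))) hg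

theorem nc4_tr (hf : Primrec f) (hg : Primrec g) (hh : Primrec h) :
    Primrec (fun x => nc4tr (f x) (g x) (h x)) := by
  unfold nc4tr
  exact LatIso.CB.p_dg (LatIso.CB.p_snd (LatIso.CB.p_snd (LatIso.CB.p_fst hf)))
    (LatIso.CB.p_snd (LatIso.CB.p_snd (LatIso.CB.p_snd (LatIso.CB.p_snd hf))))
    (LatIso.CB.p_add (LatIso.CB.p_mul hg (LatIso.CB.p_add
      (LatIso.CB.p_snd (LatIso.CB.p_snd (LatIso.CB.p_fst hf))) (Primrec.const 1))) hh)

end Nc4Prims

/-! ### validity -/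

/-- number version of `Valid` -/
def Nc4Val (x : Code) : Prop :=
  (∀ a < x.1.2.2 + 1, nc4i x (nc4i x a) = a) ∧
  (∀ a < x.1.2.2 + 1, nc4ty x (nc4i x a) = nc4ty x a) ∧
  (∀ a < x.1.2.2 + 1, ∀ b < x.1.2.2 + 1, nc4o x a = nc4o x b → ¬ nc4ty x a = nc4ty x b →
    nc4ty x (nc4tr x a b) = nc4ty x a) ∧
  (∀ a < x.1.2.2 + 1, ∀ b < x.1.2.2 + 1, nc4o x a = nc4o x b → ¬ nc4ty x a = nc4ty x b →
    nc4o x (nc4tr x a b) = nc4o x (nc4i x b)) ∧
  (∀ a < x.1.2.2 + 1, ∀ b < x.1.2.2 + 1, nc4o x a = nc4o x b → ¬ nc4ty x a = nc4ty x b →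
    nc4tr x (nc4i x a) (nc4tr x b a) = nc4i x (nc4tr x a b)) ∧
  (∀ a < x.1.2.2 + 1, ∀ b < x.1.2.2 + 1, nc4o x a = nc4o x b → ¬ nc4ty x a = nc4ty x b →
    nc4tr x (nc4tr x a b) (nc4i x b) = a) ∧
  (∀ a < x.1.2.2 + 1, ∀ b < x.1.2.2 + 1, ∀ c < x.1.2.2 + 1, nc4o x a = nc4o x b →
    nc4o x a = nc4o x c → ¬ nc4ty x a = nc4ty x b → ¬ nc4ty x a = nc4ty x c →
    ¬ nc4ty x b = nc4ty x c →
    nc4tr x (nc4tr x a b) (nc4tr x c b) = nc4tr x (nc4tr x a c) (nc4tr x b c))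

theorem nc4Val_p : PrimrecPred Nc4Val := by
  unfold Nc4Val
  (repeat' (with_reducible first | assumption | exact LatIso.CB.p_id | exact Primrec.const _ | exact LatIso.CB.pp_const _ | apply LatIso.CB.p_fst | apply LatIso.CB.p_snd | apply LatIso.CB.p_pair | apply LatIso.CB.p_add | apply LatIso.CB.p_sub | apply LatIso.CB.p_mul | apply LatIso.CB.p_div | apply LatIso.CB.p_mod | apply LatIso.CB.p_pow | apply nc4_ty | apply nc4_o | apply nc4_i | apply nc4_tr | apply LatIso.CB.p_dg | apply LatIso.CB.pp_all | apply LatIso.CB.pp_ex | apply LatIso.CB.pp_all_mem | apply LatIso.CB.pp_ex_mem | apply LatIso.CB.pp_and | apply LatIso.CB.pp_or | apply LatIso.CB.pp_not | apply LatIso.CB.pp_iff | apply LatIso.CB.pp_imp | apply LatIso.CB.pp_eq | apply LatIso.CB.pp_lt | apply LatIso.CB.pp_le | apply LatIso.CB.pp_mem))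

theorem nc4Val_iff (x : Code) : Nc4Val x ↔ Valid (dec x.1 x.2) := by
  obtain ⟨s, t⟩ := x
  have e : Valid (dec s t) ↔
    ((∀ a, (dec s t).i ((dec s t).i a) = a) ∧
    (∀ a, (dec s t).ty ((dec s t).i a) = (dec s t).ty a) ∧
    (∀ a b, (dec s t).o a = (dec s t).o b → ¬ (dec s t).ty a = (dec s t).ty b →
      (dec s t).ty ((dec s t).tr a b) = (dec s t).ty a) ∧
    (∀ a b, (dec s t).o a = (dec s t).o b → ¬ (dec s t).ty a = (dec s t).ty b →
      (dec s t).o ((dec s t).tr a b) = (dec s t).o ((dec s t).i b)) ∧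
    (∀ a b, (dec s t).o a = (dec s t).o b → ¬ (dec s t).ty a = (dec s t).ty b →
      (dec s t).tr ((dec s t).i a) ((dec s t).tr b a) = (dec s t).i ((dec s t).tr a b)) ∧
    (∀ a b, (dec s t).o a = (dec s t).o b → ¬ (dec s t).ty a = (dec s t).ty b →
      (dec s t).tr ((dec s t).tr a b) ((dec s t).i b) = a) ∧
    (∀ a b c, (dec s t).o a = (dec s t).o b → (dec s t).o a = (dec s t).o c →
      ¬ (dec s t).ty a = (dec s t).ty b → ¬ (dec s t).ty a = (dec s t).ty c →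
      ¬ (dec s t).ty b = (dec s t).ty c →
      (dec s t).tr ((dec s t).tr a b) ((dec s t).tr c b) =
        (dec s t).tr ((dec s t).tr a c) ((dec s t).tr b c))) := by
    constructor
    · intro h
      exact ⟨h.ii, h.tyi, h.tyt, h.ot, h.ti, h.tt, h.cube⟩
    · rintro ⟨h1, h2, h3, h4, h5, h6, h7⟩
      exact ⟨h1, h2, h3, h4, h5, h6, h7⟩
  have vt : ∀ a, (((dec s t).ty a : Fin _) : ℕ) = nc4ty (s, t) a := fun _ => rfl
  have vo : ∀ b, (((dec s t).o b : Fin _) : ℕ) = nc4o (s, t) b := fun _ => rfl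
  have vi : ∀ a, (((dec s t).i a : Fin _) : ℕ) = nc4i (s, t) a := fun _ => rfl
  have vr : ∀ a b, (((dec s t).tr a b : Fin _) : ℕ) = nc4tr (s, t) a b := fun _ _ => rfl
  dsimp only
  rw [e]
  unfold Nc4Val
  simp only [Fin.ext_iff, vt, vo, vi, vr, Fin.forall_iff]

/-! ### goodness -/

/-- primitive recursive part of goodness -/
def Nc4G1 (x : Code) : Prop :=
  (∀ k < x.1.1 + 1, ∀ q < x.1.2.1 + 1, ∃ a < x.1.2.2 + 1, ∃ a' < x.1.2.2 + 1, ¬ a = a' ∧
    nc4o x a = q ∧ nc4o x a' = q ∧ nc4ty x a = k ∧ nc4ty x a' = k) ∧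
  (∀ k < x.1.1 + 1, ∃ q < x.1.2.1 + 1, ∃ a < x.1.2.2 + 1, ∃ a' < x.1.2.2 + 1,
    ∃ a'' < x.1.2.2 + 1, ¬ a = a' ∧ ¬ a' = a'' ∧ ¬ a = a'' ∧ nc4o x a = q ∧ nc4o x a' = q ∧
    nc4o x a'' = q ∧ nc4ty x a = k ∧ nc4ty x a' = k ∧ nc4ty x a'' = k) ∧
  (∃ c < 2 ^ (x.1.2.2 + 1),
    (∀ a < x.1.2.2 + 1, ¬ LatIso.CB.dg 1 c (nc4i x a) = LatIso.CB.dg 1 c a) ∧
    ∀ a < x.1.2.2 + 1, ∀ b < x.1.2.2 + 1, nc4o x a = nc4o x b → ¬ nc4ty x a = nc4ty x b →
      LatIso.CB.dg 1 c (nc4tr x a b) = LatIso.CB.dg 1 c a)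

theorem nc4G1_p : PrimrecPred Nc4G1 := by
  unfold Nc4G1
  (repeat' (with_reducible first | assumption | exact LatIso.CB.p_id | exact Primrec.const _ | exact LatIso.CB.pp_const _ | apply LatIso.CB.p_fst | apply LatIso.CB.p_snd | apply LatIso.CB.p_pair | apply LatIso.CB.p_add | apply LatIso.CB.p_sub | apply LatIso.CB.p_mul | apply LatIso.CB.p_div | apply LatIso.CB.p_mod | apply LatIso.CB.p_pow | apply nc4_ty | apply nc4_o | apply nc4_i | apply nc4_tr | apply LatIso.CB.p_dg | apply LatIso.CB.pp_all | apply LatIso.CB.pp_ex | apply LatIso.CB.pp_all_mem | apply LatIso.CB.pp_ex_mem | apply LatIso.CB.pp_and | apply LatIso.CB.pp_or | apply LatIso.CB.pp_not | apply LatIso.CB.pp_iff | apply LatIso.CB.pp_imp | apply LatIso.CB.pp_eq | apply LatIso.CB.pp_lt | apply LatIso.CB.pp_le | apply LatIso.CB.pp_mem))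

theorem nc4_bool (nA : ℕ) (s : Fin (nA + 1) → Bool) :
    ∃ c < 2 ^ (nA + 1), ∀ a : Fin (nA + 1), LatIso.CB.dg 1 c a = if s a then 1 else 0 := by
  obtain ⟨c, hc, h⟩ := LatIso.CB.exists_pred nA (fun a => s a = true)
  refine ⟨c, hc, fun a => ?_⟩
  have h1 := h a
  have h2 := LatIso.CB.dg_lt 1 c a
  split_ifs with h3
  · exact h1.2 h3
  · have h4 : ¬ LatIso.CB.dg 1 c a = 1 := fun h5 => h3 (h1.1 h5)
    omega

theorem nc4G1_iff (x : Code) : Nc4G1 x ↔
    (∀ (k : Fin (x.1.1 + 1)) (q : Fin (x.1.2.1 + 1)), ∃ a a', a ≠ a' ∧ (dec x.1 x.2).o a = q ∧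
      (dec x.1 x.2).o a' = q ∧ (dec x.1 x.2).ty a = k ∧ (dec x.1 x.2).ty a' = k) ∧
    (∀ k : Fin (x.1.1 + 1), ∃ (q : Fin (x.1.2.1 + 1)) (a a' a'' : Fin (x.1.2.2 + 1)), a ≠ a' ∧
      a' ≠ a'' ∧ a ≠ a'' ∧ (dec x.1 x.2).o a = q ∧ (dec x.1 x.2).o a' = q ∧
      (dec x.1 x.2).o a'' = q ∧ (dec x.1 x.2).ty a = k ∧ (dec x.1 x.2).ty a' = k ∧
      (dec x.1 x.2).ty a'' = k) ∧
    (∃ s : Fin (x.1.2.2 + 1) → Bool, (∀ a, s ((dec x.1 x.2).i a) = !(s a)) ∧
      ∀ a b, (dec x.1 x.2).o a = (dec x.1 x.2).o b → (dec x.1 x.2).ty a ≠ (dec x.1 x.2).ty b →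
        s ((dec x.1 x.2).tr a b) = s a) := by
  obtain ⟨s, t⟩ := x
  have vt : ∀ a, (((dec s t).ty a : Fin _) : ℕ) = nc4ty (s, t) a := fun _ => rfl
  have vo : ∀ b, (((dec s t).o b : Fin _) : ℕ) = nc4o (s, t) b := fun _ => rfl
  have vi : ∀ a, (((dec s t).i a : Fin _) : ℕ) = nc4i (s, t) a := fun _ => rfl
  have vr : ∀ a b, (((dec s t).tr a b : Fin _) : ℕ) = nc4tr (s, t) a b := fun _ _ => rfl
  unfold Nc4G1
  dsimp only
  have e3 : (∃ c < 2 ^ (s.2.2 + 1),
      (∀ a < s.2.2 + 1, ¬ LatIso.CB.dg 1 c (nc4i (s, t) a) = LatIso.CB.dg 1 c a) ∧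
      ∀ a < s.2.2 + 1, ∀ b < s.2.2 + 1, nc4o (s, t) a = nc4o (s, t) b →
        ¬ nc4ty (s, t) a = nc4ty (s, t) b →
        LatIso.CB.dg 1 c (nc4tr (s, t) a b) = LatIso.CB.dg 1 c a) ↔
      (∃ σ : Fin (s.2.2 + 1) → Bool, (∀ a, σ ((dec s t).i a) = !(σ a)) ∧
        ∀ a b, (dec s t).o a = (dec s t).o b → (dec s t).ty a ≠ (dec s t).ty b →
        σ ((dec s t).tr a b) = σ a) := by
    constructor
    · rintro ⟨c, -, h1, h2⟩
      refine ⟨fun a => decide (LatIso.CB.dg 1 c a = 1), fun a => ?_, fun a b hab hab' => ?_⟩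
      · have h3 := h1 a a.2
        have h4 := LatIso.CB.dg_lt 1 c a
        have h5 := LatIso.CB.dg_lt 1 c (nc4i (s, t) a)
        dsimp only
        rw [vi]
        by_cases h6 : LatIso.CB.dg 1 c a = 1
        · have h7 : ¬ LatIso.CB.dg 1 c (nc4i (s, t) a) = 1 := by omega
          simp [h6, h7]
        · have h7 : LatIso.CB.dg 1 c (nc4i (s, t) a) = 1 := by omega
          simp [h6, h7]
      · have h3 := h2 a a.2 b b.2 (by rw [← vo, ← vo, hab])
          (fun h4 => hab' (Fin.ext (by rw [vt, vt, h4])))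
        dsimp only
        rw [vr, h3]
    · rintro ⟨σ, h1, h2⟩
      obtain ⟨c, hc, h3⟩ := nc4_bool s.2.2 σ
      refine ⟨c, hc, fun a ha => ?_, fun a ha b hb hab hab' => ?_⟩
      · have h4 := h3 ⟨a, ha⟩
        have h5 := h3 ((dec s t).i ⟨a, ha⟩)
        rw [vi, h1] at h5
        dsimp only at h4 h5
        rw [h4, h5]
        cases σ ⟨a, ha⟩ <;> simp
      · have h4 := h3 ⟨a, ha⟩
        have h5 := h3 ((dec s t).tr ⟨a, ha⟩ ⟨b, hb⟩)
        rw [vr, h2 ⟨a, ha⟩ ⟨b, hb⟩ (Fin.ext (by rw [vo, vo]; exact hab))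
          (fun h6 => hab' (by
            have h7 := congrArg (fun z : Fin (s.1 + 1) => (z : ℕ)) h6
            exact h7)), ← h4] at h5
        exact h5
  rw [e3]
  simp only [Fin.forall_iff, Fin.exists_iff, Fin.ext_iff, vo, vt, ne_eq, exists_prop]

/-- translation of `c` along a list of darts whose types differ from the type of `a`; impossible
steps are skipped -/
def nc4vr (x : Code) (a c : ℕ) (w : List ℕ) : ℕ :=
  w.foldl (fun c b => if b < x.1.2.2 + 1 ∧ nc4o x c = nc4o x b ∧ ¬ nc4ty x b = nc4ty x a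
    then nc4tr x c b else c) c

/-- the reducedness condition for the dart `a` with witness `w` -/
def Nc4G2 (x : Code) (a : ℕ) (w : List ℕ) : Prop :=
  nc4o x (nc4vr x a a w) = nc4o x (nc4i x a) ∨ (¬ nc4vr x a a w = a ∧
    nc4o x (nc4vr x a a w) = nc4o x a)

theorem nc4vr_lt (x : Code) (a : ℕ) (w : List ℕ) (c : ℕ) (hc : c < x.1.2.2 + 1) :
    nc4vr x a c w < x.1.2.2 + 1 := by
  induction w generalizing c with
  | nil => exact hc
  | cons b w ih =>
    unfold nc4vr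
    rw [List.foldl_cons]
    apply ih
    split_ifs with h
    · exact LatIso.CB.dg_lt _ _ _
    · exact hc

theorem nc4vr_append (x : Code) (a : ℕ) (w w' : List ℕ) (c : ℕ) :
    nc4vr x a c (w ++ w') = nc4vr x a (nc4vr x a c w) w' := by
  unfold nc4vr
  rw [List.foldl_append]

theorem nc4vtr_iff (x : Code) (a a' : Fin (x.1.2.2 + 1)) :
    VTr (dec x.1 x.2) a a' ↔ ∃ w : List ℕ, nc4vr x a a w = a' := by
  obtain ⟨s, t⟩ := x
  have vt : ∀ a, (((dec s t).ty a : Fin _) : ℕ) = nc4ty (s, t) a := fun _ => rfl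
  have vo : ∀ b, (((dec s t).o b : Fin _) : ℕ) = nc4o (s, t) b := fun _ => rfl
  have vr : ∀ a b, (((dec s t).tr a b : Fin _) : ℕ) = nc4tr (s, t) a b := fun _ _ => rfl
  dsimp only at a a' ⊢
  constructor
  · intro h
    induction h with
    | refl => exact ⟨[], rfl⟩
    | step c b _ h3 h4 ih =>
      obtain ⟨w, hw⟩ := ih
      refine ⟨w ++ [(b : ℕ)], ?_⟩
      rw [nc4vr_append, hw]
      unfold nc4vr
      have h5 : nc4o (s, t) c = nc4o (s, t) b := by rw [← vo, ← vo, h3]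
      have h6 : ¬ nc4ty (s, t) b = nc4ty (s, t) a :=
        fun h7 => h4 (Fin.ext (by rw [vt, vt, h7]))
      simp only [List.foldl_cons, List.foldl_nil]
      rw [if_pos ⟨b.2, h5, h6⟩, vr]
  · rintro ⟨w, hw⟩
    have key : ∀ (w : List ℕ) (c : Fin (s.2.2 + 1)), VTr (dec s t) a c →
        nc4vr (s, t) a c w = a' → VTr (dec s t) a a' := by
      intro w
      induction w with
      | nil =>
        intro c hc hw
        have : c = a' := Fin.ext hw
        subst this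
        exact hc
      | cons b w ih =>
        intro c hc hw
        unfold nc4vr at hw
        rw [List.foldl_cons] at hw
        split_ifs at hw with h
        · refine ih ((dec s t).tr c ⟨b, h.1⟩) (VTr.step c ⟨b, h.1⟩ hc ?_ ?_) hw
          · apply Fin.ext
            rw [vo, vo]
            exact h.2.1
          · intro h7
            exact h.2.2 (congrArg (fun z : Fin (s.1 + 1) => (z : ℕ)) h7)
        · exact ih c hc hw
    exact key w a VTr.refl hw

theorem nc4red_iff (x : Code) : (∀ a, ∃ a', VTr (dec x.1 x.2) a a' ∧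
      ((dec x.1 x.2).o a' = (dec x.1 x.2).o ((dec x.1 x.2).i a) ∨
        (a' ≠ a ∧ (dec x.1 x.2).o a' = (dec x.1 x.2).o a))) ↔
    ∀ a < x.1.2.2 + 1, ∃ w : List ℕ, Nc4G2 x a w := by
  have vo : ∀ b, (((dec x.1 x.2).o b : Fin _) : ℕ) = nc4o x b := fun _ => rfl
  have vi : ∀ a, (((dec x.1 x.2).i a : Fin _) : ℕ) = nc4i x a := fun _ => rfl
  rw [Fin.forall_iff]
  refine forall_congr' fun a => forall_congr' fun ha => ?_
  constructor
  · rintro ⟨a', h1, h2⟩
    obtain ⟨w, hw⟩ := (nc4vtr_iff x _ _).1 h1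
    refine ⟨w, ?_⟩
    unfold Nc4G2
    dsimp only at hw
    rw [hw, ← vo a']
    rcases h2 with h2 | ⟨h2, h3⟩
    · left
      rw [h2, vo, vi]
    · right
      refine ⟨fun h4 => h2 (Fin.ext h4), ?_⟩
      rw [h3, vo]
  · rintro ⟨w, hw⟩
    refine ⟨⟨_, nc4vr_lt x a w a ha⟩, (nc4vtr_iff x _ _).2 ⟨w, rfl⟩, ?_⟩
    rcases hw with hw | ⟨hw, hw'⟩
    · left
      apply Fin.ext
      rw [vo, vo, vi]
      exact hw
    · right
      refine ⟨fun h4 => hw (congrArg Fin.val h4), ?_⟩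
      apply Fin.ext
      rw [vo, vo]
      exact hw'

theorem nc4vr_p : Primrec (fun x : (Code × ℕ) × List ℕ => nc4vr x.1.1 x.1.2 x.1.2 x.2) := by
  unfold nc4vr
  refine Primrec.list_foldl (f := fun x : (Code × ℕ) × List ℕ => x.2)
    (g := fun x : (Code × ℕ) × List ℕ => x.1.2)
    (h := fun (x : (Code × ℕ) × List ℕ) (p : ℕ × ℕ) =>
      if p.2 < x.1.1.1.2.2 + 1 ∧ nc4o x.1.1 p.1 = nc4o x.1.1 p.2 ∧
        ¬ nc4ty x.1.1 p.2 = nc4ty x.1.1 x.1.2 then nc4tr x.1.1 p.1 p.2 else p.1)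
    ?_ ?_ ?_
  · (repeat' (with_reducible first | assumption | exact LatIso.CB.p_id | exact Primrec.const _ | exact LatIso.CB.pp_const _ | apply LatIso.CB.p_fst | apply LatIso.CB.p_snd | apply LatIso.CB.p_pair | apply LatIso.CB.p_add | apply LatIso.CB.p_sub | apply LatIso.CB.p_mul | apply LatIso.CB.p_div | apply LatIso.CB.p_mod | apply LatIso.CB.p_pow | apply nc4_ty | apply nc4_o | apply nc4_i | apply nc4_tr | apply LatIso.CB.p_dg | apply LatIso.CB.pp_all | apply LatIso.CB.pp_ex | apply LatIso.CB.pp_all_mem | apply LatIso.CB.pp_ex_mem | apply LatIso.CB.pp_and | apply LatIso.CB.pp_or | apply LatIso.CB.pp_not | apply LatIso.CB.pp_iff | apply LatIso.CB.pp_imp | apply LatIso.CB.pp_eq | apply LatIso.CB.pp_lt | apply LatIso.CB.pp_le | apply LatIso.CB.pp_mem))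
  · (repeat' (with_reducible first | assumption | exact LatIso.CB.p_id | exact Primrec.const _ | exact LatIso.CB.pp_const _ | apply LatIso.CB.p_fst | apply LatIso.CB.p_snd | apply LatIso.CB.p_pair | apply LatIso.CB.p_add | apply LatIso.CB.p_sub | apply LatIso.CB.p_mul | apply LatIso.CB.p_div | apply LatIso.CB.p_mod | apply LatIso.CB.p_pow | apply nc4_ty | apply nc4_o | apply nc4_i | apply nc4_tr | apply LatIso.CB.p_dg | apply LatIso.CB.pp_all | apply LatIso.CB.pp_ex | apply LatIso.CB.pp_all_mem | apply LatIso.CB.pp_ex_mem | apply LatIso.CB.pp_and | apply LatIso.CB.pp_or | apply LatIso.CB.pp_not | apply LatIso.CB.pp_iff | apply LatIso.CB.pp_imp | apply LatIso.CB.pp_eq | apply LatIso.CB.pp_lt | apply LatIso.CB.pp_le | apply LatIso.CB.pp_mem))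
  · have h1 : PrimrecPred (fun y : ((Code × ℕ) × List ℕ) × (ℕ × ℕ) =>
        y.2.2 < y.1.1.1.1.2.2 + 1 ∧ nc4o y.1.1.1 y.2.1 = nc4o y.1.1.1 y.2.2 ∧
          ¬ nc4ty y.1.1.1 y.2.2 = nc4ty y.1.1.1 y.1.1.2) := by (repeat' (with_reducible first | assumption | exact LatIso.CB.p_id | exact Primrec.const _ | exact LatIso.CB.pp_const _ | apply LatIso.CB.p_fst | apply LatIso.CB.p_snd | apply LatIso.CB.p_pair | apply LatIso.CB.p_add | apply LatIso.CB.p_sub | apply LatIso.CB.p_mul | apply LatIso.CB.p_div | apply LatIso.CB.p_mod | apply LatIso.CB.p_pow | apply nc4_ty | apply nc4_o | apply nc4_i | apply nc4_tr | apply LatIso.CB.p_dg | apply LatIso.CB.pp_all | apply LatIso.CB.pp_ex | apply LatIso.CB.pp_all_mem | apply LatIso.CB.pp_ex_mem | apply LatIso.CB.pp_and | apply LatIso.CB.pp_or | apply LatIso.CB.pp_not | apply LatIso.CB.pp_iff | apply LatIso.CB.pp_imp | apply LatIso.CB.pp_eq | apply LatIso.CB.pp_lt | apply LatIso.CB.pp_le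 | apply LatIso.CB.pp_mem))
    have h2 : Primrec (fun y : ((Code × ℕ) × List ℕ) × (ℕ × ℕ) =>
        nc4tr y.1.1.1 y.2.1 y.2.2) := by (repeat' (with_reducible first | assumption | exact LatIso.CB.p_id | exact Primrec.const _ | exact LatIso.CB.pp_const _ | apply LatIso.CB.p_fst | apply LatIso.CB.p_snd | apply LatIso.CB.p_pair | apply LatIso.CB.p_add | apply LatIso.CB.p_sub | apply LatIso.CB.p_mul | apply LatIso.CB.p_div | apply LatIso.CB.p_mod | apply LatIso.CB.p_pow | apply nc4_ty | apply nc4_o | apply nc4_i | apply nc4_tr | apply LatIso.CB.p_dg | apply LatIso.CB.pp_all | apply LatIso.CB.pp_ex | apply LatIso.CB.pp_all_mem | apply LatIso.CB.pp_ex_mem | apply LatIso.CB.pp_and | apply LatIso.CB.pp_or | apply LatIso.CB.pp_not | apply LatIso.CB.pp_iff | apply LatIso.CB.pp_imp | apply LatIso.CB.pp_eq | apply LatIso.CB.pp_lt | apply LatIso.CB.pp_le | apply LatIso.CB.pp_mem))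
    have h3 : Primrec (fun y : ((Code × ℕ) × List ℕ) × (ℕ × ℕ) => y.2.1) := by (repeat' (with_reducible first | assumption | exact LatIso.CB.p_id | exact Primrec.const _ | exact LatIso.CB.pp_const _ | apply LatIso.CB.p_fst | apply LatIso.CB.p_snd | apply LatIso.CB.p_pair | apply LatIso.CB.p_add | apply LatIso.CB.p_sub | apply LatIso.CB.p_mul | apply LatIso.CB.p_div | apply LatIso.CB.p_mod | apply LatIso.CB.p_pow | apply nc4_ty | apply nc4_o | apply nc4_i | apply nc4_tr | apply LatIso.CB.p_dg | apply LatIso.CB.pp_all | apply LatIso.CB.pp_ex | apply LatIso.CB.pp_all_mem | apply LatIso.CB.pp_ex_mem | apply LatIso.CB.pp_and | apply LatIso.CB.pp_or | apply LatIso.CB.pp_not | apply LatIso.CB.pp_iff | apply LatIso.CB.pp_imp | apply LatIso.CB.pp_eq | apply LatIso.CB.pp_lt | apply LatIso.CB.pp_le | apply LatIso.CB.pp_mem))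
    exact Primrec.ite h1 h2 h3

theorem nc4G2_p : PrimrecPred (fun x : (Code × ℕ) × List ℕ => Nc4G2 x.1.1 x.1.2 x.2) := by
  unfold Nc4G2
  have h := nc4vr_p
  apply LatIso.CB.pp_or
  · apply LatIso.CB.pp_eq
    · exact nc4_o (LatIso.CB.p_fst (LatIso.CB.p_fst LatIso.CB.p_id)) h
    · (repeat' (with_reducible first | assumption | exact LatIso.CB.p_id | exact Primrec.const _ | exact LatIso.CB.pp_const _ | apply LatIso.CB.p_fst | apply LatIso.CB.p_snd | apply LatIso.CB.p_pair | apply LatIso.CB.p_add | apply LatIso.CB.p_sub | apply LatIso.CB.p_mul | apply LatIso.CB.p_div | apply LatIso.CB.p_mod | apply LatIso.CB.p_pow | apply nc4_ty | apply nc4_o | apply nc4_i | apply nc4_tr | apply LatIso.CB.p_dg | apply LatIso.CB.pp_all | apply LatIso.CB.pp_ex | apply LatIso.CB.pp_all_mem | apply LatIso.CB.pp_ex_mem | apply LatIso.CB.pp_and | apply LatIso.CB.pp_or | apply LatIso.CB.pp_not | apply LatIso.CB.pp_iff | apply LatIso.CB.pp_imp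 | apply LatIso.CB.pp_eq | apply LatIso.CB.pp_lt | apply LatIso.CB.pp_le | apply LatIso.CB.pp_mem))
  · apply LatIso.CB.pp_and
    · apply LatIso.CB.pp_not
      apply LatIso.CB.pp_eq
      · exact h
      · (repeat' (with_reducible first | assumption | exact LatIso.CB.p_id | exact Primrec.const _ | exact LatIso.CB.pp_const _ | apply LatIso.CB.p_fst | apply LatIso.CB.p_snd | apply LatIso.CB.p_pair | apply LatIso.CB.p_add | apply LatIso.CB.p_sub | apply LatIso.CB.p_mul | apply LatIso.CB.p_div | apply LatIso.CB.p_mod | apply LatIso.CB.p_pow | apply nc4_ty | apply nc4_o | apply nc4_i | apply nc4_tr | apply LatIso.CB.p_dg | apply LatIso.CB.pp_all | apply LatIso.CB.pp_ex | apply LatIso.CB.pp_all_mem | apply LatIso.CB.pp_ex_mem | apply LatIso.CB.pp_and | apply LatIso.CB.pp_or | apply LatIso.CB.pp_not | apply LatIso.CB.pp_iff | apply LatIso.CB.pp_imp | apply LatIso.CB.pp_eq | apply LatIso.CB.pp_lt | apply LatIso.CB.pp_le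 | apply LatIso.CB.pp_mem))
    · apply LatIso.CB.pp_eq
      · exact nc4_o (LatIso.CB.p_fst (LatIso.CB.p_fst LatIso.CB.p_id)) h
      · (repeat' (with_reducible first | assumption | exact LatIso.CB.p_id | exact Primrec.const _ | exact LatIso.CB.pp_const _ | apply LatIso.CB.p_fst | apply LatIso.CB.p_snd | apply LatIso.CB.p_pair | apply LatIso.CB.p_add | apply LatIso.CB.p_sub | apply LatIso.CB.p_mul | apply LatIso.CB.p_div | apply LatIso.CB.p_mod | apply LatIso.CB.p_pow | apply nc4_ty | apply nc4_o | apply nc4_i | apply nc4_tr | apply LatIso.CB.p_dg | apply LatIso.CB.pp_all | apply LatIso.CB.pp_ex | apply LatIso.CB.pp_all_mem | apply LatIso.CB.pp_ex_mem | apply LatIso.CB.pp_and | apply LatIso.CB.pp_or | apply LatIso.CB.pp_not | apply LatIso.CB.pp_iff | apply LatIso.CB.pp_imp | apply LatIso.CB.pp_eq | apply LatIso.CB.pp_lt | apply LatIso.CB.pp_le | apply LatIso.CB.pp_mem))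

theorem nc4red_re : REPred (fun x : Code => ∀ a, ∃ a', VTr (dec x.1 x.2) a a' ∧
      ((dec x.1 x.2).o a' = (dec x.1 x.2).o ((dec x.1 x.2).i a) ∨
        (a' ≠ a ∧ (dec x.1 x.2).o a' = (dec x.1 x.2).o a))) := by
  have h1 : REPred (fun x : Code => ∀ a < x.1.2.2 + 1, ∃ w : List ℕ, Nc4G2 x a w) := by
    apply re_forall_lt (f := fun x : Code => x.1.2.2 + 1)
      (p := fun x a => ∃ w : List ℕ, Nc4G2 x a w)
    · (repeat' (with_reducible first | assumption | exact LatIso.CB.p_id | exact Primrec.const _ | exact LatIso.CB.pp_const _ | apply LatIso.CB.p_fst | apply LatIso.CB.p_snd | apply LatIso.CB.p_pair | apply LatIso.CB.p_add | apply LatIso.CB.p_sub | apply LatIso.CB.p_mul | apply LatIso.CB.p_div | apply LatIso.CB.p_mod | apply LatIso.CB.p_pow | apply nc4_ty | apply nc4_o | apply nc4_i | apply nc4_tr | apply LatIso.CB.p_dg | apply LatIso.CB.pp_all | apply LatIso.CB.pp_ex | apply LatIso.CB.pp_all_mem | apply LatIso.CB.pp_ex_mem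 | apply LatIso.CB.pp_and | apply LatIso.CB.pp_or | apply LatIso.CB.pp_not | apply LatIso.CB.pp_iff | apply LatIso.CB.pp_imp | apply LatIso.CB.pp_eq | apply LatIso.CB.pp_lt | apply LatIso.CB.pp_le | apply LatIso.CB.pp_mem))
    · exact re_exists (re_of_prim nc4G2_p)
  refine h1.of_eq ?_
  intro x
  exact (nc4red_iff x).symm

theorem nc4span_re : REPred (fun x : Code => ∃ p0 δ r, Span (dec x.1 x.2) p0 δ r) := by
  have h1 : REPred (fun x : Code => ∃ y : ℕ × ℕ × List ℕ,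
      Span (dec x.1 x.2) (decp x.1 y.1) (decd x.1 y.2.1) (fun q => y.2.2.getD q 0)) := by
    apply re_exists (p := fun (x : Code) (y : ℕ × ℕ × List ℕ) =>
      Span (dec x.1 x.2) (decp x.1 y.1) (decd x.1 y.2.1) (fun q => y.2.2.getD q 0))
    apply re_of_prim
    exact nspan_p
  refine h1.of_eq ?_
  intro x
  constructor
  · rintro ⟨y, hy⟩
    exact ⟨_, _, _, hy⟩
  · rintro ⟨p0, δ, r, h⟩
    obtain ⟨p, rfl⟩ := ndecp_surj x.1 p0
    obtain ⟨d, rfl⟩ := ndecd_surj x.1 δ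
    refine ⟨(p, d, List.ofFn r), ?_⟩
    have hr : (fun q : Fin (x.1.2.1 + 1) => (List.ofFn r).getD (q : ℕ) 0) = r := by
      funext q
      rw [List.getD_eq_getElem _ _ (by rw [List.length_ofFn]; exact q.2), List.getElem_ofFn]
    dsimp only
    rw [hr]
    exact h

theorem ngood_re : REPred (fun x : Code => Good (dec x.1 x.2)) := by
  have h1 : REPred (fun x : Code => Valid (dec x.1 x.2) ∧
      (∃ p0 δ r, Span (dec x.1 x.2) p0 δ r) ∧ Nc4G1 x ∧
      (∀ a, ∃ a', VTr (dec x.1 x.2) a a' ∧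
      ((dec x.1 x.2).o a' = (dec x.1 x.2).o ((dec x.1 x.2).i a) ∨
        (a' ≠ a ∧ (dec x.1 x.2).o a' = (dec x.1 x.2).o a)))) := by
    apply re_and
    · exact re_of_prim (PrimrecPred.of_eq nc4Val_p nc4Val_iff)
    apply re_and
    · exact nc4span_re
    apply re_and
    · exact re_of_prim nc4G1_p
    · exact nc4red_re
  refine h1.of_eq ?_
  intro x
  constructor
  · rintro ⟨h1, h2, h3, h4⟩
    obtain ⟨h5, h6, h7⟩ := (nc4G1_iff x).1 h3
    exact ⟨h1, h2, h5, h6, h7, h4⟩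
  · intro h
    exact ⟨h.valid, h.span, (nc4G1_iff x).2 ⟨h.two, h.three, h.orient⟩, h.red⟩

end LatN
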