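import Pool.Agent.Lib.MP_32d917_al.NDefs

/-!
# Uniqueness of the quotient data and their axioms
-/

set_option autoImplicit false
set_option linter.unusedSectionVars false

namespace LatN

open LatIso

section NQISO

variable {ι P A P' A' : Type} [Fintype ι] [DecidableEq ι] {X : Dat ι P A} {Y : Dat ι P' A'}
  {G : Type} [Group G] {V : ι → Type} [∀ i, MulAction G (V i)] {S : ∀ i, SimpleGraph (V i)}

theorem nqiso_equiv {α A A' : Type} (p : α → A) (p' : α → A') (h : Function.Surjective p)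
    (h' : Function.Surjective p') (hk : ∀ x y, p x = p y ↔ p' x = p' y) :
    ∃ e : A ≃ A', ∀ x, e (p x) = p' x := by
  classical
  have hs := Function.surjInv_eq h
  have hs' := Function.surjInv_eq h'
  refine ⟨⟨fun a => p' (Function.surjInv h a), fun a => p (Function.surjInv h' a), ?_, ?_⟩, ?_⟩
  · intro a
    have : p (Function.surjInv h' (p' (Function.surjInv h a))) = p (Function.surjInv h a) := by
      rw [hk]; exact hs' _
    simpa [hs] using this
  · intro a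
    have : p' (Function.surjInv h (p (Function.surjInv h' a))) = p' (Function.surjInv h' a) := by
      rw [← hk]; exact hs _
    simpa [hs'] using this
  · intro x
    show p' (Function.surjInv h (p x)) = p' x
    rw [← hk]; exact hs _

theorem nqiso_at (L : LP X S) (x : ∀ i, V i) (a : A) (h : X.o a = L.p x) :
    ∃ i y, (S i).Adj (x i) y ∧ L.al x i y = a := by
  obtain ⟨y, h1, h2⟩ := L.sur x (X.ty a) a h rfl
  exact ⟨_, y, h1, h2⟩

theorem nqiso_ex {L : LP X S} (hL : Cov G L) (a : A) :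
    ∃ x i y, (S i).Adj (x i) y ∧ L.al x i y = a := by
  obtain ⟨x, hx⟩ := hL.onto (X.o a)
  obtain ⟨i, y, h⟩ := nqiso_at L x a hx.symm
  exact ⟨x, i, y, h⟩

theorem nqiso_gupd (g : G) (x : ∀ i, V i) (k : ι) (a : V k) :
    (fun j => g • Function.update x k a j) = Function.update (fun j => g • x j) k (g • a) := by
  funext j
  rcases eq_or_ne j k with rfl | h
  · rw [Function.update_self, Function.update_self]
  · rw [Function.update_of_ne h, Function.update_of_ne h]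

theorem nqiso_kerP {L : LP X S} (hL : Cov G L) (x y : ∀ i, V i) :
    L.p x = L.p y ↔ ∃ g : G, (fun j => g • x j) = y := by
  constructor
  · exact hL.trans x y
  · rintro ⟨g, rfl⟩
    exact (hL.gp g x).symm

theorem nqiso_kerA {L : LP X S} (hL : Cov G L) (x : ∀ i, V i) (i : ι) (y : V i) (x' : ∀ i, V i)
    (i' : ι) (y' : V i') (h : (S i).Adj (x i) y) (h' : (S i').Adj (x' i') y') :
    L.al x i y = L.al x' i' y' ↔ ∃ g : G, (fun j => g • x j) = x' ∧
      (fun j => g • Function.update x i y j) = Function.update x' i' y' := by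
  constructor
  · intro e
    have hi : i = i' := by rw [← L.ty x i y h, e, L.ty x' i' y' h']
    subst hi
    have hp : L.p x = L.p x' := by rw [← L.o x i y h, ← L.o x' i y' h', e]
    obtain ⟨g, rfl⟩ := hL.trans _ _ hp
    refine ⟨g, rfl, ?_⟩
    rw [nqiso_gupd]
    have h1 : (S i).Adj (g • x i) (g • y) := hL.adj g _ _ _ h
    have h2 : g • y = y' := by
      refine L.inj (fun j => g • x j) i _ _ h1 h' ?_
      rw [← e]
      exact hL.gal g x i y h
    rw [h2]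
  · rintro ⟨g, rfl, h1⟩
    rw [nqiso_gupd] at h1
    have hi : i = i' := by
      by_contra hi
      have h2 := congrFun h1 i
      rw [Function.update_self, Function.update_of_ne hi] at h2
      have h3 : y = x i := MulAction.injective g h2
      rw [h3] at h
      exact h.ne rfl
    subst hi
    have h2 := congrFun h1 i
    rw [Function.update_self, Function.update_self] at h2
    subst h2
    exact (hL.gal g x i y h).symm

theorem ncov_iso (h : IsCov G S X) (h' : IsCov G S Y) : Iso X Y := by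
  obtain ⟨L, hL⟩ := h
  obtain ⟨M, hM⟩ := h'
  obtain ⟨f, hf⟩ := nqiso_equiv (fun t : ∀ i, V i => L.p t) (fun t : ∀ i, V i => M.p t)
    hL.onto hM.onto
    (fun t s => by
      show L.p _ = L.p _ ↔ M.p _ = M.p _
      rw [nqiso_kerP hL, nqiso_kerP hM])
  obtain ⟨g, hg⟩ := nqiso_equiv
    (fun t : {t : (∀ i, V i) × (Σ i, V i) // (S t.2.1).Adj (t.1 t.2.1) t.2.2} =>
      L.al t.1.1 t.1.2.1 t.1.2.2)
    (fun t : {t : (∀ i, V i) × (Σ i, V i) // (S t.2.1).Adj (t.1 t.2.1) t.2.2} =>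
      M.al t.1.1 t.1.2.1 t.1.2.2)
    (fun a => by
      obtain ⟨x, i, y, e, e'⟩ := nqiso_ex hL a
      exact ⟨⟨(x, ⟨i, y⟩), e⟩, e'⟩)
    (fun a => by
      obtain ⟨x, i, y, e, e'⟩ := nqiso_ex hM a
      exact ⟨⟨(x, ⟨i, y⟩), e⟩, e'⟩)
    (fun t s => by
      show L.al _ _ _ = L.al _ _ _ ↔ M.al _ _ _ = M.al _ _ _
      rw [nqiso_kerA hL _ _ _ _ _ _ t.2 s.2, nqiso_kerA hM _ _ _ _ _ _ t.2 s.2])
  have hf' : ∀ x, f (L.p x) = M.p x := fun x => hf x
  have hg' : ∀ x i y, (S i).Adj (x i) y → g (L.al x i y) = M.al x i y :=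
    fun x i y h => hg ⟨(x, ⟨i, y⟩), h⟩
  refine ⟨Equiv.refl ι, f, g, ?_, ?_, ?_, ?_⟩
  · intro a
    obtain ⟨x, i, y, h, rfl⟩ := nqiso_ex hL a
    rw [hg' _ _ _ h, M.ty _ _ _ h, L.ty _ _ _ h]
    rfl
  · intro a
    obtain ⟨x, i, y, h, rfl⟩ := nqiso_ex hL a
    rw [hg' _ _ _ h, M.o _ _ _ h, L.o _ _ _ h, hf']
  · intro a
    obtain ⟨x, i, y, h, rfl⟩ := nqiso_ex hL a
    have h' : (S i).Adj (Function.update x i y i) (x i) := by
      rw [Function.update_self]; exact h.symm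
    rw [hg' _ _ _ h, ← M.inv _ _ _ h, ← L.inv _ _ _ h, hg' _ _ _ h']
  · intro a b hab hty
    obtain ⟨x, hx⟩ := hL.onto (X.o a)
    obtain ⟨i, y, h, rfl⟩ := nqiso_at L x a hx.symm
    obtain ⟨j, z, h', rfl⟩ := nqiso_at L x b (hab.symm.trans hx.symm)
    rw [L.ty _ _ _ h, L.ty _ _ _ h'] at hty
    have h1 : (S i).Adj (Function.update x j z i) y := by
      rwa [Function.update_of_ne hty]
    rw [hg' _ _ _ h, hg' _ _ _ h', L.tr _ _ _ _ _ hty h h', M.tr _ _ _ _ _ hty h h', hg' _ _ _ h1]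

theorem ncov_valid (hS : ∀ i, (S i).Connected) (h : IsCov G S X) : Valid X := by
  obtain ⟨L, hL⟩ := h
  have hab : ∀ a b, X.o a = X.o b → X.ty a ≠ X.ty b → ∃ x i y j z, i ≠ j ∧ (S i).Adj (x i) y ∧
      (S j).Adj (x j) z ∧ L.al x i y = a ∧ L.al x j z = b := by
    intro a b hab hty
    obtain ⟨x, hx⟩ := hL.onto (X.o a)
    obtain ⟨i, y, h, rfl⟩ := nqiso_at L x a hx.symm
    obtain ⟨j, z, h', rfl⟩ := nqiso_at L x b (hab.symm.trans hx.symm)
    rw [L.ty _ _ _ h, L.ty _ _ _ h'] at hty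
    exact ⟨x, i, y, j, z, hty, h, h', rfl, rfl⟩
  have hs : ∀ (x : ∀ i, V i) i y, (S i).Adj (x i) y →
      (S i).Adj (Function.update x i y i) (x i) := by
    intro x i y h
    rw [Function.update_self]; exact h.symm
  have hne : ∀ (x : ∀ i, V i) i y j z, i ≠ j → (S i).Adj (x i) y →
      (S i).Adj (Function.update x j z i) y := by
    intro x i y j z hij h
    rwa [Function.update_of_ne hij]
  refine ⟨?_, ?_, ?_, ?_, ?_, ?_, ?_⟩
  · intro a
    obtain ⟨x, i, y, h, rfl⟩ := nqiso_ex hL a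
    have h1 := L.inv _ _ _ (hs x i y h)
    rw [Function.update_idem, Function.update_self, Function.update_eq_self] at h1
    rw [← L.inv _ _ _ h, ← h1]
  · intro a
    obtain ⟨x, i, y, h, rfl⟩ := nqiso_ex hL a
    rw [← L.inv _ _ _ h, L.ty _ _ _ h, L.ty _ _ _ (hs x i y h)]
  · intro a b h1 h2
    obtain ⟨x, i, y, j, z, hij, hy, hz, rfl, rfl⟩ := hab a b h1 h2
    rw [L.tr _ _ _ _ _ hij hy hz, L.ty _ _ _ hy, L.ty _ _ _ (hne _ _ _ _ _ hij hy)]
  · intro a b h1 h2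
    obtain ⟨x, i, y, j, z, hij, hy, hz, rfl, rfl⟩ := hab a b h1 h2
    rw [L.tr _ _ _ _ _ hij hy hz, L.o _ _ _ (hne _ _ _ _ _ hij hy), ← L.inv _ _ _ hz,
      L.o _ _ _ (hs _ _ _ hz)]
  · intro a b h1 h2
    obtain ⟨x, i, y, j, z, hij, hy, hz, rfl, rfl⟩ := hab a b h1 h2
    have h3 := L.inv _ _ _ (hne x i y j z hij hy)
    rw [Function.update_of_ne hij] at h3
    rw [L.tr _ _ _ _ _ hij hy hz, ← h3, L.tr _ _ _ _ _ hij.symm hz hy, ← L.inv _ _ _ hy,
      L.tr _ _ _ _ _ hij (hs _ _ _ hy) (hne _ _ _ _ _ hij.symm hz),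
      Function.update_comm hij]
  · intro a b h1 h2
    obtain ⟨x, i, y, j, z, hij, hy, hz, rfl, rfl⟩ := hab a b h1 h2
    rw [L.tr _ _ _ _ _ hij hy hz, ← L.inv _ _ _ hz,
      L.tr _ _ _ _ _ hij (hne _ _ _ _ _ hij hy) (hs _ _ _ hz), Function.update_idem,
      Function.update_eq_self]
  · intro a b c h1 h2 h3 h4 h5
    obtain ⟨x, hx⟩ := hL.onto (X.o a)
    obtain ⟨i, y, hy, rfl⟩ := nqiso_at L x a hx.symm
    obtain ⟨j, z, hz, rfl⟩ := nqiso_at L x b (h1.symm.trans hx.symm)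
    obtain ⟨l, u, hu, rfl⟩ := nqiso_at L x c (h2.symm.trans hx.symm)
    rw [L.ty _ _ _ hy, L.ty _ _ _ hz] at h3
    rw [L.ty _ _ _ hy, L.ty _ _ _ hu] at h4
    rw [L.ty _ _ _ hz, L.ty _ _ _ hu] at h5
    rw [L.tr _ _ _ _ _ h3 hy hz, L.tr _ _ _ _ _ h5.symm hu hz, L.tr _ _ _ _ _ h4 hy hu,
      L.tr _ _ _ _ _ h5 hz hu,
      L.tr _ _ _ _ _ h4 (hne _ _ _ _ _ h3 hy) (hne _ _ _ _ _ h5.symm hu),
      L.tr _ _ _ _ _ h3 (hne _ _ _ _ _ h4 hy) (hne _ _ _ _ _ h5 hz), Function.update_comm h5]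

theorem niso_trans {ι₁ P₁ A₁ ι₂ P₂ A₂ ι₃ P₃ A₃ : Type} {X₁ : Dat ι₁ P₁ A₁} {X₂ : Dat ι₂ P₂ A₂}
    {X₃ : Dat ι₃ P₃ A₃} (h : Iso X₁ X₂) (h' : Iso X₂ X₃) : Iso X₁ X₃ := by
  obtain ⟨e, f, g, h1, h2, h3, h4⟩ := h
  obtain ⟨e', f', g', k1, k2, k3, k4⟩ := h'
  refine ⟨e.trans e', f.trans f', g.trans g', ?_, ?_, ?_, ?_⟩
  · intro a
    simp only [Equiv.trans_apply]
    rw [k1, h1]
  · intro a
    simp only [Equiv.trans_apply]
    rw [k2, h2]
  · intro a
    simp only [Equiv.trans_apply]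
    rw [k3, h3]
  · intro a b ha hb
    simp only [Equiv.trans_apply]
    rw [k4, h4 _ _ ha hb]
    · rw [h2, h2, ha]
    · rw [h1, h1]
      exact fun e => hb (Equiv.injective _ e)

end NQISO

end LatN
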