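import Pool.Agent.Lib.MP_32d917_al.N.NGOODB
import Pool.Agent.Lib.MP_32d917_al.N.NQISO1

/-!
# Data of reduced lattices are good (module NGOODA)
-/

set_option autoImplicit false

namespace LatN

open LatIso

section NGOODA

variable {ι P A : Type} [Fintype ι] [DecidableEq ι] {X : Dat ι P A} {G : Type} [Group G]
  {V : ι → Type} [∀ i, MulAction G (V i)] {S : ∀ i, SimpleGraph (V i)}

/-- the vertical translates of a dart of an edge -/
theorem ngooda_vtr (hS : ∀ j, (S j).Connected) (L : LP X S) {i : ι} {x x' : ∀ j, V j} {y : V i}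
    (h : (S i).Adj (x i) y) (hx : x' i = x i) : VTr X (L.al x i y) (L.al x' i y) := by
  refine ngooda_conn hS i x (fun z => VTr X (L.al x i y) (L.al z i y)) VTr.refl ?_ x' hx
  intro z j t hj ht hz ih
  have hz' : (S i).Adj (z i) y := by rw [hz]; exact h
  have h1 := L.tr z i y j t (Ne.symm hj) hz' ht
  have h2 := VTr.step (L.al z i y) (L.al z j t) ih (by rw [L.o z i y hz', L.o z j t ht])
    (by rw [L.ty x i y h, L.ty z j t ht]; exact hj)
  rw [h1] at h2
  exact h2

theorem ngooda_next {U : Type} {R : SimpleGraph U} (hR : R.Connected) {v0 v : U} (h : v0 ≠ v) :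
    ∃ v', R.Adj v' v ∧ R.dist v0 v' < R.dist v0 v := by
  obtain ⟨p, hp⟩ := hR.exists_walk_length_eq_dist v v0
  cases p with
  | nil => exact absurd rfl h
  | @cons _ v' _ h1 p' =>
    refine ⟨v', h1.symm, ?_⟩
    rw [SimpleGraph.Walk.length_cons] at hp
    have h2 := R.dist_le p'
    rw [R.dist_comm (u := v0) (v := v'), R.dist_comm (u := v0) (v := v)]
    omega

/-- the spanning tree -/
theorem ngooda_span (hS : ∀ j, (S j).Connected) (L : LP X S) (hon : ∀ q : P, ∃ x, L.p x = q)
    (x0 : ∀ j, V j) (d0 : A) : ∃ p0 δ r, Span X p0 δ r := by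
  classical
  have hex : ∀ q : P, ∃ n : ℕ, ∃ x, L.p x = q ∧ ∑ j, (S j).dist (x0 j) (x j) = n := by
    intro q
    obtain ⟨x, h⟩ := hon q
    exact ⟨_, x, h, rfl⟩
  obtain ⟨r, hr1, hr2⟩ : ∃ r : P → ℕ,
      (∀ q, ∃ x, L.p x = q ∧ ∑ j, (S j).dist (x0 j) (x j) = r q) ∧
      ∀ x, r (L.p x) ≤ ∑ j, (S j).dist (x0 j) (x j) :=
    ⟨fun q => Nat.find (hex q), fun q => Nat.find_spec (hex q),
      fun x => Nat.find_min' (hex _) ⟨x, rfl, rfl⟩⟩
  have step : ∀ q : P, q ≠ L.p x0 → ∃ d : A, X.o (X.i d) = q ∧ r (X.o d) < r q := by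
    intro q hq
    obtain ⟨x, h1, h2⟩ := hr1 q
    have h3 : ∃ i, x0 i ≠ x i := by
      by_contra h3
      push Not at h3
      exact hq (by rw [← h1, funext h3])
    obtain ⟨i, h3⟩ := h3
    obtain ⟨v', h4, h5⟩ := ngooda_next (hS i) h3
    have h6 : (S i).Adj (Function.update x i v' i) (x i) := by
      rw [Function.update_self]
      exact h4
    have h7 := L.inv (Function.update x i v') i (x i) h6
    rw [Function.update_idem, Function.update_self, Function.update_eq_self] at h7
    refine ⟨L.al (Function.update x i v') i (x i), ?_, ?_⟩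
    · rw [← h7, L.o x i v' h4.symm, h1]
    · rw [L.o _ _ _ h6]
      refine lt_of_le_of_lt (hr2 _) ?_
      rw [← h2]
      refine Finset.sum_lt_sum ?_ ⟨i, Finset.mem_univ _, ?_⟩
      · intro j _
        by_cases hj : j = i
        · subst hj
          rw [Function.update_self]
          exact h5.le
        · rw [Function.update_of_ne hj]
      · rw [Function.update_self]
        exact h5
  refine ⟨L.p x0, fun q => if h : q ≠ L.p x0 then (step q h).choose else d0, r, ?_⟩
  intro q hq
  simp only [dif_pos hq]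
  exact (step q hq).choose_spec

omit [Fintype ι] in
/-- the orientation -/
theorem ngooda_orient (L : LP X S) (hL : Cov G L) (hno : ∀ i (g : G) (v y : V i),
    (S i).Adj v y → g • v = y → g • y = v → False)
    (hdart : ∀ a : A, ∃ (i : ι) (x : ∀ j, V j) (y : V i), (S i).Adj (x i) y ∧ L.al x i y = a) :
    ∃ s : A → Bool, (∀ a, s (X.i a) = !(s a)) ∧
      ∀ a b, X.o a = X.o b → X.ty a ≠ X.ty b → s (X.tr a b) = s a := by
  classical
  let Q := fun i => Quotient (MulAction.orbitRel G (V i × V i))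
  let cl : ∀ i, V i → V i → Q i := fun i v x => Quotient.mk _ (v, x)
  let _ : ∀ i, LinearOrder (Q i) := fun i => linearOrderOfSTO (WellOrderingRel : Q i → Q i → Prop)
  have hcl : ∀ i v x v' x', cl i v x = cl i v' x' ↔ ∃ g : G, g • v = v' ∧ g • x = x' := by
    intro i v x v' x'
    constructor
    · intro e
      have e1 := Quotient.exact e
      obtain ⟨g, hg⟩ := (MulAction.orbitRel_apply).1 e1
      refine ⟨g⁻¹, ?_, ?_⟩
      · have h1 : g • v' = v := congrArg Prod.fst hg
        rw [← h1, inv_smul_smul]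
      · have h1 : g • x' = x := congrArg Prod.snd hg
        rw [← h1, inv_smul_smul]
    · rintro ⟨g, h1, h2⟩
      apply Quotient.sound
      refine (MulAction.orbitRel_apply).2 ⟨g⁻¹, ?_⟩
      change (g⁻¹ • v', g⁻¹ • x') = (v, x)
      rw [← h1, ← h2, inv_smul_smul, inv_smul_smul]
  have hsame : ∀ i (x : ∀ j, V j) (y : V i) (x' : ∀ j, V j) (y' : V i), (S i).Adj (x i) y →
      (S i).Adj (x' i) y' → L.al x i y = L.al x' i y' →
      ∃ g : G, g • x i = x' i ∧ g • y = y' := by
    intro i x y x' y' h1 h2 h3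
    have h4 : L.p x = L.p x' := by
      rw [← L.o x i y h1, ← L.o x' i y' h2, h3]
    obtain ⟨g, h5⟩ := hL.trans _ _ h4
    have h6 : g • x i = x' i := congrFun h5 i
    refine ⟨g, h6, ?_⟩
    have h7 := hL.gal g x i y h1
    rw [h5, h3] at h7
    have h8 : (S i).Adj (x' i) (g • y) := by
      rw [← h6]
      exact hL.adj g i _ _ h1
    exact L.inj x' i _ _ h8 h2 h7
  choose di dx dy hd1 hd2 using hdart
  obtain ⟨s, hs⟩ : ∃ s : A → Bool, ∀ a, s a =
      decide (cl (di a) (dx a (di a)) (dy a) < cl (di a) (dy a) (dx a (di a))) := ⟨_, fun _ => rfl⟩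
  have key : ∀ i (x : ∀ j, V j) (y : V i), (S i).Adj (x i) y →
      s (L.al x i y) = decide (cl i (x i) y < cl i y (x i)) := by
    intro i x y h1
    have h2 : di (L.al x i y) = i := by
      rw [← L.ty _ _ _ (hd1 (L.al x i y)), hd2, L.ty x i y h1]
    have h3 : ∀ (k : ι) (x' : ∀ j, V j) (z : V k), k = i → (S k).Adj (x' k) z →
        L.al x' k z = L.al x i y →
        decide (cl k (x' k) z < cl k z (x' k)) = decide (cl i (x i) y < cl i y (x i)) := by
      intro k x' z hk h4 h5
      subst hk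
      obtain ⟨g, h6, h7⟩ := hsame _ _ _ _ _ h4 h1 h5
      have e1 : cl k (x' k) z = cl k (x k) y := (hcl _ _ _ _ _).2 ⟨g, h6, h7⟩
      have e2 : cl k z (x' k) = cl k y (x k) := (hcl _ _ _ _ _).2 ⟨g, h7, h6⟩
      rw [e1, e2]
    rw [hs]
    exact h3 _ _ _ h2 (hd1 _) (hd2 _)
  refine ⟨s, ?_, ?_⟩
  · intro a
    rw [← hd2 a, ← L.inv _ _ _ (hd1 a), key _ _ _ (hd1 a)]
    have h1 : (S (di a)).Adj (Function.update (dx a) (di a) (dy a) (di a)) (dx a (di a)) := by
      rw [Function.update_self]
      exact (hd1 a).symm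
    rw [key _ _ _ h1, Function.update_self]
    have e4 : cl (di a) (dx a (di a)) (dy a) ≠ cl (di a) (dy a) (dx a (di a)) := by
      intro e
      obtain ⟨g, h1, h2⟩ := (hcl _ _ _ _ _).1 e
      exact hno _ g _ _ (hd1 a) h1 h2
    rw [← decide_not]
    congr 1
    rw [not_lt, lt_iff_le_and_ne]
    simp only [eq_iff_iff, and_iff_left_iff_imp]
    intro _
    exact e4.symm
  · intro a b hab ht
    have h1 : X.o b = L.p (dx a) := by
      rw [← hab, ← L.o _ _ _ (hd1 a), hd2 a]
    obtain ⟨z, h2, h3⟩ := L.sur (dx a) (X.ty b) b h1 rfl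
    have hij : di a ≠ X.ty b := by
      intro e
      have h8 := L.ty _ _ _ (hd1 a)
      rw [hd2 a] at h8
      exact ht (h8.trans e)
    have h4 : X.tr a b = L.al (Function.update (dx a) (X.ty b) z) (di a) (dy a) := by
      have := L.tr _ _ _ _ _ hij (hd1 a) h2
      rw [hd2 a, h3] at this
      exact this
    have h5 : (S (di a)).Adj (Function.update (dx a) (X.ty b) z (di a)) (dy a) := by
      rw [Function.update_of_ne hij]
      exact hd1 a
    rw [h4, key _ _ _ h5, Function.update_of_ne hij, ← key _ _ _ (hd1 a), hd2 a]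

/-- data of reduced lattices are good -/
theorem ngood_of_lat [Nonempty ι] (L : NLat G S) (hS : ∀ i, Red G (S i)) (h : IsCov G S X) :
    Good X := by
  classical
  have cS : ∀ i, (S i).Connected := fun i => (L.ta i).tree.connected
  have hne : ∀ i, Nonempty (V i) := fun i => (cS i).nonempty
  obtain ⟨M, hM⟩ := id h
  have x0 : ∀ i, V i := fun i => Classical.choice (hne i)
  have hdart : ∀ a : A, ∃ (i : ι) (x : ∀ j, V j) (y : V i),
      (S i).Adj (x i) y ∧ M.al x i y = a := by
    intro a
    obtain ⟨x, h1⟩ := hM.onto (X.o a)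
    obtain ⟨y, h2, h3⟩ := M.sur x (X.ty a) a h1.symm rfl
    exact ⟨_, x, y, h2, h3⟩
  refine { valid := ncov_valid cS h, span := ?_, two := ?_, three := ?_, orient := ?_, red := ?_ }
  · obtain ⟨i⟩ := (inferInstance : Nonempty ι)
    obtain ⟨y, _, _, _, _⟩ := (L.leafless i).two (x0 i)
    exact ngooda_span cS M hM.onto x0 (M.al x0 i y)
  · intro k q
    obtain ⟨x, h1⟩ := hM.onto q
    obtain ⟨y, z, h2, h3, h4⟩ := (L.leafless k).two (x k)
    refine ⟨M.al x k y, M.al x k z, fun e => h2 (M.inj x k y z h3 h4 e), ?_, ?_, ?_, ?_⟩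
    · rw [M.o x k y h3, h1]
    · rw [M.o x k z h4, h1]
    · rw [M.ty x k y h3]
    · rw [M.ty x k z h4]
  · intro k
    obtain ⟨v, a, b, c, h1, h2, h3, h4, h5, h6⟩ := (L.leafless k).three
    have e : Function.update x0 k v k = v := Function.update_self _ _ _
    rw [← e] at h4 h5 h6
    refine ⟨M.p (Function.update x0 k v), M.al (Function.update x0 k v) k a,
      M.al (Function.update x0 k v) k b, M.al (Function.update x0 k v) k c,
      fun e => h1 (M.inj _ _ _ _ h4 h5 e), fun e => h2 (M.inj _ _ _ _ h5 h6 e),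
      fun e => h3 (M.inj _ _ _ _ h4 h6 e), M.o _ _ _ h4, M.o _ _ _ h5, M.o _ _ _ h6,
      M.ty _ _ _ h4, M.ty _ _ _ h5, M.ty _ _ _ h6⟩
  · exact ngooda_orient M hM (fun i g v y h1 h2 h3 => (L.ta i).noinv g v y h1 h2 h3) hdart
  · intro a
    obtain ⟨i, x, y, h1, h2⟩ := hdart a
    by_cases h3 : ∀ g : G, g • x i = x i → g • y = y
    · obtain ⟨g, h4⟩ := hS i (x i) y h1 h3
      have e1 : (fun j => g⁻¹ • Function.update x i y j) i = x i := by
        change g⁻¹ • Function.update x i y i = x i
        rw [Function.update_self, ← h4, inv_smul_smul]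
      have h1' : (S i).Adj ((fun j => g⁻¹ • Function.update x i y j) i) y := by
        rw [e1]
        exact h1
      refine ⟨M.al (fun j => g⁻¹ • Function.update x i y j) i y, ?_, Or.inl ?_⟩
      · rw [← h2]
        exact ngooda_vtr cS M h1 e1
      · have h6 : (S i).Adj (Function.update x i y i) (x i) := by
          rw [Function.update_self]
          exact h1.symm
        rw [M.o _ _ _ h1', ← h2, ← M.inv _ _ _ h1, M.o _ _ _ h6]
        have h5 := hM.gp g (fun j => g⁻¹ • Function.update x i y j)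
        simp only [smul_inv_smul] at h5
        exact h5.symm
    · push Not at h3
      obtain ⟨g, h4, h5⟩ := h3
      have e1 : (fun j => g⁻¹ • x j) i = x i := by
        change g⁻¹ • x i = x i
        rw [inv_smul_eq_iff, h4]
      have h1' : (S i).Adj ((fun j => g⁻¹ • x j) i) y := by
        rw [e1]
        exact h1
      refine ⟨M.al (fun j => g⁻¹ • x j) i y, ?_, Or.inr ⟨?_, ?_⟩⟩
      · rw [← h2]
        exact ngooda_vtr cS M h1 e1
      · intro e
        have h6 := hM.gal g (fun j => g⁻¹ • x j) i y h1'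
        simp only [smul_inv_smul] at h6
        rw [e, ← h2] at h6
        have h7 : (S i).Adj (x i) (g • y) := by
          have := hM.adj g i _ _ h1
          rwa [h4] at this
        exact h5 (M.inj x i _ _ h7 h1 h6)
      · rw [M.o _ _ _ h1', ← h2, M.o _ _ _ h1]
        have h6 := hM.gp g (fun j => g⁻¹ • x j)
        simp only [smul_inv_smul] at h6
        exact h6.symm

end NGOODA

end LatN
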