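import Pool.Agent.Lib.MP_32d917_al.NDefs

/-!
# Good data give reduced lattices (module NGOODB)
-/

set_option autoImplicit false

namespace LatN

open LatIso

section NGOODB

variable {ι P A : Type} [Fintype ι] [DecidableEq ι] {X : Dat ι P A} {G : Type} [Group G]
  {V : ι → Type} [∀ i, MulAction G (V i)] {S : ∀ i, SimpleGraph (V i)}

omit [Fintype ι] in
/-- moving one coordinate along a walk -/
theorem ngooda_walk (i k : ι) (hk : k ≠ i) (c : V i) (Q : (∀ j, V j) → Prop)
    (hs : ∀ x' j z, j ≠ i → (S j).Adj (x' j) z → x' i = c → Q x' → Q (Function.update x' j z))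
    {u z : V k} (w : (S k).Walk u z) : ∀ x' : ∀ j, V j, x' k = u → x' i = c → Q x' →
      Q (Function.update x' k z) := by
  induction w with
  | nil =>
    intro x' h1 h2 h3
    rw [← h1, Function.update_eq_self]
    exact h3
  | @cons u u' z huu' w ih =>
    intro x' h1 h2 h3
    have h4 := ih (Function.update x' k u') (Function.update_self _ _ _)
      (by rw [Function.update_of_ne hk.symm]; exact h2)
      (hs x' k u' hk (by rw [h1]; exact huu') h2 h3)
    rw [Function.update_idem] at h4
    exact h4

/-- connectedness of the product of the trees different from the `i`-th one -/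
theorem ngooda_conn (hS : ∀ j, (S j).Connected) (i : ι) (x : ∀ j, V j)
    (Q : (∀ j, V j) → Prop) (h0 : Q x)
    (hs : ∀ x' j z, j ≠ i → (S j).Adj (x' j) z → x' i = x i → Q x' → Q (Function.update x' j z))
    (y : ∀ j, V j) (hy : y i = x i) : Q y := by
  have key : ∀ J : Finset ι, i ∉ J → Q (fun j => if j ∈ J then y j else x j) := by
    intro J
    induction J using Finset.induction_on with
    | empty =>
      intro _
      simpa using h0
    | insert k J hkJ ih =>
      intro hi
      rw [Finset.mem_insert, not_or] at hi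
      obtain ⟨w⟩ := (hS k).preconnected (x k) (y k)
      have h1 := ngooda_walk (S := S) i k (Ne.symm hi.1) (x i) Q hs w
        (fun j => if j ∈ J then y j else x j) (if_neg hkJ) (if_neg hi.2) (ih hi.2)
      have h2 : Function.update (fun j => if j ∈ J then y j else x j) k (y k) =
          fun j => if j ∈ insert k J then y j else x j := by
        funext j
        by_cases hj : j = k
        · subst hj
          rw [Function.update_self, if_pos (Finset.mem_insert_self _ _)]
        · rw [Function.update_of_ne hj]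
          simp only [Finset.mem_insert, hj, false_or]
      rw [h2] at h1
      exact h1
  have h1 := key (Finset.univ.erase i) (Finset.notMem_erase _ _)
  have h2 : (fun j => if j ∈ Finset.univ.erase i then y j else x j) = y := by
    funext j
    by_cases hj : j = i
    · subst hj
      rw [if_neg (Finset.notMem_erase _ _), hy]
    · rw [if_pos (Finset.mem_erase.2 ⟨hj, Finset.mem_univ _⟩)]
  rw [h2] at h1
  exact h1

omit [Fintype ι] in
/-- vertical translates of the dart of an edge are darts of the same edge -/
theorem ngoodb_vtr (L : LP X S) {i : ι} {x : ∀ j, V j} {y : V i} (h : (S i).Adj (x i) y) {a' : A}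
    (h' : VTr X (L.al x i y) a') : ∃ x' : ∀ j, V j, x' i = x i ∧ a' = L.al x' i y := by
  induction h' with
  | refl => exact ⟨x, rfl, rfl⟩
  | step c b _ h5 h6 ih =>
    obtain ⟨x', h7, rfl⟩ := ih
    have h8 : (S i).Adj (x' i) y := by rw [h7]; exact h
    rw [L.ty x i y h] at h6
    rw [L.o _ _ _ h8] at h5
    obtain ⟨z, h9, h10⟩ := L.sur x' (X.ty b) b h5.symm rfl
    refine ⟨Function.update x' (X.ty b) z, ?_, ?_⟩
    · rw [Function.update_of_ne h6.symm, h7]
    · have h11 := L.tr x' i y (X.ty b) z h6.symm h8 h9
      rw [h10] at h11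
      exact h11

/-- the sign of a dart only depends on the edge -/
theorem ngoodb_sign (hS : ∀ j, (S j).Connected) (L : LP X S) (s : A → Bool)
    (hs : ∀ a b, X.o a = X.o b → X.ty a ≠ X.ty b → s (X.tr a b) = s a) {i : ι} {x x' : ∀ j, V j}
    {y : V i} (h : (S i).Adj (x i) y) (hx : x' i = x i) :
    s (L.al x' i y) = s (L.al x i y) := by
  refine ngooda_conn hS i x (fun z => s (L.al z i y) = s (L.al x i y)) rfl ?_ x' hx
  intro z j t hj ht hz ih
  have hz' : (S i).Adj (z i) y := by rw [hz]; exact h
  change s (L.al (Function.update z j t) i y) = _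
  rw [← L.tr z i y j t (Ne.symm hj) hz' ht, hs, ih]
  · rw [L.o z i y hz', L.o z j t ht]
  · rw [L.ty z i y hz', L.ty z j t ht]
    exact Ne.symm hj

/-- good data give reduced lattices -/
theorem nlat_of_good [Finite P] [Finite A] (hS : ∀ i, (S i).IsTree) (h : IsCov G S X)
    (hX : Good X) : NLat G S ∧ ∀ i, Red G (S i) := by
  classical
  obtain ⟨L, hL⟩ := h
  have cS : ∀ i, (S i).Connected := fun i => (hS i).connected
  have hne : ∀ i, Nonempty (V i) := fun i => (cS i).nonempty
  have x0 : ∀ i, V i := fun i => Classical.choice (hne i)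
  have hpt : ∀ (i : ι) (v : V i), ∃ x : ∀ j, V j, x i = v := fun i v =>
    ⟨Function.update x0 i v, Function.update_self _ _ _⟩
  refine ⟨{ ta := ?_, loc := ?_, leafless := ?_, free := hL.free, fin := ?_ }, ?_⟩
  · intro i
    refine ⟨hS i, fun g x y h1 => hL.adj g i x y h1, ?_⟩
    intro g v y h1 h2 h3
    obtain ⟨s, hs1, hs2⟩ := hX.orient
    obtain ⟨x, rfl⟩ := hpt i v
    have e1 := hL.gal g x i y h1
    have h4 : (S i).Adj (Function.update x i y i) (x i) := by
      rw [Function.update_self]
      exact h1.symm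
    have h5 : (fun j => g • x j) i = Function.update x i y i := by
      rw [Function.update_self]
      exact h2
    have e2 := ngoodb_sign cS L s hs2 (x' := fun j => g • x j) h4 h5
    rw [h3] at e1
    rw [e1, L.inv x i y h1, hs1] at e2
    cases hb : s (L.al x i y) <;> rw [hb] at e2 <;> simp at e2
  · intro i v
    obtain ⟨x, rfl⟩ := hpt i v
    refine Set.Finite.of_injOn (f := fun y => L.al x i y) (t := Set.univ) ?_ ?_ Set.finite_univ
    · intro y _
      exact Set.mem_univ _
    · intro y hy z hz hyz
      exact L.inj x i y z hy hz hyz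
  · intro i
    refine ⟨?_, ?_⟩
    · intro v
      obtain ⟨x, rfl⟩ := hpt i v
      obtain ⟨a, a', h1, h2, h3, h4, h5⟩ := hX.two i (L.p x)
      obtain ⟨y, h6, h7⟩ := L.sur x i a h2 h4
      obtain ⟨z, h8, h9⟩ := L.sur x i a' h3 h5
      refine ⟨y, z, ?_, h6, h8⟩
      rintro rfl
      exact h1 (h7.symm.trans h9)
    · obtain ⟨q, a, a', a'', h1, h2, h3, h4, h5, h6, t1, t2, t3⟩ := hX.three i
      obtain ⟨x, rfl⟩ := hL.onto q
      obtain ⟨u, hu, eu⟩ := L.sur x i a h4 t1
      obtain ⟨y, hy, ey⟩ := L.sur x i a' h5 t2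
      obtain ⟨z, hz, ez⟩ := L.sur x i a'' h6 t3
      refine ⟨x i, u, y, z, ?_, ?_, ?_, hu, hy, hz⟩
      · rintro rfl
        exact h1 (eu.symm.trans ey)
      · rintro rfl
        exact h2 (ey.symm.trans ez)
      · rintro rfl
        exact h3 (eu.symm.trans ez)
  · have _ : Fintype P := Fintype.ofFinite P
    choose dx hd using hL.onto
    refine ⟨Finset.univ.image dx, ?_⟩
    intro x
    obtain ⟨g, h1⟩ := hL.trans x (dx (L.p x)) (hd (L.p x)).symm
    refine ⟨g, ?_⟩
    rw [Finset.mem_image]
    exact ⟨L.p x, Finset.mem_univ _, h1.symm⟩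
  · intro i v y hvy hst
    obtain ⟨x, rfl⟩ := hpt i v
    obtain ⟨a', h1, h2⟩ := hX.red (L.al x i y)
    obtain ⟨x', h3, rfl⟩ := ngoodb_vtr L hvy h1
    have h4 : (S i).Adj (x' i) y := by
      rw [h3]
      exact hvy
    rcases h2 with h2 | ⟨h2, h5⟩
    · have h6 : (S i).Adj (Function.update x i y i) (x i) := by
        rw [Function.update_self]
        exact hvy.symm
      rw [L.o _ _ _ h4, ← L.inv _ _ _ hvy, L.o _ _ _ h6] at h2
      obtain ⟨g, h7⟩ := hL.trans _ _ h2
      have h8 := congrFun h7 i
      rw [Function.update_self] at h8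
      change g • x' i = y at h8
      rw [h3] at h8
      exact ⟨g, h8⟩
    · exfalso
      rw [L.o _ _ _ h4, L.o _ _ _ hvy] at h5
      obtain ⟨g, h7⟩ := hL.trans _ _ h5
      have h8 : g • x i = x i := by
        have := congrFun h7 i
        change g • x' i = x i at this
        rwa [h3] at this
      have h9 := hst g h8
      have h10 := hL.gal g x' i y h4
      rw [h7, h9] at h10
      exact h2 h10.symm

end NGOODB

end LatN
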