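import Pool.Agent.Lib.MP_32d917_al.N.NTTL
import Pool.Agent.Lib.MP_32d917_al.TTL

/-!
# Extension of the labels from the axes to the product of the trees
-/

set_option autoImplicit false

namespace LatN

open LatIso

section NLEX2

variable {ι P A : Type} {X : Dat ι P A}

/-- a dart of another type at a vertex is transported to all vertices of the tree of direction `i` -/
theorem NLEX2_f (hX : Valid X) {i : ι} {V : Type} {S : SimpleGraph V} (hS : S.IsTree)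
    {q : V → P} {al : V → V → A} (h : HCv X i S q al) (v0 : V) (b : A) (hb : X.o b = q v0)
    (hi : X.ty b ≠ i) :
    ∃ f : V → A, f v0 = b ∧ (∀ v, X.o (f v) = q v ∧ X.ty (f v) = X.ty b) ∧
      ∀ v v', S.Adj v v' → f v' = X.tr (f v) (al v v') := by
  refine ttl hS (fun v a => X.o a = q v ∧ X.ty a = X.ty b) (fun v v' a => X.tr a (al v v'))
    ?_ ?_ v0 b ⟨hb, rfl⟩
  · rintro v v' a hv ⟨ha, hka⟩
    have h1 : X.o a = X.o (al v v') := by rw [h.o v v' hv]; exact ha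
    have h2 : X.ty a ≠ X.ty (al v v') := by rw [h.ty v v' hv, hka]; exact hi
    refine ⟨?_, ?_⟩
    · show X.o (X.tr a (al v v')) = q v'
      rw [hX.ot _ _ h1 h2, ← h.i v v' hv, h.o v' v hv.symm]
    · show X.ty (X.tr a (al v v')) = X.ty b
      rw [hX.tyt _ _ h1 h2, hka]
  · rintro v v' a hv ⟨ha, hka⟩
    have h1 : X.o a = X.o (al v v') := by rw [h.o v v' hv]; exact ha
    have h2 : X.ty a ≠ X.ty (al v v') := by rw [h.ty v v' hv, hka]; exact hi
    show X.tr (X.tr a (al v v')) (al v' v) = a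
    rw [h.i v v' hv, hX.tt _ _ h1 h2]

open Classical in
/-- the transported dart -/
noncomputable def NLEX2F (X : Dat ι P A) {V : Type} (S : SimpleGraph V) (v0 : V)
    (y : (V → P) × (V → V → A)) (b : A) : V → A :=
  if h : ∃ f : V → A, f v0 = b ∧ (∀ v, X.o (f v) = y.1 v ∧ X.ty (f v) = X.ty b) ∧
      ∀ v v', S.Adj v v' → f v' = X.tr (f v) (y.2 v v') then h.choose else fun _ => b

theorem NLEX2F_spec (hX : Valid X) {i : ι} {V : Type} {S : SimpleGraph V} (hS : S.IsTree)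
    {y : (V → P) × (V → V → A)} (h : HCv X i S y.1 y.2) (v0 : V) (b : A) (hb : X.o b = y.1 v0)
    (hi : X.ty b ≠ i) :
    NLEX2F X S v0 y b v0 = b ∧
      (∀ v, X.o (NLEX2F X S v0 y b v) = y.1 v ∧ X.ty (NLEX2F X S v0 y b v) = X.ty b) ∧
      ∀ v v', S.Adj v v' → NLEX2F X S v0 y b v' = X.tr (NLEX2F X S v0 y b v) (y.2 v v') := by
  have hex := NLEX2_f hX hS h v0 b hb hi
  unfold NLEX2F
  rw [dif_pos hex]
  exact hex.choose_spec

theorem NLEX2F_uniq (hX : Valid X) {i : ι} {V : Type} {S : SimpleGraph V} (hS : S.IsTree)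
    {y : (V → P) × (V → V → A)} (h : HCv X i S y.1 y.2) (v0 : V) (b : A) (hb : X.o b = y.1 v0)
    (hi : X.ty b ≠ i) (f : V → A) (hf : ∀ v v', S.Adj v v' → f v' = X.tr (f v) (y.2 v v'))
    (v : V) (hv : f v = NLEX2F X S v0 y b v) : f = NLEX2F X S v0 y b :=
  ttl_uniq hS.1 (fun v v' b => X.tr b (y.2 v v')) f _ hf
    (NLEX2F_spec hX hS h v0 b hb hi).2.2 v hv

open Classical in
/-- the axis of direction `i` after one step in another direction -/
noncomputable def NLEX2st (X : Dat ι P A) {V : Type} (S : SimpleGraph V) (v0 : V)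
    (y : (V → P) × (V → V → A)) (b : A) : (V → P) × (V → V → A) :=
  (fun v => X.o (X.i (NLEX2F X S v0 y b v)),
    fun v v' => if S.Adj v v' then X.tr (y.2 v v') (NLEX2F X S v0 y b v) else y.2 v v')

theorem NLEX2st_adj {V : Type} {S : SimpleGraph V} (v0 : V)
    (y : (V → P) × (V → V → A)) (b : A) {v v' : V} (h : S.Adj v v') :
    (NLEX2st X S v0 y b).2 v v' = X.tr (y.2 v v') (NLEX2F X S v0 y b v) := by
  unfold NLEX2st
  simp only
  rw [if_pos h]

theorem NLEX2st_nadj {V : Type} {S : SimpleGraph V} (v0 : V)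
    (y : (V → P) × (V → V → A)) (b : A) {v v' : V} (h : ¬ S.Adj v v') :
    (NLEX2st X S v0 y b).2 v v' = y.2 v v' := by
  unfold NLEX2st
  simp only
  rw [if_neg h]

theorem NLEX2st_fst {V : Type} {S : SimpleGraph V} (v0 : V)
    (y : (V → P) × (V → V → A)) (b : A) (v : V) :
    (NLEX2st X S v0 y b).1 v = X.o (X.i (NLEX2F X S v0 y b v)) := rfl

theorem NLEX2_ab (hX : Valid X) {i : ι} {V : Type} {S : SimpleGraph V} (hS : S.IsTree)
    {y : (V → P) × (V → V → A)} (h : HCv X i S y.1 y.2) (v0 : V) (b : A) (hb : X.o b = y.1 v0)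
    (hi : X.ty b ≠ i) (v v' : V) (hv : S.Adj v v') :
    X.o (y.2 v v') = X.o (NLEX2F X S v0 y b v) ∧
      X.ty (y.2 v v') ≠ X.ty (NLEX2F X S v0 y b v) := by
  obtain ⟨_, h2, _⟩ := NLEX2F_spec hX hS h v0 b hb hi
  refine ⟨by rw [h.o v v' hv, (h2 v).1], ?_⟩
  rw [h.ty v v' hv, (h2 v).2]
  exact fun e => hi e.symm

theorem NLEX2st_hcv (hX : Valid X) {i : ι} {V : Type} {S : SimpleGraph V} (hS : S.IsTree)
    {y : (V → P) × (V → V → A)} (h : HCv X i S y.1 y.2) (v0 : V) (b : A) (hb : X.o b = y.1 v0)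
    (hi : X.ty b ≠ i) :
    HCv X i S (NLEX2st X S v0 y b).1 (NLEX2st X S v0 y b).2 := by
  obtain ⟨h1, h2, h3⟩ := NLEX2F_spec hX hS h v0 b hb hi
  have hab := NLEX2_ab hX hS h v0 b hb hi
  constructor
  · intro v v' hv
    rw [NLEX2st_adj v0 y b hv, hX.tyt _ _ (hab v v' hv).1 (hab v v' hv).2, h.ty v v' hv]
  · intro v v' hv
    rw [NLEX2st_adj v0 y b hv]
    exact hX.ot _ _ (hab v v' hv).1 (hab v v' hv).2
  · intro v v' hv
    rw [NLEX2st_adj v0 y b hv, NLEX2st_adj v0 y b hv.symm, h3 v v' hv, h.i v v' hv]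
    exact hX.ti _ _ (hab v v' hv).1 (hab v v' hv).2
  · intro v x z hx hz he
    rw [NLEX2st_adj v0 y b hx, NLEX2st_adj v0 y b hz] at he
    have := congrArg (fun a => X.tr a (X.i (NLEX2F X S v0 y b v))) he
    rw [hX.tt _ _ (hab v x hx).1 (hab v x hx).2, hX.tt _ _ (hab v z hz).1 (hab v z hz).2] at this
    exact h.inj v x z hx hz this
  · intro v a ha hta
    have ha' : X.o a = X.o (X.i (NLEX2F X S v0 y b v)) := ha
    have hta' : X.ty a ≠ X.ty (X.i (NLEX2F X S v0 y b v)) := by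
      rw [hX.tyi, (h2 v).2, hta]
      exact fun e => hi e.symm
    have h4 : X.o (X.tr a (X.i (NLEX2F X S v0 y b v))) = y.1 v := by
      rw [hX.ot _ _ ha' hta', hX.ii, (h2 v).1]
    have h5 : X.ty (X.tr a (X.i (NLEX2F X S v0 y b v))) = i := by
      rw [hX.tyt _ _ ha' hta', hta]
    obtain ⟨v', hv', he⟩ := h.sur v _ h4 h5
    refine ⟨v', hv', ?_⟩
    rw [NLEX2st_adj v0 y b hv', he]
    have := hX.tt _ _ ha' hta'
    rw [hX.ii] at this
    exact this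

theorem NLEX2F_back (hX : Valid X) {i : ι} {V : Type} {S : SimpleGraph V} (hS : S.IsTree)
    {y : (V → P) × (V → V → A)} (h : HCv X i S y.1 y.2) (v0 : V) (b : A) (hb : X.o b = y.1 v0)
    (hi : X.ty b ≠ i) (v : V) :
    NLEX2F X S v0 (NLEX2st X S v0 y b) (X.i b) v = X.i (NLEX2F X S v0 y b v) := by
  obtain ⟨h1, h2, h3⟩ := NLEX2F_spec hX hS h v0 b hb hi
  have hab := NLEX2_ab hX hS h v0 b hb hi
  have hb' : X.o (X.i b) = (NLEX2st X S v0 y b).1 v0 := by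
    rw [NLEX2st_fst, h1]
  have hi' : X.ty (X.i b) ≠ i := by rw [hX.tyi]; exact hi
  have hst := NLEX2st_hcv hX hS h v0 b hb hi
  have hu := NLEX2F_uniq hX hS hst v0 (X.i b) hb' hi' (fun v => X.i (NLEX2F X S v0 y b v)) (by
    intro v v' hv
    show X.i (NLEX2F X S v0 y b v') = _
    rw [NLEX2st_adj v0 y b hv, h3 v v' hv]
    exact (hX.ti _ _ (hab v v' hv).1.symm (hab v v' hv).2.symm).symm) v0 (by
    rw [(NLEX2F_spec hX hS hst v0 (X.i b) hb' hi').1]
    show X.i (NLEX2F X S v0 y b v0) = _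
    rw [h1])
  exact (congrFun hu v).symm

theorem NLEX2st_back (hX : Valid X) {i : ι} {V : Type} {S : SimpleGraph V} (hS : S.IsTree)
    {y : (V → P) × (V → V → A)} (h : HCv X i S y.1 y.2) (v0 : V) (b : A) (hb : X.o b = y.1 v0)
    (hi : X.ty b ≠ i) :
    NLEX2st X S v0 (NLEX2st X S v0 y b) (X.i b) = y := by
  obtain ⟨h1, h2, h3⟩ := NLEX2F_spec hX hS h v0 b hb hi
  have hab := NLEX2_ab hX hS h v0 b hb hi
  apply Prod.ext
  · funext v
    rw [NLEX2st_fst, NLEX2F_back hX hS h v0 b hb hi, hX.ii, (h2 v).1]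
  · funext v v'
    by_cases hv : S.Adj v v'
    · rw [NLEX2st_adj _ _ _ hv, NLEX2st_adj _ _ _ hv, NLEX2F_back hX hS h v0 b hb hi,
        hX.tt _ _ (hab v v' hv).1 (hab v v' hv).2]
    · rw [NLEX2st_nadj _ _ _ hv, NLEX2st_nadj _ _ _ hv]

/-- the transported dart does not depend on the base point -/
theorem NLEX2F_base (hX : Valid X) {i : ι} {V : Type} {S : SimpleGraph V} (hS : S.IsTree)
    {y : (V → P) × (V → V → A)} (h : HCv X i S y.1 y.2) (v0 : V) (b : A) (hb : X.o b = y.1 v0)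
    (hi : X.ty b ≠ i) (v1 : V) :
    NLEX2F X S v1 y (NLEX2F X S v0 y b v1) = NLEX2F X S v0 y b := by
  obtain ⟨h1, h2, h3⟩ := NLEX2F_spec hX hS h v0 b hb hi
  have hb1 := (h2 v1).1
  have hi1 : X.ty (NLEX2F X S v0 y b v1) ≠ i := by rw [(h2 v1).2]; exact hi
  exact (NLEX2F_uniq hX hS h v1 _ hb1 hi1 _ h3 v1
    (NLEX2F_spec hX hS h v1 _ hb1 hi1).1.symm).symm

theorem NLEX2st_base (hX : Valid X) {i : ι} {V : Type} {S : SimpleGraph V} (hS : S.IsTree)
    {y : (V → P) × (V → V → A)} (h : HCv X i S y.1 y.2) (v0 : V) (b : A) (hb : X.o b = y.1 v0)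
    (hi : X.ty b ≠ i) (v1 : V) :
    NLEX2st X S v1 y (NLEX2F X S v0 y b v1) = NLEX2st X S v0 y b := by
  unfold NLEX2st
  rw [NLEX2F_base hX hS h v0 b hb hi]

/-- transport in a third direction: the transported darts -/
theorem NLEX2F_cube (hX : Valid X) {i : ι} {V : Type} {S : SimpleGraph V} (hS : S.IsTree)
    {y : (V → P) × (V → V → A)} (h : HCv X i S y.1 y.2) (v0 : V) (b c : A)
    (hb : X.o b = y.1 v0) (hc : X.o c = y.1 v0) (hi : X.ty b ≠ i) (hci : X.ty c ≠ i)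
    (hbc : X.ty b ≠ X.ty c) (v : V) :
    NLEX2F X S v0 (NLEX2st X S v0 y b) (X.tr c b) v =
      X.tr (NLEX2F X S v0 y c v) (NLEX2F X S v0 y b v) := by
  obtain ⟨h1, h2, h3⟩ := NLEX2F_spec hX hS h v0 b hb hi
  obtain ⟨k1, k2, k3⟩ := NLEX2F_spec hX hS h v0 c hc hci
  have hcb : X.o c = X.o b := by rw [hb, hc]
  have hst := NLEX2st_hcv hX hS h v0 b hb hi
  have hb' : X.o (X.tr c b) = (NLEX2st X S v0 y b).1 v0 := by
    rw [NLEX2st_fst, h1, hX.ot _ _ hcb hbc.symm]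
  have hi' : X.ty (X.tr c b) ≠ i := by rw [hX.tyt _ _ hcb hbc.symm]; exact hci
  have hu := NLEX2F_uniq hX hS hst v0 (X.tr c b) hb' hi'
    (fun v => X.tr (NLEX2F X S v0 y c v) (NLEX2F X S v0 y b v)) (by
    intro v v' hv
    show X.tr (NLEX2F X S v0 y c v') (NLEX2F X S v0 y b v') = _
    rw [NLEX2st_adj v0 y b hv, h3 v v' hv, k3 v v' hv]
    refine (hX.cube _ _ _ ?_ ?_ ?_ ?_ ?_).symm
    · rw [(h2 v).1, (k2 v).1]
    · rw [(k2 v).1, h.o v v' hv]
    · rw [(h2 v).2, (k2 v).2]; exact hbc.symm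
    · rw [(k2 v).2, h.ty v v' hv]; exact hci
    · rw [(h2 v).2, h.ty v v' hv]; exact hi) v0 (by
    rw [(NLEX2F_spec hX hS hst v0 (X.tr c b) hb' hi').1]
    show X.tr (NLEX2F X S v0 y c v0) (NLEX2F X S v0 y b v0) = _
    rw [h1, k1])
  exact (congrFun hu v).symm

theorem NLEX2_end (hX : Valid X) (b c : A) (h : X.o b = X.o c) (hbc : X.ty b ≠ X.ty c) :
    X.o (X.i (X.tr b c)) = X.o (X.i (X.tr c b)) := by
  rw [← hX.ti _ _ h hbc, hX.ot]
  · rw [hX.ot _ _ h.symm hbc.symm]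
  · rw [hX.tyi, hX.tyt _ _ h.symm hbc.symm]; exact hbc

/-- transport in a third direction: the axes -/
theorem NLEX2st_cube (hX : Valid X) {i : ι} {V : Type} {S : SimpleGraph V} (hS : S.IsTree)
    {y : (V → P) × (V → V → A)} (h : HCv X i S y.1 y.2) (v0 : V) (b c : A)
    (hb : X.o b = y.1 v0) (hc : X.o c = y.1 v0) (hi : X.ty b ≠ i) (hci : X.ty c ≠ i)
    (hbc : X.ty b ≠ X.ty c) :
    NLEX2st X S v0 (NLEX2st X S v0 y b) (X.tr c b) =
      NLEX2st X S v0 (NLEX2st X S v0 y c) (X.tr b c) := by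
  obtain ⟨h1, h2, h3⟩ := NLEX2F_spec hX hS h v0 b hb hi
  obtain ⟨k1, k2, k3⟩ := NLEX2F_spec hX hS h v0 c hc hci
  apply Prod.ext
  · funext v
    rw [NLEX2st_fst, NLEX2st_fst, NLEX2F_cube hX hS h v0 b c hb hc hi hci hbc,
      NLEX2F_cube hX hS h v0 c b hc hb hci hi hbc.symm]
    refine NLEX2_end hX _ _ ?_ ?_
    · rw [(h2 v).1, (k2 v).1]
    · rw [(h2 v).2, (k2 v).2]; exact hbc.symm
  · funext v v'
    by_cases hv : S.Adj v v'
    · rw [NLEX2st_adj _ _ _ hv, NLEX2st_adj _ _ _ hv, NLEX2st_adj _ _ _ hv, NLEX2st_adj _ _ _ hv,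
        NLEX2F_cube hX hS h v0 b c hb hc hi hci hbc,
        NLEX2F_cube hX hS h v0 c b hc hb hci hi hbc.symm]
      refine hX.cube _ _ _ ?_ ?_ ?_ ?_ ?_
      · rw [(h2 v).1, h.o v v' hv]
      · rw [(k2 v).1, h.o v v' hv]
      · rw [(h2 v).2, h.ty v v' hv]; exact hi.symm
      · rw [(k2 v).2, h.ty v v' hv]; exact hci.symm
      · rw [(h2 v).2, (k2 v).2]; exact hbc
    · rw [NLEX2st_nadj _ _ _ hv, NLEX2st_nadj _ _ _ hv, NLEX2st_nadj _ _ _ hv,
        NLEX2st_nadj _ _ _ hv]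

/-- the states -/
abbrev NLEX2Y (P A : Type) {ι : Type} (V : ι → Type) : Type :=
  P × ∀ i, (V i → P) × (V i → V i → A)

/-- one step -/
noncomputable def NLEX2ph [DecidableEq ι] (X : Dat ι P A) {V : ι → Type}
    (S : ∀ i, SimpleGraph (V i)) (x : ∀ i, V i) (k : ι) (y : V k) (s : NLEX2Y P A V) :
    NLEX2Y P A V :=
  ((s.2 k).1 y, fun i => if i = k then s.2 i else
    NLEX2st X (S i) (x i) (s.2 i) ((s.2 k).2 (x k) y))

/-- the states allowed at `x` -/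
def NLEX2Q (X : Dat ι P A) {V : ι → Type} (S : ∀ i, SimpleGraph (V i)) (x : ∀ i, V i)
    (s : NLEX2Y P A V) : Prop :=
  ∀ i, HCv X i (S i) (s.2 i).1 (s.2 i).2 ∧ (s.2 i).1 (x i) = s.1

variable [DecidableEq ι] {V : ι → Type} {S : ∀ i, SimpleGraph (V i)}

theorem NLEX2ph_fst (x : ∀ i, V i) (k : ι) (y : V k) (s : NLEX2Y P A V) :
    (NLEX2ph X S x k y s).1 = (s.2 k).1 y := rfl

theorem NLEX2ph_same (x : ∀ i, V i) (k : ι) (y : V k) (s : NLEX2Y P A V) :
    (NLEX2ph X S x k y s).2 k = s.2 k := by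
  unfold NLEX2ph
  exact if_pos rfl

theorem NLEX2ph_ne (x : ∀ i, V i) (k : ι) (y : V k) (s : NLEX2Y P A V) {i : ι} (h : i ≠ k) :
    (NLEX2ph X S x k y s).2 i = NLEX2st X (S i) (x i) (s.2 i) ((s.2 k).2 (x k) y) := by
  unfold NLEX2ph
  exact if_neg h

theorem NLEX2_h1 (hX : Valid X) (hS : ∀ i, (S i).IsTree) (x : ∀ i, V i) (k : ι) (y : V k)
    (s : NLEX2Y P A V) (hy : (S k).Adj (x k) y) (hQ : NLEX2Q X S x s) :
    NLEX2Q X S (Function.update x k y) (NLEX2ph X S x k y s) := by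
  have hb : ∀ i, X.o ((s.2 k).2 (x k) y) = (s.2 i).1 (x i) := by
    intro i
    rw [(hQ k).1.o _ _ hy, (hQ k).2, (hQ i).2]
  have hty : ∀ i, i ≠ k → X.ty ((s.2 k).2 (x k) y) ≠ i := by
    intro i hi
    rw [(hQ k).1.ty _ _ hy]
    exact hi.symm
  intro i
  by_cases hi : i = k
  · subst hi
    rw [NLEX2ph_same, Function.update_self, NLEX2ph_fst]
    exact ⟨(hQ i).1, rfl⟩
  · rw [NLEX2ph_ne _ _ _ _ hi, Function.update_of_ne hi, NLEX2ph_fst]
    refine ⟨NLEX2st_hcv hX (hS i) (hQ i).1 (x i) _ (hb i) (hty i hi), ?_⟩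
    rw [NLEX2st_fst, (NLEX2F_spec hX (hS i) (hQ i).1 (x i) _ (hb i) (hty i hi)).1,
      ← (hQ k).1.i _ _ hy, (hQ k).1.o _ _ hy.symm]

theorem NLEX2_h2 (hX : Valid X) (hS : ∀ i, (S i).IsTree) (x : ∀ i, V i) (k : ι) (y : V k)
    (s : NLEX2Y P A V) (hy : (S k).Adj (x k) y) (hQ : NLEX2Q X S x s) :
    NLEX2ph X S (Function.update x k y) k (x k) (NLEX2ph X S x k y s) = s := by
  have hb : ∀ i, X.o ((s.2 k).2 (x k) y) = (s.2 i).1 (x i) := by
    intro i
    rw [(hQ k).1.o _ _ hy, (hQ k).2, (hQ i).2]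
  have hty : ∀ i, i ≠ k → X.ty ((s.2 k).2 (x k) y) ≠ i := by
    intro i hi
    rw [(hQ k).1.ty _ _ hy]
    exact hi.symm
  apply Prod.ext
  · rw [NLEX2ph_fst, NLEX2ph_same]
    exact (hQ k).2
  · funext i
    by_cases hi : i = k
    · subst hi
      rw [NLEX2ph_same, NLEX2ph_same]
    · rw [NLEX2ph_ne _ _ _ _ hi, NLEX2ph_ne _ _ _ _ hi, NLEX2ph_same, Function.update_self,
        Function.update_of_ne hi, (hQ k).1.i _ _ hy]
      exact NLEX2st_back hX (hS i) (hQ i).1 (x i) _ (hb i) (hty i hi)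

theorem NLEX2_h3 (hX : Valid X) (hS : ∀ i, (S i).IsTree) (x : ∀ i, V i) (k : ι) (y : V k)
    (l : ι) (z : V l) (s : NLEX2Y P A V) (hkl : k ≠ l) (hy : (S k).Adj (x k) y)
    (hz : (S l).Adj (x l) z) (hQ : NLEX2Q X S x s) :
    NLEX2ph X S (Function.update x k y) l z (NLEX2ph X S x k y s) =
      NLEX2ph X S (Function.update x l z) k y (NLEX2ph X S x l z s) := by
  have hob : ∀ i, X.o ((s.2 k).2 (x k) y) = (s.2 i).1 (x i) := by
    intro i
    rw [(hQ k).1.o _ _ hy, (hQ k).2, (hQ i).2]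
  have hoc : ∀ i, X.o ((s.2 l).2 (x l) z) = (s.2 i).1 (x i) := by
    intro i
    rw [(hQ l).1.o _ _ hz, (hQ l).2, (hQ i).2]
  have htb : X.ty ((s.2 k).2 (x k) y) = k := (hQ k).1.ty _ _ hy
  have htc : X.ty ((s.2 l).2 (x l) z) = l := (hQ l).1.ty _ _ hz
  have hbc : X.ty ((s.2 k).2 (x k) y) ≠ X.ty ((s.2 l).2 (x l) z) := by
    rw [htb, htc]; exact hkl
  have hobc : X.o ((s.2 k).2 (x k) y) = X.o ((s.2 l).2 (x l) z) := by
    rw [hob k, hoc k]
  -- the axis `l` after the step in direction `k`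
  have hFb := NLEX2F_spec hX (hS l) (hQ l).1 (x l) _ (hob l) (by rw [htb]; exact hkl)
  have hFc := NLEX2F_spec hX (hS k) (hQ k).1 (x k) _ (hoc k) (by rw [htc]; exact hkl.symm)
  have hc' : (NLEX2st X (S l) (x l) (s.2 l) ((s.2 k).2 (x k) y)).2 (x l) z =
      X.tr ((s.2 l).2 (x l) z) ((s.2 k).2 (x k) y) := by
    rw [NLEX2st_adj _ _ _ hz, hFb.1]
  have hb' : (NLEX2st X (S k) (x k) (s.2 k) ((s.2 l).2 (x l) z)).2 (x k) y =
      X.tr ((s.2 k).2 (x k) y) ((s.2 l).2 (x l) z) := by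
    rw [NLEX2st_adj _ _ _ hy, hFc.1]
  apply Prod.ext
  · rw [NLEX2ph_fst, NLEX2ph_fst, NLEX2ph_ne _ _ _ _ hkl.symm, NLEX2ph_ne _ _ _ _ hkl,
      NLEX2st_fst, NLEX2st_fst, hFb.2.2 _ _ hz, hFc.2.2 _ _ hy, hFb.1, hFc.1]
    exact NLEX2_end hX _ _ hobc hbc
  · funext i
    by_cases hik : i = k
    · subst hik
      rw [NLEX2ph_ne _ _ _ _ hkl, NLEX2ph_same, NLEX2ph_same, NLEX2ph_ne _ _ _ _ hkl,
        NLEX2ph_ne _ _ _ _ hkl.symm, Function.update_self, Function.update_of_ne hkl.symm, hc']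
      rw [← NLEX2st_base hX (hS i) (hQ i).1 (x i) _ (hoc i) (by rw [htc]; exact hkl.symm) y,
        hFc.2.2 _ _ hy, hFc.1]
    · by_cases hil : i = l
      · subst hil
        rw [NLEX2ph_same, NLEX2ph_ne _ _ _ _ hik, NLEX2ph_ne _ _ _ _ hik, NLEX2ph_same,
          NLEX2ph_ne _ _ _ _ hkl, Function.update_self, Function.update_of_ne hkl, hb']
        rw [← NLEX2st_base hX (hS i) (hQ i).1 (x i) _ (hob i) (by rw [htb]; exact hkl) z,
          hFb.2.2 _ _ hz, hFb.1]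
      · rw [NLEX2ph_ne _ _ _ _ hil, NLEX2ph_ne _ _ _ _ hik, NLEX2ph_ne _ _ _ _ hik,
          NLEX2ph_ne _ _ _ _ hil, NLEX2ph_ne _ _ _ _ hkl, NLEX2ph_ne _ _ _ _ hkl.symm,
          Function.update_of_ne hik, Function.update_of_ne hil, Function.update_of_ne hkl,
          Function.update_of_ne hkl.symm, hc', hb']
        refine NLEX2st_cube hX (hS i) (hQ i).1 (x i) _ _ (hob i) (hoc i) ?_ ?_ hbc
        · rw [htb]; exact fun e => hik e.symm
        · rw [htc]; exact fun e => hil e.symm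

theorem nlp_extend [Fintype ι] (hX : Valid X) {V : ι → Type} {S : ∀ i, SimpleGraph (V i)}
    (hS : ∀ i, (S i).IsTree) (x0 : ∀ i, V i) (p0 : P) (q : ∀ i, V i → P)
    (al : ∀ i, V i → V i → A) (hq : ∀ i, HCv X i (S i) (q i) (al i)) (h0 : ∀ i, q i (x0 i) = p0) :
    ∃ L : LP X S, L.p x0 = p0 := by
  obtain ⟨f, hf0, hfQ, hfs⟩ := nttl hS (NLEX2Q X S) (NLEX2ph X S)
    (fun x i y s hy hQ => NLEX2_h1 hX hS x i y s hy hQ)
    (fun x i y s hy hQ => NLEX2_h2 hX hS x i y s hy hQ)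
    (fun x i y j z s hij hy hz hQ => NLEX2_h3 hX hS x i y j z s hij hy hz hQ)
    x0 (p0, fun i => (q i, al i)) (fun i => ⟨hq i, h0 i⟩)
  refine ⟨{ p := fun x => (f x).1
            al := fun x i y => ((f x).2 i).2 (x i) y
            ty := fun x i y hy => (hfQ x i).1.ty _ _ hy
            o := ?_
            inv := ?_
            tr := ?_
            inj := fun x i y z hy hz h => (hfQ x i).1.inj _ _ _ hy hz h
            sur := ?_ }, ?_⟩
  · intro x i y hy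
    rw [(hfQ x i).1.o _ _ hy, (hfQ x i).2]
  · intro x i y hy
    rw [hfs x i y hy, NLEX2ph_same, Function.update_self]
    exact (hfQ x i).1.i _ _ hy
  · intro x i y j z hij hy hz
    have hb : X.o (((f x).2 j).2 (x j) z) = ((f x).2 i).1 (x i) := by
      rw [(hfQ x j).1.o _ _ hz, (hfQ x j).2, (hfQ x i).2]
    have ht : X.ty (((f x).2 j).2 (x j) z) ≠ i := by
      rw [(hfQ x j).1.ty _ _ hz]; exact hij.symm
    rw [hfs x j z hz, NLEX2ph_ne _ _ _ _ hij, Function.update_of_ne hij, NLEX2st_adj _ _ _ hy,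
      (NLEX2F_spec hX (hS i) (hfQ x i).1 (x i) _ hb ht).1]
  · intro x i a ha hta
    exact (hfQ x i).1.sur (x i) a (by rw [(hfQ x i).2]; exact ha) hta
  · show (f x0).1 = p0
    rw [hf0]

end NLEX2

end LatN
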