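import Pool.Agent.Lib.MP_32d917_al.N.NLEX1
import Pool.Agent.Lib.MP_32d917_al.N.NLEX2

/-!
# Existence of labelled products
-/

set_option autoImplicit false

namespace LatN

open LatIso

section NLEX

variable {ι P A : Type} [Fintype ι] [DecidableEq ι] {X : Dat ι P A}

theorem nlp_exists [Nonempty A] (hX : Valid X) (p0 : P) : ∃ (V : ι → Type)
    (S : ∀ i, SimpleGraph (V i)), (∀ i, (S i).IsTree) ∧ ∃ (L : LP X S) (x : ∀ i, V i),
      L.p x = p0 := by
  choose V S v0 q al h1 h2 h3 using fun k : ι => nuc_exists hX k p0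
  obtain ⟨L, hL⟩ := nlp_extend hX h1 v0 p0 q al h3 h2
  exact ⟨V, S, h1, L, v0, hL⟩

theorem nlp_onto {V : ι → Type} {S : ∀ i, SimpleGraph (V i)} (L : LP X S) {p0 : P}
    {δ : P → A} {r : P → ℕ} (hs : Span X p0 δ r) (h0 : ∃ x, L.p x = p0) (q : P) :
    ∃ x, L.p x = q := by
  have key : ∀ n : ℕ, ∀ q, r q = n → ∃ x, L.p x = q := by
    intro n
    induction n using Nat.strong_induction_on with
    | _ n ih =>
      intro q hq
      by_cases hqp : q = p0
      · rw [hqp]; exact h0
      · obtain ⟨h1, h2⟩ := hs q hqp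
        obtain ⟨x, hx⟩ := ih (r (X.o (δ q))) (hq ▸ h2) (X.o (δ q)) rfl
        obtain ⟨y, hy, ha⟩ := L.sur x (X.ty (δ q)) (δ q) hx.symm rfl
        refine ⟨Function.update x (X.ty (δ q)) y, ?_⟩
        have h3 := L.inv x _ y hy
        have h4 := L.o (Function.update x (X.ty (δ q)) y) (X.ty (δ q)) (x (X.ty (δ q))) (by
          rw [Function.update_self]; exact hy.symm)
        rw [h3, ha, h1] at h4
        exact h4.symm
  exact key _ q rfl

end NLEX

end LatN
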