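import Pool.Agent.Lib.MP_32d917_al.NDefs
import Pool.Agent.Lib.MP_32d917_al.QUOT

/-!
# The quotient of a lattice in a product of trees
-/

set_option autoImplicit false

namespace LatN

open LatIso

section NQUOT

theorem nquot_update {G ι : Type} [Group G] [DecidableEq ι] {V : ι → Type}
    [∀ i, MulAction G (V i)] (g : G) (x : ∀ i, V i) (i : ι) (y : V i) :
    (fun j => g • Function.update x i y j) =
      Function.update (fun j => g • x j) i (g • y) := by
  funext j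
  by_cases h : j = i
  · subst h
    simp
  · simp [Function.update_of_ne h]

variable {n : ℕ} {G : Type} [Group G] {V : Fin (n + 1) → Type} [∀ i, MulAction G (V i)]
  {S : ∀ i, SimpleGraph (V i)}

/-- representatives of darts -/
theorem nquot_fin (L : NLat G S) : ∃ F : Finset ((∀ i, V i) × (Σ i, V i)),
    ∀ (x : ∀ i, V i) (i : Fin (n + 1)) (y : V i), (S i).Adj (x i) y →
      ∃ g : G, ((fun j => g • x j), (⟨i, g • y⟩ : Σ i, V i)) ∈ F := by
  classical
  obtain ⟨F, hF⟩ := L.fin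
  refine ⟨F.biUnion fun x => Finset.univ.biUnion fun i =>
    (L.loc i (x i)).toFinset.image fun y => (x, (⟨i, y⟩ : Σ i, V i)), ?_⟩
  intro x i y h
  obtain ⟨g, hg⟩ := hF x
  refine ⟨g, Finset.mem_biUnion.2 ⟨_, hg, Finset.mem_biUnion.2 ⟨i, Finset.mem_univ _,
    Finset.mem_image.2 ⟨g • y, ?_, rfl⟩⟩⟩⟩
  rw [Set.Finite.mem_toFinset]
  exact (L.ta i).adj g _ _ h

theorem nquot_exists (L : NLat G S) : ∃ (nP nA : ℕ)
    (X : Dat (Fin (n + 1)) (Fin (nP + 1)) (Fin (nA + 1))), IsCov G S X := by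
  classical
  have hne : ∀ i, Nonempty (V i) := by
    intro i
    obtain ⟨v, _⟩ := (L.leafless i).three
    exact ⟨v⟩
  have x0 : ∀ i, V i := fun i => (hne i).some
  obtain ⟨v0, v1, hv1⟩ : ∃ v v' : V 0, (S 0).Adj v v' := by
    obtain ⟨v, a, _, _, _, _, _, h, _⟩ := (L.leafless 0).three
    exact ⟨v, a, h⟩
  -- labels of points
  obtain ⟨F, hF⟩ := L.fin
  obtain ⟨nP, P, hP1, hP2⟩ := quot_label (G := G) (Set.univ : Set (∀ i, V i)) ⟨x0, trivial⟩ F
    (fun x _ => hF x)
  -- labels of darts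
  obtain ⟨FA, hFA⟩ := nquot_fin L
  obtain ⟨nA, A, hA1, hA2⟩ := quot_label (G := G)
    ({x | (S x.2.1).Adj (x.1 x.2.1) x.2.2} : Set ((∀ i, V i) × (Σ i, V i)))
    ⟨(Function.update x0 0 v0, ⟨0, v1⟩), by simpa using hv1⟩ FA
    (fun x hx => hFA x.1 x.2.1 x.2.2 hx)
  have hP : ∀ x x' : ∀ i, V i, P x = P x' ↔ ∃ g : G, (fun j => g • x j) = x' := by
    intro x x'
    rw [hP2 x trivial x' trivial]
    rfl
  have hA : ∀ (x : ∀ i, V i) (i : Fin (n + 1)) (y : V i) (x' : ∀ i, V i) (i' : Fin (n + 1))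
      (y' : V i'), (S i).Adj (x i) y → (S i').Adj (x' i') y' →
      (A (x, ⟨i, y⟩) = A (x', ⟨i', y'⟩) ↔ ∃ g : G, (fun j => g • x j) = x' ∧
        (⟨i, g • y⟩ : Σ i, V i) = ⟨i', y'⟩) := by
    intro x i y x' i' y' h h'
    rw [hA2 (x, ⟨i, y⟩) h (x', ⟨i', y'⟩) h']
    constructor
    · rintro ⟨g, hg⟩
      exact ⟨g, congrArg Prod.fst hg, congrArg Prod.snd hg⟩
    · rintro ⟨g, h1, h2⟩
      exact ⟨g, Prod.ext h1 h2⟩
  choose α hα1 hα2 using hA1
  have hαe : ∀ a, A ((α a).1, ⟨(α a).2.1, (α a).2.2⟩) = a := hα2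
  have hαd : ∀ a, (S (α a).2.1).Adj ((α a).1 (α a).2.1) (α a).2.2 := hα1
  -- squares
  let sq : Fin (nA + 1) → Fin (nA + 1) → (∀ i, V i) × (Σ i, V i) × (Σ i, V i) → Prop :=
    fun a b x => (S x.2.1.1).Adj (x.1 x.2.1.1) x.2.1.2 ∧ (S x.2.2.1).Adj (x.1 x.2.2.1) x.2.2.2 ∧
      A (x.1, x.2.1) = a ∧ A (x.1, x.2.2) = b ∧ x.2.1.1 ≠ x.2.2.1
  let X : Dat (Fin (n + 1)) (Fin (nP + 1)) (Fin (nA + 1)) :=
    { ty := fun a => (α a).2.1
      o := fun a => P (α a).1
      i := fun a => A (Function.update (α a).1 (α a).2.1 (α a).2.2,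
        ⟨(α a).2.1, (α a).1 (α a).2.1⟩)
      tr := fun a b => if h : ∃ x, sq a b x then
        A (Function.update h.choose.1 h.choose.2.2.1 h.choose.2.2.2, h.choose.2.1) else a }
  have rep : ∀ (x : ∀ i, V i) (i : Fin (n + 1)) (y : V i), (S i).Adj (x i) y →
      ∃ g : G, (fun j => g • (α (A (x, ⟨i, y⟩))).1 j) = x ∧
        (⟨(α (A (x, ⟨i, y⟩))).2.1, g • (α (A (x, ⟨i, y⟩))).2.2⟩ : Σ i, V i) = ⟨i, y⟩ := by
    intro x i y h
    exact (hA _ _ _ _ _ _ (hαd _) h).1 (hαe _)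
  let LL : LP X S :=
    { p := P
      al := fun x i y => A (x, ⟨i, y⟩)
      ty := by
        intro x i y h
        obtain ⟨g, h1, h2⟩ := rep x i y h
        exact congrArg Sigma.fst h2
      o := by
        intro x i y h
        obtain ⟨g, h1, h2⟩ := rep x i y h
        exact (hP _ _).2 ⟨g, h1⟩
      inv := by
        intro x i y h
        obtain ⟨g, h1, h2⟩ := rep x i y h
        change _ = A (Function.update (α (A (x, ⟨i, y⟩))).1 (α (A (x, ⟨i, y⟩))).2.1
          (α (A (x, ⟨i, y⟩))).2.2, ⟨(α (A (x, ⟨i, y⟩))).2.1,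
            (α (A (x, ⟨i, y⟩))).1 (α (A (x, ⟨i, y⟩))).2.1⟩)
        have h3 := hαd (A (x, ⟨i, y⟩))
        generalize (α (A (x, ⟨i, y⟩))) = r at *
        obtain ⟨r, j, z⟩ := r
        simp only at h1 h2 h3 ⊢
        obtain rfl : j = i := congrArg Sigma.fst h2
        have h2' : g • z = y := eq_of_heq (Sigma.mk.inj h2).2
        subst h2'
        subst h1
        symm
        refine (hA _ _ _ _ _ _ ?_ ?_).2 ⟨g, ?_, rfl⟩
        · simpa using h3.symm
        · simpa using ((L.ta _).adj g _ _ h3).symm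
        · rw [nquot_update]
      tr := by
        intro x i y j z hij hy hz
        have h : ∃ s, sq (A (x, ⟨i, y⟩)) (A (x, ⟨j, z⟩)) s :=
          ⟨(x, ⟨i, y⟩, ⟨j, z⟩), hy, hz, rfl, rfl, hij⟩
        have h1 := h.choose_spec
        change (if h : ∃ s, sq (A (x, ⟨i, y⟩)) (A (x, ⟨j, z⟩)) s then
          A (Function.update h.choose.1 h.choose.2.2.1 h.choose.2.2.2, h.choose.2.1)
            else A (x, ⟨i, y⟩)) = _
        rw [dif_pos h]
        generalize h.choose = s at h1 ⊢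
        obtain ⟨r, ⟨i', y'⟩, ⟨j', z'⟩⟩ := s
        obtain ⟨hy', hz', e1, e2, hij'⟩ := h1
        simp only at hy' hz' e1 e2 hij' ⊢
        obtain ⟨g, hg1, hg2⟩ := (hA _ _ _ _ _ _ hy' hy).1 e1
        obtain ⟨k, hk1, hk2⟩ := (hA _ _ _ _ _ _ hz' hz).1 e2
        obtain rfl : i' = i := congrArg Sigma.fst hg2
        obtain rfl : j' = j := congrArg Sigma.fst hk2
        have hg3 : g • y' = y := eq_of_heq (Sigma.mk.inj hg2).2
        have hk3 : k • z' = z := eq_of_heq (Sigma.mk.inj hk2).2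
        have h2 : k⁻¹ * g = 1 := by
          refine L.free _ r ?_
          intro l
          rw [mul_smul, congrFun hg1 l, ← congrFun hk1 l, inv_smul_smul]
        have h3 : k = g := inv_mul_eq_one.1 h2
        subst h3
        refine (hA _ _ _ _ _ _ ?_ ?_).2 ⟨k, ?_, ?_⟩
        · rwa [Function.update_of_ne hij']
        · rwa [Function.update_of_ne hij']
        · rw [nquot_update, hk1, hk3]
        · rw [hg3]
      inj := by
        intro x i y z hy hz h
        obtain ⟨g, h1, h2⟩ := (hA _ _ _ _ _ _ hy hz).1 h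
        have h3 : g = 1 := L.free g x fun i => congrFun h1 i
        have h4 : g • y = z := eq_of_heq (Sigma.mk.inj h2).2
        rwa [h3, one_smul] at h4
      sur := by
        intro x i a h hi
        obtain ⟨g, h1⟩ := (hP _ _).1 h
        have h3 := hαd a
        have h4 := hαe a
        change (α a).2.1 = i at hi
        generalize (α a) = r at *
        obtain ⟨r, j, z⟩ := r
        simp only at h1 h3 h4 hi ⊢
        subst hi
        subst h1
        have h5 : (S j).Adj (g • r j) (g • z) := (L.ta _).adj g _ _ h3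
        exact ⟨g • z, h5, ((hA _ _ _ _ _ _ h3 h5).2 ⟨g, rfl, rfl⟩).symm.trans h4⟩ }
  refine ⟨nP, nA, X, LL, ?_⟩
  exact
    { adj := fun g i => (L.ta i).adj g
      gp := fun g x => ((hP _ _).2 ⟨g, rfl⟩).symm
      gal := fun g x i y h => ((hA _ _ _ _ _ _ h ((L.ta i).adj g _ _ h)).2 ⟨g, rfl, rfl⟩).symm
      free := L.free
      trans := fun x y h => (hP _ _).1 h
      onto := fun q => by
        obtain ⟨x, _, hx⟩ := hP1 q
        exact ⟨x, hx⟩ }

end NQUOT

end LatN
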