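import Pool.Agent.Lib.MP_32d917_al.N.NTTL

/-!
# Uniqueness of labelled products of trees
-/

set_option autoImplicit false

namespace LatN

open LatIso

section NUNIQ

variable {ι P A : Type} [Fintype ι] [DecidableEq ι] {X : Dat ι P A} {V V' : ι → Type}
  {S : ∀ i, SimpleGraph (V i)} {S' : ∀ i, SimpleGraph (V' i)}

theorem nlp_rigid (hS : ∀ i, (S i).Connected) (L : LP X S) (f : ∀ i, V i → V i)
    (hf : ∀ i a b, (S i).Adj a b → (S i).Adj (f i a) (f i b))
    (h1 : ∀ y i z, (S i).Adj (y i) z → L.al (fun i => f i (y i)) i (f i z) = L.al y i z)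
    (x : ∀ i, V i) (hx : ∀ i, f i (x i) = x i) : ∀ i a, f i a = a := by
  have key : ∀ y : ∀ i, V i, ∀ i, f i (y i) = y i := by
    refine n_induct hS (fun y => ∀ i, f i (y i) = y i) x hx ?_
    intro y i z hz hy j
    by_cases hj : j = i
    · subst hj
      rw [Function.update_self]
      have h2 : (fun i => f i (y i)) = y := funext hy
      have h3 := h1 y j z hz
      rw [h2] at h3
      have h4 := hf j _ _ hz
      rw [hy j] at h4
      exact L.inj y j _ _ h4 hz h3
    · rw [Function.update_of_ne hj]
      exact hy j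
  intro i a
  have h2 := key (Function.update x i a) i
  rwa [Function.update_self] at h2

/-- one half of the uniqueness -/
theorem NUNIQ_half (hS : ∀ i, (S i).IsTree)
    (L : LP X S) (L' : LP X S') (x : ∀ i, V i) (x' : ∀ i, V' i) (h : L.p x = L'.p x') :
    ∃ f : ∀ i, V i → V' i, (∀ i, f i (x i) = x' i) ∧
      (∀ i a b, (S i).Adj a b → (S' i).Adj (f i a) (f i b)) ∧
      (∀ y, L'.p (fun i => f i (y i)) = L.p y) ∧
      (∀ y i z, (S i).Adj (y i) z → L'.al (fun i => f i (y i)) i (f i z) = L.al y i z) := by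
  classical
  let ph : (∀ i, V i) → (i : ι) → V i → (∀ i, V' i) → (∀ i, V' i) := fun y i z y' =>
    if hh : ∃ z', (S' i).Adj (y' i) z' ∧ L'.al y' i z' = L.al y i z then
      Function.update y' i hh.choose else y'
  have phs : ∀ (y : ∀ i, V i) i z (y' : ∀ i, V' i), (S i).Adj (y i) z → L'.p y' = L.p y →
      ∃ z', ph y i z y' = Function.update y' i z' ∧ (S' i).Adj (y' i) z' ∧
        L'.al y' i z' = L.al y i z := by
    intro y i z y' hz hy
    have hh : ∃ z', (S' i).Adj (y' i) z' ∧ L'.al y' i z' = L.al y i z :=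
      L'.sur y' i _ (by rw [L.o y i z hz, hy]) (L.ty y i z hz)
    refine ⟨hh.choose, ?_, hh.choose_spec⟩
    simp only [ph, dif_pos hh]
  have pe : ∀ (y : ∀ i, V i) i z (y' : ∀ i, V' i) z', (S i).Adj (y i) z →
      (S' i).Adj (y' i) z' → L'.al y' i z' = L.al y i z →
      L'.p (Function.update y' i z') = L.p (Function.update y i z) := by
    intro y i z y' z' hz hz' he
    have h1 := L'.o (Function.update y' i z') i (y' i)
      (by rw [Function.update_self]; exact hz'.symm)
    have h2 := L.o (Function.update y i z) i (y i) (by rw [Function.update_self]; exact hz.symm)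
    rw [← h1, ← h2, L'.inv y' i z' hz', L.inv y i z hz, he]
  obtain ⟨F, hF0, hF1, hF2⟩ := nttl hS (fun y (y' : ∀ i, V' i) => L'.p y' = L.p y) ph
    (fun y i z y' hz hy => by
      obtain ⟨z', h1, h2, h3⟩ := phs y i z y' hz hy
      rw [h1]
      exact pe y i z y' z' hz h2 h3)
    (fun y i z y' hz hy => by
      obtain ⟨z', h1, h2, h3⟩ := phs y i z y' hz hy
      rw [h1]
      obtain ⟨w, h4, h5, h6⟩ := phs (Function.update y i z) i (y i) (Function.update y' i z')
        (by rw [Function.update_self]; exact hz.symm) (pe y i z y' z' hz h2 h3)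
      rw [h4]
      have h7 : w = y' i := by
        refine L'.inj (Function.update y' i z') i _ _ h5
          (by rw [Function.update_self]; exact h2.symm) ?_
        rw [h6, L'.inv y' i z' h2, L.inv y i z hz, h3]
      rw [h7, Function.update_idem, Function.update_eq_self])
    (fun y i a j b y' hij ha hb hy => by
      obtain ⟨a', h1, h2, h3⟩ := phs y i a y' ha hy
      obtain ⟨b', h4, h5, h6⟩ := phs y j b y' hb hy
      rw [h1, h4]
      obtain ⟨c, h7, h8, h9⟩ := phs (Function.update y i a) j b (Function.update y' i a')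
        (by rw [Function.update_of_ne hij.symm]; exact hb) (pe y i a y' a' ha h2 h3)
      obtain ⟨d, h10, h11, h12⟩ := phs (Function.update y j b) i a (Function.update y' j b')
        (by rw [Function.update_of_ne hij]; exact ha) (pe y j b y' b' hb h5 h6)
      rw [h7, h10]
      have hc : c = b' := by
        refine L'.inj (Function.update y' i a') j _ _ h8
          (by rw [Function.update_of_ne hij.symm]; exact h5) ?_
        rw [h9, ← L'.tr y' j b' i a' hij.symm h5 h2, ← L.tr y j b i a hij.symm hb ha, h3, h6]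
      have hd : d = a' := by
        refine L'.inj (Function.update y' j b') i _ _ h11
          (by rw [Function.update_of_ne hij]; exact h2) ?_
        rw [h12, ← L'.tr y' i a' j b' hij h2 h5, ← L.tr y i a j b hij ha hb, h3, h6]
      rw [hc, hd]
      exact Function.update_comm hij _ _ _)
    x x' h.symm
  -- the coordinates
  have hstep : ∀ (y : ∀ i, V i) i z, (S i).Adj (y i) z → ∃ z',
      F (Function.update y i z) = Function.update (F y) i z' ∧ (S' i).Adj (F y i) z' ∧
        L'.al (F y) i z' = L.al y i z := by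
    intro y i z hz
    rw [hF2 y i z hz]
    exact phs y i z (F y) hz (hF1 y)
  have hco : ∀ (i : ι) (v : V i) (y : ∀ i, V i),
      F (Function.update y i v) i = F (Function.update x i v) i := by
    intro i v
    refine n_induct (fun i => (hS i).connected)
      (fun y => F (Function.update y i v) i = F (Function.update x i v) i) x rfl ?_
    intro y j z hz hy
    by_cases hj : j = i
    · subst hj
      rw [Function.update_idem]
      exact hy
    · rw [Function.update_comm hj]
      obtain ⟨z', h1, -, -⟩ := hstep (Function.update y i v) j z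
        (by rw [Function.update_of_ne hj]; exact hz)
      rw [h1, Function.update_of_ne (Ne.symm hj)]
      exact hy
  have hFc : ∀ (y : ∀ i, V i) i, F y i = F (Function.update x i (y i)) i := by
    intro y i
    have h1 := hco i (y i) y
    rwa [Function.update_eq_self] at h1
  have hFf : ∀ y : ∀ i, V i, (fun i => F (Function.update x i (y i)) i) = F y := fun y =>
    funext fun i => (hFc y i).symm
  refine ⟨fun i v => F (Function.update x i v) i, ?_, ?_, ?_, ?_⟩
  · intro i
    simp only [Function.update_eq_self]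
    rw [hF0]
  · intro i a b hab
    obtain ⟨z', h1, h2, -⟩ := hstep (Function.update x i a) i b
      (by rw [Function.update_self]; exact hab)
    rw [Function.update_idem] at h1
    have h3 : F (Function.update x i b) i = z' := by rw [h1, Function.update_self]
    simp only [h3]
    exact h2
  · intro y
    simp only [hFf]
    exact hF1 y
  · intro y i z hz
    simp only [hFf]
    obtain ⟨z', h1, h2, h3⟩ := hstep y i z hz
    have h4 : F (Function.update x i z) i = z' := by
      rw [← hco i z y, h1, Function.update_self]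
    rw [h4]
    exact h3

theorem nlp_uniq (hX : Valid X) (hS : ∀ i, (S i).IsTree) (hS' : ∀ i, (S' i).IsTree)
    (L : LP X S) (L' : LP X S') (x : ∀ i, V i) (x' : ∀ i, V' i) (h : L.p x = L'.p x') :
    ∃ f : ∀ i, V i ≃ V' i, (∀ i, f i (x i) = x' i) ∧
      (∀ i a b, (S i).Adj a b ↔ (S' i).Adj (f i a) (f i b)) ∧
      (∀ y, L'.p (fun i => f i (y i)) = L.p y) ∧
      (∀ y i z, (S i).Adj (y i) z → L'.al (fun i => f i (y i)) i (f i z) = L.al y i z) := by
  have _ := hX
  obtain ⟨f, hf0, hf, hp, hal⟩ := NUNIQ_half hS L L' x x' h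
  obtain ⟨g, hg0, hg, -, hal'⟩ := NUNIQ_half hS' L' L x' x h.symm
  have r1 := nlp_rigid (fun i => (hS i).connected) L (fun i v => g i (f i v))
    (fun i a b hab => hg i _ _ (hf i _ _ hab))
    (fun y i z hz => by
      have h1 := hal' (fun i => f i (y i)) i (f i z) (hf i _ _ hz)
      rw [h1, hal y i z hz]) x (fun i => by rw [hf0, hg0])
  have r2 := nlp_rigid (fun i => (hS' i).connected) L' (fun i v => f i (g i v))
    (fun i a b hab => hf i _ _ (hg i _ _ hab))
    (fun y i z hz => by
      have h1 := hal (fun i => g i (y i)) i (g i z) (hg i _ _ hz)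
      rw [h1, hal' y i z hz]) x' (fun i => by rw [hg0, hf0])
  refine ⟨fun i => ⟨f i, g i, r1 i, r2 i⟩, hf0, ?_, hp, hal⟩
  intro i a b
  refine ⟨hf i a b, fun hab => ?_⟩
  have h1 := hg i _ _ hab
  simp only [Equiv.coe_fn_mk] at h1
  rwa [r1, r1] at h1

/-- the group of deck transformations -/
def NUNIQ_grp (L : LP X S) : Subgroup (∀ i, Equiv.Perm (V i)) where
  carrier := {f | (∀ i a b, (S i).Adj a b ↔ (S i).Adj (f i a) (f i b)) ∧
      (∀ y, L.p (fun i => f i (y i)) = L.p y) ∧
      (∀ y i z, (S i).Adj (y i) z → L.al (fun i => f i (y i)) i (f i z) = L.al y i z)}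
  mul_mem' := by
    rintro f g ⟨hf1, hf2, hf3⟩ ⟨hg1, hg2, hg3⟩
    refine ⟨fun i a b => (hg1 i a b).trans (hf1 i _ _), fun y => ?_, fun y i z hz => ?_⟩
    · exact (hf2 (fun i => g i (y i))).trans (hg2 y)
    · exact (hf3 (fun i => g i (y i)) i (g i z) ((hg1 i _ _).mp hz)).trans (hg3 y i z hz)
  one_mem' := ⟨fun _ _ _ => Iff.rfl, fun _ => rfl, fun _ _ _ _ => rfl⟩
  inv_mem' := by
    rintro f ⟨hf1, hf2, hf3⟩
    have hinv : ∀ i v, f i ((f⁻¹) i v) = v := fun i v => (f i).apply_symm_apply v
    have hy : ∀ y : ∀ i, V i, (fun i => f i ((f⁻¹) i (y i))) = y := fun y =>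
      funext fun i => hinv i (y i)
    have hadj : ∀ i a b, (S i).Adj a b ↔ (S i).Adj ((f⁻¹) i a) ((f⁻¹) i b) := by
      intro i a b
      rw [hf1 i ((f⁻¹) i a) ((f⁻¹) i b), hinv, hinv]
    refine ⟨hadj, fun y => ?_, fun y i z hz => ?_⟩
    · rw [← hf2 (fun i => (f⁻¹) i (y i)), hy]
    · have h1 := hf3 (fun i => (f⁻¹) i (y i)) i ((f⁻¹) i z) ((hadj i _ _).mp hz)
      rw [hy, hinv] at h1
      exact h1.symm

instance NUNIQ_act (L : LP X S) (i : ι) : MulAction (NUNIQ_grp L) (V i) where
  smul g v := (g : ∀ i, Equiv.Perm (V i)) i v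
  one_smul _ := rfl
  mul_smul _ _ _ := rfl

theorem nlp_aut (hX : Valid X) (hS : ∀ i, (S i).IsTree) (L : LP X S)
    (hon : ∀ q, ∃ x, L.p x = q) :
    ∃ (G : Type) (_ : Group G) (_ : ∀ i, MulAction G (V i)), Cov G L := by
  refine ⟨NUNIQ_grp L, inferInstance, NUNIQ_act L, ?_⟩
  exact
    { adj := fun g i x y h => (g.2.1 i x y).mp h
      gp := fun g x => g.2.2.1 x
      gal := fun g x i y h => g.2.2.2 x i y h
      free := by
        intro g x hx
        have h1 := nlp_rigid (fun i => (hS i).connected) L
          (fun i v => (g : ∀ i, Equiv.Perm (V i)) i v)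
          (fun i a b hab => (g.2.1 i a b).mp hab) (fun y i z hz => g.2.2.2 y i z hz) x hx
        apply Subtype.ext
        funext i
        apply Equiv.ext
        exact h1 i
      trans := by
        intro x y hxy
        obtain ⟨f, hf0, hf1, hf2, hf3⟩ := nlp_uniq hX hS hS L L x y hxy
        exact ⟨⟨f, hf1, hf2, hf3⟩, funext hf0⟩
      onto := hon }

end NUNIQ

end LatN
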