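import Pool.Agent.Lib.MP_32d917_al.N.NRig
import Pool.Agent.Lib.MP_32d917_al.N.NUNIQ
import Pool.Agent.Lib.MP_32d917_al.N.NLEX3
import Pool.Agent.Lib.MP_32d917_al.N.NDG
import Pool.Agent.Lib.MP_32d917_al.N.NQUOT
import Pool.Agent.Lib.MP_32d917_al.N.NGOODA
import Pool.Agent.Lib.MP_32d917_al.N.NGOODB
import Pool.Agent.Lib.MP_32d917_al.N.NRED
import Pool.Agent.Lib.MP_32d917_al.N.NSUBD
import Pool.Agent.Lib.MP_32d917_al.N.NCODE1
import Pool.Agent.Lib.MP_32d917_al.N.NCODE2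
import Pool.Agent.Lib.MP_32d917_al.N.NCODE3
import Pool.Agent.Lib.MP_32d917_al.N.NCODE4
import Pool.Agent.Lib.MP_32d917_al.N.NGPRES
import Pool.Agent.Lib.MP_32d917_al.PRES2

/-!
# Certificates of isomorphism and of non-isomorphism
-/

set_option autoImplicit false

namespace LatN

open LatIso

/-- `x` is a code of good data for the group presented by `P` -/
def CodeFor (P : Pres) (x : Code) : Prop := Good (dec x.1 x.2) ∧ HasCov P.Grp (dec x.1 x.2)

/-- `HasCov` in terms of the fundamental group -/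
theorem nhasCov_iff {G : Type} [Group G] {ι P A : Type} [Fintype ι] [DecidableEq ι] [Finite P]
    [Nonempty A] {X : Dat ι P A} (hX : Valid X) {p0 : P} {δ : P → A} {r : P → ℕ}
    (hs : Span X p0 δ r) : HasCov G X ↔ Nonempty (G ≃* Gam X p0 δ) := by
  constructor
  · rintro ⟨V, _, S, hS, L, hL⟩
    exact ncov_gam hS hL hs
  · rintro ⟨e⟩
    obtain ⟨V, S, hS, L, x, hx⟩ := nlp_exists hX p0
    have hon := nlp_onto L hs ⟨x, hx⟩
    obtain ⟨K, _, _, hK⟩ := nlp_aut hX hS L hon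
    obtain ⟨e'⟩ := ncov_gam hS hK hs
    exact nhasCov_transport (e.trans e'.symm) ⟨V, _, S, hS, L, hK⟩

theorem nhasCov_unique {G G' : Type} [Group G] [Group G'] {ι P A : Type} [Fintype ι]
    [DecidableEq ι] [Finite P] [Nonempty A] {X : Dat ι P A} (hX : Good X) (h : HasCov G X)
    (h' : HasCov G' X) : Nonempty (G ≃* G') := by
  obtain ⟨p0, δ, r, hs⟩ := hX.span
  obtain ⟨e⟩ := (nhasCov_iff hX.valid hs).1 h
  obtain ⟨e'⟩ := (nhasCov_iff hX.valid hs).1 h'
  exact ⟨e.trans e'.symm⟩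

/-- every rank function is given by a list -/
theorem list_rank {n : ℕ} (r : Fin n → ℕ) : ∃ l : List ℕ, (fun q : Fin n => l.getD q 0) = r := by
  refine ⟨List.ofFn r, ?_⟩
  funext q
  rw [List.getD_eq_getElem?_getD, List.getElem?_ofFn]
  simp

theorem codeFor_iff (P : Pres) (x : Code) (f : Code × ℕ × ℕ → Pres)
    (hf : ∀ (x : Code) (p d : ℕ), Nonempty ((f (x, p, d)).Grp ≃*
      Gam (dec x.1 x.2) (decp x.1 p) (decd x.1 d))) :
    CodeFor P x ↔ Good (dec x.1 x.2) ∧ ∃ y : ℕ × ℕ × List ℕ,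
      Span (dec x.1 x.2) (decp x.1 y.1) (decd x.1 y.2.1) (fun q => y.2.2.getD q 0) ∧
      Nonempty (P.Grp ≃* (f (x, y.1, y.2.1)).Grp) := by
  constructor
  · rintro ⟨hg, hc⟩
    refine ⟨hg, ?_⟩
    obtain ⟨p0, δ, r, hs⟩ := hg.span
    obtain ⟨p, hp⟩ := ndecp_surj x.1 p0
    obtain ⟨d, hd⟩ := ndecd_surj x.1 δ
    obtain ⟨l, hl⟩ := list_rank r
    subst hp hd hl
    obtain ⟨e⟩ := (nhasCov_iff hg.valid hs).1 hc
    obtain ⟨e'⟩ := hf x p d
    exact ⟨(p, d, l), hs, ⟨e.trans e'.symm⟩⟩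
  · rintro ⟨hg, ⟨p, d, l⟩, hs, ⟨e⟩⟩
    obtain ⟨e'⟩ := hf x p d
    exact ⟨hg, (nhasCov_iff hg.valid hs).2 ⟨e.trans e'⟩⟩

theorem codeFor_re : REPred (fun x : Pres × Code => CodeFor x.1 x.2) := by
  obtain ⟨f, hf, hf'⟩ := ngam_pres
  have h1 : REPred (fun x : (Pres × Code) × (ℕ × ℕ × List ℕ) =>
      Span (dec x.1.2.1 x.1.2.2) (decp x.1.2.1 x.2.1) (decd x.1.2.1 x.2.2.1)
        (fun q => x.2.2.2.getD q 0)) := by
    refine re_of_prim ?_
    exact nspan_p.comp (f := fun x : (Pres × Code) × (ℕ × ℕ × List ℕ) =>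
      (x.1.2, x.2.1, x.2.2.1, x.2.2.2)) (by
        exact Primrec.pair (Primrec.snd.comp Primrec.fst) (Primrec.pair
          (Primrec.fst.comp Primrec.snd) (Primrec.pair (Primrec.fst.comp (Primrec.snd.comp
          Primrec.snd)) (Primrec.snd.comp (Primrec.snd.comp Primrec.snd)))))
  have h2 : REPred (fun x : (Pres × Code) × (ℕ × ℕ × List ℕ) =>
      Nonempty (x.1.1.Grp ≃* (f (x.1.2, x.2.1, x.2.2.1)).Grp)) := by
    refine re_comp iso_re (f := fun x : (Pres × Code) × (ℕ × ℕ × List ℕ) =>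
      (x.1.1, f (x.1.2, x.2.1, x.2.2.1))) ?_
    refine Primrec.to_comp ?_
    exact Primrec.pair (Primrec.fst.comp Primrec.fst) (hf.comp (Primrec.pair
      (Primrec.snd.comp Primrec.fst) (Primrec.pair (Primrec.fst.comp Primrec.snd)
      (Primrec.fst.comp (Primrec.snd.comp Primrec.snd)))))
  have h3 : REPred (fun x : Pres × Code => Good (dec x.2.1 x.2.2)) :=
    re_comp ngood_re (f := fun x : Pres × Code => x.2) Primrec.snd.to_comp
  have h4 := re_and h3 (re_exists (p := fun (x : Pres × Code) (y : ℕ × ℕ × List ℕ) =>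
    Span (dec x.2.1 x.2.2) (decp x.2.1 y.1) (decd x.2.1 y.2.1) (fun q => y.2.2.getD q 0) ∧
      Nonempty (x.1.Grp ≃* (f (x.2, y.1, y.2.1)).Grp)) (re_and h1 h2))
  refine h4.of_eq ?_
  intro x
  exact (codeFor_iff x.1 x.2 f hf').symm

/-- certificate of non-isomorphism -/
def NoCert (P Q : Pres) : Prop :=
  ∃ z : Code × Code × List Code, CodeFor P z.1 ∧ CodeFor Q z.2.1 ∧ Closed z.2.2 ∧ z.1 ∈ z.2.2 ∧
    ∀ t ∈ z.2.2, ¬ Iso (dec t.1 t.2) (dec z.2.1.1 z.2.1.2)

theorem mem_code_p : PrimrecPred (fun x : Code × List Code => x.1 ∈ x.2) := by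
  have h1 : PrimrecRel (fun (t : Code) (x : Code) => t = x) := Primrec.eq
  refine PrimrecPred.of_eq (h1.exists_mem_list.comp Primrec.snd Primrec.fst) ?_
  intro x
  simp

theorem noCert_re : REPred (fun x : Pres × Pres => NoCert x.1 x.2) := by
  have hP : Primrec (fun x : (Pres × Pres) × (Code × Code × List Code) => (x.1.1, x.2.1)) :=
    Primrec.pair (Primrec.fst.comp Primrec.fst) (Primrec.fst.comp Primrec.snd)
  have hQ : Primrec (fun x : (Pres × Pres) × (Code × Code × List Code) => (x.1.2, x.2.2.1)) :=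
    Primrec.pair (Primrec.snd.comp Primrec.fst) (Primrec.fst.comp (Primrec.snd.comp Primrec.snd))
  have hl : Primrec (fun x : (Pres × Pres) × (Code × Code × List Code) => x.2.2.2) :=
    Primrec.snd.comp (Primrec.snd.comp Primrec.snd)
  have hz : Primrec (fun x : (Pres × Pres) × (Code × Code × List Code) => x.2.1) :=
    Primrec.fst.comp Primrec.snd
  have hy : Primrec (fun x : (Pres × Pres) × (Code × Code × List Code) => x.2.2.1) :=
    Primrec.fst.comp (Primrec.snd.comp Primrec.snd)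
  have h1 := re_comp codeFor_re hP.to_comp
  have h2 := re_comp codeFor_re hQ.to_comp
  have h3 : PrimrecPred (fun x : (Pres × Pres) × (Code × Code × List Code) => Closed x.2.2.2) :=
    nclosed_p.comp hl
  have h4 : PrimrecPred (fun x : (Pres × Pres) × (Code × Code × List Code) =>
      x.2.1 ∈ x.2.2.2) := mem_code_p.comp (Primrec.pair hz hl)
  have h5 : PrimrecPred (fun x : (Pres × Pres) × (Code × Code × List Code) =>
      ∀ t ∈ x.2.2.2, ¬ Iso (dec t.1 t.2) (dec x.2.2.1.1 x.2.2.1.2)) := by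
    have h6 : PrimrecRel (fun (t : Code) (y : Code) => ¬ Iso (dec t.1 t.2) (dec y.1 y.2)) :=
      nciso_p.not
    exact h6.forall_mem_list.comp hl hy
  have h := re_exists (p := fun (x : Pres × Pres) (z : Code × Code × List Code) =>
    CodeFor x.1 z.1 ∧ CodeFor x.2 z.2.1 ∧ Closed z.2.2 ∧ z.1 ∈ z.2.2 ∧
      ∀ t ∈ z.2.2, ¬ Iso (dec t.1 t.2) (dec z.2.1.1 z.2.1.2))
    (re_and h1 (re_and h2 (re_and (re_of_prim h3) (re_and (re_of_prim h4) (re_of_prim h5)))))
  exact h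

/-- closed lists are closed under chains of slides -/
theorem closed_chain {l : List Code} (hl : Closed l) (s : ℕ × ℕ × ℕ)
    {X Y : Dat (Fin (s.1 + 1)) (Fin (s.2.1 + 1)) (Fin (s.2.2 + 1))}
    (h : Relation.ReflTransGen HSl X Y) (hX : ∃ t, (s, t) ∈ l ∧ dec s t = X) :
    ∃ t, (s, t) ∈ l ∧ dec s t = Y := by
  induction h with
  | refl => exact hX
  | @tail Y Z _ h ih =>
    obtain ⟨t, h1, h2⟩ := ih
    obtain ⟨t', h3, h4⟩ := ndec_surj s Z
    refine ⟨t', hl _ h1 (s, t') h3 ⟨rfl, ?_⟩, h4⟩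
    simp only
    rw [h2, h4]
    exact h

theorem noCert_sound (P Q : Pres) (h : NoCert P Q) : ¬ Nonempty (P.Grp ≃* Q.Grp) := by
  rintro ⟨e⟩
  obtain ⟨⟨x, y, l⟩, ⟨gx, cx⟩, ⟨gy, cy⟩, hl, hx, hno⟩ := h
  simp only at gx cx gy cy hl hx hno
  have cy' : HasCov P.Grp (dec y.1 y.2) := nhasCov_transport e cy
  obtain ⟨V, _, S, hS, cX⟩ := cx
  obtain ⟨V', _, S', hS', cY⟩ := cy'
  obtain ⟨L, rS⟩ := nlat_of_good hS cX gx
  obtain ⟨L', rS'⟩ := nlat_of_good hS' cY gy
  obtain ⟨X1, h1, h3⟩ := nrig L L' rS rS' cX cY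
  obtain ⟨t, m, ht⟩ := closed_chain hl x.1 h1 ⟨x.2, hx, rfl⟩
  apply hno _ m
  simp only
  rw [ht]
  exact h3

/-- every group in the class has a code -/
theorem codeFor_exists (P : Pres) (hP : IsTreeLattice P.Grp) :
    ∃ x : Code, InBox x.1 x.2 ∧ CodeFor P x := by
  obtain ⟨n, V, _, S, L⟩ := nsubd hP
  obtain ⟨n, V, _, S, L, rS⟩ := nred_exists L
  obtain ⟨nP, nA, X, hX⟩ := nquot_exists L
  obtain ⟨t, h1, h2⟩ := ndec_surj (n, nP, nA) X
  refine ⟨((n, nP, nA), t), h1, ?_, ?_⟩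
  · simp only
    rw [h2]
    exact ngood_of_lat L rS hX
  · simp only
    rw [h2]
    exact ⟨V, _, S, fun i => (L.ta i).tree, hX⟩

theorem hasCov_cstep {G : Type} [Group G] {x y : Code} (h : CStep x y)
    (hx : HasCov G (dec x.1 x.2)) : HasCov G (dec y.1 y.2) := by
  obtain ⟨s, t⟩ := x
  obtain ⟨s', t'⟩ := y
  obtain ⟨h1, h2⟩ := h
  simp only at h1 h2 hx ⊢
  subst h1
  exact nhasCov_hsl hx h2

/-- the box of all codes with sizes `s` -/
theorem box_finite (s : ℕ × ℕ × ℕ) : {t : ℕ × ℕ × ℕ × ℕ | InBox s t}.Finite := by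
  have h : {t : ℕ × ℕ × ℕ × ℕ | InBox s t} ⊆
      ((Set.Iio (bd s)) ×ˢ (Set.Iio (bd s)) ×ˢ (Set.Iio (bd s)) ×ˢ (Set.Iio (bd s))) := by
    rintro ⟨a, b, c, d⟩ ⟨h1, h2, h3, h4⟩
    simp only [Set.mem_prod, Set.mem_Iio]
    exact ⟨h1, h2, h3, h4⟩
  refine Set.Finite.subset ?_ h
  have hf := Set.finite_Iio (bd s)
  exact hf.prod (hf.prod (hf.prod hf))

theorem noCert_complete (P Q : Pres) (hP : IsTreeLattice P.Grp) (hQ : IsTreeLattice Q.Grp)
    (h : ¬ Nonempty (P.Grp ≃* Q.Grp)) : NoCert P Q := by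
  classical
  obtain ⟨x, bx, cx⟩ := codeFor_exists P hP
  obtain ⟨y, _, cy⟩ := codeFor_exists Q hQ
  set s := x.1 with hs
  -- the set of all reachable codes
  let Z : Set Code := {z | z.1 = s ∧ InBox z.1 z.2 ∧ HasCov P.Grp (dec z.1 z.2)}
  have hZ : Z.Finite := by
    have h1 : Z ⊆ ({s} : Set (ℕ × ℕ × ℕ)) ×ˢ {t | InBox s t} := by
      rintro ⟨z, t⟩ ⟨hz, hb, -⟩
      simp only at hz hb
      subst hz
      exact ⟨rfl, hb⟩
    refine Set.Finite.subset ?_ h1
    exact (Set.toFinite _).prod (box_finite s)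
  refine ⟨(x, y, hZ.toFinset.toList), cx, cy, ?_, ?_, ?_⟩
  · intro a ha b hb hab
    simp only [Finset.mem_toList, Set.Finite.mem_toFinset] at ha ⊢
    obtain ⟨h1, h2, h3⟩ := ha
    exact ⟨hab.1.trans h1, hb, hasCov_cstep hab h3⟩
  · simp only [Finset.mem_toList, Set.Finite.mem_toFinset]
    exact ⟨rfl, bx, cx.2⟩
  · intro z hz hiso
    simp only [Finset.mem_toList, Set.Finite.mem_toFinset] at hz
    have h1 : HasCov P.Grp (dec y.1 y.2) := nhasCov_iso hiso hz.2.2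
    exact h (nhasCov_unique cy.1 h1 cy.2)

theorem par_search {α : Type} [Primcodable α] {Y N : α → Prop} (hY : REPred Y) (hN : REPred N) :
    ∃ f : α →. Bool, Partrec f ∧ (∀ x, Y x ∨ N x → (f x).Dom) ∧ (∀ x, true ∈ f x → Y x) ∧
      ∀ x, false ∈ f x → N x := by
  have h1 : Partrec (fun x => (Part.assert (Y x) fun _ => Part.some ()).map fun _ => true) :=
    Partrec.map hY (Computable.const true).to₂
  have h2 : Partrec (fun x => (Part.assert (N x) fun _ => Part.some ()).map fun _ => false) :=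
    Partrec.map hN (Computable.const false).to₂
  obtain ⟨k, hk, hk'⟩ := Partrec.merge' h1 h2
  refine ⟨k, hk, ?_, ?_, ?_⟩
  · intro x hx
    rw [(hk' x).2]
    rcases hx with hx | hx
    · left; exact ⟨hx, trivial⟩
    · right; exact ⟨hx, trivial⟩
  · intro x hx
    rcases (hk' x).1 _ hx with h | h
    · simp only [Part.mem_map_iff, Part.mem_assert_iff] at h
      obtain ⟨_, ⟨h, -⟩, -⟩ := h
      exact h
    · simp only [Part.mem_map_iff] at h
      obtain ⟨_, _, h⟩ := h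
      simp at h
  · intro x hx
    rcases (hk' x).1 _ hx with h | h
    · simp only [Part.mem_map_iff] at h
      obtain ⟨_, _, h⟩ := h
      simp at h
    · simp only [Part.mem_map_iff, Part.mem_assert_iff] at h
      obtain ⟨_, ⟨h, -⟩, -⟩ := h
      exact h

/-- The isomorphism problem is solvable for torsion free uniform lattices in products of
finitely many trees. -/
theorem nfinal : ∃ f : Pres × Pres →. Bool, Partrec f ∧ ∀ P Q : Pres,
    IsTreeLattice P.Grp → IsTreeLattice Q.Grp →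
      ∃ b ∈ f (P, Q), (b = true ↔ Nonempty (P.Grp ≃* Q.Grp)) := by
  obtain ⟨f, hf, h1, h2, h3⟩ := par_search iso_re noCert_re
  refine ⟨f, hf, fun P Q hP hQ => ?_⟩
  have g2 : true ∈ f (P, Q) → Nonempty (P.Grp ≃* Q.Grp) := fun h => h2 (P, Q) h
  have g3 : false ∈ f (P, Q) → NoCert P Q := fun h => h3 (P, Q) h
  have hd : (f (P, Q)).Dom := by
    apply h1
    by_cases h : Nonempty (P.Grp ≃* Q.Grp)
    · exact Or.inl h
    · exact Or.inr (noCert_complete P Q hP hQ h)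
  refine ⟨(f (P, Q)).get hd, Part.get_mem hd, ?_⟩
  have hm := Part.get_mem hd
  rcases hb : (f (P, Q)).get hd with _ | _
  · rw [hb] at hm
    have h4 := noCert_sound P Q (g3 hm)
    exact ⟨fun h => by simp at h, fun h => absurd h h4⟩
  · rw [hb] at hm
    exact ⟨fun _ => g2 hm, fun _ => rfl⟩

end LatN
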