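import Pool.Agent.Lib.MP_32d917_al.NDefs
import Pool.Agent.Lib.MP_32d917_al.CODEB

/-!
# The elementary steps between codes are primitive recursive
-/

set_option autoImplicit false

namespace LatN

open LatIso

/-! ### the entries of a code -/

/-- number valued types -/
def ncode2_ty (x : Code) (a : ℕ) : ℕ := CB.dg x.1.1 x.2.1 a
/-- number valued origins -/
def ncode2_o (x : Code) (a : ℕ) : ℕ := CB.dg x.1.2.1 x.2.2.1 a
/-- number valued inverses -/
def ncode2_i (x : Code) (a : ℕ) : ℕ := CB.dg x.1.2.2 x.2.2.2.1 a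
/-- number valued transport -/
def ncode2_tr (x : Code) (a b : ℕ) : ℕ := CB.dg x.1.2.2 x.2.2.2.2 (a * (x.1.2.2 + 1) + b)

section Vals

variable (s : ℕ × ℕ × ℕ) (u : ℕ × ℕ × ℕ × ℕ)

theorem ncode2_ty_val (a : Fin (s.2.2 + 1)) :
    (((dec s u).ty a : Fin _) : ℕ) = ncode2_ty (s, u) a := rfl
theorem ncode2_o_val (a : Fin (s.2.2 + 1)) :
    (((dec s u).o a : Fin _) : ℕ) = ncode2_o (s, u) a := rfl
theorem ncode2_i_val (a : Fin (s.2.2 + 1)) :
    (((dec s u).i a : Fin _) : ℕ) = ncode2_i (s, u) a := rfl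
theorem ncode2_tr_val (a b : Fin (s.2.2 + 1)) :
    (((dec s u).tr a b : Fin _) : ℕ) = ncode2_tr (s, u) a b := rfl

end Vals

section Prims

variable {β : Type} [Primcodable β] {f : β → Code} {g h : β → ℕ}

theorem ncode2_p_ty (hf : Primrec f) (hg : Primrec g) :
    Primrec (fun x => ncode2_ty (f x) (g x)) := by
  unfold ncode2_ty
  exact CB.p_dg (CB.p_fst (CB.p_fst hf)) (CB.p_fst (CB.p_snd hf)) hg

theorem ncode2_p_o (hf : Primrec f) (hg : Primrec g) :
    Primrec (fun x => ncode2_o (f x) (g x)) := by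
  unfold ncode2_o
  exact CB.p_dg (CB.p_fst (CB.p_snd (CB.p_fst hf))) (CB.p_fst (CB.p_snd (CB.p_snd hf))) hg

theorem ncode2_p_i (hf : Primrec f) (hg : Primrec g) :
    Primrec (fun x => ncode2_i (f x) (g x)) := by
  unfold ncode2_i
  exact CB.p_dg (CB.p_snd (CB.p_snd (CB.p_fst hf)))
    (CB.p_fst (CB.p_snd (CB.p_snd (CB.p_snd hf)))) hg

theorem ncode2_p_tr (hf : Primrec f) (hg : Primrec g) (hh : Primrec h) :
    Primrec (fun x => ncode2_tr (f x) (g x) (h x)) := by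
  unfold ncode2_tr
  exact CB.p_dg (CB.p_snd (CB.p_snd (CB.p_fst hf))) (CB.p_snd (CB.p_snd (CB.p_snd (CB.p_snd hf))))
    (CB.p_add (CB.p_mul hg (CB.p_add (CB.p_snd (CB.p_snd (CB.p_fst hf))) (Primrec.const 1))) hh)

end Prims

/-- number version of `HSlW`, first part -/
def ncode2_HN1 (X Y : Code) (k c w : ℕ) : Prop :=
  (∀ a < X.1.2.2 + 1, CB.dg 1 c a = 1 → ncode2_ty X a = k) ∧
  (∀ a < X.1.2.2 + 1, ∀ b < X.1.2.2 + 1, ncode2_o X a = ncode2_o X b → ¬ ncode2_ty X b = k →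
    CB.dg 1 c a = 1 → CB.dg 1 c (ncode2_tr X a b) = 1) ∧
  (∀ a < X.1.2.2 + 1, CB.dg 1 c a = 1 → ¬ CB.dg 1 c (ncode2_i X a) = 1) ∧
  (∀ a < X.1.2.2 + 1, CB.dg 1 c a = 1 → ¬ CB.dg 1 c (CB.dg X.1.2.2 w a) = 1 ∧
    ¬ CB.dg 1 c (ncode2_i X (CB.dg X.1.2.2 w a)) = 1 ∧
    ncode2_o X (CB.dg X.1.2.2 w a) = ncode2_o X a ∧ ncode2_ty X (CB.dg X.1.2.2 w a) = k) ∧
  (∀ a < X.1.2.2 + 1, ∀ b < X.1.2.2 + 1, ncode2_o X a = ncode2_o X b → ¬ ncode2_ty X b = k →
    CB.dg 1 c a = 1 →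
    CB.dg X.1.2.2 w (ncode2_tr X a b) = ncode2_tr X (CB.dg X.1.2.2 w a) b) ∧
  (∀ a < X.1.2.2 + 1, ncode2_ty Y a = ncode2_ty X a) ∧
  (∀ a < X.1.2.2 + 1, ncode2_i Y a = ncode2_i X a) ∧
  (∀ a < X.1.2.2 + 1, CB.dg 1 c a = 1 →
    ncode2_o Y a = ncode2_o X (ncode2_i X (CB.dg X.1.2.2 w a))) ∧
  (∀ a < X.1.2.2 + 1, ¬ CB.dg 1 c a = 1 → ncode2_o Y a = ncode2_o X a)

/-- number version of `HSlW`, second part -/
def ncode2_HN2 (X Y : Code) (k c w : ℕ) : Prop :=
  (∀ a < X.1.2.2 + 1, ∀ b < X.1.2.2 + 1, CB.dg 1 c a = 1 → ¬ ncode2_ty X b = k →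
    ncode2_o Y a = ncode2_o X b →
    ncode2_tr Y a b = ncode2_tr X a (ncode2_tr X b (ncode2_i X (CB.dg X.1.2.2 w a)))) ∧
  (∀ a < X.1.2.2 + 1, ∀ b < X.1.2.2 + 1, CB.dg 1 c a = 1 → ¬ ncode2_ty X b = k →
    ncode2_o Y a = ncode2_o X b →
    ncode2_tr Y b a = ncode2_tr X (ncode2_tr X b (ncode2_i X (CB.dg X.1.2.2 w a))) a) ∧
  (∀ a < X.1.2.2 + 1, ∀ b < X.1.2.2 + 1, ncode2_ty X a = k → ¬ CB.dg 1 c a = 1 →
    ¬ ncode2_ty X b = k → ncode2_o Y a = ncode2_o X b → ncode2_tr Y a b = ncode2_tr X a b) ∧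
  (∀ a < X.1.2.2 + 1, ∀ b < X.1.2.2 + 1, CB.dg 1 c (ncode2_i X a) = 1 → ¬ ncode2_ty X b = k →
    ncode2_o Y a = ncode2_o X b →
    ncode2_tr Y b a = ncode2_tr X (ncode2_tr X b a) (CB.dg X.1.2.2 w (ncode2_i X a))) ∧
  (∀ a < X.1.2.2 + 1, ∀ b < X.1.2.2 + 1, ncode2_ty X a = k → ¬ CB.dg 1 c a = 1 →
    ¬ CB.dg 1 c (ncode2_i X a) = 1 → ¬ ncode2_ty X b = k → ncode2_o Y a = ncode2_o X b →
    ncode2_tr Y b a = ncode2_tr X b a) ∧
  (∀ a < X.1.2.2 + 1, ∀ b < X.1.2.2 + 1, ¬ ncode2_ty X a = k → ¬ ncode2_ty X b = k →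
    ¬ ncode2_ty X a = ncode2_ty X b → ncode2_o X a = ncode2_o X b →
    ncode2_tr Y a b = ncode2_tr X a b)

theorem ncode2_hn1_p : PrimrecPred (fun x : (Code × Code) × ℕ × ℕ × ℕ =>
    ncode2_HN1 (x.1.1.1, x.1.1.2) (x.1.1.1, x.1.2.2) x.2.1 x.2.2.1 x.2.2.2) := by
  unfold ncode2_HN1
  (repeat' (with_reducible first | assumption | exact CB.p_id | exact Primrec.const _ | exact CB.pp_const _ | apply CB.p_fst | apply CB.p_snd | apply CB.p_pair | apply CB.p_add | apply CB.p_sub | apply CB.p_mul | apply CB.p_div | apply CB.p_mod | apply CB.p_pow | apply ncode2_p_ty | apply ncode2_p_o | apply ncode2_p_i | apply ncode2_p_tr | apply CB.p_dg | apply CB.pp_all | apply CB.pp_ex | apply CB.pp_all_mem | apply CB.pp_ex_mem | apply CB.pp_and | apply CB.pp_or | apply CB.pp_not | apply CB.pp_iff | apply CB.pp_imp | apply CB.pp_eq | apply CB.pp_lt | apply CB.pp_le | apply CB.pp_mem))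

theorem ncode2_hn2_p : PrimrecPred (fun x : (Code × Code) × ℕ × ℕ × ℕ =>
    ncode2_HN2 (x.1.1.1, x.1.1.2) (x.1.1.1, x.1.2.2) x.2.1 x.2.2.1 x.2.2.2) := by
  unfold ncode2_HN2
  (repeat' (with_reducible first | assumption | exact CB.p_id | exact Primrec.const _ | exact CB.pp_const _ | apply CB.p_fst | apply CB.p_snd | apply CB.p_pair | apply CB.p_add | apply CB.p_sub | apply CB.p_mul | apply CB.p_div | apply CB.p_mod | apply CB.p_pow | apply ncode2_p_ty | apply ncode2_p_o | apply ncode2_p_i | apply ncode2_p_tr | apply CB.p_dg | apply CB.pp_all | apply CB.pp_ex | apply CB.pp_all_mem | apply CB.pp_ex_mem | apply CB.pp_and | apply CB.pp_or | apply CB.pp_not | apply CB.pp_iff | apply CB.pp_imp | apply CB.pp_eq | apply CB.pp_lt | apply CB.pp_le | apply CB.pp_mem))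

theorem ncode2_hslw_iff (s : ℕ × ℕ × ℕ) (t t' : ℕ × ℕ × ℕ × ℕ) (k : Fin (s.1 + 1)) (c w : ℕ)
    (C : Fin (s.2.2 + 1) → Prop) (π : Fin (s.2.2 + 1) → Fin (s.2.2 + 1))
    (hC : ∀ a : Fin (s.2.2 + 1), CB.dg 1 c a = 1 ↔ C a)
    (hπ : ∀ a : Fin (s.2.2 + 1), dig s.2.2 w a = π a) :
    HSlW (dec s t) (dec s t') k C π ↔
      ncode2_HN1 (s, t) (s, t') k c w ∧ ncode2_HN2 (s, t) (s, t') k c w := by
  have hC' : ∀ a, C a ↔ CB.dg 1 c a = 1 := fun a => (hC a).symm
  have hπ' : ∀ a, ((π a : Fin _) : ℕ) = CB.dg s.2.2 w a := fun a => by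
    rw [← hπ a]; rfl
  have e : HSlW (dec s t) (dec s t') k C π ↔
    ((∀ a, C a → (dec s t).ty a = k) ∧
    (∀ a b, (dec s t).o a = (dec s t).o b → (dec s t).ty b ≠ k → C a → C ((dec s t).tr a b)) ∧
    (∀ a, C a → ¬ C ((dec s t).i a)) ∧
    (∀ a, C a → ¬ C (π a) ∧ ¬ C ((dec s t).i (π a)) ∧ (dec s t).o (π a) = (dec s t).o a ∧
      (dec s t).ty (π a) = k) ∧
    (∀ a b, (dec s t).o a = (dec s t).o b → (dec s t).ty b ≠ k → C a →
      π ((dec s t).tr a b) = (dec s t).tr (π a) b) ∧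
    (∀ a, (dec s t').ty a = (dec s t).ty a) ∧
    (∀ a, (dec s t').i a = (dec s t).i a) ∧
    (∀ a, C a → (dec s t').o a = (dec s t).o ((dec s t).i (π a))) ∧
    (∀ a, ¬ C a → (dec s t').o a = (dec s t).o a)) ∧
    ((∀ a b, C a → (dec s t).ty b ≠ k → (dec s t').o a = (dec s t).o b →
      (dec s t').tr a b = (dec s t).tr a ((dec s t).tr b ((dec s t).i (π a)))) ∧
    (∀ a b, C a → (dec s t).ty b ≠ k → (dec s t').o a = (dec s t).o b →
      (dec s t').tr b a = (dec s t).tr ((dec s t).tr b ((dec s t).i (π a))) a) ∧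
    (∀ a b, (dec s t).ty a = k → ¬ C a → (dec s t).ty b ≠ k → (dec s t').o a = (dec s t).o b →
      (dec s t').tr a b = (dec s t).tr a b) ∧
    (∀ a b, C ((dec s t).i a) → (dec s t).ty b ≠ k → (dec s t').o a = (dec s t).o b →
      (dec s t').tr b a = (dec s t).tr ((dec s t).tr b a) (π ((dec s t).i a))) ∧
    (∀ a b, (dec s t).ty a = k → ¬ C a → ¬ C ((dec s t).i a) → (dec s t).ty b ≠ k →
      (dec s t').o a = (dec s t).o b → (dec s t').tr b a = (dec s t).tr b a) ∧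
    (∀ a b, (dec s t).ty a ≠ k → (dec s t).ty b ≠ k → (dec s t).ty a ≠ (dec s t).ty b →
      (dec s t).o a = (dec s t).o b → (dec s t').tr a b = (dec s t).tr a b)) := by
    constructor
    · intro h
      exact ⟨⟨h.cty, h.ctr, h.cinv, h.cpi, h.ptr, h.yty, h.yi, h.oC, h.oN⟩, h.trC, h.tlC, h.trN,
        h.tlI, h.tlN, h.tN⟩
    · rintro ⟨⟨h1, h2, h3, h4, h5, h6, h7, h8, h9⟩, h10, h11, h12, h13, h14, h15⟩
      exact ⟨h1, h2, h3, h4, h5, h6, h7, h8, h9, h10, h11, h12, h13, h14, h15⟩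
  rw [e]
  unfold ncode2_HN1 ncode2_HN2
  simp only [hC', Fin.ext_iff, ncode2_ty_val, ncode2_o_val, ncode2_i_val, ncode2_tr_val, hπ',
    Fin.forall_iff, ne_eq]

theorem ncode2_hsl_iff (s : ℕ × ℕ × ℕ) (t t' : ℕ × ℕ × ℕ × ℕ) :
    HSl (dec s t) (dec s t') ↔ ∃ k < s.1 + 1, ∃ c < 2 ^ (s.2.2 + 1),
      ∃ w < (s.2.2 + 1) ^ (s.2.2 + 1),
      ncode2_HN1 (s, t) (s, t') k c w ∧ ncode2_HN2 (s, t) (s, t') k c w := by
  constructor
  · rintro ⟨k, C, π, h⟩
    obtain ⟨c, hc, hC⟩ := CB.exists_pred _ C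
    obtain ⟨w, hw, hW⟩ := CB.exists_dig _ _ π
    exact ⟨k, k.2, c, hc, w, hw, (ncode2_hslw_iff s t t' k c w C π hC hW).1 h⟩
  · rintro ⟨k, hk, c, -, w, -, h⟩
    exact ⟨⟨k, hk⟩, fun a => CB.dg 1 c a = 1, fun a => dig s.2.2 w a,
      (ncode2_hslw_iff s t t' ⟨k, hk⟩ c w _ _ (fun a => Iff.rfl) (fun a => rfl)).2 h⟩

theorem ncode2_hsl_p : PrimrecPred (fun x : Code × Code =>
    HSl (dec x.1.1 x.1.2) (dec x.1.1 x.2.2)) := by
  have h1 : PrimrecPred (fun x : Code × Code => ∃ k < x.1.1.1 + 1, ∃ c < 2 ^ (x.1.1.2.2 + 1),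
      ∃ w < (x.1.1.2.2 + 1) ^ (x.1.1.2.2 + 1),
      ncode2_HN1 (x.1.1, x.1.2) (x.1.1, x.2.2) k c w ∧
        ncode2_HN2 (x.1.1, x.1.2) (x.1.1, x.2.2) k c w) := by
    apply CB.pp_ex
    · (repeat' (with_reducible first | assumption | exact CB.p_id | exact Primrec.const _ | exact CB.pp_const _ | apply CB.p_fst | apply CB.p_snd | apply CB.p_pair | apply CB.p_add | apply CB.p_sub | apply CB.p_mul | apply CB.p_div | apply CB.p_mod | apply CB.p_pow | apply ncode2_p_ty | apply ncode2_p_o | apply ncode2_p_i | apply ncode2_p_tr | apply CB.p_dg | apply CB.pp_all | apply CB.pp_ex | apply CB.pp_all_mem | apply CB.pp_ex_mem | apply CB.pp_and | apply CB.pp_or | apply CB.pp_not | apply CB.pp_iff | apply CB.pp_imp | apply CB.pp_eq | apply CB.pp_lt | apply CB.pp_le | apply CB.pp_mem))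
    apply CB.pp_ex
    · (repeat' (with_reducible first | assumption | exact CB.p_id | exact Primrec.const _ | exact CB.pp_const _ | apply CB.p_fst | apply CB.p_snd | apply CB.p_pair | apply CB.p_add | apply CB.p_sub | apply CB.p_mul | apply CB.p_div | apply CB.p_mod | apply CB.p_pow | apply ncode2_p_ty | apply ncode2_p_o | apply ncode2_p_i | apply ncode2_p_tr | apply CB.p_dg | apply CB.pp_all | apply CB.pp_ex | apply CB.pp_all_mem | apply CB.pp_ex_mem | apply CB.pp_and | apply CB.pp_or | apply CB.pp_not | apply CB.pp_iff | apply CB.pp_imp | apply CB.pp_eq | apply CB.pp_lt | apply CB.pp_le | apply CB.pp_mem))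
    apply CB.pp_ex
    · (repeat' (with_reducible first | assumption | exact CB.p_id | exact Primrec.const _ | exact CB.pp_const _ | apply CB.p_fst | apply CB.p_snd | apply CB.p_pair | apply CB.p_add | apply CB.p_sub | apply CB.p_mul | apply CB.p_div | apply CB.p_mod | apply CB.p_pow | apply ncode2_p_ty | apply ncode2_p_o | apply ncode2_p_i | apply ncode2_p_tr | apply CB.p_dg | apply CB.pp_all | apply CB.pp_ex | apply CB.pp_all_mem | apply CB.pp_ex_mem | apply CB.pp_and | apply CB.pp_or | apply CB.pp_not | apply CB.pp_iff | apply CB.pp_imp | apply CB.pp_eq | apply CB.pp_lt | apply CB.pp_le | apply CB.pp_mem))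
    apply CB.pp_and
    · refine ncode2_hn1_p.comp
        (f := fun x : (((Code × Code) × ℕ) × ℕ) × ℕ => (x.1.1.1, x.1.1.2, x.1.2, x.2)) ?_
      (repeat' (with_reducible first | assumption | exact CB.p_id | exact Primrec.const _ | exact CB.pp_const _ | apply CB.p_fst | apply CB.p_snd | apply CB.p_pair | apply CB.p_add | apply CB.p_sub | apply CB.p_mul | apply CB.p_div | apply CB.p_mod | apply CB.p_pow | apply ncode2_p_ty | apply ncode2_p_o | apply ncode2_p_i | apply ncode2_p_tr | apply CB.p_dg | apply CB.pp_all | apply CB.pp_ex | apply CB.pp_all_mem | apply CB.pp_ex_mem | apply CB.pp_and | apply CB.pp_or | apply CB.pp_not | apply CB.pp_iff | apply CB.pp_imp | apply CB.pp_eq | apply CB.pp_lt | apply CB.pp_le | apply CB.pp_mem))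
    · refine ncode2_hn2_p.comp
        (f := fun x : (((Code × Code) × ℕ) × ℕ) × ℕ => (x.1.1.1, x.1.1.2, x.1.2, x.2)) ?_
      (repeat' (with_reducible first | assumption | exact CB.p_id | exact Primrec.const _ | exact CB.pp_const _ | apply CB.p_fst | apply CB.p_snd | apply CB.p_pair | apply CB.p_add | apply CB.p_sub | apply CB.p_mul | apply CB.p_div | apply CB.p_mod | apply CB.p_pow | apply ncode2_p_ty | apply ncode2_p_o | apply ncode2_p_i | apply ncode2_p_tr | apply CB.p_dg | apply CB.pp_all | apply CB.pp_ex | apply CB.pp_all_mem | apply CB.pp_ex_mem | apply CB.pp_and | apply CB.pp_or | apply CB.pp_not | apply CB.pp_iff | apply CB.pp_imp | apply CB.pp_eq | apply CB.pp_lt | apply CB.pp_le | apply CB.pp_mem))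
  refine PrimrecPred.of_eq h1 ?_
  intro x
  exact (ncode2_hsl_iff _ _ _).symm

theorem ncstep_p : PrimrecPred (fun x : Code × Code => CStep x.1 x.2) := by
  unfold CStep
  apply CB.pp_and
  · (repeat' (with_reducible first | assumption | exact CB.p_id | exact Primrec.const _ | exact CB.pp_const _ | apply CB.p_fst | apply CB.p_snd | apply CB.p_pair | apply CB.p_add | apply CB.p_sub | apply CB.p_mul | apply CB.p_div | apply CB.p_mod | apply CB.p_pow | apply ncode2_p_ty | apply ncode2_p_o | apply ncode2_p_i | apply ncode2_p_tr | apply CB.p_dg | apply CB.pp_all | apply CB.pp_ex | apply CB.pp_all_mem | apply CB.pp_ex_mem | apply CB.pp_and | apply CB.pp_or | apply CB.pp_not | apply CB.pp_iff | apply CB.pp_imp | apply CB.pp_eq | apply CB.pp_lt | apply CB.pp_le | apply CB.pp_mem))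
  · exact ncode2_hsl_p

end LatN
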