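import Pool.Agent.Lib.MP_32d917_al.NDefs
import Pool.Agent.Lib.MP_32d917_al.SLT

/-!
# Slides of data give slides of labelled products
-/

set_option autoImplicit false
set_option linter.unusedSectionVars false

namespace LatN

open LatIso

section NDSLA

variable {ι P A : Type} [Fintype ι] [DecidableEq ι] {X Y : Dat ι P A} {G : Type} [Group G]
  {V : ι → Type} [∀ i, MulAction G (V i)] {S : ∀ i, SimpleGraph (V i)}

theorem ndsla_tri {V : Type} {S : SimpleGraph V} (hS : S.IsTree) {a b v : V} (h : S.Adj a b)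
    (h1 : S.Adj v a) (h2 : S.Adj v b) : False := by
  have e1 : S.dist v a = 1 := SimpleGraph.dist_eq_one_iff_adj.2 h1
  have e2 : S.dist v b = 1 := SimpleGraph.dist_eq_one_iff_adj.2 h2
  have h3 := SimpleGraph.IsTree.dist_eq_dist_add_one_of_adj hS v h
  omega

theorem ndsla_induct (hS : ∀ i, (S i).Connected) (P : (∀ i, V i) → Prop) (x0 : ∀ i, V i)
    (h0 : P x0) (hs : ∀ x i y, (S i).Adj (x i) y → P x → P (Function.update x i y))
    (x : ∀ i, V i) : P x := by
  classical
  have key : ∀ J : Finset ι, ∀ x : ∀ i, V i, (∀ i, i ∉ J → x i = x0 i) → P x := by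
    intro J
    induction J using Finset.induction_on with
    | empty =>
      intro x hx
      have : x = x0 := funext fun i => hx i (Finset.notMem_empty i)
      rw [this]; exact h0
    | insert k J hk ih =>
      intro x hx
      have h1 : P (Function.update x k (x0 k)) := by
        apply ih
        intro i hi
        by_cases e : i = k
        · subst e; rw [Function.update_self]
        · rw [Function.update_of_ne e]
          exact hx i (by simp [e, hi])
      obtain ⟨p⟩ := (hS k).preconnected (x0 k) (x k)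
      have h2 : ∀ (a b : V k) (p : (S k).Walk a b), P (Function.update x k a) →
          P (Function.update x k b) := by
        intro a b p
        induction p with
        | nil => exact id
        | @cons a b c h _ ih2 =>
          intro h3
          apply ih2
          have := hs (Function.update x k a) k b (by rw [Function.update_self]; exact h) h3
          rwa [Function.update_idem] at this
      have := h2 _ _ p h1
      rwa [Function.update_eq_self] at this
  exact key Finset.univ x (fun i hi => absurd (Finset.mem_univ i) hi)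

/-- the label of the edge from `a` to `b` in direction `k` at the point `x` -/
def nal (L : LP X S) (k : ι) (a b : V k) (x : ∀ i, V i) : A := L.al (Function.update x k a) k b

theorem nal_eq (L : LP X S) (k : ι) (x : ∀ i, V i) (b : V k) : nal L k (x k) b x = L.al x k b := by
  unfold nal; rw [Function.update_eq_self]

theorem nal_ty (L : LP X S) {k : ι} {a b : V k} (h : (S k).Adj a b) (x : ∀ i, V i) :
    X.ty (nal L k a b x) = k := L.ty _ _ _ (by rwa [Function.update_self])

theorem nal_o (L : LP X S) {k : ι} {a b : V k} (h : (S k).Adj a b) (x : ∀ i, V i) :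
    X.o (nal L k a b x) = L.p (Function.update x k a) :=
  L.o _ _ _ (by rwa [Function.update_self])

theorem nal_i (L : LP X S) {k : ι} {a b : V k} (h : (S k).Adj a b) (x : ∀ i, V i) :
    nal L k b a x = X.i (nal L k a b x) := by
  have := L.inv (Function.update x k a) k b (by rwa [Function.update_self])
  rwa [Function.update_idem, Function.update_self] at this

theorem nal_upd (L : LP X S) (k : ι) (a b : V k) (x : ∀ i, V i) (c : V k) :
    nal L k a b (Function.update x k c) = nal L k a b x := by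
  unfold nal; rw [Function.update_idem]

theorem nal_tr (L : LP X S) {k : ι} {a b : V k} (h : (S k).Adj a b) (x : ∀ i, V i) {i : ι}
    (hi : i ≠ k) (y : V i) (hy : (S i).Adj (x i) y) :
    X.tr (nal L k a b x) (L.al (Function.update x k a) i y) =
      nal L k a b (Function.update x i y) := by
  have := L.tr (Function.update x k a) k b i y (Ne.symm hi) (by rwa [Function.update_self])
    (by rwa [Function.update_of_ne hi])
  rw [Function.update_comm (Ne.symm hi)] at this
  exact this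

theorem nal_tl (L : LP X S) {k : ι} {a b : V k} (h : (S k).Adj a b) (x : ∀ i, V i) {i : ι}
    (hi : i ≠ k) (y : V i) (hy : (S i).Adj (x i) y) :
    X.tr (L.al (Function.update x k a) i y) (nal L k a b x) =
      L.al (Function.update x k b) i y := by
  have := L.tr (Function.update x k a) i y k b hi (by rwa [Function.update_of_ne hi])
    (by rwa [Function.update_self])
  rw [Function.update_idem] at this
  exact this

theorem nal_inj (L : LP X S) {k : ι} {a b c : V k} (h : (S k).Adj a b) (h' : (S k).Adj a c)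
    (x : ∀ i, V i) (e : nal L k a b x = nal L k a c x) : b = c :=
  L.inj (Function.update x k a) k b c (by rwa [Function.update_self])
    (by rwa [Function.update_self]) e

theorem nal_sur (L : LP X S) {k : ι} (a : V k) (x : ∀ i, V i) (α : A)
    (h : X.o α = L.p (Function.update x k a)) (ht : X.ty α = k) :
    ∃ b, (S k).Adj a b ∧ nal L k a b x = α := by
  obtain ⟨b, h1, h2⟩ := L.sur (Function.update x k a) k α h ht
  rw [Function.update_self] at h1
  exact ⟨b, h1, h2⟩

/-- the edge `a b` comes from the edge `v b` by a slide over `v a` -/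
def NTy (L : LP X S) (k : ι) (C : A → Prop) (π : A → A) (x : ∀ i, V i) (a b v : V k) : Prop :=
  (S k).Adj v b ∧ (S k).Adj v a ∧ C (nal L k v b x) ∧ nal L k v a x = π (nal L k v b x)

theorem ndsla_C1 (L : LP X S) {k : ι} {C : A → Prop} {π : A → A} (hC : HSlW X Y k C π) {v z : V k}
    (h : (S k).Adj v z) {x : ∀ i, V i} {i : ι} {y : V i} (hy : (S i).Adj (x i) y)
    (hc : C (nal L k v z x)) : C (nal L k v z (Function.update x i y)) := by
  by_cases hi : i = k
  · subst hi
    rwa [nal_upd]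
  · rw [← nal_tr L h x hi y hy]
    refine hC.ctr _ _ ?_ ?_ hc
    · rw [nal_o L h, L.o _ _ _ (by rwa [Function.update_of_ne hi])]
    · rw [L.ty _ _ _ (by rwa [Function.update_of_ne hi])]
      exact hi

theorem ndsla_C (hS : ∀ i, (S i).Connected) (L : LP X S) {k : ι} {C : A → Prop} {π : A → A}
    (hC : HSlW X Y k C π) {v z : V k} (h : (S k).Adj v z) (x x' : ∀ i, V i)
    (hc : C (nal L k v z x)) : C (nal L k v z x') :=
  ndsla_induct hS (fun x => C (nal L k v z x)) x hc
    (fun _ _ _ hy hc => ndsla_C1 L hC h hy hc) x'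

theorem ndsla_T1 (L : LP X S) {k : ι} {C : A → Prop} {π : A → A} (hC : HSlW X Y k C π)
    {a b v : V k} {x : ∀ i, V i} {i : ι} {y : V i} (hy : (S i).Adj (x i) y)
    (h : NTy L k C π x a b v) : NTy L k C π (Function.update x i y) a b v := by
  obtain ⟨h1, h2, h3, h4⟩ := h
  refine ⟨h1, h2, ndsla_C1 L hC h1 hy h3, ?_⟩
  by_cases hi : i = k
  · subst hi
    rwa [nal_upd, nal_upd]
  · have hy' : (S i).Adj (Function.update x k v i) y := by rwa [Function.update_of_ne hi]
    have e : X.o (nal L k v b x) = X.o (L.al (Function.update x k v) i y) := by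
      rw [nal_o L h1, L.o _ _ _ hy']
    have e' : X.ty (L.al (Function.update x k v) i y) ≠ k := by
      rw [L.ty _ _ _ hy']; exact hi
    rw [← nal_tr L h1 x hi y hy, hC.ptr _ _ e e' h3, ← h4, nal_tr L h2 x hi y hy]

theorem ndsla_T (hS : ∀ i, (S i).Connected) (L : LP X S) {k : ι} {C : A → Prop} {π : A → A}
    (hC : HSlW X Y k C π) {a b v : V k} (x x' : ∀ i, V i) (h : NTy L k C π x a b v) :
    NTy L k C π x' a b v :=
  ndsla_induct hS (fun x => NTy L k C π x a b v) x h
    (fun _ _ _ hy hc => ndsla_T1 L hC hy hc) x'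

theorem ndsla_ne (L : LP X S) {k : ι} {C : A → Prop} {π : A → A} (hC : HSlW X Y k C π)
    {a b v : V k} {x : ∀ i, V i} (h : NTy L k C π x a b v) : a ≠ b := by
  rintro rfl
  obtain ⟨h1, h2, h3, h4⟩ := h
  apply (hC.cpi _ h3).1
  rw [← h4]; exact h3

/-- old edges -/
def NOld (L : LP X S) (k : ι) (C : A → Prop) (x : ∀ i, V i) (a b : V k) : Prop :=
  (S k).Adj a b ∧ ¬ C (nal L k a b x) ∧ ¬ C (nal L k b a x)

theorem ndsla_adj (L : LP X S) {k : ι} {C : A → Prop} {π : A → A} (hC : HSlW X Y k C π)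
    (x0 : ∀ i, V i) (a b : V k) :
    (slG L x0 k C π).Adj a b ↔ NOld L k C x0 a b ∨ (∃ v, NTy L k C π x0 a b v) ∨
      (∃ v, NTy L k C π x0 b a v) := by
  constructor
  · exact fun h => h.2
  · intro h
    refine ⟨?_, h⟩
    rcases h with h | ⟨v, h⟩ | ⟨v, h⟩
    · exact h.1.ne
    · exact ndsla_ne L hC h
    · exact (ndsla_ne L hC h).symm

theorem ndsla_uniq (hS : ∀ i, (S i).IsTree) (L : LP X S) {k : ι} {C : A → Prop} {π : A → A}
    (hC : HSlW X Y k C π) {x : ∀ i, V i} {a b v v' : V k} (h : NTy L k C π x a b v)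
    (h' : NTy L k C π x a b v') : v = v' :=
  slt_mid (hS k) (ndsla_ne L hC h) h.2.1.symm h.1 h'.2.1.symm h'.1

theorem ndsla_excl (hS : ∀ i, (S i).IsTree) (L : LP X S) {k : ι} {C : A → Prop} {π : A → A}
    (hC : HSlW X Y k C π) {x : ∀ i, V i} {a b v v' : V k} (h : NTy L k C π x a b v)
    (h' : NTy L k C π x b a v') : False := by
  have e : v = v' := slt_mid (hS k) (ndsla_ne L hC h) h.2.1.symm h.1 h'.1.symm h'.2.1
  subst e
  obtain ⟨h1, h2, h3, h4⟩ := h
  apply (hC.cpi _ h3).1
  rw [← h4]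
  exact h'.2.2.1

/-- the new labels -/
noncomputable def ndslaL (L : LP X S) (x0 : ∀ i, V i) (k : ι) (C : A → Prop) (π : A → A)
    (a b : V k) (x : ∀ i, V i) : A := by
  classical
  exact if h : ∃ v, NTy L k C π x0 a b v then nal L k h.choose b x else
    if h : ∃ v, NTy L k C π x0 b a v then nal L k a h.choose x else nal L k a b x

theorem ndslaL_upd (L : LP X S) (x0 : ∀ i, V i) (k : ι) (C : A → Prop) (π : A → A)
    (a b : V k) (x : ∀ i, V i) (c : V k) :
    ndslaL L x0 k C π a b (Function.update x k c) = ndslaL L x0 k C π a b x := by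
  unfold ndslaL
  split_ifs
  · rw [nal_upd]
  · rw [nal_upd]
  · rw [nal_upd]

theorem ndslaL_2 (hS : ∀ i, (S i).IsTree) (L : LP X S) {k : ι} {C : A → Prop} {π : A → A}
    (hC : HSlW X Y k C π) {x0 : ∀ i, V i} {a b v : V k} (h : NTy L k C π x0 a b v)
    (x : ∀ i, V i) : ndslaL L x0 k C π a b x = nal L k v b x := by
  have h1 : ∃ v, NTy L k C π x0 a b v := ⟨v, h⟩
  unfold ndslaL
  rw [dif_pos h1, ndsla_uniq hS L hC h1.choose_spec h]

theorem ndslaL_3 (hS : ∀ i, (S i).IsTree) (L : LP X S) {k : ι} {C : A → Prop} {π : A → A}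
    (hC : HSlW X Y k C π) {x0 : ∀ i, V i} {a b v : V k} (h : NTy L k C π x0 b a v)
    (x : ∀ i, V i) : ndslaL L x0 k C π a b x = nal L k a v x := by
  have h1 : ∃ v, NTy L k C π x0 b a v := ⟨v, h⟩
  have h2 : ¬ ∃ v, NTy L k C π x0 a b v := fun ⟨v', h'⟩ => ndsla_excl hS L hC h' h
  unfold ndslaL
  rw [dif_neg h2, dif_pos h1, ndsla_uniq hS L hC h1.choose_spec h]

theorem ndslaL_1 (hS : ∀ i, (S i).IsTree) (L : LP X S) {k : ι} {C : A → Prop} {π : A → A}
    {x0 : ∀ i, V i} {a b : V k} (h : NOld L k C x0 a b) (x : ∀ i, V i) :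
    ndslaL L x0 k C π a b x = nal L k a b x := by
  have h1 : ¬ ∃ v, NTy L k C π x0 b a v := fun ⟨v', h'⟩ => ndsla_tri (hS k) h.1 h'.1 h'.2.1
  have h2 : ¬ ∃ v, NTy L k C π x0 a b v := fun ⟨v', h'⟩ => ndsla_tri (hS k) h.1 h'.2.1 h'.1
  unfold ndslaL
  rw [dif_neg h2, dif_neg h1]

theorem ndsla_tree (hS : ∀ i, (S i).IsTree) (L : LP X S) (x0 : ∀ i, V i) (k : ι)
    (C : A → Prop) (π : A → A) (hC : HSlW X Y k C π) : (slG L x0 k C π).IsTree := by
  classical
  have hex : ∀ v x : V k, ∃ u, ((S k).Adj v x ∧ C (nal L k v x x0)) → (S k).Adj v u ∧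
      nal L k v u x0 = π (nal L k v x x0) := by
    intro v x
    by_cases h : (S k).Adj v x ∧ C (nal L k v x x0)
    · obtain ⟨u, hu⟩ := nal_sur L v x0 (π (nal L k v x x0)) (by
        rw [(hC.cpi _ h.2).2.2.1, nal_o L h.1]) (hC.cpi _ h.2).2.2.2
      exact ⟨u, fun _ => hu⟩
    · exact ⟨v, fun h' => absurd h' h⟩
  choose pi hpi using hex
  refine slide_tree (hS k) (fun v x => (S k).Adj v x ∧ C (nal L k v x x0)) pi ?_ ?_
  · rintro v x ⟨h1, h2⟩
    obtain ⟨h3, h4⟩ := hpi v x ⟨h1, h2⟩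
    refine ⟨h1, h3, ?_, ?_, ?_⟩
    · rintro ⟨_, h6⟩
      rw [nal_i L h1] at h6
      exact hC.cinv _ h2 h6
    · rintro ⟨_, h6⟩
      rw [h4] at h6
      exact (hC.cpi _ h2).1 h6
    · rintro ⟨_, h6⟩
      rw [nal_i L h3, h4] at h6
      exact (hC.cpi _ h2).2.1 h6
  · intro a b
    rw [ndsla_adj L hC]
    have key : ∀ a b, (∃ v, NTy L k C π x0 a b v) ↔
        (∃ v, ((S k).Adj v b ∧ C (nal L k v b x0)) ∧ pi v b = a) := by
      intro a b
      constructor
      · rintro ⟨v, h1, h2, h3, h4⟩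
        refine ⟨v, ⟨h1, h3⟩, ?_⟩
        obtain ⟨h5, h6⟩ := hpi v b ⟨h1, h3⟩
        exact nal_inj L h5 h2 x0 (h6.trans h4.symm)
      · rintro ⟨v, ⟨h1, h3⟩, rfl⟩
        obtain ⟨h5, h6⟩ := hpi v b ⟨h1, h3⟩
        exact ⟨v, h1, h5, h3, h6⟩
    rw [key a b, key b a]
    constructor
    · rintro (h | h | h)
      · exact Or.inl ⟨h.1, fun h' => h.2.1 h'.2, fun h' => h.2.2 h'.2⟩
      · exact Or.inr (Or.inl h)
      · exact Or.inr (Or.inr h)
    · rintro (h | h | h)
      · exact Or.inl ⟨h.1, fun h' => h.2.1 ⟨h.1, h'⟩, fun h' => h.2.2 ⟨h.1.symm, h'⟩⟩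
      · exact Or.inr (Or.inl h)
      · exact Or.inr (Or.inr h)

/-- the labels of the new product -/
noncomputable def ndslaM (L : LP X S) (x0 : ∀ i, V i) (k : ι) (C : A → Prop) (π : A → A)
    (x : ∀ i, V i) (i : ι) (y : V i) : A :=
  if h : i = k then ndslaL L x0 k C π (x k) (h ▸ y) x else L.al x i y

theorem ndslaM_k (L : LP X S) (x0 : ∀ i, V i) (k : ι) (C : A → Prop) (π : A → A)
    (x : ∀ i, V i) (y : V k) : ndslaM L x0 k C π x k y = ndslaL L x0 k C π (x k) y x := by
  unfold ndslaM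
  rw [dif_pos rfl]

theorem ndslaM_ne (L : LP X S) (x0 : ∀ i, V i) (k : ι) (C : A → Prop) (π : A → A)
    (x : ∀ i, V i) {i : ι} (h : i ≠ k) (y : V i) : ndslaM L x0 k C π x i y = L.al x i y := by
  unfold ndslaM
  rw [dif_neg h]

theorem ndsla_lp (hS : ∀ i, (S i).IsTree) (L : LP X S) (hii : ∀ a, X.i (X.i a) = a)
    (htyi : ∀ a, X.ty (X.i a) = X.ty a) (x0 : ∀ i, V i) (k : ι)
    (C : A → Prop) (π : A → A) (hC : HSlW X Y k C π) :
    ∃ M : LP Y (Function.update S k (slG L x0 k C π)), M.p = L.p ∧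
      M.al = ndslaM L x0 k C π := by
  have hS1 : ∀ i, (S i).Connected := fun i => (hS i).1
  have hCw : ∀ {v z : V k}, (S k).Adj v z → ∀ x x', C (nal L k v z x) → C (nal L k v z x') :=
    fun h x x' => ndsla_C hS1 L hC h x x'
  have hTw : ∀ {a b v : V k} (x : ∀ i, V i), NTy L k C π x0 a b v → NTy L k C π x a b v :=
    fun x h => ndsla_T hS1 L hC x0 x h
  have hTw' : ∀ {a b v : V k} (x : ∀ i, V i), NTy L k C π x a b v → NTy L k C π x0 a b v :=
    fun x h => ndsla_T hS1 L hC x x0 h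
  have hOw : ∀ {a b : V k} (x : ∀ i, V i), NOld L k C x0 a b → NOld L k C x a b :=
    fun x h => ⟨h.1, fun h' => h.2.1 (hCw h.1 _ _ h'), fun h' => h.2.2 (hCw h.1.symm _ _ h')⟩
  -- auxiliary facts on labels
  have l1 : ∀ {a b : V k} (x : ∀ i, V i), NOld L k C x0 a b → ¬ C (ndslaL L x0 k C π a b x) ∧
      ¬ C (X.i (ndslaL L x0 k C π a b x)) := by
    intro a b x h
    rw [ndslaL_1 hS L h, ← nal_i L h.1]
    exact (hOw x h).2
  have l2 : ∀ {a b v : V k} (x : ∀ i, V i), NTy L k C π x0 a b v →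
      C (ndslaL L x0 k C π a b x) := by
    intro a b v x h
    rw [ndslaL_2 hS L hC h]
    exact (hTw x h).2.2.1
  have l3 : ∀ {a b v : V k} (x : ∀ i, V i), NTy L k C π x0 b a v →
      ¬ C (ndslaL L x0 k C π a b x) ∧ C (X.i (ndslaL L x0 k C π a b x)) := by
    intro a b v x h
    rw [ndslaL_3 hS L hC h, ← nal_i L h.1.symm]
    refine ⟨?_, (hTw x h).2.2.1⟩
    rw [nal_i L h.1]
    exact hC.cinv _ (hTw x h).2.2.1
  have hty : ∀ a b x, (slG L x0 k C π).Adj a b → X.ty (ndslaL L x0 k C π a b x) = k := by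
    intro a b x hab
    rw [ndsla_adj L hC] at hab
    rcases hab with h | ⟨v, h⟩ | ⟨v, h⟩
    · rw [ndslaL_1 hS L h, nal_ty L h.1]
    · rw [ndslaL_2 hS L hC h, nal_ty L h.1]
    · rw [ndslaL_3 hS L hC h, nal_ty L h.1.symm]
  have hoA : ∀ a b x, (slG L x0 k C π).Adj a b →
      Y.o (ndslaL L x0 k C π a b x) = L.p (Function.update x k a) := by
    intro a b x hab
    rw [ndsla_adj L hC] at hab
    rcases hab with h | ⟨v, h⟩ | ⟨v, h⟩
    · rw [hC.oN _ (l1 x h).1, ndslaL_1 hS L h, nal_o L h.1]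
    · rw [hC.oC _ (l2 x h), ndslaL_2 hS L hC h, ← (hTw x h).2.2.2, ← nal_i L h.2.1,
        nal_o L h.2.1.symm]
    · rw [hC.oN _ (l3 x h).1, ndslaL_3 hS L hC h, nal_o L h.1.symm]
  have hnC : ∀ x i y, i ≠ k → (S i).Adj (x i) y → ¬ C (L.al x i y) := by
    intro x i y hi hy hc
    apply hi
    rw [← hC.cty _ hc, L.ty _ _ _ hy]
  have hoB : ∀ x i y, i ≠ k → (S i).Adj (x i) y → Y.o (L.al x i y) = L.p x := by
    intro x i y hi hy
    rw [hC.oN _ (hnC x i y hi hy), L.o _ _ _ hy]
  have hoo : ∀ a b x i y, i ≠ k → (slG L x0 k C π).Adj a b → (S i).Adj (x i) y →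
      Y.o (ndslaL L x0 k C π a b x) = X.o (L.al (Function.update x k a) i y) := by
    intro a b x i y hi h h'
    rw [hoA a b x h, L.o _ _ _ (by rwa [Function.update_of_ne hi])]
  have htk : ∀ a x i y, i ≠ k → (S i).Adj (x i) y →
      X.ty (L.al (Function.update x k a) i y) ≠ k := by
    intro a x i y hi h
    rw [L.ty _ _ _ (by rwa [Function.update_of_ne hi])]
    exact hi
  -- the two mixed transport rules, at a point `x` whose `k`-th coordinate is arbitrary
  have htr : ∀ a b x i y, i ≠ k → (slG L x0 k C π).Adj a b → (S i).Adj (x i) y →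
      Y.tr (ndslaL L x0 k C π a b x) (L.al (Function.update x k a) i y) =
        ndslaL L x0 k C π a b (Function.update x i y) := by
    intro a b x i y hi hab hy
    have ho := hoo a b x i y hi hab hy
    have ht := htk a x i y hi hy
    have hty' := hty a b x hab
    rw [ndsla_adj L hC] at hab
    rcases hab with h | ⟨v, h⟩ | ⟨v, h⟩
    · rw [hC.trN _ _ hty' (l1 x h).1 ht ho, ndslaL_1 hS L h,
        ndslaL_1 hS L h, nal_tr L h.1 x hi y hy]
    · rw [hC.trC _ _ (l2 x h) ht ho, ndslaL_2 hS L hC h,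
        ndslaL_2 hS L hC h, ← (hTw x h).2.2.2,
        ← nal_i L h.2.1, nal_tl L h.2.1.symm x hi y hy, nal_tr L h.1 x hi y hy]
    · rw [hC.trN _ _ hty' (l3 x h).1 ht ho, ndslaL_3 hS L hC h,
        ndslaL_3 hS L hC h, nal_tr L h.1.symm x hi y hy]
  have htl : ∀ a b x i y, i ≠ k → (slG L x0 k C π).Adj a b → (S i).Adj (x i) y →
      Y.tr (L.al (Function.update x k a) i y) (ndslaL L x0 k C π a b x) =
        L.al (Function.update x k b) i y := by
    intro a b x i y hi hab hy
    have ho := hoo a b x i y hi hab hy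
    have ht := htk a x i y hi hy
    have hty' := hty a b x hab
    rw [ndsla_adj L hC] at hab
    rcases hab with h | ⟨v, h⟩ | ⟨v, h⟩
    · rw [hC.tlN _ _ hty' (l1 x h).1 (l1 x h).2 ht ho, ndslaL_1 hS L h,
        nal_tl L h.1 x hi y hy]
    · rw [hC.tlC _ _ (l2 x h) ht ho, ndslaL_2 hS L hC h, ← (hTw x h).2.2.2,
        ← nal_i L h.2.1, nal_tl L h.2.1.symm x hi y hy, nal_tl L h.1 x hi y hy]
    · rw [hC.tlI _ _ (l3 x h).2 ht ho, ndslaL_3 hS L hC h, ← nal_i L h.1.symm,
        ← (hTw x h).2.2.2, nal_tl L h.1.symm x hi y hy, nal_tl L h.2.1 x hi y hy]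
  have hinv : ∀ a b x, (slG L x0 k C π).Adj a b →
      ndslaL L x0 k C π b a x = X.i (ndslaL L x0 k C π a b x) := by
    intro a b x hab
    rw [ndsla_adj L hC] at hab
    rcases hab with h | ⟨v, h⟩ | ⟨v, h⟩
    · have h' : NOld L k C x0 b a := ⟨h.1.symm, h.2.2, h.2.1⟩
      rw [ndslaL_1 hS L h, ndslaL_1 hS L h', nal_i L h.1]
    · rw [ndslaL_2 hS L hC h, ndslaL_3 hS L hC h, nal_i L h.1]
    · rw [ndslaL_2 hS L hC h, ndslaL_3 hS L hC h, nal_i L h.1.symm]
  have hinj : ∀ v y z x, (slG L x0 k C π).Adj v y → (slG L x0 k C π).Adj v z →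
      ndslaL L x0 k C π v y x = ndslaL L x0 k C π v z x → y = z := by
    intro v x y w hx hy e
    rw [ndsla_adj L hC] at hx hy
    rcases hx with h | ⟨a, h⟩ | ⟨a, h⟩
    · rcases hy with c | ⟨b, c⟩ | ⟨b, c⟩
      · rw [ndslaL_1 hS L h, ndslaL_1 hS L c] at e
        exact nal_inj L h.1 c.1 w e
      · exact absurd (l2 w c) (e ▸ (l1 w h).1)
      · exact absurd (l3 w c).2 (e ▸ (l1 w h).2)
    · rcases hy with c | ⟨b, c⟩ | ⟨b, c⟩
      · exact absurd (l2 w h) (e ▸ (l1 w c).1)
      · rw [ndslaL_2 hS L hC h, ndslaL_2 hS L hC c] at e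
        have h5 : nal L k v a w = nal L k v b w := by
          rw [nal_i L h.2.1, nal_i L c.2.1, (hTw w h).2.2.2, (hTw w c).2.2.2, e]
        have h6 := nal_inj L h.2.1.symm c.2.1.symm w h5
        subst h6
        exact nal_inj L h.1 c.1 w e
      · exact absurd (l2 w h) (e ▸ (l3 w c).1)
    · rcases hy with c | ⟨b, c⟩ | ⟨b, c⟩
      · exact absurd (l3 w h).2 (e ▸ (l1 w c).2)
      · exact absurd (l2 w c) (e ▸ (l3 w h).1)
      · rw [ndslaL_3 hS L hC h, ndslaL_3 hS L hC c] at e
        have h6 := nal_inj L h.1.symm c.1.symm w e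
        subst h6
        refine nal_inj L h.2.1 c.2.1 w ?_
        rw [(hTw w h).2.2.2, (hTw w c).2.2.2]
  have hsur : ∀ v x a, Y.o a = L.p (Function.update x k v) → X.ty a = k →
      ∃ z, (slG L x0 k C π).Adj v z ∧ ndslaL L x0 k C π v z x = a := by
    intro v w a ha hta
    by_cases c1 : C a
    · rw [hC.oC _ c1] at ha
      obtain ⟨u, h1, h2⟩ := nal_sur L v w _ ha (by rw [htyi, (hC.cpi _ c1).2.2.2])
      have h3 : nal L k u v w = π a := by rw [nal_i L h1, h2, hii]
      have h4 : L.p (Function.update w k u) = X.o a := by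
        rw [← nal_o L h1.symm, h3, (hC.cpi _ c1).2.2.1]
      obtain ⟨x, h5, h6⟩ := nal_sur L u w a h4.symm hta
      have h7 : NTy L k C π w v x u := ⟨h5, h1.symm, by rw [h6]; exact c1, by rw [h3, h6]⟩
      refine ⟨x, (ndsla_adj L hC x0 v x).2 (Or.inr (Or.inl ⟨u, hTw' w h7⟩)), ?_⟩
      rw [ndslaL_2 hS L hC (hTw' w h7), h6]
    · rw [hC.oN _ c1] at ha
      obtain ⟨u, h1, h2⟩ := nal_sur L v w _ ha hta
      by_cases c2 : C (X.i a)
      · have h3 : nal L k u v w = X.i a := by rw [nal_i L h1, h2]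
        have h4 : X.o (π (X.i a)) = L.p (Function.update w k u) := by
          rw [(hC.cpi _ c2).2.2.1, ← h3, nal_o L h1.symm]
        obtain ⟨x, h5, h6⟩ := nal_sur L u w _ h4 (hC.cpi _ c2).2.2.2
        have h7 : NTy L k C π w x v u := ⟨h1.symm, h5, by rw [h3]; exact c2, by rw [h3, h6]⟩
        refine ⟨x, (ndsla_adj L hC x0 v x).2 (Or.inr (Or.inr ⟨u, hTw' w h7⟩)), ?_⟩
        rw [ndslaL_3 hS L hC (hTw' w h7), h2]
      · have h7 : NOld L k C x0 v u := by
          refine ⟨h1, fun h' => c1 ?_, fun h' => c2 ?_⟩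
          · have := hCw h1 _ w h'
            rwa [h2] at this
          · have := hCw h1.symm _ w h'
            rwa [nal_i L h1, h2] at this
        refine ⟨u, (ndsla_adj L hC x0 v u).2 (Or.inl h7), ?_⟩
        rw [ndslaL_1 hS L h7, h2]
  refine ⟨⟨L.p, ndslaM L x0 k C π, ?_, ?_, ?_, ?_, ?_, ?_⟩, rfl, rfl⟩
  · intro x i y h
    rw [hC.yty]
    rcases eq_or_ne i k with rfl | hi
    · rw [Function.update_self] at h
      rw [ndslaM_k]
      exact hty _ _ _ h
    · rw [Function.update_of_ne hi] at h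
      rw [ndslaM_ne _ _ _ _ _ _ hi]
      exact L.ty _ _ _ h
  · intro x i y h
    rcases eq_or_ne i k with rfl | hi
    · rw [Function.update_self] at h
      rw [ndslaM_k, hoA _ _ _ h, Function.update_eq_self]
    · rw [Function.update_of_ne hi] at h
      rw [ndslaM_ne _ _ _ _ _ _ hi]
      exact hoB _ _ _ hi h
  · intro x i y h
    rw [hC.yi]
    rcases eq_or_ne i k with rfl | hi
    · rw [Function.update_self] at h
      rw [ndslaM_k, ndslaM_k, Function.update_self, ndslaL_upd]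
      exact hinv _ _ _ h
    · rw [Function.update_of_ne hi] at h
      rw [ndslaM_ne _ _ _ _ _ _ hi, ndslaM_ne _ _ _ _ _ _ hi]
      exact L.inv _ _ _ h
  · intro x i y j z hij hy hz
    rcases eq_or_ne i k with rfl | hi
    · have hj : j ≠ i := hij.symm
      rw [Function.update_self] at hy
      rw [Function.update_of_ne hj] at hz
      rw [ndslaM_k, ndslaM_k, ndslaM_ne _ _ _ _ _ _ hj, Function.update_of_ne hij]
      have := htr (x i) y x j z hj hy hz
      rwa [Function.update_eq_self] at this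
    · rw [Function.update_of_ne hi] at hy
      rcases eq_or_ne j k with rfl | hj
      · rw [Function.update_self] at hz
        rw [ndslaM_k, ndslaM_ne _ _ _ _ _ _ hi, ndslaM_ne _ _ _ _ _ _ hi]
        have := htl (x j) z x i y hi hz hy
        rwa [Function.update_eq_self] at this
      · rw [Function.update_of_ne hj] at hz
        rw [ndslaM_ne _ _ _ _ _ _ hi, ndslaM_ne _ _ _ _ _ _ hi, ndslaM_ne _ _ _ _ _ _ hj,
          hC.tN _ _ (by rw [L.ty _ _ _ hy]; exact hi) (by rw [L.ty _ _ _ hz]; exact hj)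
            (by rw [L.ty _ _ _ hy, L.ty _ _ _ hz]; exact hij)
            (by rw [L.o _ _ _ hy, L.o _ _ _ hz])]
        exact L.tr _ _ _ _ _ hij hy hz
  · intro x i y z hy hz e
    rcases eq_or_ne i k with rfl | hi
    · rw [Function.update_self] at hy hz
      rw [ndslaM_k, ndslaM_k] at e
      exact hinj _ _ _ _ hy hz e
    · rw [Function.update_of_ne hi] at hy hz
      rw [ndslaM_ne _ _ _ _ _ _ hi, ndslaM_ne _ _ _ _ _ _ hi] at e
      exact L.inj _ _ _ _ hy hz e
  · intro x i a ha hta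
    rw [hC.yty] at hta
    rcases eq_or_ne i k with rfl | hi
    · rw [Function.update_self]
      obtain ⟨z, h1, h2⟩ := hsur (x i) x a (by rw [Function.update_eq_self]; exact ha) hta
      exact ⟨z, h1, by rw [ndslaM_k]; exact h2⟩
    · rw [Function.update_of_ne hi]
      have c1 : ¬ C a := fun c => hi (by rw [← hta, hC.cty _ c])
      rw [hC.oN _ c1] at ha
      obtain ⟨z, h1, h2⟩ := L.sur x i a ha hta
      exact ⟨z, h1, by rw [ndslaM_ne _ _ _ _ _ _ hi]; exact h2⟩

theorem ndsla_gupd (g : G) (x : ∀ i, V i) (k : ι) (a : V k) :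
    (fun j => g • Function.update x k a j) = Function.update (fun j => g • x j) k (g • a) := by
  funext j
  rcases eq_or_ne j k with rfl | h
  · rw [Function.update_self, Function.update_self]
  · rw [Function.update_of_ne h, Function.update_of_ne h]

theorem nal_smul {L : LP X S} (hL : Cov G L) (g : G) {k : ι} {a b : V k} (h : (S k).Adj a b)
    (x : ∀ i, V i) : nal L k (g • a) (g • b) (fun j => g • x j) = nal L k a b x := by
  unfold nal
  rw [← ndsla_gupd]
  exact hL.gal g _ _ _ (by rwa [Function.update_self])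

theorem nslG_cov (hS : ∀ i, (S i).IsTree) (L : LP X S) (hL : Cov G L) (x0 : ∀ i, V i) (k : ι)
    (C : A → Prop) (π : A → A) (hC : HSlW X Y k C π) :
    (slG L x0 k C π).IsTree ∧ IsCov G (Function.update S k (slG L x0 k C π)) Y := by
  have hex : ∀ a : A, ∃ x i y, (S i).Adj (x i) y ∧ L.al x i y = a := by
    intro a
    obtain ⟨x, hx⟩ := hL.onto (X.o a)
    obtain ⟨y, h1, h2⟩ := L.sur x (X.ty a) a hx.symm rfl
    exact ⟨x, _, y, h1, h2⟩
  have htyi : ∀ a, X.ty (X.i a) = X.ty a := by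
    intro a
    obtain ⟨x, i, y, h, rfl⟩ := hex a
    rw [← L.inv _ _ _ h, L.ty _ _ _ h, L.ty _ _ _ (by rw [Function.update_self]; exact h.symm)]
  have hii : ∀ a, X.i (X.i a) = a := by
    intro a
    obtain ⟨x, i, y, h, rfl⟩ := hex a
    have h' := L.inv (Function.update x i y) i (x i) (by rw [Function.update_self]; exact h.symm)
    rw [Function.update_idem, Function.update_self, Function.update_eq_self] at h'
    rw [← L.inv _ _ _ h, ← h']
  refine ⟨ndsla_tree hS L x0 k C π hC, ?_⟩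
  obtain ⟨M, hp, ha⟩ := ndsla_lp hS L hii htyi x0 k C π hC
  have hS1 : ∀ i, (S i).Connected := fun i => (hS i).1
  have hgC : ∀ (g : G) {v z : V k}, (S k).Adj v z →
      (C (nal L k (g • v) (g • z) x0) ↔ C (nal L k v z x0)) := by
    intro g v z h
    have h' := hL.adj g k v z h
    rw [← nal_smul hL g h x0]
    exact ⟨ndsla_C hS1 L hC h' _ _, ndsla_C hS1 L hC h' _ _⟩
  have hgO : ∀ (g : G) {a b : V k}, NOld L k C x0 a b → NOld L k C x0 (g • a) (g • b) := by
    rintro g a b ⟨h1, h2, h3⟩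
    exact ⟨hL.adj g _ _ _ h1, fun h => h2 ((hgC g h1).1 h), fun h => h3 ((hgC g h1.symm).1 h)⟩
  have hgT : ∀ (g : G) {a b v : V k}, NTy L k C π x0 a b v →
      NTy L k C π x0 (g • a) (g • b) (g • v) := by
    rintro g a b v ⟨h1, h2, h3, h4⟩
    apply ndsla_T hS1 L hC (fun j => g • x0 j) x0
    refine ⟨hL.adj g _ _ _ h1, hL.adj g _ _ _ h2, ?_, ?_⟩
    · rw [nal_smul hL g h1]; exact h3
    · rw [nal_smul hL g h1, nal_smul hL g h2]; exact h4
  refine ⟨M, ?_, ?_, ?_, hL.free, ?_, ?_⟩
  · intro g i a b hab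
    rcases eq_or_ne i k with rfl | hi
    · rw [Function.update_self] at hab ⊢
      rw [ndsla_adj L hC] at hab ⊢
      rcases hab with h | ⟨v, h⟩ | ⟨v, h⟩
      · exact Or.inl (hgO g h)
      · exact Or.inr (Or.inl ⟨_, hgT g h⟩)
      · exact Or.inr (Or.inr ⟨_, hgT g h⟩)
    · rw [Function.update_of_ne hi] at hab ⊢
      exact hL.adj g _ _ _ hab
  · intro g x
    rw [hp]; exact hL.gp g x
  · intro g x i y hab
    rw [ha]
    rcases eq_or_ne i k with rfl | hi
    · rw [Function.update_self] at hab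
      rw [ndslaM_k, ndslaM_k]
      rw [ndsla_adj L hC] at hab
      rcases hab with h | ⟨v, h⟩ | ⟨v, h⟩
      · rw [ndslaL_1 hS L h, ndslaL_1 hS L (hgO g h), nal_smul hL g h.1]
      · rw [ndslaL_2 hS L hC h, ndslaL_2 hS L hC (hgT g h), nal_smul hL g h.1]
      · rw [ndslaL_3 hS L hC h, ndslaL_3 hS L hC (hgT g h), nal_smul hL g h.1.symm]
    · rw [Function.update_of_ne hi] at hab
      rw [ndslaM_ne _ _ _ _ _ _ hi, ndslaM_ne _ _ _ _ _ _ hi]
      exact hL.gal g _ _ _ hab
  · intro x y e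
    rw [hp] at e
    exact hL.trans x y e
  · intro q
    rw [hp]
    exact hL.onto q

end NDSLA

end LatN
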