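import Pool.Agent.Lib.MP_32d917_al.N.NDSLA

/-!
# Slides of trees give slides of data
-/

set_option autoImplicit false
set_option linter.unusedSectionVars false

namespace LatN

open LatIso

section NDSLB

variable {ι P A : Type} [Fintype ι] [DecidableEq ι] {X Y : Dat ι P A} {G : Type} [Group G]
  {V : ι → Type} [∀ i, MulAction G (V i)] {S : ∀ i, SimpleGraph (V i)}

theorem nal_congr (L : LP X S) (k : ι) (a b : V k) {x x' : ∀ i, V i}
    (h : ∀ i, i ≠ k → x i = x' i) : nal L k a b x = nal L k a b x' := by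
  have e : Function.update x k a = Function.update x' k a := by
    funext j
    rcases eq_or_ne j k with rfl | hj
    · rw [Function.update_self, Function.update_self]
    · rw [Function.update_of_ne hj, Function.update_of_ne hj, h j hj]
  unfold nal
  rw [e]

theorem ndslb_ker {L : LP X S} (hL : Cov G L) {k : ι} {a b a' b' : V k} (h : (S k).Adj a b)
    (h' : (S k).Adj a' b') (x x' : ∀ i, V i) :
    nal L k a b x = nal L k a' b' x' ↔
      ∃ g : G, g • a = a' ∧ g • b = b' ∧ ∀ i, i ≠ k → g • x i = x' i := by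
  constructor
  · intro e
    have hp : L.p (Function.update x k a) = L.p (Function.update x' k a') := by
      rw [← nal_o L h, ← nal_o L h', e]
    obtain ⟨g, hg⟩ := hL.trans _ _ hp
    have h1 : g • a = a' := by
      have := congrFun hg k
      simpa using this
    have h2 : ∀ i, i ≠ k → g • x i = x' i := by
      intro i hi
      have := congrFun hg i
      simpa [Function.update_of_ne hi] using this
    refine ⟨g, h1, ?_, h2⟩
    have h3 : (S k).Adj a' (g • b) := by rw [← h1]; exact hL.adj g _ _ _ h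
    refine nal_inj L h3 h' x' ?_
    rw [← e, ← nal_smul hL g h x, h1]
    exact nal_congr L k _ _ (fun i hi => (h2 i hi).symm)
  · rintro ⟨g, rfl, rfl, h3⟩
    rw [← nal_smul hL g h x]
    exact nal_congr L k _ _ h3

theorem ndslb_tyi {L : LP X S} (hL : Cov G L) (a : A) : X.ty (X.i a) = X.ty a := by
  obtain ⟨x, hx⟩ := hL.onto (X.o a)
  obtain ⟨i, hi⟩ : ∃ i, X.ty a = i := ⟨_, rfl⟩
  obtain ⟨y, h, rfl⟩ := L.sur x i a hx.symm hi
  rw [← L.inv _ _ _ h, L.ty _ _ _ h, L.ty _ _ _ (by rw [Function.update_self]; exact h.symm)]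

open Classical in
/-- the data after a slide -/
noncomputable def ndslbY (X : Dat ι P A) (k : ι) (C : A → Prop) (π : A → A) : Dat ι P A where
  ty := X.ty
  o := fun a => if C a then X.o (X.i (π a)) else X.o a
  i := X.i
  tr := fun a b => if X.ty b = k then
      (if C b then X.tr (X.tr a (X.i (π b))) b else
        if C (X.i b) then X.tr (X.tr a b) (π (X.i b)) else X.tr a b)
    else (if C a then X.tr a (X.tr b (X.i (π a))) else X.tr a b)

/-- (5.6) -/
theorem nhsl_of_slide (hS : ∀ i, (S i).IsTree) (k : ι) (hk : TA G (S k)) (h : IsCov G S X)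
    (S₁ : SimpleGraph (V k)) (hs : Slide G (S k) S₁) :
    ∃ Y : Dat ι P A, HSl X Y ∧ IsCov G (Function.update S k S₁) Y := by
  classical
  obtain ⟨L, hL⟩ := h
  obtain ⟨v, x, u, hx, hu, n1, n2, hst, hadj⟩ := hs
  have hne : ∀ i, Nonempty (V i) := fun i => (hS i).1.nonempty
  set x0 : ∀ i, V i := fun i => Classical.choice (hne i) with hx0
  set C : A → Prop := fun a => ∃ w, nal L k v x w = a with hCdef
  have hex : ∀ a, ∃ b, ∀ w, nal L k v x w = a → nal L k v u w = b := by
    intro a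
    by_cases h : ∃ w, nal L k v x w = a
    · obtain ⟨w, rfl⟩ := h
      refine ⟨nal L k v u w, ?_⟩
      intro w' e
      obtain ⟨g, g1, g2, g3⟩ := (ndslb_ker hL hx hx _ _).1 e
      have g4 := hst g g1 g2
      exact (ndslb_ker hL hu hu _ _).2 ⟨g, g1, g4, g3⟩
    · exact ⟨a, fun w hw => absurd ⟨w, hw⟩ h⟩
  choose π hπ using hex
  have hπ' : ∀ w, π (nal L k v x w) = nal L k v u w := fun w => (hπ _ w rfl).symm
  have hCk : ∀ a, C a → X.ty a = k := by
    rintro a ⟨w, rfl⟩
    exact nal_ty L hx w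
  have hCi : ∀ a, C a → ¬ C (X.i a) := by
    rintro a ⟨w, rfl⟩ ⟨w', e⟩
    rw [← nal_i L hx] at e
    obtain ⟨g, g1, g2, g3⟩ := (ndslb_ker hL hx hx.symm _ _).1 e
    exact hk.noinv g v x hx g1 g2
  have hsur : ∀ w b, X.o (nal L k v x w) = X.o b → X.ty b ≠ k → ∃ (i : ι) (y : V i), i ≠ k ∧
      (S i).Adj (w i) y ∧ L.al (Function.update w k v) i y = b := by
    intro w b hab hb
    rw [nal_o L hx] at hab
    obtain ⟨i, hi⟩ : ∃ i, X.ty b = i := ⟨_, rfl⟩
    rw [hi] at hb
    obtain ⟨y, h1, h2⟩ := L.sur _ i b hab.symm hi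
    rw [Function.update_of_ne hb] at h1
    exact ⟨i, y, hb, h1, h2⟩
  have hC : HSlW X (ndslbY X k C π) k C π := by
    refine ⟨hCk, ?_, hCi, ?_, ?_, fun _ => rfl, fun _ => rfl, ?_, ?_, ?_, ?_, ?_, ?_, ?_, ?_⟩
    · rintro a b hab hb ⟨w, rfl⟩
      obtain ⟨i, y, hi, h1, rfl⟩ := hsur w b hab hb
      exact ⟨_, (nal_tr L hx w hi y h1).symm⟩
    · rintro a ⟨w, rfl⟩
      rw [hπ']
      refine ⟨?_, ?_, ?_, ?_⟩
      · rintro ⟨w', e⟩
        obtain ⟨g, g1, g2, g3⟩ := (ndslb_ker hL hx hu _ _).1 e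
        exact n1 g ⟨g1, g2⟩
      · rintro ⟨w', e⟩
        rw [← nal_i L hu] at e
        obtain ⟨g, g1, g2, g3⟩ := (ndslb_ker hL hx hu.symm _ _).1 e
        exact n2 g ⟨g1, g2⟩
      · rw [nal_o L hx, nal_o L hu]
      · rw [nal_ty L hu]
    · rintro a b hab hb ⟨w, rfl⟩
      obtain ⟨i, y, hi, h1, rfl⟩ := hsur w b hab hb
      rw [nal_tr L hx w hi y h1, hπ', hπ', nal_tr L hu w hi y h1]
    · intro a ha
      exact if_pos ha
    · intro a ha
      exact if_neg ha
    · intro a b ha hb _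
      exact (if_neg hb).trans (if_pos ha)
    · intro a b ha hb _
      exact (if_pos (hCk a ha)).trans (if_pos ha)
    · intro a b _ ha hb _
      exact (if_neg hb).trans (if_neg ha)
    · intro a b ha hb _
      have h2 : ¬ C a := fun c => hCi a c ha
      have h3 : X.ty a = k := by rw [← ndslb_tyi hL a]; exact hCk _ ha
      exact (if_pos h3).trans ((if_neg h2).trans (if_pos ha))
    · intro a b hty ha hb _ _
      exact (if_pos hty).trans ((if_neg ha).trans (if_neg hb))
    · intro a b ha hb _ _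
      exact (if_neg hb).trans (if_neg fun c => ha (hCk a c))
  refine ⟨ndslbY X k C π, ⟨k, C, π, hC⟩, ?_⟩
  have he : S₁ = slG L x0 k C π := by
    have hCC : ∀ a b : V k, (S k).Adj a b →
        (C (nal L k a b x0) ↔ ∃ g : G, g • v = a ∧ g • x = b) := by
      intro a b hab
      constructor
      · rintro ⟨w, e⟩
        obtain ⟨g, g1, g2, g3⟩ := (ndslb_ker hL hx hab _ _).1 e
        exact ⟨g, g1, g2⟩
      · rintro ⟨g, g1, g2⟩
        refine ⟨fun i => g⁻¹ • x0 i, ?_⟩
        rw [ndslb_ker hL hx hab]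
        exact ⟨g, g1, g2, fun i _ => smul_inv_smul g _⟩
    have key : ∀ a b : V k, (∃ z, NTy L k C π x0 a b z) ↔ ∃ g : G, g • u = a ∧ g • x = b := by
      intro a b
      constructor
      · rintro ⟨z, h1, h2, h3, h4⟩
        obtain ⟨w, e⟩ := h3
        obtain ⟨g, g1, g2, g3⟩ := (ndslb_ker hL hx h1 _ _).1 e
        refine ⟨g, ?_, g2⟩
        subst g1 g2
        rw [← e, hπ', ← nal_smul hL g hu w, nal_congr L k _ _ g3] at h4
        exact (nal_inj L h2 (hL.adj g _ _ _ hu) x0 h4).symm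
      · rintro ⟨g, rfl, rfl⟩
        refine ⟨g • v, hL.adj g _ _ _ hx, hL.adj g _ _ _ hu, ?_, ?_⟩
        · rw [hCC _ _ (hL.adj g _ _ _ hx)]
          exact ⟨g, rfl, rfl⟩
        · have e0 : x0 = fun i => g • (g⁻¹ • x0 i) := by
            funext i; rw [smul_inv_smul]
          have e1 : nal L k (g • v) (g • x) x0 = nal L k v x (fun i => g⁻¹ • x0 i) := by
            conv_lhs => rw [e0]
            exact nal_smul hL g hx _
          have e2 : nal L k (g • v) (g • u) x0 = nal L k v u (fun i => g⁻¹ • x0 i) := by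
            conv_lhs => rw [e0]
            exact nal_smul hL g hu _
          rw [e1, e2, hπ']
    ext a b
    rw [hadj a b, ndsla_adj L hC, key a b, key b a]
    constructor
    · rintro (⟨h1, h2⟩ | ⟨g, h | h⟩)
      · refine Or.inl ⟨h1, ?_, ?_⟩
        · rw [hCC a b h1]
          rintro ⟨g, hg⟩
          exact (h2 g).1 hg
        · rw [hCC b a h1.symm]
          rintro ⟨g, hg⟩
          exact (h2 g).2 hg
      · exact Or.inr (Or.inl ⟨g, h⟩)
      · exact Or.inr (Or.inr ⟨g, h⟩)
    · rintro (⟨h1, h2, h3⟩ | ⟨g, h⟩ | ⟨g, h⟩)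
      · refine Or.inl ⟨h1, fun g => ⟨fun hg => h2 ?_, fun hg => h3 ?_⟩⟩
        · rw [hCC a b h1]; exact ⟨g, hg⟩
        · rw [hCC b a h1.symm]; exact ⟨g, hg⟩
      · exact Or.inr ⟨g, Or.inl h⟩
      · exact Or.inr ⟨g, Or.inr h⟩
  rw [he]
  exact (nslG_cov hS L hL x0 k C π hC).2

theorem nhasCov_hsl (h : HasCov G X) (hs : HSl X Y) : HasCov G Y := by
  classical
  obtain ⟨V, i1, S, hS, L, hL⟩ := h
  obtain ⟨k, C, π, hC⟩ := hs
  have hne : ∀ i, Nonempty (V i) := fun i => (hS i).1.nonempty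
  obtain ⟨h1, h2⟩ := nslG_cov hS L hL (fun i => Classical.choice (hne i)) k C π hC
  refine ⟨V, i1, _, ?_, h2⟩
  intro i
  rcases eq_or_ne i k with rfl | hi
  · rw [Function.update_self]; exact h1
  · rw [Function.update_of_ne hi]; exact hS i

end NDSLB

end LatN
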