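import Pool.Agent.Lib.MP_32d917_al.NDefs
import Pool.Agent.Lib.MP_32d917_al.UC

/-!
# The universal cover in one direction
-/

set_option autoImplicit false

namespace LatN

open LatIso

section NLEX

variable {ι P A : Type} [Fintype ι] [DecidableEq ι] {X : Dat ι P A}

theorem NLEX1_tree : (⊥ : SimpleGraph Unit).IsTree := by
  refine ⟨?_, SimpleGraph.isAcyclic_bot⟩
  refine SimpleGraph.Connected.mk ?_
  intro x y
  exact SimpleGraph.Reachable.refl _

theorem nuc_exists [Nonempty A] (hX : Valid X) (k : ι) (p0 : P) :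
    ∃ (V : Type) (S : SimpleGraph V) (v0 : V) (q : V → P) (al : V → V → A), S.IsTree ∧
      q v0 = p0 ∧ HCv X k S q al := by
  by_cases hne : Nonempty {a : A // X.ty a = k}
  · obtain ⟨V, S, v0, q, al, hS, h1, h2, h3, h4, h5⟩ :=
      uc_exists (A := {a : A // X.ty a = k}) (fun a => X.o a.1)
        (fun a => ⟨X.i a.1, (hX.tyi a.1).trans a.2⟩)
        (fun a => Subtype.ext (hX.ii a.1)) p0
    refine ⟨V, S, v0, q, fun v v' => (al v v').1, hS, h1, ?_⟩
    constructor
    · intro v v' _
      exact (al v v').2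
    · intro v v' h
      exact h2 v v' h
    · intro v v' h
      exact congrArg Subtype.val (h3 v v' h)
    · intro v x y hx hy h
      exact h4 v x y hx hy (Subtype.ext h)
    · intro v a ha hk
      obtain ⟨v', h, h'⟩ := h5 v ⟨a, hk⟩ ha
      exact ⟨v', h, congrArg Subtype.val h'⟩
  · obtain ⟨a0⟩ := ‹Nonempty A›
    refine ⟨Unit, ⊥, (), fun _ => p0, fun _ _ => a0, NLEX1_tree, rfl, ?_⟩
    constructor
    · intro v v' h
      exact absurd h (by simp)
    · intro v v' h
      exact absurd h (by simp)
    · intro v v' h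
      exact absurd h (by simp)
    · intro v x y h
      exact absurd h (by simp)
    · intro v a _ hk
      exact absurd ⟨⟨a, hk⟩⟩ hne

end NLEX

end LatN
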