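import Pool.Agent.Lib.MP_32d917_al.NDefs

/-!
# Transport of coverings
-/

set_option autoImplicit false
set_option linter.unusedSectionVars false

namespace LatN

open LatIso

section NQISO

variable {ι P A P' A' : Type} [Fintype ι] [DecidableEq ι] {X : Dat ι P A} {Y : Dat ι P' A'}
  {G : Type} [Group G] {V : ι → Type} [∀ i, MulAction G (V i)] {S : ∀ i, SimpleGraph (V i)}

/-- change of the index set -/
def relab {ι κ P A : Type} (σ : ι ≃ κ) (Z : Dat κ P A) : Dat ι P A where
  ty := fun a => σ.symm (Z.ty a)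
  o := Z.o
  i := Z.i
  tr := Z.tr

theorem relab_iso {ι κ P A : Type} (σ : ι ≃ κ) (Z : Dat κ P A) : Iso (relab σ Z) Z := by
  refine ⟨σ, Equiv.refl P, Equiv.refl A, ?_, ?_, ?_, ?_⟩
  · intro a
    show Z.ty a = σ (σ.symm (Z.ty a))
    rw [Equiv.apply_symm_apply]
  · intro a
    rfl
  · intro a
    rfl
  · intro a b _ _
    rfl

/-- the point of the second product -/
def nqPt {ι κ : Type} {V : ι → Type} {V' : κ → Type} (σ : ι ≃ κ) (φ : ∀ i, V i ≃ V' (σ i))
    (x : ∀ i, V i) : ∀ k, V' k :=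
  Equiv.piCongrLeft V' σ (fun i => φ i (x i))

theorem nqPt_apply {ι κ : Type} {V : ι → Type} {V' : κ → Type} (σ : ι ≃ κ)
    (φ : ∀ i, V i ≃ V' (σ i)) (x : ∀ i, V i) (i : ι) : nqPt σ φ x (σ i) = φ i (x i) := by
  unfold nqPt
  exact Equiv.piCongrLeft_apply_apply V' σ _ i

theorem nqPt_ext {ι κ : Type} {V' : κ → Type} (σ : ι ≃ κ) (x y : ∀ k, V' k)
    (h : ∀ i, x (σ i) = y (σ i)) : x = y := by
  funext k
  obtain ⟨i, rfl⟩ := σ.surjective k
  exact h i

theorem nqPt_inj {ι κ : Type} {V : ι → Type} {V' : κ → Type} (σ : ι ≃ κ)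
    (φ : ∀ i, V i ≃ V' (σ i)) (x y : ∀ i, V i) (h : nqPt σ φ x = nqPt σ φ y) : x = y := by
  funext i
  apply (φ i).injective
  rw [← nqPt_apply, ← nqPt_apply, h]

theorem nqPt_sur {ι κ : Type} {V : ι → Type} {V' : κ → Type} (σ : ι ≃ κ)
    (φ : ∀ i, V i ≃ V' (σ i)) (y : ∀ k, V' k) : ∃ x, nqPt σ φ x = y := by
  refine ⟨fun i => (φ i).symm (y (σ i)), ?_⟩
  apply nqPt_ext σ
  intro i
  rw [nqPt_apply, Equiv.apply_symm_apply]

theorem nqPt_upd {ι κ : Type} [DecidableEq ι] [DecidableEq κ] {V : ι → Type} {V' : κ → Type}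
    (σ : ι ≃ κ) (φ : ∀ i, V i ≃ V' (σ i)) (x : ∀ i, V i) (i : ι) (y : V i) :
    nqPt σ φ (Function.update x i y) = Function.update (nqPt σ φ x) (σ i) (φ i y) := by
  apply nqPt_ext σ
  intro j
  rw [nqPt_apply]
  rcases eq_or_ne j i with rfl | h
  · rw [Function.update_self, Function.update_self]
  · rw [Function.update_of_ne h, Function.update_of_ne (fun e => h (σ.injective e)), nqPt_apply]

theorem nqPt_smul {ι κ : Type} {V : ι → Type} {V' : κ → Type} [∀ i, MulAction G (V i)]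
    [∀ i, MulAction G (V' i)] (σ : ι ≃ κ) (φ : ∀ i, V i ≃ V' (σ i))
    (hφ : ∀ i (g : G) (v : V i), φ i (g • v) = g • φ i v) (g : G) (x : ∀ i, V i) :
    nqPt σ φ (fun i => g • x i) = fun k => g • nqPt σ φ x k := by
  apply nqPt_ext σ
  intro i
  rw [nqPt_apply, nqPt_apply, hφ]

/-- transport along a permutation of the factors and equivariant bijections -/
theorem nq_relab {κ : Type} [Fintype κ] [DecidableEq κ] {V' : κ → Type}
    [∀ i, MulAction G (V' i)] {S' : ∀ i, SimpleGraph (V' i)} {P₂ A₂ : Type} {Z : Dat κ P₂ A₂}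
    (σ : ι ≃ κ) (φ : ∀ i, V i ≃ V' (σ i)) (hφ : ∀ i (g : G) (v : V i), φ i (g • v) = g • φ i v)
    (h : IsCov G S' Z) : IsCov G (fun i => (S' (σ i)).comap (φ i)) (relab σ Z) := by
  obtain ⟨L, hL⟩ := h
  have hadj : ∀ (x : ∀ i, V i) i y, ((S' (σ i)).comap (φ i)).Adj (x i) y →
      (S' (σ i)).Adj (nqPt σ φ x (σ i)) (φ i y) := by
    intro x i y h
    rw [nqPt_apply]
    exact h
  refine ⟨{ p := fun x => L.p (nqPt σ φ x)
            al := fun x i y => L.al (nqPt σ φ x) (σ i) (φ i y)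
            ty := ?_
            o := ?_
            inv := ?_
            tr := ?_
            inj := ?_
            sur := ?_ }, ?_⟩
  · intro x i y h
    show σ.symm (Z.ty _) = i
    rw [L.ty _ _ _ (hadj x i y h), Equiv.symm_apply_apply]
  · intro x i y h
    exact L.o _ _ _ (hadj x i y h)
  · intro x i y h
    show L.al (nqPt σ φ (Function.update x i y)) (σ i) (φ i (x i)) = Z.i (L.al _ _ _)
    rw [nqPt_upd, ← L.inv _ _ _ (hadj x i y h), nqPt_apply]
  · intro x i y j z hij hy hz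
    show Z.tr (L.al _ _ _) (L.al _ _ _) = L.al (nqPt σ φ (Function.update x j z)) (σ i) (φ i y)
    rw [nqPt_upd, L.tr _ _ _ _ _ (fun e => hij (σ.injective e)) (hadj x i y hy) (hadj x j z hz)]
  · intro x i y z hy hz e
    exact (φ i).injective (L.inj _ _ _ _ (hadj x i y hy) (hadj x i z hz) e)
  · intro x i a ha hta
    have hta' : Z.ty a = σ i := by
      have : σ.symm (Z.ty a) = i := hta
      rw [← this, Equiv.apply_symm_apply]
    obtain ⟨y, h1, h2⟩ := L.sur (nqPt σ φ x) (σ i) a ha hta'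
    refine ⟨(φ i).symm y, ?_, ?_⟩
    · show (S' (σ i)).Adj (φ i (x i)) (φ i ((φ i).symm y))
      rw [Equiv.apply_symm_apply, ← nqPt_apply σ φ x i]
      exact h1
    · show L.al (nqPt σ φ x) (σ i) (φ i ((φ i).symm y)) = a
      rw [Equiv.apply_symm_apply]
      exact h2
  · refine { adj := ?_, gp := ?_, gal := ?_, free := ?_, trans := ?_, onto := ?_ }
    · intro g i x y h
      show (S' (σ i)).Adj (φ i (g • x)) (φ i (g • y))
      rw [hφ, hφ]
      exact hL.adj g _ _ _ h
    · intro g x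
      show L.p (nqPt σ φ (fun j => g • x j)) = L.p (nqPt σ φ x)
      rw [nqPt_smul σ φ hφ]
      exact hL.gp g _
    · intro g x i y h
      show L.al (nqPt σ φ (fun j => g • x j)) (σ i) (φ i (g • y)) = L.al (nqPt σ φ x) (σ i) (φ i y)
      rw [nqPt_smul σ φ hφ, hφ]
      exact hL.gal g _ _ _ (hadj x i y h)
    · intro g x h
      refine hL.free g (nqPt σ φ x) ?_
      intro k
      obtain ⟨i, rfl⟩ := σ.surjective k
      rw [nqPt_apply, ← hφ, h i]
    · intro x y h
      obtain ⟨g, hg⟩ := hL.trans _ _ h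
      refine ⟨g, ?_⟩
      apply nqPt_inj σ φ
      rw [nqPt_smul σ φ hφ]
      exact hg
    · intro q
      obtain ⟨y, hy⟩ := hL.onto q
      obtain ⟨x, rfl⟩ := nqPt_sur σ φ y
      exact ⟨x, hy⟩

/-- transport along an isomorphism of data which fixes the types -/
theorem nq_iso (f : P ≃ P') (g : A ≃ A') (h1 : ∀ a, Y.ty (g a) = X.ty a)
    (h2 : ∀ a, Y.o (g a) = f (X.o a)) (h3 : ∀ a, Y.i (g a) = g (X.i a))
    (h4 : ∀ a b, X.o a = X.o b → X.ty a ≠ X.ty b → Y.tr (g a) (g b) = g (X.tr a b))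
    (h : IsCov G S X) : IsCov G S Y := by
  obtain ⟨L, hL⟩ := h
  refine ⟨{ p := fun x => f (L.p x)
            al := fun x i y => g (L.al x i y)
            ty := ?_
            o := ?_
            inv := ?_
            tr := ?_
            inj := ?_
            sur := ?_ }, ?_⟩
  · intro x i y h
    rw [h1, L.ty _ _ _ h]
  · intro x i y h
    rw [h2, L.o _ _ _ h]
  · intro x i y h
    rw [h3, L.inv _ _ _ h]
  · intro x i y j z hij hy hz
    rw [h4, L.tr _ _ _ _ _ hij hy hz]
    · rw [L.o _ _ _ hy, L.o _ _ _ hz]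
    · rw [L.ty _ _ _ hy, L.ty _ _ _ hz]
      exact hij
  · intro x i y z hy hz e
    exact L.inj _ _ _ _ hy hz (g.injective e)
  · intro x i a ha hta
    obtain ⟨a, rfl⟩ := g.surjective a
    rw [h2] at ha
    rw [h1] at hta
    obtain ⟨y, k1, k2⟩ := L.sur x i a (f.injective ha) hta
    exact ⟨y, k1, by rw [k2]⟩
  · refine { adj := hL.adj, gp := ?_, gal := ?_, free := hL.free, trans := ?_, onto := ?_ }
    · intro γ x
      show f _ = f _
      rw [hL.gp]
    · intro γ x i y h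
      show g _ = g _
      rw [hL.gal _ _ _ _ h]
    · intro x y e
      exact hL.trans _ _ (f.injective e)
    · intro q
      obtain ⟨x, hx⟩ := hL.onto (f.symm q)
      refine ⟨x, ?_⟩
      show f (L.p x) = q
      rw [hx, Equiv.apply_symm_apply]

/-- transport along an isomorphism of data -/
theorem nhasCov_iso {κ P₂ A₂ : Type} [Fintype κ] [DecidableEq κ] {Z : Dat κ P₂ A₂}
    (e : Iso X Z) (h : HasCov G X) : HasCov G Z := by
  obtain ⟨σ, f, g, h1, h2, h3, h4⟩ := e
  obtain ⟨V, i1, S, hS, h⟩ := h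
  have k := nq_relab (V := fun k => V (σ.symm k)) σ.symm (fun k => Equiv.refl (V (σ.symm k)))
    (fun _ _ _ => rfl) h
  refine ⟨fun k => V (σ.symm k), fun k => i1 (σ.symm k),
    fun k => (S (σ.symm k)).comap (Equiv.refl (V (σ.symm k))), ?_, ?_⟩
  · intro k
    exact (SimpleGraph.Iso.isTree_iff (SimpleGraph.Iso.comap (Equiv.refl _) _)).2 (hS _)
  · refine nq_iso f g ?_ h2 h3 ?_ k
    · intro a
      show Z.ty (g a) = σ.symm.symm (X.ty a)
      rw [h1]
      rfl
    · intro a b hab hty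
      refine h4 a b hab ?_
      intro e
      apply hty
      show σ.symm.symm (X.ty a) = σ.symm.symm (X.ty b)
      rw [e]

/-- transport along a group isomorphism -/
theorem nhasCov_transport {G' : Type} [Group G'] (e : G' ≃* G) (h : HasCov G X) :
    HasCov G' X := by
  obtain ⟨V, i1, S, hS, L, hL⟩ := h
  let j1 : ∀ i, MulAction G' (V i) := fun i => MulAction.compHom (V i) e.toMonoidHom
  refine ⟨V, j1, S, hS, L, ?_⟩
  refine { adj := ?_, gp := ?_, gal := ?_, free := ?_, trans := ?_, onto := hL.onto }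
  · intro g i x y h
    exact hL.adj (e g) i x y h
  · intro g x
    exact hL.gp (e g) x
  · intro g x i y h
    exact hL.gal (e g) x i y h
  · intro g x h
    have h5 := hL.free (e g) x h
    exact e.injective (h5.trans (map_one e).symm)
  · intro x y h
    obtain ⟨g, hg⟩ := hL.trans x y h
    obtain ⟨g', rfl⟩ := e.surjective g
    exact ⟨g', hg⟩

/-- transport along a permutation of the factors and equivariant bijections -/
theorem ncov_transport {κ : Type} [Fintype κ] [DecidableEq κ] {V' : κ → Type}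
    [∀ i, MulAction G (V' i)] {S' : ∀ i, SimpleGraph (V' i)} {P₂ A₂ : Type} {Z : Dat κ P₂ A₂}
    (σ : ι ≃ κ) (φ : ∀ i, V i ≃ V' (σ i)) (hφ : ∀ i (g : G) (v : V i), φ i (g • v) = g • φ i v)
    (h : IsCov G S' Z) : ∃ Z' : Dat ι P₂ A₂, Iso Z' Z ∧
      IsCov G (fun i => (S' (σ i)).comap (φ i)) Z' :=
  ⟨relab σ Z, relab_iso σ Z, nq_relab σ φ hφ h⟩

end NQISO

end LatN
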