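import Pool.Agent.Lib.MP_32d917_al.SLT
import Pool.Agent.Lib.MP_32d917_al.N.NS1
import Pool.Agent.Lib.MP_32d917_al.N.NS3
import Pool.Agent.Lib.MP_32d917_al.N.NS4
import Pool.Agent.Lib.MP_32d917_al.N.NCINV
import Pool.Agent.Lib.MP_32d917_al.N.NCOMM
import Pool.Agent.Lib.MP_32d917_al.N.NDSLB
import Pool.Agent.Lib.MP_32d917_al.N.NQISO1
import Pool.Agent.Lib.MP_32d917_al.N.NQISO2

/-!
# Rigidity: two reduced actions as a lattice on products of trees differ by slides
-/

set_option autoImplicit false

namespace LatN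

open LatIso

variable {G : Type} [Group G] {ι κ : Type} [Fintype ι] [DecidableEq ι] [Fintype κ]
  [DecidableEq κ] {V : ι → Type} [∀ i, MulAction G (V i)] {S : ∀ i, SimpleGraph (V i)}
  {V' : κ → Type} [∀ i, MulAction G (V' i)] {S' : ∀ i, SimpleGraph (V' i)} {P A P' A' : Type}
  {X : Dat ι P A} {X' : Dat κ P' A'}

theorem nchain (hS : ∀ i, (S i).IsTree) (k : ι) (hk : TA G (S k)) (h : IsCov G S X)
    {R : SimpleGraph (V k)} (hs : Relation.ReflTransGen (Slide G) (S k) R) :
    ∃ X1 : Dat ι P A, Relation.ReflTransGen HSl X X1 ∧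
      IsCov G (Function.update S k R) X1 ∧ TA G R := by
  induction hs with
  | refl =>
    refine ⟨X, .refl, ?_, hk⟩
    rw [Function.update_eq_self]
    exact h
  | @tail R R' _ hs ih =>
    obtain ⟨X1, h1, h2, h3⟩ := ih
    have hS' : ∀ i, (Function.update S k R i).IsTree := by
      intro i
      by_cases hi : i = k
      · subst hi
        rw [Function.update_self]
        exact h3.tree
      · rw [Function.update_of_ne hi]
        exact hS i
    have h3' : TA G (Function.update S k R k) := by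
      rw [Function.update_self]
      exact h3
    have hs' : Slide G (Function.update S k R k) R' := by
      rw [Function.update_self]
      exact hs
    obtain ⟨Y, h4, h5⟩ := nhsl_of_slide hS' k h3' h2 R' hs'
    refine ⟨Y, h1.tail h4, ?_, slide_ta h3 hs⟩
    rw [Function.update_idem] at h5
    exact h5

theorem nrig_aux {S₁ : ∀ i, SimpleGraph (V i)} (L : ∀ i, TLat G (S i)) (L₁ : ∀ i, TLat G (S₁ i))
    (h : IsCov G S X) (J : Finset ι) :
    ∃ X1 : Dat ι P A, Relation.ReflTransGen HSl X X1 ∧
      IsCov G (fun i => if i ∈ J then S₁ i else S i) X1 := by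
  induction J using Finset.induction_on with
  | empty => exact ⟨X, .refl, by simpa using h⟩
  | @insert k J hk ih =>
    obtain ⟨X1, h1, h2⟩ := ih
    have hT : ∀ i, (if i ∈ J then S₁ i else S i).IsTree := by
      intro i
      split_ifs
      · exact (L₁ i).ta.tree
      · exact (L i).ta.tree
    have hk' : (if k ∈ J then S₁ k else S k) = S k := by simp [hk]
    have h3 : TA G (if k ∈ J then S₁ k else S k) := by
      rw [hk']
      exact (L k).ta
    have h4 : Relation.ReflTransGen (Slide G) (if k ∈ J then S₁ k else S k) (S₁ k) := by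
      rw [hk']
      exact tniel (L k) (L₁ k)
    obtain ⟨X2, h5, h6, _⟩ := nchain (S := fun i => if i ∈ J then S₁ i else S i) hT k h3 h2 h4
    refine ⟨X2, h1.trans h5, ?_⟩
    have h7 : Function.update (fun i => if i ∈ J then S₁ i else S i) k (S₁ k) =
        fun i => if i ∈ insert k J then S₁ i else S i := by
      funext i
      by_cases hi : i = k
      · subst hi
        simp
      · rw [Function.update_of_ne hi]
        simp [hi]
    rw [h7] at h6
    exact h6

theorem nrig (L : NLat G S) (L' : NLat G S') (hS : ∀ i, Red G (S i)) (hS' : ∀ i, Red G (S' i))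
    (h : IsCov G S X) (h' : IsCov G S' X') :
    ∃ X1 : Dat ι P A, Relation.ReflTransGen HSl X X1 ∧ Iso X1 X' := by
  obtain ⟨σ, hσ⟩ := ncomm L L'
  have hφ : ∀ i, ∃ φ : V i ≃ V' (σ i), ∀ (g : G) (v : V i), φ (g • v) = g • φ v := fun i =>
    tvset (nlat_tlat L i) (nlat_tlat L' (σ i)) (hS i) (hS' (σ i)) (hσ i).1 (hσ i).2
  choose φ hφ using hφ
  have L₁ : ∀ i, TLat G ((S' (σ i)).comap (φ i)) := fun i =>
    tlat_transport (nlat_tlat L' (σ i)) (φ i) (hφ i)
  obtain ⟨Z, hZ, hZ'⟩ := ncov_transport σ φ hφ h'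
  obtain ⟨X1, h1, h2⟩ := nrig_aux (S₁ := fun i => (S' (σ i)).comap (φ i)) (nlat_tlat L) L₁ h
    Finset.univ
  simp only [Finset.mem_univ, if_true] at h2
  exact ⟨X1, h1, niso_trans (ncov_iso h2 hZ') hZ⟩

end LatN
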